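import Pool.Agent.Lib.MP_6fc7a0_al.Sample1

/-! Existence of a good sample of points of the cube. -/

namespace Pool.Agent.Lib.MP_6fc7a0_al

open Finset Filter Topology

/-- Variables: a type, a side, and a copy number. -/
abbrev Var (J : Type) (m : ℕ) := J × Bool × Fin m

/-- The variables of type `j` on side `σ`. -/
def side {J : Type} (m : ℕ) (j : J) (σ : Bool) : Finset (Var J m) :=
  {j} ×ˢ {σ} ×ˢ univ

lemma mem_side {J : Type} {m : ℕ} {j : J} {σ : Bool} {s : Var J m} :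
    s ∈ side m j σ ↔ s.1 = j ∧ s.2.1 = σ := by
  obtain ⟨a, b, c⟩ := s
  simp only [side, mem_product, mem_singleton, mem_univ, and_true]

lemma card_side {J : Type} (m : ℕ) (j : J) (σ : Bool) : (side m j σ).card = m := by
  simp [side]

/-- Transposition of an incidence structure. -/
def tr (ι V : Type) [Fintype V] [DecidableEq V] [Fintype ι] [DecidableEq ι] :
    (ι → Finset V) ≃ (V → Finset ι) where
  toFun e s := univ.filter fun i => s ∈ e i
  invFun ω i := univ.filter fun s => i ∈ ω s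
  left_inv e := by funext i; ext s; simp
  right_inv ω := by funext s; ext i; simp

section
variable {V ι : Type} [Fintype V] [DecidableEq V] [Fintype ι] [DecidableEq ι]

lemma mem_tr {e : ι → Finset V} {s : V} {i : ι} : i ∈ tr ι V e s ↔ s ∈ e i := by simp [tr]

lemma mem_tr_symm {ω : V → Finset ι} {s : V} {i : ι} : s ∈ (tr ι V).symm ω i ↔ i ∈ ω s := by
  simp [tr]

lemma subset_update {ω : V → Finset ι} {s : V} {b : Finset ι} {T : Finset V} (hT : s ∉ T) (i : ι) :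
    T ⊆ (tr ι V).symm (Function.update ω s b) i ↔ T ⊆ (tr ι V).symm ω i := by
  refine forall₂_congr fun x hx => ?_
  have : x ≠ s := by rintro rfl; exact hT hx
  rw [mem_tr_symm, mem_tr_symm, Function.update_of_ne this]

lemma colour_bound (p : ℕ) (R : Finset V) (κ : ℕ) (P J₀ : Finset ι) (hJ : J₀ ⊆ P)
    (Λ : AddSubgroup (ι → ℤ)) (hΛ : ∀ i ∈ J₀, Pi.single i 1 ∉ Λ)
    (r : ℕ) (hr : ∀ n : ι → ℤ, (p : ℤ) ^ r • n ∈ Λ) (U : Finset V) (hU : Disjoint U R)
    (s₀ : V) (hs₀ : s₀ ∉ U) :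
    pr (fun e : ι → Finset V => (∀ i ∈ P, ∃ c : Finset V → ℤ,
        (∀ i' ∈ P.erase i, (p : ℤ) ∣ comb R κ c (e i')) ∧ (p : ℤ) ∣ comb R κ c (e i) - 1) ∧
      ∀ s ∈ U, ∀ T ∈ R.powersetCard κ, vec e T (tr ι V e s) - vec e T (tr ι V e s₀) ∈ Λ) ≤
      ((1 / 2 : ℝ) ^ J₀.card) ^ U.card := by
  let Q : (V → Finset ι) → Finset ι → Prop := fun ω b =>
    (∀ i ∈ P, ∃ c : Finset V → ℤ,
        (∀ i' ∈ P.erase i, (p : ℤ) ∣ comb R κ c ((tr ι V).symm ω i')) ∧
          (p : ℤ) ∣ comb R κ c ((tr ι V).symm ω i) - 1) ∧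
      ∀ T ∈ R.powersetCard κ, vec ((tr ι V).symm ω) T b - vec ((tr ι V).symm ω) T (ω s₀) ∈ Λ
  have h1 := pr_forall U (fun _ => Q) ((1 / 2 : ℝ) ^ J₀.card) (by positivity) ?_ ?_
  · rw [← pr_equiv (tr ι V)] at h1
    refine le_trans (pr_mono fun e he s hs => ?_) h1
    simp only [Q, Equiv.symm_apply_apply]
    exact ⟨he.1, he.2 s hs⟩
  · intro _ _ s hs ω b b'
    have hsR : s ∉ R := disjoint_left.1 hU hs
    have hT : ∀ T ∈ R.powersetCard κ, s ∉ T := fun T hT h => hsR ((mem_powersetCard.1 hT).1 h)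
    have hc : ∀ c i, comb R κ c ((tr ι V).symm (Function.update ω s b') i) =
        comb R κ c ((tr ι V).symm ω i) := by
      intro c i
      refine sum_congr rfl fun T hT' => ?_
      simp only [subset_update (hT T hT')]
    have hv : ∀ T ∈ R.powersetCard κ, ∀ b, vec ((tr ι V).symm (Function.update ω s b')) T b =
        vec ((tr ι V).symm ω) T b := by
      intro T hT' b
      funext i
      simp only [vec, subset_update (hT T hT')]
    have hne : s₀ ≠ s := by rintro rfl; exact hs₀ hs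
    simp only [Q, hc, Function.update_of_ne hne]
    refine and_congr Iff.rfl (forall₂_congr fun T hT' => ?_)
    rw [hv T hT', hv T hT']
  · intro _ _ ω
    by_cases h : ∀ i ∈ P, ∃ c : Finset V → ℤ,
        (∀ i' ∈ P.erase i, (p : ℤ) ∣ comb R κ c ((tr ι V).symm ω i')) ∧
          (p : ℤ) ∣ comb R κ c ((tr ι V).symm ω i) - 1
    · exact le_trans (pr_mono fun b hb => hb.2)
        (column_bound p R κ _ P J₀ hJ h Λ hΛ r hr (ω s₀))
    · rw [pr_false fun b hb => h hb.1]; positivity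

end

lemma ev_small (c : ℝ) (k : ℕ) (θ : ℝ) (h0 : 0 ≤ θ) (h1 : θ < 1) (ε : ℝ) (hε : 0 < ε) :
    ∀ᶠ v : ℕ in atTop, c * ((v : ℝ) ^ k * θ ^ v) < ε := by
  have := (tendsto_pow_const_mul_const_pow_of_abs_lt_one k
    (show |θ| < 1 by rwa [abs_of_nonneg h0])).const_mul c
  rw [mul_zero] at this
  exact this.eventually (gt_mem_nhds hε)

lemma half_bound (D : ℕ) : (1 - (1 / 2 : ℝ) ^ D) ^ (2 ^ D) ≤ 1 / 2 := by
  have h1 := Real.one_sub_div_pow_le_exp_neg (n := 2 ^ D) (t := 1)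
    (by exact_mod_cast Nat.one_le_two_pow)
  have h2 : Real.exp (-1) ≤ 1 / 2 := by
    rw [Real.exp_neg, one_div]
    apply inv_anti₀ (by norm_num)
    linarith [Real.add_one_le_exp 1]
  refine le_trans (le_of_eq ?_) (h1.trans h2)
  push_cast
  rw [one_div_pow]

lemma choose_lower (d y κ : ℕ) (hd : 1 ≤ d) (hy : 2 * κ ≤ y) (hy1 : 1 ≤ y) :
    (8 * d * y + 1) ^ κ ≤ (18 * d) ^ κ * κ.factorial * y.choose κ := by
  have h1 := Nat.pow_le_choose (α := ℝ) κ y
  rw [div_le_iff₀ (by positivity)] at h1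
  have h2 : (y + 1 - κ) ^ κ ≤ y.choose κ * κ.factorial := by exact_mod_cast h1
  have h3 : 8 * d * y + 1 ≤ 18 * d * (y + 1 - κ) := by
    have : y ≤ 2 * (y + 1 - κ) := by omega
    nlinarith [Nat.mul_le_mul hd hy1, Nat.mul_le_mul_left (9 * d) this]
  calc (8 * d * y + 1) ^ κ ≤ (18 * d * (y + 1 - κ)) ^ κ := Nat.pow_le_pow_left h3 _
    _ = (18 * d) ^ κ * (y + 1 - κ) ^ κ := mul_pow _ _ _
    _ ≤ (18 * d) ^ κ * (y.choose κ * κ.factorial) := Nat.mul_le_mul_left _ h2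
    _ = _ := by ring

theorem exists_sample (p : ℕ) [Fact p.Prime] (J : Type) [Fintype J] [DecidableEq J] [Nonempty J]
    (Γ : Type) [Fintype Γ] [DecidableEq Γ] (g₀ : Γ) (κ D b r : ℕ) :
    ∃ (m : ℕ) (ι : Type) (_ : Fintype ι) (_ : DecidableEq ι) (i₁ : ι) (s₀ : ℕ),
      ∀ 𝓧 : Finset (Finset (Finset (Var J m))),
        𝓧.card ≤ 2 ^ (b * (Fintype.card (Var J m) + 1) ^ κ) →
        (∀ X ∈ 𝓧, (1 / 2 : ℝ) ^ D ≤ pr fun e => e ∈ X) →
      ∀ Λ : (ι → Γ) → AddSubgroup (ι → ℤ), ∃ e : ι → Finset (Var J m),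
        (∀ X ∈ 𝓧, ∃ i, e i ∈ X) ∧
        (∀ (j' j : J) (χ : Var J m → Γ) (a : ι → Γ), (∀ i, a i ≠ g₀ → Pi.single i 1 ∉ Λ a) →
          (∃ t : ℕ, ∀ n : ι → ℤ, (p : ℤ) ^ t • n ∈ Λ a) →
          (∀ s ∈ side m j true, ∀ s' ∈ side m j true, χ s = χ s' →
            ∀ T ∈ (side m j' false).powersetCard κ,
              vec e T (tr ι _ e s) - vec e T (tr ι _ e s') ∈ Λ a) →
          (univ.filter fun i => a i ≠ g₀).card ≤ s₀) ∧
        (∀ I : Finset ι, I.card ≤ r * s₀ → i₁ ∉ I → ∀ j, ∃ s : Var J m,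
          s.1 = j ∧ s ∈ e i₁ ∧ ∀ i ∈ I, s ∉ e i) := by
  classical
  obtain ⟨d, hd⟩ : ∃ d, d = Fintype.card J := ⟨_, rfl⟩
  obtain ⟨g, hg⟩ : ∃ g, g = Fintype.card Γ := ⟨_, rfl⟩
  have hd1 : 1 ≤ d := hd ▸ Fintype.card_pos
  have hg1 : 1 ≤ g := by haveI : Nonempty Γ := ⟨g₀⟩; exact hg ▸ Fintype.card_pos
  obtain ⟨C₁, hC₁⟩ : ∃ C₁, C₁ = (18 * d) ^ κ * κ.factorial := ⟨_, rfl⟩
  obtain ⟨C, hC⟩ : ∃ C, C = 2 ^ D * (b * C₁ + 3) := ⟨_, rfl⟩
  have hC1 : 1 ≤ C := by rw [hC]; exact Nat.mul_pos (by positivity) (by omega)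
  obtain ⟨s₀, hs₀⟩ : ∃ s₀, s₀ = 16 * d * g * C := ⟨_, rfl⟩
  obtain ⟨C₂, hC₂⟩ : ∃ C₂, C₂ = C * (g * C) ^ κ := ⟨_, rfl⟩
  obtain ⟨θ, hθ⟩ : ∃ θ : ℝ, θ = 1 - (1 / 2) ^ (r * s₀ + 1) := ⟨_, rfl⟩
  have hθ0 : 0 ≤ θ := by
    rw [hθ, sub_nonneg]; exact pow_le_one₀ (by norm_num) (by norm_num)
  have hθ1 : θ < 1 := by rw [hθ]; have : (0 : ℝ) < (1 / 2) ^ (r * s₀ + 1) := by positivity
                         linarith
  obtain ⟨v, hv1, hv2, hv3, hv4, hv5⟩ := ((eventually_ge_atTop (2 * κ + 1)).and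
    ((ev_small (C₂ * g) κ (1 / 2) (by norm_num) (by norm_num) 1 one_pos).and
    ((ev_small (3 * d * (8 * d * g * C)) 1 (1 / 2) (by norm_num) (by norm_num) (1 / 4)
      (by norm_num)).and
    ((ev_small (d * C₂) κ (81 / 128) (by norm_num) (by norm_num) (1 / 4) (by norm_num)).and
    (ev_small (d * (C₂ + 1) ^ (r * s₀)) (κ * (r * s₀)) θ hθ0 hθ1 (1 / 4)
      (by norm_num)))))).exists
  obtain ⟨y, hy⟩ : ∃ y, y = g * C * v := ⟨_, rfl⟩
  have hvy : v ≤ y := by rw [hy]; exact Nat.le_mul_of_pos_left _ (Nat.mul_pos hg1 hC1)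
  obtain ⟨N₀, hN₀⟩ : ∃ N₀, N₀ = y.choose κ := ⟨_, rfl⟩
  have hN₀1 : 1 ≤ N₀ := hN₀ ▸ Nat.choose_pos (by omega)
  obtain ⟨m, hm⟩ : ∃ m, m = 4 * y := ⟨_, rfl⟩
  have hM : Fintype.card (Var J m) = 8 * d * y := by
    simp only [Var, Fintype.card_prod, Fintype.card_bool, Fintype.card_fin, ← hd, hm]; ring
  have hN : Fintype.card (Fin C × Fin N₀) = C * N₀ := by simp
  have hNle : C * N₀ ≤ C₂ * v ^ κ := by
    rw [hC₂, mul_assoc, ← mul_pow, ← hy, hN₀]
    exact Nat.mul_le_mul_left _ (Nat.choose_le_pow _ _)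
  have hNleR : ((C * N₀ : ℕ) : ℝ) ≤ C₂ * (v : ℝ) ^ κ := by exact_mod_cast hNle
  refine ⟨m, Fin C × Fin N₀, inferInstance, inferInstance, (⟨0, hC1⟩, ⟨0, hN₀1⟩), s₀, ?_⟩
  intro 𝓧 h𝓧 h𝓧' Λ
  let ι := Fin C × Fin N₀
  let V := Var J m
  replace hM : Fintype.card V = 8 * d * y := hM
  replace hN : Fintype.card ι = C * N₀ := hN
  let i₁ : ι := (⟨0, hC1⟩, ⟨0, hN₀1⟩)
  let part : Fin C → Finset ι := fun c => {c} ×ˢ univ
  have mem_part : ∀ c i, i ∈ part c ↔ i.1 = c := fun c i =>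
    mem_product.trans (by simp only [mem_singleton, mem_univ, and_true])
  have card_part : ∀ c, (part c).card = N₀ := fun c =>
    (card_product _ _).trans (by simp)
  let Ind : J → (ι → Finset V) → ι → Prop := fun j' e i => ∃ c : Finset V → ℤ,
    (∀ i' ∈ (part i.1).erase i, (p : ℤ) ∣ comb (side m j' false) κ c (e i')) ∧
      (p : ℤ) ∣ comb (side m j' false) κ c (e i) - 1
  let E1 : (ι → Finset V) → Prop := fun e => ∃ X ∈ 𝓧, ∀ i ∈ (univ : Finset ι), e i ∉ X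
  let E2 : (ι → Finset V) → Prop := fun e =>
    ∃ x ∈ (univ : Finset (J × ι)), ¬ Ind x.1 e x.2
  let A : Finset (ι → Γ) := univ.filter fun a => (∀ i, a i ≠ g₀ → Pi.single i 1 ∉ Λ a) ∧
    (∃ t : ℕ, ∀ n : ι → ℤ, (p : ℤ) ^ t • n ∈ Λ a) ∧ s₀ ≤ (univ.filter fun i => a i ≠ g₀).card
  let E3 : (ι → Finset V) → Prop := fun e =>
    ∃ x ∈ (univ : Finset (J × V × Finset V)), ∃ a ∈ A,
      x.2.2.card = 2 * C * v ∧ Disjoint x.2.2 (side m x.1 false) ∧ x.2.1 ∉ x.2.2 ∧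
      (∀ i, Ind x.1 e i) ∧ ∀ s ∈ x.2.2, ∀ T ∈ (side m x.1 false).powersetCard κ,
        vec e T (tr ι V e s) - vec e T (tr ι V e x.2.1) ∈ Λ a
  let E4 : (ι → Finset V) → Prop := fun e =>
    ∃ x ∈ (univ : Finset J) ×ˢ ((univ : Finset (Finset ι)).filter fun I => I.card ≤ r * s₀),
      i₁ ∉ x.2 ∧ ∀ s ∈ side m x.1 true, ¬ (i₁ ∈ tr ι V e s ∧ ∀ i ∈ x.2, i ∉ tr ι V e s)
  have p1 : pr E1 ≤ 1 / 8 := by
    refine (hit_bound 𝓧 _ (pow_le_one₀ (by norm_num) (by norm_num)) h𝓧').trans ?_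
    have h1 : 𝓧.card ≤ 2 ^ (b * C₁ * N₀) := by
      refine h𝓧.trans (Nat.pow_le_pow_right (by norm_num) ?_)
      rw [hM, mul_assoc b, hC₁, hN₀]
      exact Nat.mul_le_mul_left _ (choose_lower d y κ hd1 (by omega) (by omega))
    have h1' : (𝓧.card : ℝ) ≤ 2 ^ (b * C₁ * N₀) := by exact_mod_cast h1
    have h0 : (0 : ℝ) ≤ 1 - (1 / 2) ^ D := by
      rw [sub_nonneg]; exact pow_le_one₀ (by norm_num) (by norm_num)
    have h2 : (1 - (1 / 2 : ℝ) ^ D) ^ Fintype.card ι ≤ (1 / 2) ^ (b * C₁ * N₀ + 3 * N₀) := by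
      rw [hN, hC, mul_assoc, pow_mul, ← add_mul]
      exact pow_le_pow_left₀ (by positivity) (half_bound D) _
    calc (𝓧.card : ℝ) * (1 - (1 / 2 : ℝ) ^ D) ^ Fintype.card ι
        ≤ 2 ^ (b * C₁ * N₀) * (1 / 2) ^ (b * C₁ * N₀ + 3 * N₀) :=
          mul_le_mul h1' h2 (by positivity) (by positivity)
      _ = (1 / 2) ^ (3 * N₀) := by rw [pow_add, ← mul_assoc, ← mul_pow]; simp
      _ ≤ (1 / 2) ^ 3 := pow_le_pow_of_le_one (by norm_num) (by norm_num) (by omega)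
      _ = 1 / 8 := by norm_num
  have p2 : pr E2 < 1 / 4 := by
    refine lt_of_le_of_lt (pr_exists_le _ _ ((81 / 128 : ℝ) ^ v) fun x _ => ?_)
      (lt_of_le_of_lt ?_ hv4)
    · refine (indep_bound p (side m x.1 false) y κ (by rw [card_side, hm]) x.2
        ((part x.2.1).erase x.2) (notMem_erase _ _) ?_).trans
        (pow_le_pow_of_le_one (by norm_num) (by norm_num) hvy)
      rw [card_erase_of_mem ((mem_part _ _).2 rfl), card_part]
      omega
    · rw [card_univ, Fintype.card_prod, hN, ← hd, Nat.cast_mul, mul_assoc (d : ℝ), mul_assoc (d : ℝ),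
        ← mul_assoc (C₂ : ℝ)]
      gcongr
  have p3 : pr E3 < 1 / 4 := by
    have hx : (0 : ℝ) ≤ (1 / 2) ^ v := by positivity
    have hw : (1 + Fintype.card Γ * (1 / 2 : ℝ) ^ v) ^ Fintype.card ι ≤ 3 := by
      rw [← hg, hN]
      have h1 : 1 + g * (1 / 2 : ℝ) ^ v ≤ Real.exp (g * (1 / 2) ^ v) := by
        linarith [Real.add_one_le_exp (g * (1 / 2 : ℝ) ^ v)]
      refine (pow_le_pow_left₀ (by positivity) h1 _).trans ?_
      rw [← Real.exp_nat_mul]
      refine le_trans (Real.exp_le_exp.2 ?_) (Real.exp_one_lt_d9.le.trans (by norm_num))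
      refine le_trans ?_ hv2.le
      have : (0 : ℝ) ≤ g * (1 / 2) ^ v := by positivity
      nlinarith [mul_le_mul_of_nonneg_right hNleR this]
    refine lt_of_le_of_lt (pr_exists_le _ _ (((1 / 2 : ℝ) ^ v) ^ s₀ * 3) fun x _ => ?_)
      (lt_of_le_of_lt ?_ hv3)
    · refine (pr_exists _ _).trans ?_
      refine le_trans (sum_le_sum (g := fun a => ((1 / 2 : ℝ) ^ v) ^ s₀ *
        ((1 / 2 : ℝ) ^ v) ^ (univ.filter fun i => a i ≠ g₀).card) fun a ha => ?_) ?_
      · obtain ⟨ha1, ⟨t, ht⟩, ha3⟩ := (mem_filter.1 ha).2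
        set S := univ.filter fun i => a i ≠ g₀ with hS
        haveI : Nonempty (Fin C) := ⟨⟨0, hC1⟩⟩
        obtain ⟨c, -, hc⟩ := exists_max_image (univ : Finset (Fin C))
          (fun c => (S.filter fun i => i.1 = c).card) univ_nonempty
        have hc' : S.card ≤ C * (S.filter fun i => i.1 = c).card := by
          rw [card_eq_sum_card_fiberwise (f := fun i : ι => i.1) (t := univ)
            (fun _ _ => mem_univ _)]
          have := Finset.sum_le_card_nsmul _ _ _ hc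
          simpa using this
        by_cases hx2 : x.2.2.card = 2 * C * v ∧ Disjoint x.2.2 (side m x.1 false) ∧ x.2.1 ∉ x.2.2
        · have hb := colour_bound p (side m x.1 false) κ (part c) (S.filter fun i => i.1 = c)
            (fun i hi => (mem_part _ _).2 (mem_filter.1 hi).2)
            (Λ a) (fun i hi => ha1 i (mem_filter.1 (mem_filter.1 hi).1).2) t ht x.2.2 hx2.2.1
            x.2.1 hx2.2.2
          refine le_trans (pr_mono ?_) (hb.trans ?_)
          · intro e he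
            refine ⟨fun i hi => ?_, he.2.2.2.2⟩
            have hic : i.1 = c := (mem_part _ _).1 hi
            have := he.2.2.2.1 i
            simp only [Ind, hic] at this
            exact this
          · rw [← pow_mul, ← pow_mul, ← pow_mul, ← pow_add, hx2.1]
            refine pow_le_pow_of_le_one (by norm_num) (by norm_num) ?_
            nlinarith [Nat.mul_le_mul_left v ha3, Nat.mul_le_mul_left v hc']
        · rw [pr_false fun e he => hx2 ⟨he.1, he.2.1, he.2.2.1⟩]; positivity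
      · rw [← mul_sum]
        refine mul_le_mul_of_nonneg_left (le_trans ?_ ((weight_sum g₀ _ hx).trans hw))
          (by positivity)
        exact sum_le_sum_of_subset_of_nonneg (subset_univ _) fun _ _ _ => by positivity
    · rw [card_univ, Fintype.card_prod, Fintype.card_prod, Fintype.card_finset, hM, ← hd,
        ← pow_mul]
      have e1 : v * s₀ = 8 * d * y + 8 * d * y := by rw [hs₀, hy]; ring
      have e2 : (1 / 2 : ℝ) ^ (8 * d * y) ≤ (1 / 2) ^ v :=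
        pow_le_pow_of_le_one (by norm_num) (by norm_num) (by nlinarith)
      have e3 : (2 : ℝ) ^ (8 * d * y) * (1 / 2) ^ (8 * d * y) = 1 := by rw [← mul_pow]; simp
      rw [e1, pow_add]
      push_cast
      have e4 : (y : ℝ) = g * C * v := by exact_mod_cast hy
      calc (d : ℝ) * (8 * d * y * 2 ^ (8 * d * y)) *
            ((1 / 2) ^ (8 * d * y) * (1 / 2) ^ (8 * d * y) * 3)
          = 3 * d * (8 * d * y) * (2 ^ (8 * d * y) * (1 / 2) ^ (8 * d * y)) *
            (1 / 2) ^ (8 * d * y) := by ring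
        _ ≤ 3 * d * (8 * d * y) * 1 * (1 / 2) ^ v := by rw [e3]; gcongr
        _ = _ := by rw [e4]; ring
  have p4 : pr E4 < 1 / 4 := by
    refine lt_of_le_of_lt (pr_exists_le _ _ (θ ^ v) fun x hx => ?_) (lt_of_le_of_lt ?_ hv5)
    · have hx2 : x.2.card ≤ r * s₀ := (mem_filter.1 (mem_product.1 hx).2).2
      by_cases hi : i₁ ∈ x.2
      · rw [pr_false fun e he => he.1 hi]; positivity
      · have hb := pattern_bound (side m x.1 true) i₁ x.2 hi
        rw [← pr_equiv (tr ι V)] at hb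
        refine le_trans (pr_mono fun e he => he.2) (hb.trans ?_)
        rw [card_side]
        refine le_trans (pow_le_pow_left₀ ?_ ?_ _) (pow_le_pow_of_le_one hθ0 hθ1.le
          (show v ≤ m by omega))
        · rw [sub_nonneg]; exact pow_le_one₀ (by norm_num) (by norm_num)
        · rw [hθ]
          have := pow_le_pow_of_le_one (show (0 : ℝ) ≤ 1 / 2 by norm_num) (by norm_num)
            (show x.2.card + 1 ≤ r * s₀ + 1 by omega)
          linarith
    · have h1 := card_small_sets (α := ι) (r * s₀)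
      rw [hN] at h1
      have h2 : (C * N₀ + 1) ^ (r * s₀) ≤ (C₂ + 1) ^ (r * s₀) * v ^ (κ * (r * s₀)) := by
        rw [pow_mul v, ← mul_pow]
        refine Nat.pow_le_pow_left ?_ _
        have : 1 ≤ v ^ κ := Nat.one_le_pow _ _ (by omega)
        nlinarith
      have h3 : (((univ : Finset (Finset ι)).filter fun I => I.card ≤ r * s₀).card : ℝ) ≤
          (C₂ + 1) ^ (r * s₀) * (v : ℝ) ^ (κ * (r * s₀)) := by exact_mod_cast h1.trans h2
      rw [card_product, card_univ, ← hd, Nat.cast_mul, mul_assoc (d : ℝ), mul_assoc (d : ℝ),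
        ← mul_assoc (((C₂ : ℝ) + 1) ^ _)]
      gcongr
  have ptot : pr (fun e => E1 e ∨ E2 e ∨ E3 e ∨ E4 e) < 1 := by
    have := pr_or E1 fun e => E2 e ∨ E3 e ∨ E4 e
    have := pr_or E2 fun e => E3 e ∨ E4 e
    have := pr_or E3 E4
    linarith
  obtain ⟨e, he⟩ := exists_not_of_pr_lt_one ptot
  simp only [not_or] at he
  obtain ⟨h1, h2, h3, h4⟩ := he
  refine ⟨e, ?_, ?_, ?_⟩
  · intro X hX
    by_contra hc
    exact h1 ⟨X, hX, fun i _ hi => hc ⟨i, hi⟩⟩
  · intro j' j χ a ha1 ha2 ha3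
    by_contra hc
    obtain ⟨z, -, hz⟩ := exists_le_card_fiber_of_mul_le_card_of_maps_to
      (s := side m j true) (t := (univ : Finset Γ)) (f := χ) (n := 4 * C * v)
      (fun _ _ => mem_univ _) ⟨g₀, mem_univ _⟩
      (by rw [card_univ, ← hg, card_side, hm, hy]; apply le_of_eq; ring)
    set F := (side m j true).filter fun x => χ x = z
    have hCv : 1 ≤ C * v := Nat.mul_pos hC1 (by omega)
    obtain ⟨s', hs'⟩ : F.Nonempty := card_pos.1 (by nlinarith)
    obtain ⟨U, hU, hU'⟩ := exists_subset_card_eq (s := F.erase s') (n := 2 * C * v)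
      (by rw [card_erase_of_mem hs']; have : 4 * C * v = 2 * C * v + 2 * (C * v) := by ring
          omega)
    refine h3 ⟨(j', s', U), mem_univ _, a, mem_filter.2 ⟨mem_univ _, ha1, ha2, (not_le.1 hc).le⟩, hU',
      ?_, fun h => notMem_erase _ _ (hU h), fun i => ?_, fun s hs => ?_⟩
    · refine disjoint_left.2 fun s hs hs2 => ?_
      have := (mem_side.1 (mem_filter.1 (mem_of_mem_erase (hU hs))).1).2
      rw [(mem_side.1 hs2).2] at this
      exact Bool.noConfusion this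
    · by_contra h
      exact h2 ⟨(j', i), mem_univ _, h⟩
    · have hs1 := mem_filter.1 (mem_of_mem_erase (hU hs))
      have hs2 := mem_filter.1 hs'
      exact ha3 s hs1.1 s' hs2.1 (hs1.2.trans hs2.2.symm)
  · intro I hI hi j
    by_contra hc
    refine h4 ⟨(j, I), mem_product.2 ⟨mem_univ _, mem_filter.2 ⟨mem_univ _, hI⟩⟩, hi, ?_⟩
    rintro s hs ⟨h5, h6⟩
    exact hc ⟨s, (mem_side.1 hs).1, mem_tr.1 h5, fun i hi' h => h6 i hi' (mem_tr.2 h)⟩

end Pool.Agent.Lib.MP_6fc7a0_al
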