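import Pool.Agent.Lib.MP_6fc7a0_al.Model
import Pool.Agent.Lib.MP_6fc7a0_al.Sample2

/-! The sparsification theorem for finite `p`-groups. -/

namespace Pool.Agent.Lib.MP_6fc7a0_al

open Finset
open scoped commutatorElement

variable {B : Type} [Group B] {J : Type} [Fintype J] [DecidableEq J] {C : J → Type*}
  [∀ j, Group (C j)] {π : B →* ∀ j, C j}

lemma γ_le_of_typed [Nonempty J] (hsurj : Function.Surjective π)
    (hker : ∀ b, π b = 1 ↔ b ∈ γ B 2) {κ : ℕ} (hκ : 1 ≤ κ) (N : Subgroup B)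
    (h : ∀ (u : B) (j' : J) (b : B) (j : J), u ∈ γ B κ → (∀ i, i ≠ j' → π u i = 1) →
      (∀ i, i ≠ j → π b i = 1) → ⁅u, b⁆ ∈ N) : γ B (κ + 1) ≤ N := by
  let S : Set B := {x | ∃ (u : B) (j' : J) (b : B) (j : J), u ∈ γ B κ ∧
    (∀ i, i ≠ j' → π u i = 1) ∧ (∀ i, i ≠ j → π b i = 1) ∧ x = ⁅u, b⁆}
  let X := Subgroup.closure S
  have hXN : X ≤ N := by
    rw [Subgroup.closure_le]
    rintro _ ⟨u, j', b, j, h1, h2, h3, rfl⟩
    exact h u j' b j h1 h2 h3
  haveI : X.Normal := by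
    refine ⟨fun x hx g => ?_⟩
    have : X ≤ X.comap (MulAut.conj g).toMonoidHom := by
      rw [Subgroup.closure_le]
      rintro _ ⟨u, j', b, j, h1, h2, h3, rfl⟩
      apply Subgroup.subset_closure
      refine ⟨g * u * g⁻¹, j', g * b * g⁻¹, j, Subgroup.Normal.conj_mem inferInstance _ h1 _,
        fun i hi => by simp [h2 i hi], fun i hi => by simp [h3 i hi], ?_⟩
      exact conjugate_commutatorElement _ _ _
    exact this hx
  have key : ∀ u b : B, ⁅u, b⁆ ∈ X ↔ Commute (u : B ⧸ X) (b : B ⧸ X) := by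
    intro u b
    rw [← commutatorElement_eq_one_iff_commute, ← QuotientGroup.eq_one_iff,
      ← QuotientGroup.mk'_apply, map_commutatorElement]
    rfl
  have step1 : ∀ (u : B) (j' : J), u ∈ γ B κ → (∀ i, i ≠ j' → π u i = 1) →
      ∀ b : B, Commute (u : B ⧸ X) (b : B ⧸ X) := by
    intro u j' h1 h2 b
    have := typed_top hsurj
      ((Subgroup.centralizer {(u : B ⧸ X)}).comap (QuotientGroup.mk' X)) (fun j w hw => ?_) b
    · exact (Subgroup.mem_centralizer_singleton_iff.1 this).symm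
    · exact Subgroup.mem_centralizer_singleton_iff.2
        ((key u w).1 (Subgroup.subset_closure ⟨u, j', w, j, h1, h2, hw, rfl⟩)).symm
  refine le_trans ?_ hXN
  rw [γ_succ hκ, Subgroup.commutator_le]
  intro u hu b _
  rw [key]
  rcases Nat.eq_or_lt_of_le hκ with rfl | hκ2
  · have := typed_top hsurj
      ((Subgroup.centralizer {(b : B ⧸ X)}).comap (QuotientGroup.mk' X)) (fun j w hw => ?_) u
    · exact Subgroup.mem_centralizer_singleton_iff.1 this
    · exact Subgroup.mem_centralizer_singleton_iff.2 (step1 w j (Subgroup.mem_top w) hw b)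
  · obtain ⟨j₀⟩ := ‹Nonempty J›
    exact step1 u j₀ hu (fun i _ => by rw [(hker u).2 (γ_anti hκ2 hu)]; rfl) b

/-- The common kernel of the additive maps with prescribed values on the unit vectors. -/
def Lam {G ι : Type} [Group G] [DecidableEq ι] (a : ι → G) : AddSubgroup (ι → ℤ) :=
  ⨅ (Φ : (ι → ℤ) →+ Additive G) (_ : ∀ i, Φ (Pi.single i 1) = Additive.ofMul (a i)), Φ.ker

lemma mem_Lam {G ι : Type} [Group G] [Finite ι] [DecidableEq ι] {a : ι → G}
    (Φ : (ι → ℤ) →+ Additive G) (hΦ : ∀ i, Φ (Pi.single i 1) = Additive.ofMul (a i))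
    (n : ι → ℤ) : n ∈ Lam a ↔ Φ n = 0 := by
  simp only [Lam, AddSubgroup.mem_iInf, AddMonoidHom.mem_ker]
  refine ⟨fun h => h Φ hΦ, fun h Ψ hΨ => ?_⟩
  have : n ∈ Ψ.eqLocus Φ := by
    refine AddSubgroup.pi_mem_of_single_mem _ fun i => ?_
    have e : (Pi.single i (n i) : ι → ℤ) = n i • Pi.single i 1 := by
      rw [← Pi.single_smul, smul_eq_mul, mul_one]
    rw [e]
    exact zsmul_mem ((hΨ i).trans (hΦ i).symm) _
  exact this.trans h

lemma mem_Samp {V ι : Type} [DecidableEq V] {ty : V → J} {e : ι → Finset V} {k : ℕ} {β : ι → B}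
    (h : ∀ i, β i ∈ γ B k) : β ∈ Samp π ty e k :=
  ⟨1, one_mem _, fun i => ((QuotientGroup.eq_one_iff _).2 (h i)).symm⟩

lemma mulSingle_mem {ι : Type} [DecidableEq ι] {N : Subgroup B} (i : ι) {w : B} (hw : w ∈ N)
    (i' : ι) : (Pi.mulSingle i w : ι → B) i' ∈ N := by
  by_cases h : i' = i
  · subst h; simpa using hw
  · rw [Pi.mulSingle_eq_of_ne h]; exact one_mem _

theorem not_inK [Nonempty J] [Fintype B] {G : Type} [Group G] [DecidableEq G] (p : ℕ)
    (hp : IsPGroup p B) (hsurj : Function.Surjective π) (hker : ∀ b, π b = 1 ↔ b ∈ γ B 2)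
    {κ : ℕ} (hκ : 1 ≤ κ) (hK : Kills π G (κ + 1)) {m : ℕ} {ι : Type} [Fintype ι] [DecidableEq ι]
    (i₁ : ι) (s₀ : ℕ) (e : ι → Finset (Var J m))
    (h3 : ∀ (j' j : J) (χ : Var J m → G) (a : ι → G), (∀ i, a i ≠ 1 → Pi.single i 1 ∉ Lam a) →
      (∃ t : ℕ, ∀ n : ι → ℤ, (p : ℤ) ^ t • n ∈ Lam a) →
      (∀ s ∈ side m j true, ∀ s' ∈ side m j true, χ s = χ s' →
        ∀ T ∈ (side m j' false).powersetCard κ,
          vec e T (tr ι _ e s) - vec e T (tr ι _ e s') ∈ Lam a) →
      (univ.filter fun i => a i ≠ 1).card ≤ s₀)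
    (h4 : ∀ I : Finset ι, I.card ≤ Fintype.card (B × J × B × J) * s₀ → i₁ ∉ I → ∀ j,
      ∃ s : Var J m, s.1 = j ∧ s ∈ e i₁ ∧ ∀ i ∈ I, s ∉ e i) :
    ¬ InK G (Samp π Prod.fst e (κ + 1)) := by
  classical
  obtain ⟨r, hr, hr1, hK⟩ := hK
  intro hin
  obtain ⟨φ, hφ⟩ := hin ⟨Pi.mulSingle i₁ r, mem_Samp (mulSingle_mem i₁ hr)⟩ fun h => hr1 (by
    have := congrFun (congrArg Subtype.val h) i₁
    simpa using this)
  apply hφ
  let K : Subgroup (ι → B) := φ.ker.map (Subgroup.subtype _)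
  have hKm : ∀ (β : ι → B) (h : β ∈ Samp π Prod.fst e (κ + 1)), β ∈ K ↔ φ ⟨β, h⟩ = 1 := by
    intro β h
    constructor
    · rintro ⟨x, hx, rfl⟩; exact hx
    · intro h'; exact ⟨⟨β, h⟩, h', rfl⟩
  have hsupp : ∀ (u : B) (j' : J) (b : B) (j : J), u ∈ γ B κ → (∀ i, i ≠ j' → π u i = 1) →
      (∀ i, i ≠ j → π b i = 1) →
      (univ.filter fun i => (Pi.mulSingle i ⁅u, b⁆ : ι → B) ∉ K).card ≤ s₀ := by
    intro u j' b j hu hu' hb
    have hw : ⁅u, b⁆ ∈ γ B (κ + 1) := γ_comm κ 1 u b hu (Subgroup.mem_top b)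
    obtain ⟨w, hwe⟩ : ∃ w, w = ⁅u, b⁆ := ⟨_, rfl⟩
    rw [← hwe] at hw ⊢
    have hmem : ∀ n : ι → ℤ, (fun i => w ^ n i) ∈ Samp π Prod.fst e (κ + 1) :=
      fun n => mem_Samp fun i => zpow_mem hw _
    let Φ : (ι → ℤ) →+ Additive G := AddMonoidHom.mk'
      (fun n => Additive.ofMul (φ ⟨fun i => w ^ n i, hmem n⟩)) fun n n' => by
        rw [← ofMul_mul, ← map_mul]
        congr 2
        exact Subtype.ext (funext fun i => zpow_add w _ _)
    let a : ι → G := fun i => φ ⟨Pi.mulSingle i w, mem_Samp (mulSingle_mem i hw)⟩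
    have hΦ : ∀ i, Φ (Pi.single i 1) = Additive.ofMul (a i) := by
      intro i
      change Additive.ofMul (φ _) = Additive.ofMul (φ _)
      congr 2
      refine Subtype.ext (funext fun i' => ?_)
      by_cases h : i' = i
      · subst h; simp
      · simp [Pi.single_eq_of_ne h, Pi.mulSingle_eq_of_ne h]
    have hmono : ∀ (S : Finset (Var J m)) (x : B), mono S x ∈ Pol π Prod.fst →
        (fun i => mono S x (e i)) ∈ Samp π Prod.fst e (κ + 1) :=
      fun S x h => ⟨_, h, fun _ => rfl⟩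
    have hcol : ∀ s : Var J m, s.1 = j → mono {s} b ∈ Pol π Prod.fst := fun s hs =>
      mono_mem_Pol (singleton_nonempty _) (Subgroup.mem_top b) fun s' hs' i hi =>
        hb i (by rwa [mem_singleton.1 hs', hs] at hi)
    let χ : Var J m → G := fun s => if h : s.1 = j then φ ⟨_, hmono _ _ (hcol s h)⟩ else 1
    have := h3 j' j χ a ?_ ?_ ?_
    · refine le_trans (le_of_eq (congrArg card (filter_congr fun i _ => ?_))) this
      exact not_congr (hKm _ _)
    · intro i hi h
      rw [mem_Lam Φ hΦ, hΦ] at h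
      exact hi h
    · obtain ⟨t, ht⟩ := hp w
      refine ⟨t, fun n => (mem_Lam Φ hΦ _).2 ?_⟩
      change Additive.ofMul (φ _) = Additive.ofMul 1
      rw [← map_one φ]
      congr 2
      refine Subtype.ext (funext fun i => ?_)
      change w ^ ((p : ℤ) ^ t * n i) = 1
      rw [zpow_mul, ← Nat.cast_pow, zpow_natCast, ht, one_zpow]
    · intro s hs s' hs' hχ T hT
      obtain ⟨hT1, hT2⟩ := mem_powersetCard.1 hT
      have hrow : mono T u ∈ Pol π Prod.fst :=
        mono_mem_Pol (card_pos.1 (by omega)) (hT2 ▸ hu) fun s' hs' i hi =>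
          hu' i (by rwa [(mem_side.1 (hT1 hs')).1] at hi)
      have key : ∀ s ∈ side m j true, Φ (vec e T (tr ι _ e s)) =
          Additive.ofMul ⁅φ ⟨_, hmono _ _ hrow⟩, χ s⁆ := by
        intro s hs
        have hs1 := (mem_side.1 hs).1
        simp only [χ, dif_pos hs1]
        rw [← map_commutatorElement]
        change Additive.ofMul (φ _) = Additive.ofMul (φ _)
        congr 2
        refine Subtype.ext (funext fun i => ?_)
        change w ^ vec e T (tr ι _ e s) i = ⁅mono T u (e i), mono {s} b (e i)⁆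
        simp only [vec, mono, mem_tr, singleton_subset_iff]
        by_cases h1 : T ⊆ e i <;> by_cases h2 : s ∈ e i <;> simp [h1, h2, hwe]
      rw [mem_Lam Φ hΦ, map_sub, key s hs, key s' hs', hχ, sub_self]
  let I : Finset ι := univ.filter fun i => ∃ w ∈ γ B (κ + 1), (Pi.mulSingle i w : ι → B) ∉ K
  have hI : I.card ≤ Fintype.card (B × J × B × J) * s₀ := by
    have : I ⊆ (univ : Finset (B × J × B × J)).biUnion fun τ => univ.filter fun i =>
        τ.1 ∈ γ B κ ∧ (∀ i, i ≠ τ.2.1 → π τ.1 i = 1) ∧ (∀ i, i ≠ τ.2.2.2 → π τ.2.2.1 i = 1) ∧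
          (Pi.mulSingle i ⁅τ.1, τ.2.2.1⁆ : ι → B) ∉ K := by
      intro i hi
      obtain ⟨w, hw, hw'⟩ := (mem_filter.1 hi).2
      by_contra hc
      apply hw'
      refine γ_le_of_typed hsurj hker hκ (K.comap (MonoidHom.mulSingle (fun _ : ι => B) i))
        (fun u j' b j h1 h2 h3 => ?_) hw
      by_contra h
      exact hc (mem_biUnion.2 ⟨(u, j', b, j), mem_univ _, mem_filter.2 ⟨mem_univ _, h1, h2, h3, h⟩⟩)
    refine (card_le_card this).trans (card_biUnion_le_card_mul _ _ _ ?_)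
    rintro ⟨u, j', b, j⟩ -
    by_cases h : u ∈ γ B κ ∧ (∀ i, i ≠ j' → π u i = 1) ∧ (∀ i, i ≠ j → π b i = 1)
    · refine le_trans (card_le_card fun i hi => ?_) (hsupp u j' b j h.1 h.2.1 h.2.2)
      exact mem_filter.2 ⟨mem_univ _, (mem_filter.1 hi).2.2.2.2⟩
    · rw [filter_false_of_mem fun i _ h' => h ⟨h'.1, h'.2.1, h'.2.2.1⟩]
      simp
  choose σ hσ1 hσ2 hσ3 using h4 (I.erase i₁) ((card_erase_le).trans hI) (notMem_erase _ _)
  let sel : Finset (Var J m) → Finset J := fun ε => univ.filter fun j => σ j ∈ ε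
  let emb : B × (Finset J → B) →* (ι → B) := Pi.monoidHom fun i =>
    if i = i₁ then MonoidHom.fst _ _ else if i ∈ I then 1
      else (Pi.evalMonoidHom _ (sel (e i))).comp (MonoidHom.snd _ _)
  have hemb : ∀ x i, emb x i = if i = i₁ then x.1 else if i ∈ I then 1 else x.2 (sel (e i)) := by
    intro x i
    change (if i = i₁ then MonoidHom.fst _ _ else if i ∈ I then 1
      else (Pi.evalMonoidHom _ (sel (e i))).comp (MonoidHom.snd _ _) :
        B × (Finset J → B) →* B) x = _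
    split_ifs <;> rfl
  have hmem : ∀ x : Model π (κ + 1), emb x ∈ Samp π Prod.fst e (κ + 1) := by
    rintro ⟨x, ⟨f, hf, hf'⟩, hx⟩
    refine ⟨_, Pol_select σ hσ1 hf, fun i => ?_⟩
    rw [hemb]
    change ((f (sel (e i)) : B) : B ⧸ γ B (κ + 1)) = _
    split_ifs with h1 h2
    · have : sel (e i) = univ := filter_true_of_mem fun j _ => h1 ▸ hσ2 j
      rw [this, hf', hx]
    · have : sel (e i) = ∅ := filter_false_of_mem fun j _ => hσ3 j i (mem_erase.2 ⟨h1, h2⟩)
      rw [this, Pol_empty hf]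
    · exact hf' _
  have := hK (φ.comp ((emb.comp (Subgroup.subtype _)).codRestrict _ hmem)) ?_
  · refine Eq.trans (congrArg φ (Subtype.ext (funext fun i => ?_))) this
    change (Pi.mulSingle i₁ r : ι → B) i = emb (r, 1) i
    rw [hemb]
    by_cases h : i = i₁
    · subst h; simp
    · simp [h]
  · intro x hx1 hx2
    refine (hKm _ (hmem x)).1 (Subgroup.pi_mem_of_mulSingle_mem _ fun i => ?_)
    rw [hemb]
    split_ifs with h1 h2
    · rw [hx1, Pi.mulSingle_one]; exact one_mem _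
    · rw [Pi.mulSingle_one]; exact one_mem _
    · by_contra h
      exact h2 (mem_filter.2 ⟨mem_univ _, _, hx2 _, h⟩)

theorem sparsify [Nonempty J] [Finite B] {G : Type} [Group G] [Finite G] (p : ℕ) [Fact p.Prime]
    (hp : IsPGroup p B) (hsurj : Function.Surjective π) (hker : ∀ b, π b = 1 ↔ b ∈ γ B 2)
    {c : ℕ} (hc : γ B (c + 1) = ⊥) (g : G) (hB : ∀ x : B, x ^ orderOf g = 1) (hnot : ¬ InK G B)
    (hprop : ∀ T : Finset J, T.card ≤ c → InK G (BT π T)) (X : Type) [Fintype X] :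
    ∃ (ι : Type) (_ : Finite ι) (A : Subgroup (ι → B)), ¬ InK G A ∧
      ∀ α : FreeGroup X →* (ι → B), (∀ x, α (FreeGroup.of x) ∈ A) → Sep G α := by
  classical
  haveI := Fintype.ofFinite B
  haveI := Fintype.ofFinite G
  have hg : 0 < orderOf g := orderOf_pos g
  have h2 : Kills π G 2 := kills_two hsurj hker hnot fun b hb => abel_sep g hg hB b hb
  obtain ⟨κ, hκ1, hκc, hK1, hK2⟩ : ∃ κ, 1 ≤ κ ∧ κ + 1 ≤ c ∧ Kills π G (κ + 1) ∧
      ¬ Kills π G (κ + 1 + 1) := by
    have hno : ∀ l, c + 1 ≤ l → ¬ Kills π G l := by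
      rintro l hl ⟨r, hr, hr1, -⟩
      have := γ_anti hl hr
      rw [hc, Subgroup.mem_bot] at this
      exact hr1 this
    by_contra hcon
    push Not at hcon
    have : ∀ κ, Kills π G (κ + 1 + 1) := by
      intro κ
      induction κ with
      | zero => exact h2
      | succ κ ih =>
        refine hcon (κ + 1) (by omega) ?_ ih
        by_contra h
        exact hno _ (by omega) ih
    exact hno _ (by omega) (this c)
  obtain ⟨D, hD⟩ := level_density (P := X → B) p (fun x => by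
    obtain ⟨t, ht⟩ := hp.exists_card_eq
    exact ⟨t, funext fun i => by rw [Pi.pow_apply, ← ht, pow_card_eq_one']; rfl⟩) c
  obtain ⟨m, ι, _, _, i₁, s₀, H⟩ := exists_sample p J G 1 κ D
    (2 * Fintype.card (X → B)) (Fintype.card (B × J × B × J))
  let V := Var J m
  let lev : (X → Finset V → B) → Finset V → Finset (Finset V) := fun y ε =>
    univ.filter fun e' => ∀ x, (y x e' : B ⧸ γ B (κ + 1)) = y x ε
  let 𝓧 : Finset (Finset (Finset V)) := univ.filter fun Y =>
    ∃ y ε, (∀ x, y x ∈ Pol π (Prod.fst : V → J)) ∧ Y = lev y ε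
  refine (H 𝓧 ?_ ?_ Lam).elim fun e he => ?_
  rotate_left 2
  · obtain ⟨he1, he3, he4⟩ := he
    refine ⟨ι, inferInstance, Samp π Prod.fst e (κ + 1),
      not_inK p hp hsurj hker hκ1 hK1 i₁ s₀ e he3 he4, fun α hα => ?_⟩
    refine local_sep g hg hB (by omega) (fun w hw => (hker w).2 (γ_anti (by omega) hw)) hK2
      (fun T hT => hprop T (by omega)) Prod.fst e (fun y hy ε => ?_) α hα
    obtain ⟨i, hi⟩ := he1 (lev y ε) (mem_filter.2 ⟨mem_univ _, y, ε, hy, rfl⟩)
    exact ⟨i, (mem_filter.1 hi).2⟩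
  · let Ball := (univ : Finset (Finset V)).filter fun S => S.card ≤ κ
    let rec' : (Ball → X → B) × (X → B) → Finset (Finset V) := fun d =>
      univ.filter fun e' => ∃ y : X → Finset V → B, (∀ x, y x ∈ Pol π (Prod.fst : V → J)) ∧
        (∀ (S : Ball) x, y x S = d.1 S x) ∧ ∀ x, (y x e' : B ⧸ γ B (κ + 1)) = d.2 x
    have hsub : 𝓧 ⊆ univ.image rec' := by
      intro Y hY
      obtain ⟨y, ε, hy, rfl⟩ := (mem_filter.1 hY).2
      refine mem_image.2 ⟨(fun S x => y x S, fun x => y x ε), mem_univ _, ?_⟩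
      ext e'
      simp only [rec', lev, mem_filter, mem_univ, true_and]
      constructor
      · rintro ⟨y', hy', h1, h2⟩ x
        rw [← h2 x]
        refine QuotientGroup.eq.2 (Pol_det (mul_mem (inv_mem (hy x)) (hy' x)) κ (fun S hS => ?_) e')
        have := h1 ⟨S, mem_filter.2 ⟨mem_univ _, hS⟩⟩ x
        simp only [Pi.mul_apply, Pi.inv_apply] at this ⊢
        rw [this, inv_mul_cancel]; exact one_mem _
      · intro h; exact ⟨y, hy, fun _ _ => rfl, h⟩
    refine (card_le_card hsub).trans (card_image_le.trans ?_)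
    rw [card_univ, Fintype.card_prod, Fintype.card_fun (α := Ball), ← pow_succ, Fintype.card_coe]
    have h1 : Ball.card ≤ (Fintype.card V + 1) ^ κ := card_small_sets κ
    have h2 : 1 ≤ (Fintype.card V + 1) ^ κ := Nat.one_le_pow _ _ (by omega)
    calc Fintype.card (X → B) ^ (Ball.card + 1)
        ≤ (2 ^ Fintype.card (X → B)) ^ (Ball.card + 1) :=
          Nat.pow_le_pow_left Nat.lt_two_pow_self.le _
      _ ≤ _ := by
          rw [← pow_mul]
          refine Nat.pow_le_pow_right (by norm_num) ?_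
          rw [mul_comm 2, mul_assoc]
          exact Nat.mul_le_mul_left _ ((Nat.add_le_add h1 h2).trans (two_mul _).ge)
  · intro Y hY
    obtain ⟨y, ε, hy, rfl⟩ := (mem_filter.1 hY).2
    let sw : (X → Finset V → B) →* (Finset V → X → B) :=
      { toFun := fun y e x => y x e, map_one' := rfl, map_mul' := fun _ _ => rfl }
    have hQ : y ∈ (QMon V (X → B) c).comap sw := by
      refine Subgroup.pi_mem_of_mulSingle_mem _ fun x => ?_
      have : QMon V B c ≤ ((QMon V (X → B) c).comap sw).comap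
          (MonoidHom.mulSingle (fun _ : X => Finset V → B) x) := by
        rw [QMon, Subgroup.closure_le]
        rintro _ ⟨S, w, hS, rfl⟩
        refine Subgroup.subset_closure ⟨S, Pi.mulSingle x w, hS, ?_⟩
        funext e' x'
        change (Pi.mulSingle x (mono S w) : X → Finset V → B) x' e' = _
        by_cases h : x' = x
        · subst h; by_cases h' : S ⊆ e' <;> simp [mono, h']
        · by_cases h' : S ⊆ e' <;> simp [mono, h', Pi.mulSingle_eq_of_ne h]
      exact this (Pol_le_QMon hc (hy x))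
    refine (hD V (sw y) hQ (fun β => ∀ x, (β x : B ⧸ γ B (κ + 1)) = y x ε) ε fun _ => rfl).trans
      (pr_mono fun e' he' => mem_filter.2 ⟨mem_univ _, he'⟩)

end Pool.Agent.Lib.MP_6fc7a0_al
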