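import Pool.Agent.Lib.MP_6fc7a0_al.Prob

/-! Functions of bounded degree on the cube of subsets, and level sets of products of monomials
in a finite `p`-group. -/

namespace Pool.Agent.Lib.MP_6fc7a0_al

open Finset

variable {V : Type*} [DecidableEq V]

/-- The function equal to `w` on supersets of `S` and to `1` elsewhere. -/
def mono {M : Type*} [One M] (S : Finset V) (w : M) : Finset V → M :=
  fun e => if S ⊆ e then w else 1

/-- Functions of degree at most `D`. -/
def DegLE (V : Type*) [DecidableEq V] (R : Type*) [AddCommGroup R] (D : ℕ) :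
    AddSubgroup (Finset V → R) :=
  AddSubgroup.closure {f | ∃ (S : Finset V) (a : R), S.card ≤ D ∧ f = fun e => if S ⊆ e then a else 0}

section
variable {R : Type*} [AddCommGroup R]

lemma DegLE_mono {D D' : ℕ} (h : D ≤ D') : DegLE V R D ≤ DegLE V R D' := by
  apply AddSubgroup.closure_mono
  rintro f ⟨S, a, hS, rfl⟩
  exact ⟨S, a, hS.trans h, rfl⟩

lemma DegLE_ite {D : ℕ} (S : Finset V) {F : Finset V → R} (hF : F ∈ DegLE V R D) :
    (fun e => if S ⊆ e then F e else 0) ∈ DegLE V R (S.card + D) := by
  induction hF using AddSubgroup.closure_induction with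
  | mem f hf =>
    obtain ⟨T, a, hT, rfl⟩ := hf
    apply AddSubgroup.subset_closure
    refine ⟨S ∪ T, a, (card_union_le _ _).trans (by omega), ?_⟩
    funext e
    simp only [union_subset_iff]
    by_cases h1 : S ⊆ e <;> by_cases h2 : T ⊆ e <;> simp [h1, h2]
  | zero =>
    have : (fun e => if S ⊆ e then (0 : Finset V → R) e else 0) = 0 := by funext e; simp
    rw [this]; exact zero_mem _
  | add f g _ _ hf hg =>
    have : (fun e => if S ⊆ e then (f + g) e else 0) =
        (fun e => if S ⊆ e then f e else 0) + (fun e => if S ⊆ e then g e else 0) := by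
      funext e; by_cases h : S ⊆ e <;> simp [h]
    rw [this]; exact add_mem hf hg
  | neg f _ hf =>
    have : (fun e => if S ⊆ e then (-f) e else 0) = -(fun e => if S ⊆ e then f e else 0) := by
      funext e; by_cases h : S ⊆ e <;> simp [h]
    rw [this]; exact neg_mem hf

variable [Fintype V]

lemma DegLE_coeff {D : ℕ} {F : Finset V → R} (hF : F ∈ DegLE V R D) :
    ∃ a : Finset V → R, (∀ S, D < S.card → a S = 0) ∧
      ∀ e, F e = ∑ S : Finset V, if S ⊆ e then a S else 0 := by
  induction hF using AddSubgroup.closure_induction with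
  | mem f hf =>
    obtain ⟨T, a, hT, rfl⟩ := hf
    refine ⟨Pi.single T a, fun S hS => Pi.single_eq_of_ne (by rintro rfl; omega) _, fun e => ?_⟩
    rw [sum_eq_single T]
    · simp
    · intro S _ hS; simp [Pi.single_eq_of_ne hS]
    · simp
  | zero => exact ⟨0, by simp, by simp⟩
  | add f g _ _ hf hg =>
    obtain ⟨a, ha, ha'⟩ := hf
    obtain ⟨b, hb, hb'⟩ := hg
    refine ⟨a + b, fun S hS => by simp [ha S hS, hb S hS], fun e => ?_⟩
    rw [Pi.add_apply, ha', hb', ← sum_add_distrib]
    refine sum_congr rfl fun S _ => ?_
    by_cases h : S ⊆ e <;> simp [h]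
  | neg f _ hf =>
    obtain ⟨a, ha, ha'⟩ := hf
    refine ⟨-a, fun S hS => by simp [ha S hS], fun e => ?_⟩
    rw [Pi.neg_apply, ha', ← sum_neg_distrib]
    refine sum_congr rfl fun S _ => ?_
    by_cases h : S ⊆ e <;> simp [h]

lemma DegLE_density {D : ℕ} {F : Finset V → R} (hF : F ∈ DegLE V R D) {e₀ : Finset V}
    (h0 : F e₀ ≠ 0) : (1 / 2 : ℝ) ^ D ≤ pr fun e => F e ≠ 0 := by
  classical
  obtain ⟨a, ha, hFa⟩ := DegLE_coeff hF
  have hne : (univ.filter fun S => a S ≠ 0).Nonempty := by
    by_contra hc
    apply h0
    rw [hFa]
    refine sum_eq_zero fun S _ => ?_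
    have : a S = 0 := by
      by_contra h
      exact hc ⟨S, by simpa using h⟩
    simp [this]
  obtain ⟨S, hS, hmax⟩ := exists_max_image _ card hne
  have hS0 : a S ≠ 0 := by simpa using hS
  have hSD : S.card ≤ D := by
    by_contra h
    exact hS0 (ha S (by omega))
  have key : ∀ U, Disjoint S U → ∃ T ⊆ S, F (T ∪ U) ≠ 0 := by
    intro U hU
    by_contra hc
    push Not at hc
    have h1 : ∑ T ∈ S.powerset, (-1 : ℤ) ^ T.card • F (T ∪ U) = 0 :=
      sum_eq_zero fun T hT => by rw [hc T (mem_powerset.1 hT), smul_zero]
    simp only [hFa, smul_sum] at h1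
    rw [sum_comm, sum_eq_single S] at h1
    · rw [sum_eq_single S] at h1
      · rw [if_pos subset_union_left] at h1
        apply hS0
        have h2 : ((-1 : ℤ) ^ S.card) • ((-1 : ℤ) ^ S.card • a S) = 0 := by rw [h1, smul_zero]
        rwa [smul_smul, ← mul_pow, neg_mul_neg, one_mul, one_pow, one_smul] at h2
      · intro T hT hTS
        rw [if_neg, smul_zero]
        intro h
        apply hTS
        refine Subset.antisymm (mem_powerset.1 hT) fun x hx => ?_
        rcases mem_union.1 (h hx) with h' | h'
        · exact h'
        · exact absurd h' (disjoint_left.1 hU hx)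
      · simp
    · intro S' _ hS'
      by_cases hsub : S ⊆ S'
      · have : a S' = 0 := by
          by_contra h
          have h3 := hmax S' (by simpa using h)
          exact hS' (eq_of_subset_of_card_le hsub h3).symm
        simp [this]
      · obtain ⟨s, hs, hs'⟩ := not_subset.1 hsub
        refine sum_involution (fun T _ => if s ∈ T then T.erase s else insert s T) ?_ ?_ ?_ ?_
        · have h4 : ∀ T : Finset V, s ∉ T → (S' ⊆ insert s T ∪ U ↔ S' ⊆ T ∪ U) := by
            intro T _
            constructor
            · intro h x hx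
              have := h hx
              simp only [mem_union, mem_insert] at this ⊢
              rcases this with (h' | h') | h'
              · exact absurd (h' ▸ hx) hs'
              · exact Or.inl h'
              · exact Or.inr h'
            · intro h; exact h.trans (union_subset_union_left (subset_insert _ _))
          have h5 : ∀ T : Finset V, s ∉ T →
              ((-1 : ℤ) ^ T.card • if S' ⊆ T ∪ U then a S' else 0) +
              ((-1 : ℤ) ^ (insert s T).card • if S' ⊆ insert s T ∪ U then a S' else 0) = 0 := by
            intro T hT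
            simp only [h4 T hT]
            rw [card_insert_of_notMem hT, pow_succ, ← add_smul]
            simp
          intro T _
          by_cases hT : s ∈ T
          · simp only [hT, if_true]
            have := h5 (T.erase s) (notMem_erase s T)
            rw [insert_erase hT, add_comm] at this
            exact this
          · simp only [hT, if_false]
            exact h5 T hT
        · intro T _ _
          by_cases hT : s ∈ T
          · simp only [hT, if_true]; intro h; exact (notMem_erase s T) (h.symm ▸ hT)
          · simp only [hT, if_false]; intro h; exact hT (h ▸ mem_insert_self s T)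
        · intro T hT
          rw [mem_powerset] at hT ⊢
          by_cases h : s ∈ T
          · simp only [h, if_true]; exact (erase_subset _ _).trans hT
          · simp only [h, if_false]; exact insert_subset hs hT
        · intro T _
          by_cases h : s ∈ T <;> simp [h]
    · simp
  choose! T hT hT' using key
  have hinj : (Sᶜ.powerset).card ≤ (univ.filter fun e => F e ≠ 0).card := by
    refine card_le_card_of_injOn (fun U => T U ∪ U) ?_ ?_
    · intro U hU
      have hU' : Disjoint S U := by
        rw [coe_powerset] at hU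
        exact disjoint_left.2 fun x hx hx' => (mem_compl.1 (hU hx')) hx
      simpa using hT' U hU'
    · have h6 : ∀ U ∈ Sᶜ.powerset, (T U ∪ U) \ S = U := by
        intro U hU
        have hU' : Disjoint S U :=
          disjoint_left.2 fun x hx hx' => (mem_compl.1 (mem_powerset.1 hU hx')) hx
        ext x
        simp only [mem_sdiff, mem_union]
        constructor
        · rintro ⟨h | h, h'⟩
          · exact absurd (hT U hU' h) h'
          · exact h
        · intro h; exact ⟨Or.inr h, fun h' => disjoint_left.1 hU' h' h⟩
      intro U hU U' hU' h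
      rw [← h6 U hU, ← h6 U' hU']
      exact congrArg (· \ S) h
  rw [card_powerset, card_compl] at hinj
  rw [pr_eq, le_div_iff₀ (by positivity), Fintype.card_finset]
  have h7 : ((2 : ℝ) ^ (Fintype.card V - S.card)) ≤ (univ.filter fun e => F e ≠ 0).card := by
    exact_mod_cast hinj
  refine le_trans ?_ h7
  have h8 : Fintype.card V = (Fintype.card V - S.card) + S.card :=
    (Nat.sub_add_cancel (card_le_univ S)).symm
  have h9 : (1 / 2 : ℝ) ^ D * 2 ^ S.card ≤ 1 := by
    rw [one_div, inv_pow, inv_mul_le_iff₀ (by positivity), mul_one]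
    exact pow_le_pow_right₀ (by norm_num) hSD
  push_cast
  rw [h8, pow_add, Nat.add_sub_cancel]
  have h10 : (0 : ℝ) < 2 ^ (Fintype.card V - S.card) := by positivity
  nlinarith

end

/-- Products of monomials of degree at most `c`. -/
def QMon (V : Type*) [DecidableEq V] (P : Type*) [Group P] (c : ℕ) : Subgroup (Finset V → P) :=
  Subgroup.closure {f | ∃ (S : Finset V) (w : P), S.card ≤ c ∧ f = mono S w}

section
variable {P : Type*} [Group P] (p : ℕ)

/-- Ascending chain of translation-invariant spaces of functions on `P`. -/
def chain (P : Type*) [Group P] (p : ℕ) : ℕ → AddSubgroup (P → ZMod p)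
  | 0 => ⊥
  | j + 1 =>
    { carrier := {u | ∀ g : P, (fun x => u (x * g)) - u ∈ chain P p j}
      zero_mem' := by
        intro g
        have : (fun x => (0 : P → ZMod p) (x * g)) - 0 = 0 := by funext x; simp
        rw [this]; exact zero_mem _
      add_mem' := by
        intro u v hu hv g
        have : (fun x => (u + v) (x * g)) - (u + v) =
            ((fun x => u (x * g)) - u) + ((fun x => v (x * g)) - v) := by
          funext x; simp only [Pi.add_apply, Pi.sub_apply]; ring
        rw [this]; exact add_mem (hu g) (hv g)
      neg_mem' := by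
        intro u hu g
        have : (fun x => (-u) (x * g)) - (-u) = -((fun x => u (x * g)) - u) := by
          funext x; simp only [Pi.neg_apply, Pi.sub_apply]; ring
        rw [this]; exact neg_mem (hu g) }

lemma mem_chain_succ {j : ℕ} {u : P → ZMod p} :
    u ∈ chain P p (j + 1) ↔ ∀ g : P, (fun x => u (x * g)) - u ∈ chain P p j := Iff.rfl

lemma chain_inv (j : ℕ) : ∀ u ∈ chain P p j, ∀ h : P, (fun x => u (x * h)) ∈ chain P p j := by
  induction j with
  | zero =>
    intro u hu h
    have : u = 0 := hu
    subst this
    exact zero_mem _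
  | succ j ih =>
    intro u hu h
    rw [mem_chain_succ] at hu ⊢
    intro g
    have := ih _ (hu (h⁻¹ * g * h)) h
    have e : (fun x => u (x * g * h)) - (fun x => u (x * h)) =
        fun x => ((fun x => u (x * (h⁻¹ * g * h))) - u) (x * h) := by
      funext x
      simp only [Pi.sub_apply]
      congr 2
      group
    exact e ▸ this

lemma chain_mono : Monotone (chain P p) := by
  refine monotone_nat_of_le_succ fun j u hu => ?_
  rw [mem_chain_succ]
  exact fun g => sub_mem (chain_inv p j u hu g) hu

lemma chain_top [Finite P] [Fact p.Prime] (hP : IsPGroup p P) : ∃ t, chain P p t = ⊤ := by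
  classical
  obtain ⟨t, ht⟩ := WellFoundedGT.monotone_chain_condition
    (⟨chain P p, chain_mono p⟩ : ℕ →o AddSubgroup (P → ZMod p))
  refine ⟨t, ?_⟩
  by_contra hne
  set N := chain P p t with hN
  let tr : P → (P → ZMod p) →+ (P → ZMod p) := fun g =>
    { toFun := fun u x => u (x * g), map_zero' := rfl, map_add' := fun _ _ => rfl }
  let act : P → ((P → ZMod p) ⧸ N) →+ ((P → ZMod p) ⧸ N) := fun g =>
    QuotientAddGroup.map N N (tr g) (fun u hu => chain_inv p t u hu g)
  letI : MulAction P ((P → ZMod p) ⧸ N) :=
    { smul := fun g x => act g x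
      one_smul := by
        intro x
        obtain ⟨u, rfl⟩ := QuotientAddGroup.mk_surjective x
        change act 1 (u : (P → ZMod p) ⧸ N) = u
        simp only [act, QuotientAddGroup.map_mk]
        congr 1
        funext x; simp [tr]
      mul_smul := by
        intro g h x
        obtain ⟨u, rfl⟩ := QuotientAddGroup.mk_surjective x
        change act (g * h) (u : (P → ZMod p) ⧸ N) = act g (act h u)
        simp only [act, QuotientAddGroup.map_mk]
        congr 1
        funext x; simp [tr, mul_assoc] }
  obtain ⟨u₀, hu₀⟩ : ∃ u₀, u₀ ∉ N := by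
    by_contra hc
    push Not at hc
    exact hne (eq_top_iff.2 fun u _ => hc u)
  have hdvd : p ∣ Nat.card ((P → ZMod p) ⧸ N) := by
    have h1 : addOrderOf (u₀ : (P → ZMod p) ⧸ N) = p := by
      apply addOrderOf_eq_prime
      · rw [← QuotientAddGroup.mk_nsmul]
        have : p • u₀ = 0 := by funext x; simp
        rw [this]; rfl
      · rwa [Ne, QuotientAddGroup.eq_zero_iff]
    have h2 := addOrderOf_dvd_natCard (u₀ : (P → ZMod p) ⧸ N)
    rwa [h1] at h2
  obtain ⟨b, hb, hb0⟩ := hP.exists_fixed_point_of_prime_dvd_card_of_fixed_point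
    ((P → ZMod p) ⧸ N) hdvd (a := 0) (fun g => map_zero (act g))
  obtain ⟨u, rfl⟩ := QuotientAddGroup.mk_surjective b
  have hu : u ∈ chain P p (t + 1) := by
    rw [mem_chain_succ]
    intro g
    have h2 : act g (u : (P → ZMod p) ⧸ N) = u := hb g
    simp only [act, QuotientAddGroup.map_mk] at h2
    have h3 := (QuotientAddGroup.eq.1 h2.symm)
    rwa [neg_add_eq_sub] at h3
  have h4 : chain P p t = chain P p (t + 1) := ht (t + 1) (Nat.le_succ t)
  rw [← h4] at hu
  exact hb0 ((QuotientAddGroup.eq_zero_iff u).2 hu).symm

lemma chain_deg (c j : ℕ) : ∀ u ∈ chain P p j, ∀ F ∈ QMon V P c,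
    (fun e => u (F e)) ∈ DegLE V (ZMod p) (c * j) := by
  induction j with
  | zero =>
    intro u hu F _
    have : u = 0 := hu
    subst this
    exact zero_mem _
  | succ j ih =>
    intro u hu F hF
    have hstep : ∀ F ∈ QMon V P c, ∀ (S : Finset V) (w : P), S.card ≤ c →
        (fun e => u (F e)) ∈ DegLE V (ZMod p) (c * (j + 1)) →
        (fun e => u ((F * mono S w) e)) ∈ DegLE V (ZMod p) (c * (j + 1)) := by
      intro F hF S w hS h
      have h1 := DegLE_ite S (ih _ ((mem_chain_succ p).1 hu w) F hF)
      have h2 := DegLE_mono (show S.card + c * j ≤ c * (j + 1) by nlinarith) h1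
      have e : (fun e => u ((F * mono S w) e)) = (fun e => u (F e)) +
          fun e => if S ⊆ e then ((fun x => u (x * w)) - u) (F e) else 0 := by
        funext e
        by_cases h : S ⊆ e <;> simp [mono, h]
      rw [e]; exact add_mem h h2
    induction hF using Subgroup.closure_induction_right with
    | one =>
      apply AddSubgroup.subset_closure
      exact ⟨∅, u 1, by simp, by funext e; simp⟩
    | mul_right F hF g hg ih' =>
      obtain ⟨S, w, hS, rfl⟩ := hg
      exact hstep F hF S w hS ih'
    | mul_inv_cancel F hF g hg ih' =>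
      obtain ⟨S, w, hS, rfl⟩ := hg
      have e : (mono S w)⁻¹ = mono S w⁻¹ := by
        funext e; by_cases h : S ⊆ e <;> simp [mono, h]
      rw [e]
      exact hstep F hF S w⁻¹ hS ih'

end

/-- Nonempty level sets of products of monomials of bounded degree in a finite `p`-group have
density bounded below independently of the dimension of the cube. -/
theorem level_density {P : Type*} [Group P] [Finite P] (p : ℕ) [Fact p.Prime] (hP : IsPGroup p P)
    (c : ℕ) : ∃ D : ℕ, ∀ (V : Type) [DecidableEq V] [Fintype V], ∀ F ∈ QMon V P c,
      ∀ (X : P → Prop) (e₀ : Finset V), X (F e₀) → (1 / 2 : ℝ) ^ D ≤ pr fun e => X (F e) := by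
  classical
  obtain ⟨t, ht⟩ := chain_top p hP
  refine ⟨c * t, fun V _ _ F hF X e₀ h0 => ?_⟩
  have h1 := chain_deg p c t (fun x => if X x then 1 else 0) (ht ▸ AddSubgroup.mem_top _) F hF
  refine (DegLE_density h1 (e₀ := e₀) (by simp [h0])).trans (pr_mono fun e he => ?_)
  by_contra hc
  exact he (by simp [hc])

end Pool.Agent.Lib.MP_6fc7a0_al
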