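import Pool.Agent.Lib.MP_6fc7a0_al.H26Ext

set_option autoImplicit false

namespace Pool.Agent.Lib.MP_6fc7a0_al.H26

open Subgroup
open scoped commutatorElement

theorem card_quot_le {X Z : Type} [AddCommGroup X] [Finite Z] (U : AddSubgroup X) (F : X → Z)
    (h : ∀ x y, F x = F y → x - y ∈ U) : Nat.card (X ⧸ U) ≤ Nat.card Z := by
  refine Nat.card_le_card_of_injective (fun q => F q.out) (fun q q' hq => ?_)
  rw [← QuotientAddGroup.out_eq' q, ← QuotientAddGroup.out_eq' q', QuotientAddGroup.eq_iff_sub_mem]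
  exact h _ _ hq

theorem few_cols {R : Type} [CommRing R] [Finite R] {n m : ℕ} (u v : Fin m → Fin n → R)
    (μ : Fin m → R) (S1 S2 : AddSubgroup (Fin n → R)) (ρ : ℕ)
    (h1 : Nat.card ((Fin n → R) ⧸ S1) ≤ ρ) (h2 : Nat.card ((Fin n → R) ⧸ S2) ≤ ρ)
    (h : ∀ s ∈ S1, ∀ t ∈ S2, ∑ i, μ i * (∑ j, u i j * s j) * (∑ j, v i j * t j) = 0) :
    (Set.range fun j : Fin n => ∑ i, (μ i * v i j) • u i).ncard ≤ ρ * Nat.card R ^ ρ := by
  classical
  let Mu : (Fin n → R) → (Fin n → R) := fun t => ∑ i, (μ i * ∑ j, v i j * t j) • u i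
  have hMu : ∀ t t', Mu (t - t') = Mu t - Mu t' := fun t t' => by
    simp only [Mu, Pi.sub_apply, mul_sub, Finset.sum_sub_distrib, sub_smul]
  let Ann : Set (Fin n → R) := {x | ∀ s ∈ S1, ∑ j, x j * s j = 0}
  have hA : ∀ t ∈ S2, Mu t ∈ Ann := fun t ht s hs => by
    rw [← h s hs t ht]
    simp only [Mu, Finset.sum_apply, Pi.smul_apply, smul_eq_mul, Finset.sum_mul]
    rw [Finset.sum_comm]
    refine Finset.sum_congr rfl (fun i _ => ?_)
    rw [mul_right_comm, Finset.mul_sum _ _ (μ i * _)]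
    refine Finset.sum_congr rfl (fun j _ => by ring)
  have hAnn : Nat.card Ann ≤ Nat.card R ^ ρ := by
    have : Nat.card Ann ≤ Nat.card (((Fin n → R) ⧸ S1) → R) := by
      refine Nat.card_le_card_of_injective (fun x q => ∑ j, x.1 j * q.out j) (fun x y hxy => ?_)
      have key : ∀ s : Fin n → R, ∑ j, x.1 j * s j = ∑ j, y.1 j * s j := fun s => by
        have e1 := congrFun hxy (s : (Fin n → R) ⧸ S1)
        have e2 : s - (s : (Fin n → R) ⧸ S1).out ∈ S1 := by
          rw [← QuotientAddGroup.eq_iff_sub_mem, QuotientAddGroup.out_eq']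
        have e3 := x.2 _ e2
        have e4 := y.2 _ e2
        simp only [Pi.sub_apply, mul_sub, Finset.sum_sub_distrib] at e3 e4
        rw [sub_eq_zero.mp e3, sub_eq_zero.mp e4]
        exact e1
      apply Subtype.ext
      funext j
      simpa [Pi.single_apply] using key (Pi.single j 1)
    rw [Nat.card_fun] at this
    exact this.trans (Nat.pow_le_pow_right Nat.card_pos h1)
  have hsub : (Set.range fun j : Fin n => ∑ i, (μ i * v i j) • u i) ⊆
      Set.range (fun p : ((Fin n → R) ⧸ S2) × Ann => Mu p.1.out + p.2.1) := by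
    rintro _ ⟨j, rfl⟩
    let t : Fin n → R := Pi.single j 1
    have e2 : t - (t : (Fin n → R) ⧸ S2).out ∈ S2 := by
      rw [← QuotientAddGroup.eq_iff_sub_mem, QuotientAddGroup.out_eq']
    refine ⟨(t, ⟨_, hA _ e2⟩), ?_⟩
    simp only [hMu, add_sub_cancel]
    simp [Mu, t, Pi.single_apply]
  refine (Set.ncard_le_ncard hsub (Set.toFinite _)).trans ?_
  rw [← Nat.card_coe_set_eq]
  refine (Nat.card_le_card_of_surjective _ Set.rangeFactorization_surjective).trans ?_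
  rw [Nat.card_prod]
  exact Nat.mul_le_mul h2 hAnn

theorem prod_char {ι B X R : Type} [Fintype ι] [DecidableEq ι] [Group B] [Group X] [AddCommGroup R]
    (H : Subgroup (ι → B)) (φ : H →* X) (D : Subgroup X) (χ : X → R)
    (hχ : ∀ x ∈ D, ∀ y ∈ D, χ (x * y) = χ x + χ y) (z : H)
    (h1 : ∀ i, Pi.mulSingle i (z.1 i) ∈ H) (h2 : ∀ i, φ ⟨_, h1 i⟩ ∈ D) :
    χ (φ z) = ∑ i, χ (φ ⟨_, h1 i⟩) := by
  have h0 : χ 1 = 0 := by simpa using hχ 1 D.one_mem 1 D.one_mem
  have key : ∀ s : Finset ι, ∃ hz : (fun i => if i ∈ s then z.1 i else 1) ∈ H, φ ⟨_, hz⟩ ∈ D ∧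
      χ (φ ⟨_, hz⟩) = ∑ i ∈ s, χ (φ ⟨_, h1 i⟩) := by
    intro s
    induction s using Finset.induction_on with
    | empty =>
      have : (fun i => if i ∈ (∅ : Finset ι) then z.1 i else 1) = (1 : ι → B) := by
        funext i; simp
      simp only [this]
      refine ⟨H.one_mem, ?_⟩
      have e : (⟨1, H.one_mem⟩ : H) = 1 := rfl
      rw [e, map_one]
      exact ⟨D.one_mem, by simpa using h0⟩
    | insert a s ha ih =>
      obtain ⟨h3, h4, h5⟩ := ih
      have : (fun i => if i ∈ insert a s then z.1 i else 1) =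
          Pi.mulSingle a (z.1 a) * (fun i => if i ∈ s then z.1 i else 1) := by
        funext i
        by_cases hi : i = a
        · subst hi; simp [ha]
        · simp [hi]
      simp only [this]
      refine ⟨H.mul_mem (h1 a) h3, ?_⟩
      have e : (⟨_, H.mul_mem (h1 a) h3⟩ : H) = ⟨_, h1 a⟩ * ⟨_, h3⟩ := rfl
      rw [e, map_mul, hχ _ (h2 a) _ h4, h5, Finset.sum_insert ha]
      exact ⟨D.mul_mem (h2 a) h4, rfl⟩
  obtain ⟨h3, -, h5⟩ := key Finset.univ
  have : (fun i => if i ∈ (Finset.univ : Finset ι) then z.1 i else 1) = z.1 := by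
    funext i; simp
  simp only [this] at h3 h5
  exact h5

/-- the abelianisation of a normal subgroup with the conjugation action -/
structure AS (B M : Type) [Group B] [AddCommGroup M] where
  K : Subgroup B
  nK : K.Normal
  cls : B → M
  act : B → M →+ M
  cls_mul : ∀ a ∈ K, ∀ b ∈ K, cls (a * b) = cls a + cls b
  cls_zero : ∀ k ∈ K, cls k = 0 ↔ k ∈ ⁅K, K⁆
  surj : ∀ m, ∃ k ∈ K, cls k = m
  act_cls : ∀ g, ∀ k ∈ K, act g (cls k) = cls (g * k * g⁻¹)

theorem exists_AS {B : Type} [Group B] (K : Subgroup B) [hK : K.Normal] :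
    ∃ d : AS B (Additive (Abelianization K)), d.K = K := by
  classical
  refine ⟨{ K := K
            nK := hK
            cls := fun x => if h : x ∈ K then Additive.ofMul (Abelianization.of ⟨x, h⟩) else 0
            act := fun g => MonoidHom.toAdditive
              (Abelianization.map (MulAut.conjNormal (H := K) g).toMonoidHom)
            cls_mul := fun a ha b hb => ?_
            cls_zero := fun k hk => ?_
            surj := fun m => ?_
            act_cls := fun g k hk => ?_ }, rfl⟩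
  · rw [dif_pos ha, dif_pos hb, dif_pos (K.mul_mem ha hb), ← ofMul_mul, ← map_mul]
    rfl
  · rw [dif_pos hk, ofMul_eq_zero, ← MonoidHom.mem_ker, Abelianization.ker_of,
      ← map_subtype_commutator]
    constructor
    · exact fun h => ⟨_, h, rfl⟩
    · rintro ⟨y, hy, e⟩
      have : y = ⟨k, hk⟩ := Subtype.ext e
      exact this ▸ hy
  · obtain ⟨k, hk⟩ := QuotientGroup.mk_surjective (s := _root_.commutator K) m.toMul
    exact ⟨k, k.2, by rw [dif_pos k.2]; exact congrArg Additive.ofMul hk⟩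
  · rw [dif_pos hk, dif_pos (hK.conj_mem k hk g)]
    rfl

namespace AS

variable {B M : Type} [Group B] [AddCommGroup M] (d : AS B M)

instance : d.K.Normal := d.nK

theorem cls_one : d.cls 1 = 0 := by simpa using d.cls_mul 1 d.K.one_mem 1 d.K.one_mem

theorem cls_inv {a : B} (ha : a ∈ d.K) : d.cls a⁻¹ = - d.cls a := by
  have := d.cls_mul a ha a⁻¹ (d.K.inv_mem ha)
  rw [mul_inv_cancel, cls_one] at this
  exact (neg_eq_of_add_eq_zero_right this.symm).symm

theorem cls_eq {a b : B} (ha : a ∈ d.K) (hb : b ∈ d.K) (h : d.cls a = d.cls b) :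
    a⁻¹ * b ∈ ⁅d.K, d.K⁆ := by
  rw [← d.cls_zero _ (d.K.mul_mem (d.K.inv_mem ha) hb), d.cls_mul _ (d.K.inv_mem ha) _ hb,
    d.cls_inv ha, h, neg_add_cancel]

theorem act_K {g : B} (hg : g ∈ d.K) (m : M) : d.act g m = m := by
  obtain ⟨k, hk, rfl⟩ := d.surj m
  rw [d.act_cls g k hk, d.cls_mul _ (d.K.mul_mem hg hk) _ (d.K.inv_mem hg), d.cls_mul _ hg _ hk,
    d.cls_inv hg]
  abel

theorem act_mul (g g' : B) (m : M) : d.act (g * g') m = d.act g (d.act g' m) := by
  obtain ⟨k, hk, rfl⟩ := d.surj m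
  rw [d.act_cls _ k hk, d.act_cls _ k hk, d.act_cls _ _ (d.nK.conj_mem k hk g')]
  simp [mul_assoc]

theorem form {G R : Type} [Group G] [AddCommGroup R] (Φ : (⁅d.K, d.K⁆ : Subgroup B) →* G)
    (hinv : ∀ k ∈ d.K, ∀ j : (⁅d.K, d.K⁆ : Subgroup B),
      Φ ⟨k * j * k⁻¹, Normal.conj_mem inferInstance _ j.2 _⟩ = Φ j)
    (χ : G → R) (hχ : ∀ x y, χ (Φ x * Φ y) = χ (Φ x) + χ (Φ y)) :
    ∃ β : M →+ M →+ R, ∀ k (hk : k ∈ d.K) k' (hk' : k' ∈ d.K),
      β (d.cls k) (d.cls k') = χ (Φ ⟨⁅k, k'⁆, commutator_mem_commutator hk hk'⟩) := by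
  let f : d.K → d.K → R := fun k k' => χ (Φ ⟨⁅k.1, k'.1⁆, commutator_mem_commutator k.2 k'.2⟩)
  have h0 : χ 1 = 0 := by simpa using hχ 1 1
  have f1 : ∀ a b c, f (a * b) c = f a c + f b c := fun a b c => by
    simp only [f]
    rw [add_comm, ← hinv a.1 a.2 ⟨⁅b.1, c.1⁆, _⟩, ← hχ, ← map_mul]
    congr 2
    exact Subtype.ext (commutatorElement_mul_left_eq_conj_mul _ _ _)
  have f2 : ∀ a b c, f a (b * c) = f a b + f a c := fun a b c => by
    simp only [f]
    rw [← hinv b.1 b.2 ⟨⁅a.1, c.1⁆, _⟩, ← hχ, ← map_mul]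
    congr 2
    exact Subtype.ext (by simp [commutatorElement_def, mul_assoc])
  have f3 : ∀ a b : d.K, a.1 ∈ ⁅d.K, d.K⁆ → f a b = 0 := fun a b ha => by
    simp only [f]
    have : (⟨⁅a.1, b.1⁆, commutator_mem_commutator a.2 b.2⟩ : (⁅d.K, d.K⁆ : Subgroup B)) =
        ⟨a.1, ha⟩ * ⟨b * (⟨a.1, ha⟩⁻¹ : (⁅d.K, d.K⁆ : Subgroup B)) * (b.1)⁻¹,
          Normal.conj_mem inferInstance _ (inv_mem ha) _⟩ :=
      Subtype.ext (by simp [commutatorElement_def, mul_assoc])
    rw [this, map_mul, hinv b.1 b.2]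
    simpa using h0
  have f4 : ∀ a b : d.K, b.1 ∈ ⁅d.K, d.K⁆ → f a b = 0 := fun a b hb => by
    simp only [f]
    have : (⟨⁅a.1, b.1⁆, commutator_mem_commutator a.2 b.2⟩ : (⁅d.K, d.K⁆ : Subgroup B)) =
        ⟨a * (⟨b.1, hb⟩ : (⁅d.K, d.K⁆ : Subgroup B)) * (a.1)⁻¹,
          Normal.conj_mem inferInstance _ hb _⟩ * ⟨b.1, hb⟩⁻¹ :=
      Subtype.ext (by simp [commutatorElement_def, mul_assoc])
    rw [this, map_mul, hinv a.1 a.2]
    simpa using h0
  have g1 : ∀ a a' b : d.K, d.cls a = d.cls a' → f a b = f a' b := fun a a' b h => by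
    have := f1 a (a⁻¹ * a') b
    rw [f3 (a⁻¹ * a') b (d.cls_eq a.2 a'.2 h)] at this
    simpa using this.symm
  have g2 : ∀ a b b' : d.K, d.cls b = d.cls b' → f a b = f a b' := fun a b b' h => by
    have := f2 a b (b⁻¹ * b')
    rw [f4 a (b⁻¹ * b') (d.cls_eq b.2 b'.2 h)] at this
    simpa using this.symm
  choose l hl1 hl2 using d.surj
  refine ⟨AddMonoidHom.mk' (fun m => AddMonoidHom.mk' (fun m' => f ⟨l m, hl1 m⟩ ⟨l m', hl1 m'⟩)
    (fun a b => ?_)) (fun a b => ?_), fun k hk k' hk' => ?_⟩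
  · rw [← f2]
    exact g2 _ _ _ (by simp [d.cls_mul _ (hl1 a) _ (hl1 b), hl2])
  · ext c
    show f _ _ = f _ _ + f _ _
    rw [← f1]
    exact g1 _ _ _ (by simp [d.cls_mul _ (hl1 a) _ (hl1 b), hl2])
  · exact (g1 _ ⟨k, hk⟩ _ (hl2 _)).trans (g2 _ _ ⟨k', hk'⟩ (hl2 _))

end AS

end Pool.Agent.Lib.MP_6fc7a0_al.H26
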