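import Mathlib

open Finset Filter Topology
open scoped Classical

namespace Pool.Agent.Lib.MP_6fc7a0_al

noncomputable def dens {Ω : Type*} (E : Ω → Prop) : ℝ :=
  (Nat.card {ω // E ω} : ℝ) / Nat.card Ω

lemma dens_eq {Ω : Type*} [Fintype Ω] (E : Ω → Prop) [DecidablePred E] :
    dens E = ((univ.filter E).card : ℝ) / Fintype.card Ω := by
  unfold dens
  rw [Nat.card_eq_fintype_card, Nat.card_eq_fintype_card, Fintype.card_subtype]

section basic
variable {Ω : Type*} [Fintype Ω]

omit [Fintype Ω] in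
lemma dens_nonneg (E : Ω → Prop) : 0 ≤ dens E := by unfold dens; positivity

lemma dens_mono {E E' : Ω → Prop} (h : ∀ ω, E ω → E' ω) : dens E ≤ dens E' := by
  rw [dens_eq, dens_eq]
  apply div_le_div_of_nonneg_right _ (by positivity)
  exact_mod_cast card_le_card (fun ω hω => by simp only [mem_filter, mem_univ, true_and] at *; exact h ω hω)

lemma dens_or (E E' : Ω → Prop) : dens (fun ω => E ω ∨ E' ω) ≤ dens E + dens E' := by
  rw [dens_eq, dens_eq, dens_eq]
  rw [← add_div]
  apply div_le_div_of_nonneg_right _ (by positivity)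
  have : (univ.filter fun ω => E ω ∨ E' ω) ⊆ univ.filter E ∪ univ.filter E' := by
    intro ω hω; simpa using hω
  exact_mod_cast (card_le_card this).trans (card_union_le _ _)

lemma dens_exists_le {α : Type*} [Fintype α] (E : α → Ω → Prop) (b : ℝ)
    (h : ∀ a, dens (E a) ≤ b) : dens (fun ω => ∃ a, E a ω) ≤ Fintype.card α * b := by
  have h1 : dens (fun ω => ∃ a, E a ω) ≤ ∑ a, dens (E a) := by
    simp only [dens_eq]
    rw [← sum_div]
    apply div_le_div_of_nonneg_right _ (by positivity)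
    have : (univ.filter fun ω => ∃ a, E a ω) ⊆ univ.biUnion fun a => univ.filter (E a) := by
      intro ω hω; simpa using hω
    exact_mod_cast (card_le_card this).trans card_biUnion_le
  calc _ ≤ ∑ a, dens (E a) := h1
    _ ≤ ∑ _a : α, b := sum_le_sum fun a _ => h a
    _ = _ := by simp

lemma exists_not_of_dens_lt_one [Nonempty Ω] (E : Ω → Prop) (h : dens E < 1) : ∃ ω, ¬ E ω := by
  by_contra hc
  push Not at hc
  have : univ.filter E = univ := by ext ω; simp [hc ω]
  rw [dens_eq] at h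
  rw [this, card_univ, div_self (by positivity)] at h
  exact lt_irrefl _ h

lemma dens_not [Nonempty Ω] (E : Ω → Prop) : dens (fun ω => ¬ E ω) = 1 - dens E := by
  rw [dens_eq, dens_eq]
  have h := card_filter_add_card_filter_not (s := (univ : Finset Ω)) E
  have h0 : (0 : ℝ) < Fintype.card Ω := by positivity
  rw [card_univ] at h
  have h' : ((univ.filter E).card : ℝ) + (univ.filter fun ω => ¬ E ω).card = Fintype.card Ω := by
    exact_mod_cast h
  field_simp
  linarith

lemma dens_equiv {Ω Ω' : Type*} (g : Ω ≃ Ω') (E : Ω' → Prop) :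
    dens (fun ω => E (g ω)) = dens E := by
  unfold dens
  rw [Nat.card_congr g, Nat.card_congr (g.subtypeEquiv (p := fun ω => E (g ω)) (q := E)
    fun _ => Iff.rfl)]

lemma dens_pi_le {α β : Type*} [Fintype α] [Fintype β] (T : α → β → Prop) (b : ℝ)
    (h : ∀ a, dens (T a) ≤ b) :
    dens (fun f : α → β => ∀ a, T a (f a)) ≤ b ^ Fintype.card α := by
  have h1 : dens (fun f : α → β => ∀ a, T a (f a)) = ∏ a, dens (T a) := by
    simp only [dens_eq]
    have : (univ.filter fun f : α → β => ∀ a, T a (f a))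
        = Fintype.piFinset fun a => univ.filter (T a) := by
      ext f; simp
    rw [this, Fintype.card_piFinset, prod_div_distrib]
    simp
  rw [h1]
  calc ∏ a, dens (T a) ≤ ∏ _a : α, b := prod_le_prod (fun a _ => dens_nonneg _) fun a _ => h a
    _ = _ := by simp

lemma dens_prod_le {A B : Type*} [Fintype A] [Fintype B] [Nonempty A] [Nonempty B]
    (E : A → B → Prop) (b : ℝ) (h : ∀ a, dens (E a) ≤ b) :
    dens (fun ω : A × B => E ω.1 ω.2) ≤ b := by
  simp only [dens_eq] at *
  have hA : (0 : ℝ) < Fintype.card A := by positivity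
  have hB : (0 : ℝ) < Fintype.card B := by positivity
  have h1 : (univ.filter fun ω : A × B => E ω.1 ω.2).card = ∑ a, (univ.filter (E a)).card := by
    rw [card_eq_sum_card_fiberwise (f := Prod.fst) (t := univ) (fun _ _ => mem_univ _)]
    apply sum_congr rfl
    intro a _
    apply card_bij (fun ω _ => ω.2)
    · intro ω hω
      simp only [mem_filter, mem_univ, true_and] at hω ⊢
      rw [← hω.2]; exact hω.1
    · intro x hx y hy hxy
      simp only [mem_filter, mem_univ, true_and] at hx hy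
      exact Prod.ext (hx.2.trans hy.2.symm) hxy
    · intro y hy
      exact ⟨(a, y), by simpa using hy, rfl⟩
  rw [h1, Fintype.card_prod, div_le_iff₀ (by push_cast; positivity)]
  push_cast
  calc ∑ a, ((univ.filter (E a)).card : ℝ) ≤ ∑ _a : A, b * Fintype.card B :=
        sum_le_sum fun a _ => (div_le_iff₀ hB).1 (h a)
    _ = _ := by simp; ring

lemma dens_fst_le {A B : Type*} [Fintype A] [Fintype B] [Nonempty A] [Nonempty B]
    (E : A → Prop) : dens (fun ω : A × B => E ω.1) ≤ dens E := by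
  have := dens_prod_le (A := B) (B := A) (fun _ a => E a) (dens E) (fun _ => le_rfl)
  rw [← dens_equiv (Equiv.prodComm A B)] at this
  simpa using this

lemma dens_fiber {β Y : Type*} [Fintype β] [AddCommGroup β] [AddCommGroup Y] (f : β →+ Y)
    (y : Y) (hy : y ∈ f.range) : dens (fun x => f x = y) = 1 / Nat.card f.range := by
  have h1 : (univ.filter fun x => f x = y).card = (univ.filter fun x => f x = 0).card :=
    AddMonoidHom.card_fiber_eq_of_mem_range f hy ⟨0, by simp⟩
  have h2 : (univ.filter fun x => f x = 0).card = Nat.card f.ker := by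
    rw [Nat.card_eq_fintype_card, Fintype.card_subtype]
    congr 1
    ext x; simp
  have h3 := f.ker.card_mul_index
  rw [AddSubgroup.index_ker, Nat.card_eq_fintype_card (α := β)] at h3
  have h4 : (0 : ℝ) < Fintype.card β := by positivity
  have h5 : (Nat.card f.ker : ℝ) * Nat.card f.range = Fintype.card β := by exact_mod_cast h3
  have h6 : (Nat.card f.range : ℝ) ≠ 0 := by
    intro h; rw [h] at h5; simp at h5; exact h4.ne h5
  rw [dens_eq, h1, h2, ← h5]
  have h7 : (Nat.card f.ker : ℝ) ≠ 0 := by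
    intro h; rw [h] at h5; simp at h5; exact h4.ne h5
  field_simp

lemma dens_fiber_ge {β Y : Type*} [Fintype β] [AddCommGroup β] [AddCommGroup Y] [Finite Y]
    (f : β →+ Y) (y : Y) (hy : y ∈ f.range) :
    dens (fun x => ¬ f x = y) ≤ 1 - 1 / Nat.card Y := by
  rw [dens_not, dens_fiber f y hy]
  have h1 : (0 : ℝ) < Nat.card f.range := by exact_mod_cast Nat.card_pos
  have h2 : (Nat.card f.range : ℝ) ≤ Nat.card Y := by
    exact_mod_cast Nat.card_le_card_of_injective _ Subtype.val_injective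
  have := one_div_le_one_div_of_le h1 h2
  linarith

end basic

section events
variable {R : Type*} [CommRing R] [Fintype R]

lemma densR {P : Type*} [AddCommGroup P] [Module R P] [Fintype P] (n m : ℕ) :
    dens (fun ω : (Fin m → Fin n → R) × (Fin m → Fin n → R) =>
      ∃ ν : (Fin n → P) × (Fin n → P), ∀ i,
        ¬ (∑ j, ω.1 i j • ν.1 j + ∑ j, ω.2 i j • ν.2 j = 0))
      ≤ (Fintype.card P : ℝ) ^ (2 * n) * (1 - 1 / Fintype.card P) ^ m := by
  have := dens_exists_le (fun (ν : (Fin n → P) × (Fin n → P))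
    (ω : (Fin m → Fin n → R) × (Fin m → Fin n → R)) => ∀ i,
        ¬ (∑ j, ω.1 i j • ν.1 j + ∑ j, ω.2 i j • ν.2 j = 0)) ((1 - 1 / Fintype.card P) ^ m) ?_
  · refine this.trans (le_of_eq ?_)
    simp [two_mul, pow_add]
  intro ν
  let f : (Fin n → R) × (Fin n → R) →+ P :=
    { toFun := fun x => ∑ j, x.1 j • ν.1 j + ∑ j, x.2 j • ν.2 j
      map_zero' := by simp
      map_add' := by
        intro x y
        simp only [Prod.fst_add, Prod.snd_add, Pi.add_apply, add_smul, sum_add_distrib]
        abel }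
  have h1 := dens_pi_le (α := Fin m) (fun _ x => ¬ f x = 0) _
    (fun _ => dens_fiber_ge f 0 (zero_mem _))
  rw [← dens_equiv (Equiv.arrowProdEquivProdArrow (Fin m) (fun _ => Fin n → R)
    (fun _ => Fin n → R)).symm] at h1
  simpa [f] using h1

lemma densI (n m t : ℕ) :
    dens (fun u : Fin m → Fin n → R =>
      ∃ p : (Fin t → Fin m) × (Fin t → R), (∃ x : Fin m → R, ∀ l, x (p.1 l) = p.2 l) ∧
        ∀ j, ¬ (∀ l, u (p.1 l) j = p.2 l))
      ≤ ((m : ℝ) * Fintype.card R) ^ t * (1 - 1 / (Fintype.card R : ℝ) ^ t) ^ n := by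
  have hR : (1 : ℝ) ≤ (Fintype.card R : ℝ) ^ t :=
    one_le_pow₀ (by exact_mod_cast Fintype.card_pos)
  have hb : (0 : ℝ) ≤ 1 - 1 / (Fintype.card R : ℝ) ^ t := by
    have := (div_le_one (by linarith)).2 hR
    linarith
  have := dens_exists_le (fun (p : (Fin t → Fin m) × (Fin t → R)) (u : Fin m → Fin n → R) =>
    (∃ x : Fin m → R, ∀ l, x (p.1 l) = p.2 l) ∧ ∀ j, ¬ (∀ l, u (p.1 l) j = p.2 l))
    ((1 - 1 / (Fintype.card R : ℝ) ^ t) ^ n) ?_
  · refine this.trans (le_of_eq ?_)
    simp [mul_pow]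
  intro p
  by_cases hp : ∃ x : Fin m → R, ∀ l, x (p.1 l) = p.2 l
  · obtain ⟨x, hx⟩ := hp
    let f : (Fin m → R) →+ (Fin t → R) :=
      { toFun := fun y l => y (p.1 l), map_zero' := rfl, map_add' := fun _ _ => rfl }
    have h1 := dens_pi_le (α := Fin n) (fun _ y => ¬ f y = p.2) _
      (fun _ => dens_fiber_ge f p.2 ⟨x, funext hx⟩)
    rw [← dens_equiv (Equiv.piComm (fun (_ : Fin m) (_ : Fin n) => R))] at h1
    refine (dens_mono ?_).trans (h1.trans (le_of_eq (by simp)))
    intro u hu j hj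
    exact hu.2 j (fun l => congrFun hj l)
  · refine (dens_mono (E' := fun _ => False) (fun u hu => hp hu.1)).trans ?_
    have : (0 : ℝ) ≤ (1 - 1 / (Fintype.card R : ℝ) ^ t) ^ n := pow_nonneg hb n
    simpa [dens] using this

lemma densQ_aux (n m ρ : ℕ) (hρ : ρ ≤ n) {Y : Type*} [AddCommGroup Y] [DecidableEq Y]
    (f : (Fin m → R) →+ Y) (w : ℝ) (hw0 : 1 ≤ w) (hw : w ≤ Nat.card f.range) :
    dens (fun v : Fin m → Fin n → R =>
      (univ.image fun j : Fin n => f (fun i => v i j)).card ≤ ρ) ≤ w ^ ρ * (ρ / w) ^ n := by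
  have : Finite f.range := Finite.of_surjective _ f.rangeRestrict_surjective
  have : Fintype f.range := Fintype.ofFinite _
  set W : ℝ := (Nat.card f.range : ℝ) with hW
  have hW0 : 0 < W := by linarith
  have h1 := dens_exists_le (fun (V : Fin ρ → f.range) (v : Fin m → Fin n → R) =>
    ∀ j, ∃ l, f (fun i => v i j) = V l) ((ρ / W) ^ n) ?_
  · have h2 : dens (fun v : Fin m → Fin n → R =>
        (univ.image fun j : Fin n => f (fun i => v i j)).card ≤ ρ) ≤ W ^ ρ * (ρ / W) ^ n := by
      refine (dens_mono ?_).trans (h1.trans (le_of_eq (by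
        rw [Fintype.card_fun, Fintype.card_fin, hW, Nat.card_eq_fintype_card]; push_cast; rfl)))
      intro v hv
      set I := univ.image fun j : Fin n => f (fun i => v i j) with hI
      have hc : Fintype.card I ≤ Fintype.card (Fin ρ) := by simpa using hv
      obtain ⟨g⟩ := Function.Embedding.nonempty_of_card_le hc
      have hmem : ∀ y : I, (y : Y) ∈ f.range := by
        rintro ⟨y, hy⟩
        obtain ⟨j, -, rfl⟩ := mem_image.1 hy
        exact ⟨_, rfl⟩
      refine ⟨fun l => if h : ∃ y, g y = l then ⟨(h.choose : Y), hmem _⟩ else 0, fun j => ?_⟩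
      have hj : f (fun i => v i j) ∈ I := mem_image.2 ⟨j, mem_univ _, rfl⟩
      refine ⟨g ⟨_, hj⟩, ?_⟩
      have hex : ∃ y, g y = g ⟨_, hj⟩ := ⟨_, rfl⟩
      simp only [dif_pos hex]
      have := g.injective hex.choose_spec
      rw [this]
    refine h2.trans ?_
    obtain ⟨k, rfl⟩ := Nat.exists_eq_add_of_le hρ
    have e1 : ∀ z : ℝ, 0 < z → z ^ ρ * (ρ / z) ^ (ρ + k) = (ρ : ℝ) ^ (ρ + k) / z ^ k := by
      intro z hz; rw [div_pow, pow_add z]; field_simp
    rw [e1 W hW0, e1 w (by linarith)]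
    apply div_le_div_of_nonneg_left (by positivity) (by positivity)
    exact pow_le_pow_left₀ (by linarith) hw k
  intro V
  have h3 := dens_pi_le (α := Fin n) (fun _ (y : Fin m → R) => ∃ l, f y = V l) (ρ / W) (fun _ => by
    refine (dens_exists_le (fun l y => f y = V l) (1 / W) fun l => ?_).trans (le_of_eq ?_)
    · exact (dens_fiber f _ (V l).2).le
    · simp [div_eq_mul_inv])
  rw [← dens_equiv (Equiv.piComm (fun (_ : Fin m) (_ : Fin n) => R))] at h3
  refine (dens_mono ?_).trans (h3.trans (le_of_eq (by simp)))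
  intro v hv j
  exact hv j


/-- the dual-vector property of the rows `u` up to size `t` -/
def Indep {n m : ℕ} (t : ℕ) (u : Fin m → Fin n → R) : Prop :=
  ∀ S : Finset (Fin m), S.card ≤ t → ∀ τ : Fin m → R,
    ∃ s : Fin n → R, ∀ i ∈ S, ∑ j, u i j * s j = τ i

omit [Fintype R] in
lemma indep_of_not {n m t : ℕ} (hm : 0 < m) (u : Fin m → Fin n → R)
    (h : ¬ ∃ p : (Fin t → Fin m) × (Fin t → R), (∃ x : Fin m → R, ∀ l, x (p.1 l) = p.2 l) ∧
        ∀ j, ¬ (∀ l, u (p.1 l) j = p.2 l)) : Indep t u := by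
  intro S hS τ
  have hc : Fintype.card S ≤ Fintype.card (Fin t) := by simpa using hS
  obtain ⟨g⟩ := Function.Embedding.nonempty_of_card_le hc
  let σ : Fin t → Fin m := fun l => if h : ∃ y, g y = l then (h.choose : Fin m) else ⟨0, hm⟩
  have hσ : ∀ i ∈ S, ∃ l, σ l = i := by
    intro i hi
    refine ⟨g ⟨i, hi⟩, ?_⟩
    have hex : ∃ y, g y = g ⟨i, hi⟩ := ⟨_, rfl⟩
    simp only [σ, dif_pos hex]
    rw [g.injective hex.choose_spec]
  push Not at h
  obtain ⟨j, hj⟩ := h (σ, fun l => τ (σ l)) ⟨τ, fun _ => rfl⟩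
  refine ⟨Pi.single j 1, fun i hi => ?_⟩
  obtain ⟨l, rfl⟩ := hσ i hi
  have := hj l
  simp only at this
  rw [← this]
  simp [Pi.single_apply]

/-- the additive map giving the columns -/
def colMap {n m : ℕ} (u : Fin m → Fin n → R) (μ : Fin m → R) : (Fin m → R) →+ (Fin n → R) where
  toFun x := ∑ i, (μ i * x i) • u i
  map_zero' := by simp
  map_add' := by intro x y; simp [mul_add, add_smul, sum_add_distrib]

lemma card_range_colMap {n m k : ℕ} (u : Fin m → Fin n → R) (hu : Indep k u) (μ : Fin m → R)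
    (hμ : k ≤ (univ.filter fun i => μ i ≠ 0).card) :
    (2 : ℝ) ^ k ≤ Nat.card (colMap u μ).range := by
  obtain ⟨S, hS, hcard⟩ := exists_subset_card_eq hμ
  have : Finite (colMap u μ).range := Finite.of_surjective _ (colMap u μ).rangeRestrict_surjective
  let F : S.powerset → (colMap u μ).range := fun T =>
    ⟨colMap u μ (fun i => if i ∈ T.1 then 1 else 0), _, rfl⟩
  have key : ∀ (T : S.powerset), ∀ i ∈ S, ∀ s : Fin n → R,
      (∀ i' ∈ S, ∑ j, u i' j * s j = (Pi.single i 1 : Fin m → R) i') →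
      ∑ j, (F T : Fin n → R) j * s j = if i ∈ T.1 then μ i else 0 := by
    intro T i hi s hs
    have hT : T.1 ⊆ S := mem_powerset.1 T.2
    simp only [F, colMap, AddMonoidHom.coe_mk, ZeroHom.coe_mk, Finset.sum_apply, Pi.smul_apply,
      smul_eq_mul, sum_mul]
    rw [sum_comm]
    have : ∀ i' : Fin m, ∑ j, (μ i' * if i' ∈ T.1 then 1 else 0) * u i' j * s j
        = if i' = i then (if i ∈ T.1 then μ i else 0) else 0 := by
      intro i'
      simp only [mul_assoc, ← mul_sum]
      by_cases h1 : i' ∈ T.1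
      · rw [hs i' (hT h1)]
        by_cases h2 : i' = i
        · subst h2; simp [h1]
        · simp [h2]
      · by_cases h2 : i' = i
        · subst h2; simp [h1]
        · simp [h1, h2]
    simp only [this]
    simp
  have hF : Function.Injective F := by
    intro T T' hTT
    apply Subtype.ext
    ext i
    by_cases hi : i ∈ S
    · obtain ⟨s, hs⟩ := hu S hcard.le (Pi.single i 1)
      have h1 := key T i hi s hs
      have h2 := key T' i hi s hs
      rw [hTT, h2] at h1
      have hne : μ i ≠ 0 := (mem_filter.1 (hS hi)).2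
      by_cases a : i ∈ T.1 <;> by_cases b : i ∈ T'.1 <;> simp_all
    · exact ⟨fun h => (hi (mem_powerset.1 T.2 h)).elim, fun h => (hi (mem_powerset.1 T'.2 h)).elim⟩
  have := Nat.card_le_card_of_injective F hF
  rw [Nat.card_eq_fintype_card, Fintype.card_coe, card_powerset, hcard] at this
  exact_mod_cast this

lemma densQ (n m ρ k : ℕ) (hρ : ρ ≤ n) :
    dens (fun ω : (Fin m → Fin n → R) × (Fin m → Fin n → R) => Indep k ω.1 ∧
      ∃ μ : Fin m → R, k ≤ (univ.filter fun i => μ i ≠ 0).card ∧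
        (univ.image fun j : Fin n => ∑ i, (μ i * ω.2 i j) • ω.1 i).card ≤ ρ)
      ≤ (Fintype.card R : ℝ) ^ m * (((2 : ℝ) ^ k) ^ ρ * (ρ / 2 ^ k) ^ n) := by
  apply dens_prod_le (fun (u : Fin m → Fin n → R) (v : Fin m → Fin n → R) => Indep k u ∧
      ∃ μ : Fin m → R, k ≤ (univ.filter fun i => μ i ≠ 0).card ∧
        (univ.image fun j : Fin n => ∑ i, (μ i * v i j) • u i).card ≤ ρ)
  intro u
  by_cases hu : Indep k u
  · have := dens_exists_le (fun (μ : Fin m → R) (v : Fin m → Fin n → R) =>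
      k ≤ (univ.filter fun i => μ i ≠ 0).card ∧
        (univ.image fun j : Fin n => ∑ i, (μ i * v i j) • u i).card ≤ ρ)
        (((2 : ℝ) ^ k) ^ ρ * (ρ / 2 ^ k) ^ n) ?_
    · refine (dens_mono fun v hv => hv.2).trans (this.trans (le_of_eq (by simp)))
    intro μ
    by_cases hμ : k ≤ (univ.filter fun i => μ i ≠ 0).card
    · have := densQ_aux n m ρ hρ (colMap u μ) (2 ^ k) (one_le_pow₀ (by norm_num))
        (card_range_colMap u hu μ hμ)
      refine (dens_mono fun v hv => ?_).trans this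
      exact hv.2
    · refine (dens_mono (E' := fun _ => False) (fun v hv => hμ hv.1)).trans ?_
      simp only [dens, Nat.card_of_isEmpty, Nat.cast_zero, zero_div]
      positivity
  · refine (dens_mono (E' := fun _ => False) (fun v hv => hu hv.1)).trans ?_
    simp only [dens, Nat.card_of_isEmpty, Nat.cast_zero, zero_div]
    positivity

end events

/-- Random rows lemma. -/
theorem rows (R : Type*) [CommRing R] [Finite R]
    (P : Type*) [AddCommGroup P] [Module R P] [Finite P] (ρ : ℕ) :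
    ∃ t2 : ℕ, ∀ t : ℕ, ∃ (n m : ℕ) (u v : Fin m → Fin n → R), 0 < m ∧
      (∀ ν ν2 : Fin n → P, ∃ i, ∑ j, u i j • ν j + ∑ j, v i j • ν2 j = 0) ∧
      (∀ S : Finset (Fin m), S.card ≤ t → ∀ τ : Fin m → R,
        ∃ s : Fin n → R, ∀ i ∈ S, ∑ j, u i j * s j = τ i) ∧
      (∀ μ : Fin m → R, t2 < {i | μ i ≠ 0}.ncard →
        ρ < (Set.range fun j : Fin n => ∑ i, (μ i * v i j) • u i).ncard) := by
  have : Fintype R := Fintype.ofFinite R
  have : Fintype P := Fintype.ofFinite P
  set p : ℝ := (Fintype.card P : ℝ) with hp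
  set e : ℝ := (Fintype.card R : ℝ) with he
  have hp1 : 1 ≤ p := by rw [hp]; exact_mod_cast Fintype.card_pos
  have he1 : 1 ≤ e := by rw [he]; exact_mod_cast Fintype.card_pos
  have hq0 : 0 ≤ 1 - 1 / p := by have := (div_le_one (by linarith)).2 hp1; linarith
  have hq1 : 1 - 1 / p < 1 := by have : 0 < 1 / p := by positivity
                                 linarith
  obtain ⟨C0, hC0⟩ := exists_pow_lt_of_lt_one (show 0 < 1 / (2 * p ^ 2) by positivity) hq1
  set C := C0 + 1 with hC
  have hCq : p ^ 2 * (1 - 1 / p) ^ C ≤ 1 / 2 := by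
    have h1 : (1 - 1 / p) ^ C ≤ (1 - 1 / p) ^ C0 :=
      pow_le_pow_of_le_one hq0 hq1.le (Nat.le_succ _)
    calc p ^ 2 * (1 - 1 / p) ^ C ≤ p ^ 2 * (1 / (2 * p ^ 2)) := by
          gcongr; exact h1.trans hC0.le
      _ = 1 / 2 := by field_simp
  obtain ⟨k, hk⟩ := pow_unbounded_of_one_lt (2 * e ^ C * ρ) (show (1 : ℝ) < 2 by norm_num)
  refine ⟨k, fun t => ?_⟩
  set T := max t k with hT
  have heT : 1 ≤ e ^ T := one_le_pow₀ he1
  have hr0 : 0 ≤ 1 - 1 / e ^ T := by have := (div_le_one (by linarith)).2 heT; linarith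
  have hr1 : 1 - 1 / e ^ T < 1 := by have : 0 < 1 / e ^ T := by positivity
                                     linarith
  have l1 : Tendsto (fun n : ℕ => (1 / 2 : ℝ) ^ n) atTop (𝓝 0) :=
    tendsto_pow_atTop_nhds_zero_of_lt_one (by norm_num) (by norm_num)
  have l2 := tendsto_pow_const_mul_const_pow_of_abs_lt_one T (r := 1 - 1 / e ^ T)
    (by rw [abs_of_nonneg hr0]; exact hr1)
  have l3 : Tendsto (fun n : ℕ => (1 / 2 : ℝ) ^ n + ((C * e) ^ T * ((n : ℝ) ^ T * (1 - 1 / e ^ T) ^ n)
      + ((2 : ℝ) ^ k) ^ ρ * (1 / 2 : ℝ) ^ n)) atTop (𝓝 0) := by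
    simpa using l1.add ((l2.const_mul ((C * e) ^ T)).add (l1.const_mul (((2 : ℝ) ^ k) ^ ρ)))
  obtain ⟨n, hn, hnρ⟩ := ((l3.eventually (gt_mem_nhds one_pos)).and
    (eventually_ge_atTop (ρ + 1))).exists
  have hm : 0 < C * n := Nat.mul_pos (Nat.succ_pos _) (by omega)
  have bR := densR (R := R) (P := P) n (C * n)
  have bI := (dens_fst_le (B := Fin (C * n) → Fin n → R) _).trans (densI (R := R) n (C * n) T)
  have bQ := densQ (R := R) n (C * n) ρ k (by omega)
  have hlt := (dens_or _ _).trans_lt ((add_le_add bR ((dens_or _ _).trans (add_le_add bI bQ))).trans_lt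
    (lt_of_le_of_lt (add_le_add ?_ (add_le_add ?_ ?_)) hn))
  · obtain ⟨ω, hω⟩ := exists_not_of_dens_lt_one _ hlt
    rw [not_or, not_or] at hω
    obtain ⟨h1, h2, h3⟩ := hω
    have hI := indep_of_not hm ω.1 h2
    refine ⟨n, C * n, ω.1, ω.2, hm, fun ν ν2 => ?_, fun S hS => hI S (hS.trans (le_max_left _ _)),
      fun μ hμ => ?_⟩
    · by_contra hc
      push Not at hc
      exact h1 ⟨(ν, ν2), hc⟩
    · by_contra hc
      refine h3 ⟨fun S hS => hI S (hS.trans (le_max_right _ _)), μ, ?_, ?_⟩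
      · rw [← Set.ncard_coe_finset]
        simpa using hμ.le
      · rw [← Set.ncard_coe_finset]
        simpa using not_lt.1 hc
  · rw [pow_mul, pow_mul, ← mul_pow]
    exact pow_le_pow_left₀ (by positivity) hCq n
  · apply le_of_eq
    push_cast
    rw [← he]; ring
  · rw [pow_mul, mul_left_comm, ← mul_pow]
    apply mul_le_mul_of_nonneg_left _ (by positivity)
    apply pow_le_pow_left₀ (by positivity)
    rw [← he, ← mul_div_assoc, div_le_iff₀ (by positivity)]
    linarith

end Pool.Agent.Lib.MP_6fc7a0_al
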