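import Pool.Agent.Lib.MP_6fc7a0_al.H26Ab
import Pool.Agent.Lib.MP_6fc7a0_al.Rows

set_option autoImplicit false

namespace Pool.Agent.Lib.MP_6fc7a0_al.H26

open Subgroup
open scoped commutatorElement

namespace AS

variable {B M : Type} [Group B] [AddCommGroup M] (d : AS B M) {e : ℕ} [Module (ZMod e) M]
  {n m : ℕ} (u v : Fin m → Fin n → ZMod e) (Y : Subgroup B)

def cc (M : Type) [AddCommGroup M] {e : ℕ} [Module (ZMod e) M] {n m : ℕ}
    (u v : Fin m → Fin n → ZMod e) (i : Fin m) : (Fin n → M) × (Fin n → M) →+ M :=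
  AddMonoidHom.mk' (fun w => ∑ j, u i j • w.1 j + ∑ j, v i j • w.2 j) (fun a b => by
    simp only [Prod.fst_add, Prod.snd_add, Pi.add_apply, smul_add, Finset.sum_add_distrib]
    abel)

theorem cc_apply (i : Fin m) (w : (Fin n → M) × (Fin n → M)) :
    cc M u v i w = ∑ j, u i j • w.1 j + ∑ j, v i j • w.2 j := rfl

theorem cc_left (i : Fin m) (s : Fin n → ZMod e) (a : M) :
    cc M u v i (fun j => s j • a, 0) = (∑ j, u i j * s j) • a := by
  simp [cc_apply, Finset.sum_smul, mul_smul]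

theorem cc_right (i : Fin m) (s : Fin n → ZMod e) (a : M) :
    cc M u v i (0, fun j => s j • a) = (∑ j, v i j * s j) • a := by
  simp [cc_apply, Finset.sum_smul, mul_smul]

theorem cc_act (g : B) (i : Fin m) (w : (Fin n → M) × (Fin n → M)) :
    cc M u v i (fun j => d.act g (w.1 j), fun j => d.act g (w.2 j)) = d.act g (cc M u v i w) := by
  simp [cc_apply, map_sum, ZMod.map_smul]

def Cl (h : Fin m → B) (w : (Fin n → M) × (Fin n → M)) : Prop :=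
  ∀ i, h i ∈ d.K ∧ d.cls (h i) = cc M u v i w

variable {d u v}

theorem Cl.mul {h h' : Fin m → B} {w w' : (Fin n → M) × (Fin n → M)} (h1 : d.Cl u v h w)
    (h2 : d.Cl u v h' w') : d.Cl u v (h * h') (w + w') := fun i =>
  ⟨d.K.mul_mem (h1 i).1 (h2 i).1, by
    rw [Pi.mul_apply, d.cls_mul _ (h1 i).1 _ (h2 i).1, (h1 i).2, (h2 i).2, map_add]⟩

theorem Cl.inv {h : Fin m → B} {w : (Fin n → M) × (Fin n → M)} (h1 : d.Cl u v h w) :
    d.Cl u v h⁻¹ (-w) := fun i =>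
  ⟨d.K.inv_mem (h1 i).1, by rw [Pi.inv_apply, d.cls_inv (h1 i).1, (h1 i).2, map_neg]⟩

theorem Cl.conj {h : Fin m → B} {w : (Fin n → M) × (Fin n → M)} (h1 : d.Cl u v h w) (g : B) :
    d.Cl u v (fun i => g * h i * g⁻¹) (fun j => d.act g (w.1 j), fun j => d.act g (w.2 j)) :=
  fun i => ⟨d.nK.conj_mem _ (h1 i).1 g, by rw [cc_act, ← (h1 i).2, d.act_cls g _ (h1 i).1]⟩

theorem exists_cl (w : (Fin n → M) × (Fin n → M)) : ∃ h, d.Cl u v h w := by
  choose h h1 h2 using fun i => d.surj (cc M u v i w)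
  exact ⟨h, fun i => ⟨h1 i, h2 i⟩⟩

variable (d u v)

def H : Subgroup (Fin m → B) where
  carrier := {h | ∃ y ∈ Y, ∃ w, d.Cl u v (fun i => h i * y⁻¹) w}
  one_mem' := ⟨1, Y.one_mem, 0, fun i => by simp [d.cls_one]⟩
  mul_mem' := by
    rintro a b ⟨y, hy, w, h1⟩ ⟨y', hy', w', h2⟩
    have := h1.mul (h2.conj y)
    have e : ((fun i => a i * y⁻¹) * fun i => y * (b i * y'⁻¹) * y⁻¹) =
        fun i => (a * b) i * (y * y')⁻¹ := by
      funext i; simp [mul_assoc]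
    rw [e] at this
    exact ⟨y * y', Y.mul_mem hy hy', _, this⟩
  inv_mem' := by
    rintro a ⟨y, hy, w, h1⟩
    have := h1.inv.conj y⁻¹
    have e : (fun i => y⁻¹ * ((fun i => a i * y⁻¹)⁻¹ : Fin m → B) i * y⁻¹⁻¹) =
        fun i => a⁻¹ i * y⁻¹⁻¹ := by
      funext i; simp [mul_assoc]
    rw [e] at this
    exact ⟨y⁻¹, Y.inv_mem hy, _, this⟩

variable {d u v Y}

theorem Cl.mem {h : Fin m → B} {w : (Fin n → M) × (Fin n → M)} (h1 : d.Cl u v h w) :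
    h ∈ d.H u v Y := ⟨1, Y.one_mem, w, by simpa using h1⟩

theorem cl_zero {h : Fin m → B} (hh : ∀ i, h i ∈ ⁅d.K, d.K⁆) : d.Cl u v h 0 := fun i =>
  ⟨commutator_le_self _ (hh i), by
    rw [map_zero, d.cls_zero _ (commutator_le_self _ (hh i))]; exact hh i⟩

theorem diag_mem {y : B} (hy : y ∈ Y) : (fun _ => y) ∈ d.H u v Y :=
  ⟨y, hy, 0, fun i => by simp [d.cls_one]⟩

def sig (d : AS B M) {e : ℕ} [Module (ZMod e) M] {n m : ℕ} (u v : Fin m → Fin n → ZMod e)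
    (Y : Subgroup B) (i : Fin m) : (⁅d.K, d.K⁆ : Subgroup B) →* d.H u v Y :=
  ((MonoidHom.mulSingle (fun _ => B) i).comp (Subgroup.subtype _)).codRestrict _ (fun j =>
    (cl_zero (fun i' => by
      by_cases he : i' = i
      · subst he; simp
      · simp [Pi.mulSingle_eq_of_ne he])).mem)

theorem sig_conj (i : Fin m) (h : d.H u v Y) (j : (⁅d.K, d.K⁆ : Subgroup B)) :
    sig d u v Y i ⟨h.1 i * j * (h.1 i)⁻¹, Normal.conj_mem inferInstance _ j.2 _⟩ =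
      h * sig d u v Y i j * h⁻¹ := by
  apply Subtype.ext
  funext e'
  by_cases he : e' = i
  · subst he; simp [sig]
  · simp [sig, Pi.mulSingle_eq_of_ne he]

variable {G : Type} [Group G] [Finite G]

def HI {e n m : ℕ} (u : Fin m → Fin n → ZMod e) (t : ℕ) : Prop :=
  ∀ S : Finset (Fin m), S.card ≤ t → ∀ τ : Fin m → ZMod e,
    ∃ s : Fin n → ZMod e, ∀ i ∈ S, ∑ j, u i j * s j = τ i

theorem few1 {t : ℕ} (hI : HI u t) (ht : Nat.card G + 1 ≤ t) (φ : d.H u v Y →* G) :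
    ∃ T : Finset (Fin m), T.card ≤ Nat.card G ∧ ∀ i ∉ T, ∀ a : M,
      ∃ h : d.H u v Y, φ h = 1 ∧ h.1 i ∈ d.K ∧ d.cls (h.1 i) = a := by
  classical
  let T := Finset.univ.filter (fun i => ¬ ∀ a : M,
      ∃ h : d.H u v Y, φ h = 1 ∧ h.1 i ∈ d.K ∧ d.cls (h.1 i) = a)
  refine ⟨T, ?_, fun i hi => by simpa [T] using hi⟩
  by_contra hc
  obtain ⟨S, hS, hcard⟩ := Finset.exists_subset_card_eq (Nat.succ_le_of_lt (not_le.mp hc))
  have key : ∀ i : S, ∃ (a : M) (h : d.H u v Y) (w : _), d.Cl u v h.1 w ∧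
      (∀ i' ∈ S, cc M u v i' w = if i' = i then a else 0) ∧
      ¬ ∃ h : d.H u v Y, φ h = 1 ∧ h.1 i ∈ d.K ∧ d.cls (h.1 i) = a := by
    intro i
    obtain ⟨a, ha⟩ := not_forall.mp (Finset.mem_filter.mp (hS i.2)).2
    obtain ⟨s, hs⟩ := hI S (hcard.le.trans ht) (fun i' => if i' = i then 1 else 0)
    obtain ⟨h, hh⟩ := exists_cl (d := d) (u := u) (v := v) (fun j => s j • a, 0)
    refine ⟨a, ⟨h, hh.mem⟩, _, hh, fun i' hi' => ?_, ha⟩
    rw [cc_left, hs i' hi']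
    split_ifs <;> simp
  choose a h w h1 h2 h3 using key
  have := Fintype.ofFinite G
  obtain ⟨i, i', hne, he⟩ := Fintype.exists_ne_map_eq_of_card_lt (fun i => φ (h i)) (by
    simp [hcard])
  apply h3 i
  have h4 := (h1 i).mul (h1 i').inv i
  refine ⟨h i * (h i')⁻¹, by simp [he], h4.1, h4.2.trans ?_⟩
  rw [map_add, map_neg, h2 i i i.2, h2 i' i i.2, if_pos rfl, if_neg (fun h => hne (Subtype.ext h))]
  simp

theorem few2 {t : ℕ} (hI : HI u t) (ht : Nat.card G + 1 ≤ t) (φ : d.H u v Y →* G) :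
    ∃ S : Finset (Fin m), S.card ≤ 2 * Nat.card G ∧ ∀ i ∉ S,
      (∀ x y, φ (sig d u v Y i x) * φ (sig d u v Y i y) =
        φ (sig d u v Y i y) * φ (sig d u v Y i x)) ∧
      ∀ k ∈ d.K, ∀ j : (⁅d.K, d.K⁆ : Subgroup B),
        φ (sig d u v Y i ⟨k * j * k⁻¹, Normal.conj_mem inferInstance _ j.2 _⟩) =
          φ (sig d u v Y i j) := by
  classical
  obtain ⟨T1, hT1, h1⟩ := few1 hI ht φ
  let D : Fin m → Subgroup G := fun i => (φ.comp (sig d u v Y i)).range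
  let T2 := Finset.univ.filter (fun e => ¬ ∀ x ∈ D e, ∀ y ∈ D e, x * y = y * x)
  have hT2 : T2.card ≤ Nat.card G := by
    refine comm_family D ?_ _ (fun i hi => (Finset.mem_filter.mp hi).2)
    rintro a b hab _ ⟨x, rfl⟩ _ ⟨y, rfl⟩
    simp only [MonoidHom.comp_apply, ← map_mul]
    congr 1
    exact Subtype.ext (Pi.mulSingle_commute (f := fun _ => B) hab x.1 y.1).eq
  refine ⟨T1 ∪ T2, (Finset.card_union_le _ _).trans (by omega), fun i hi => ?_⟩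
  rw [Finset.mem_union, not_or] at hi
  have he : ∀ x ∈ D i, ∀ y ∈ D i, x * y = y * x := by
    by_contra hc
    exact hi.2 (Finset.mem_filter.mpr ⟨Finset.mem_univ _, hc⟩)
  refine ⟨fun x y => he _ ⟨x, rfl⟩ _ ⟨y, rfl⟩, fun k hk j => ?_⟩
  obtain ⟨h, h2, h3, h4⟩ := h1 i hi.1 (d.cls k)
  have h5 := d.cls_eq h3 hk h4
  have h6 := sig_conj i h (⟨_, h5⟩ * j * ⟨_, h5⟩⁻¹)
  have h7 : (⟨k * j * k⁻¹, Normal.conj_mem inferInstance _ j.2 _⟩ : (⁅d.K, d.K⁆ : Subgroup B)) =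
      ⟨h.1 i * (⟨_, h5⟩ * j * ⟨_, h5⟩⁻¹ : (⁅d.K, d.K⁆ : Subgroup B)) * (h.1 i)⁻¹,
        Normal.conj_mem inferInstance _ (Subtype.prop _) _⟩ := Subtype.ext (by simp [mul_assoc])
  rw [h7, h6]
  simp only [map_mul, map_inv, h2, one_mul, inv_one, mul_one]
  rw [he (φ (sig d u v Y i ⟨_, h5⟩)) ⟨_, rfl⟩ (φ (sig d u v Y i j)) ⟨_, rfl⟩, mul_inv_cancel_right]

theorem few3 [Finite B] [Finite M] [NeZero e] (he : ∀ x : G, x ^ e = 1) {t t2 : ℕ} (hI : HI u t)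
    (ht : Nat.card G + 1 ≤ t)
    (hQ : ∀ μ : Fin m → ZMod e, t2 < {i | μ i ≠ 0}.ncard →
      (Nat.card G * Nat.card B ^ (2 * Nat.card G)) *
        Nat.card (ZMod e) ^ (Nat.card G * Nat.card B ^ (2 * Nat.card G)) <
        (Set.range fun j : Fin n => ∑ i, (μ i * v i j) • u i).ncard)
    (φ : d.H u v Y →* G) :
    ∃ T : Finset (Fin m), T.card ≤ 2 * Nat.card G + Nat.card (M × M × (G → ZMod e)) * t2 ∧
      ∀ i ∉ T, ∀ j, φ (sig d u v Y i j) = 1 := by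
  classical
  obtain ⟨S, hS, h1⟩ := few2 hI ht φ
  let D : Subgroup G := closure {x | ∃ i ∉ S, ∃ j, x = φ (sig d u v Y i j)}
  have hD : ∀ i ∉ S, ∀ j, φ (sig d u v Y i j) ∈ D := fun i hi j => subset_closure ⟨i, hi, j, rfl⟩
  have hcomm : ∀ x ∈ D, ∀ y ∈ D, x * y = y * x := by
    have : IsMulCommutative D := isMulCommutative_closure (by
      rintro _ ⟨i, hi, j, rfl⟩ _ ⟨i', hi', j', rfl⟩
      by_cases h : i = i'
      · subst h; exact (h1 i hi).1 j j'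
      · simp only [← map_mul]
        congr 1
        exact Subtype.ext (Pi.mulSingle_commute (f := fun _ => B) h j.1 j'.1).eq)
    intro x hx y hy
    exact congrArg Subtype.val (this.is_comm.comm (⟨x, hx⟩ : D) ⟨y, hy⟩)
  have hβ : ∀ (χ : G → ZMod e) (i : Fin m), ∃ β : M →+ M →+ ZMod e, (i ∈ S → β = 0) ∧
      ((¬ ∀ x ∈ D, ∀ y ∈ D, χ (x * y) = χ x + χ y) → β = 0) ∧
      (i ∉ S → (∀ x ∈ D, ∀ y ∈ D, χ (x * y) = χ x + χ y) → ∀ k (hk : k ∈ d.K) k' (hk' : k' ∈ d.K),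
        β (d.cls k) (d.cls k') =
          χ (φ (sig d u v Y i ⟨⁅k, k'⁆, commutator_mem_commutator hk hk'⟩))) := by
    intro χ i
    by_cases hc : i ∉ S ∧ ∀ x ∈ D, ∀ y ∈ D, χ (x * y) = χ x + χ y
    · obtain ⟨β, hβ⟩ := d.form (φ.comp (sig d u v Y i)) (h1 i hc.1).2 χ
        (fun x y => hc.2 _ (hD i hc.1 x) _ (hD i hc.1 y))
      exact ⟨β, fun h => absurd h hc.1, fun h => absurd hc.2 h, fun _ _ => hβ⟩
    · exact ⟨0, fun _ => rfl, fun _ => rfl, fun h h' => absurd ⟨h, h'⟩ hc⟩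
  choose β hβ1 hβ2 hβ3 using hβ
  let U : AddSubgroup ((Fin n → M) × (Fin n → M)) :=
    { carrier := {w | ∃ h : d.H u v Y, d.Cl u v h.1 w ∧ φ h = 1 ∧ ∀ i ∈ S, h.1 i = 1}
      zero_mem' := ⟨1, cl_zero (fun i => one_mem _), map_one φ, fun _ _ => rfl⟩
      add_mem' := by
        rintro a b ⟨h, h2, h3, h4⟩ ⟨h', h5, h6, h7⟩
        exact ⟨h * h', h2.mul h5, by simp [h3, h6], fun i hi => by simp [h4 i hi, h7 i hi]⟩
      neg_mem' := by
        rintro a ⟨h, h2, h3, h4⟩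
        exact ⟨h⁻¹, h2.inv, by simp [h3], fun i hi => by simp [h4 i hi]⟩ }
  have hU : ∀ σ : (Fin n → ZMod e) →+ (Fin n → M) × (Fin n → M),
      Nat.card ((Fin n → ZMod e) ⧸ U.comap σ) ≤ Nat.card G * Nat.card B ^ (2 * Nat.card G) := by
    intro σ
    choose h hh using fun s => exists_cl (d := d) (u := u) (v := v) (σ s)
    refine (card_quot_le _ (fun s => (φ ⟨h s, (hh s).mem⟩, fun i : S => h s i)) ?_).trans ?_
    · intro s s' hs
      refine ⟨⟨h s, (hh s).mem⟩ * ⟨h s', (hh s').mem⟩⁻¹, ?_, ?_, fun i hi => ?_⟩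
      · rw [map_sub, sub_eq_add_neg]
        exact (hh s).mul (hh s').inv
      · rw [map_mul, map_inv, (Prod.mk.inj hs).1, mul_inv_cancel]
      · have := congrFun (Prod.mk.inj hs).2 ⟨i, hi⟩
        simp only at this
        simp [this]
    · rw [Nat.card_prod, Nat.card_fun]
      exact Nat.mul_le_mul_left _ (Nat.pow_le_pow_right Nat.card_pos (by simpa using hS))
  have hsum : ∀ χ, ∀ w ∈ U, ∀ w' ∈ U, ∑ i, β χ i (cc M u v i w) (cc M u v i w') = 0 := by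
    intro χ w ⟨h, h2, h3, h4⟩ w' ⟨h', h5, h6, h7⟩
    by_cases hχ : ∀ x ∈ D, ∀ y ∈ D, χ (x * y) = χ x + χ y
    swap
    · simp [hβ2 χ _ hχ]
    have h0 : χ 1 = 0 := by simpa using hχ 1 D.one_mem 1 D.one_mem
    have e1 : ∀ i ∈ S, sig d u v Y i ⟨_, commutator_mem_commutator (h2 i).1 (h5 i).1⟩ = 1 := by
      intro i hi
      rw [← map_one (sig d u v Y i)]
      congr 1
      exact Subtype.ext (by simp [h4 i hi])
    have := prod_char (d.H u v Y) φ D χ hχ ⁅h, h'⁆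
      (fun i => (sig d u v Y i ⟨_, commutator_mem_commutator (h2 i).1 (h5 i).1⟩).2) (fun i => by
        show φ (sig d u v Y i ⟨_, commutator_mem_commutator (h2 i).1 (h5 i).1⟩) ∈ D
        by_cases hi : i ∈ S
        · rw [e1 i hi, map_one]; exact D.one_mem
        · exact hD i hi _)
    rw [map_commutatorElement, h3, commutatorElement_one_left, h0] at this
    rw [this]
    refine Finset.sum_congr rfl (fun i _ => ?_)
    show _ = χ (φ (sig d u v Y i ⟨_, commutator_mem_commutator (h2 i).1 (h5 i).1⟩))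
    by_cases hi : i ∈ S
    · rw [e1 i hi, map_one, h0, hβ1 χ i hi]; rfl
    · rw [← hβ3 χ i hi hχ _ (h2 i).1 _ (h5 i).1, (h2 i).2, (h5 i).2]
  have hsupp : ∀ (p : M × M × (G → ZMod e)), {i | β p.2.2 i p.1 p.2.1 ≠ 0}.ncard ≤ t2 := by
    rintro ⟨a, a', χ⟩
    by_contra hc
    let σ1 : (Fin n → ZMod e) →+ (Fin n → M) × (Fin n → M) :=
      AddMonoidHom.mk' (fun s => (fun j => s j • a, 0)) (fun s s' => by
        ext j <;> simp [add_smul])
    let σ2 : (Fin n → ZMod e) →+ (Fin n → M) × (Fin n → M) :=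
      AddMonoidHom.mk' (fun s => (0, fun j => s j • a')) (fun s s' => by
        ext j <;> simp [add_smul])
    refine (hQ _ (not_le.mp hc)).not_ge (few_cols u v _ _ _ _ (hU σ1) (hU σ2) (fun s hs s' hs' => ?_))
    rw [← hsum χ _ hs _ hs']
    refine Finset.sum_congr rfl (fun i _ => ?_)
    show _ = β χ i (cc M u v i (fun j => s j • a, 0)) (cc M u v i (0, fun j => s' j • a'))
    rw [cc_left, cc_right, ZMod.map_smul, ZMod.map_smul]
    simp only [AddMonoidHom.smul_apply, smul_eq_mul]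
    ring
  have := Fintype.ofFinite (M × M × (G → ZMod e))
  refine ⟨S ∪ Finset.univ.biUnion (fun p : M × M × (G → ZMod e) =>
    Finset.univ.filter (fun i => β p.2.2 i p.1 p.2.1 ≠ 0)), ?_, fun i hi j => ?_⟩
  · refine (Finset.card_union_le _ _).trans (Nat.add_le_add hS ?_)
    refine (Finset.card_biUnion_le_card_mul _ _ t2 (fun p _ => ?_)).trans (by simp)
    have := hsupp p
    rwa [Set.ncard_eq_toFinset_card', Set.toFinset_ofPred] at this
  · rw [Finset.mem_union, not_or] at hi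
    have hz : ∀ χ a a', β χ i a a' = 0 := fun χ a a' => by
      by_contra hne
      exact hi.2 (Finset.mem_biUnion.mpr ⟨(a, a', χ), Finset.mem_univ _, by simpa using hne⟩)
    have : ⁅d.K, d.K⁆ ≤ ((φ.comp (sig d u v Y i)).ker).map (Subgroup.subtype _) := by
      refine commutator_le.mpr (fun k hk k' hk' => ⟨⟨_, commutator_mem_commutator hk hk'⟩, ?_, rfl⟩)
      show φ (sig d u v Y i _) = 1
      by_contra hne
      let _ : CommGroup D := { (inferInstance : Group D) with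
        mul_comm := fun a b => Subtype.ext (hcomm _ a.2 _ b.2) }
      obtain ⟨f, hf⟩ := exists_zmod_char (D := D) e (fun x => Subtype.ext (he x.1))
        (x := ⟨_, hD i hi.1 ⟨_, commutator_mem_commutator hk hk'⟩⟩)
        (fun h => hne (congrArg Subtype.val h))
      let χ : G → ZMod e := fun x => if h : x ∈ D then (f ⟨x, h⟩).toAdd else 0
      have hχ : ∀ x ∈ D, ∀ y ∈ D, χ (x * y) = χ x + χ y := fun x hx y hy => by
        simp only [χ, dif_pos hx, dif_pos hy, dif_pos (D.mul_mem hx hy)]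
        rw [← toAdd_mul, ← map_mul]; rfl
      have := hβ3 χ i hi.1 hχ k hk k' hk'
      rw [hz] at this
      simp only [χ, dif_pos (hD i hi.1 _)] at this
      exact hf (by simpa using this.symm)
    obtain ⟨j', h2, h3⟩ := this j.2
    have : j' = j := Subtype.ext h3
    exact this ▸ h2

def Ext (d : AS B M) (Y0 Y : Subgroup B) (G : Type) [Group G] : Prop :=
  ∀ (N : Subgroup G), (∀ x ∈ N, ∀ y ∈ N, x * y = y * x) → ∀ (g : Y →* G),
    (∀ y : Y, ∀ x ∈ N, g y * x * (g y)⁻¹ ∈ N) → (∀ y : Y, y.1 ∈ d.K → ∀ x ∈ N, g y * x = x * g y) →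
    ∀ lam : B → G, (∀ a ∈ Y, a ∈ d.K → lam a ∈ N) →
    (∀ a ∈ Y, a ∈ d.K → ∀ a' ∈ Y, a' ∈ d.K → lam (a * a') = lam a * lam a') →
    (∀ a ∈ ⁅d.K, d.K⁆, lam a = 1) →
    (∀ y : Y, ∀ a ∈ Y, a ∈ d.K → lam (y * a * (y : B)⁻¹) = g y * lam a * (g y)⁻¹) →
    ∃ ψ : d.K →* G, (∀ k, ψ k ∈ N) ∧
      (∀ y : Y, y.1 ∈ Y0 → ∀ k : d.K,
        ψ ⟨y * k * (y : B)⁻¹, d.nK.conj_mem _ k.2 _⟩ = g y * ψ k * (g y)⁻¹) ∧
      ∀ a (ha : a ∈ d.K), a ∈ Y0 → ψ ⟨a, ha⟩ = lam a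

omit [Finite G] in
theorem kill_diag {Y0 : Subgroup B} (h0 : Y0 ≤ Y) (hY : ⁅d.K, d.K⁆ ≤ Y)
    (gen : ∀ x, ∃ k ∈ d.K, ∃ y ∈ Y0, x = k * y) (hE : d.Ext Y0 Y G) {t : ℕ} (hI : HI u t)
    {b : B} (hb : b ∈ Y0) (hR : ∀ f : B →* G, f b = 1) (φ : d.H u v Y →* G)
    (T : Finset (Fin m)) (hT : T.card ≤ t) (h1 : ∀ i ∉ T, ∀ j, φ (sig d u v Y i j) = 1) :
    φ ⟨_, diag_mem (h0 hb)⟩ = 1 := by
  classical
  obtain ⟨s, hs⟩ := hI T hT (fun _ => 1)
  have kill : ∀ z : d.H u v Y, (∀ i, z.1 i ∈ ⁅d.K, d.K⁆) → (∀ i ∈ T, z.1 i = 1) → φ z = 1 := by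
    intro z h2 h3
    obtain ⟨_, h4⟩ := kill_prod _ φ z.1 (fun i => ⟨(sig d u v Y i ⟨_, h2 i⟩).2, by
      show φ (sig d u v Y i ⟨_, h2 i⟩) = 1
      by_cases hi : i ∈ T
      · have : (⟨_, h2 i⟩ : (⁅d.K, d.K⁆ : Subgroup B)) = 1 := Subtype.ext (h3 i hi)
        rw [this, map_one, map_one]
      · exact h1 i hi _⟩)
    exact h4
  let P : Subgroup (d.K × d.H u v Y) :=
    { carrier := {p | d.Cl u v p.2.1 (fun j => s j • d.cls p.1, 0) ∧ ∀ i ∈ T, p.2.1 i = p.1}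
      one_mem' := ⟨by
        have : ((fun j => s j • d.cls (1 : d.K × d.H u v Y).1, 0) : (Fin n → M) × (Fin n → M)) = 0 := by
          ext j <;> simp [d.cls_one]
        rw [this]
        exact cl_zero (fun _ => one_mem _), fun _ _ => rfl⟩
      mul_mem' := by
        rintro a b ⟨h2, h3⟩ ⟨h4, h5⟩
        refine ⟨?_, fun i hi => by simp [h3 i hi, h5 i hi]⟩
        have : ((fun j => s j • d.cls (a * b).1, 0) : (Fin n → M) × (Fin n → M)) =
            (fun j => s j • d.cls a.1, 0) + (fun j => s j • d.cls b.1, 0) := by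
          ext j <;> simp [d.cls_mul _ a.1.2 _ b.1.2]
        rw [this]
        exact h2.mul h4
      inv_mem' := by
        rintro a ⟨h2, h3⟩
        refine ⟨?_, fun i hi => by simp [h3 i hi]⟩
        have : ((fun j => s j • d.cls a⁻¹.1, 0) : (Fin n → M) × (Fin n → M)) =
            - (fun j => s j • d.cls a.1, 0) := by
          ext j <;> simp [d.cls_inv a.1.2]
        rw [this]
        exact h2.inv }
  have hP : ∀ k, ∃ h, (k, h) ∈ P := fun k => by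
    obtain ⟨h, hh⟩ := exists_cl (d := d) (u := u) (v := v) (fun j => s j • d.cls k, 0)
    have : d.Cl u v (fun i => if i ∈ T then k.1 else h i) (fun j => s j • d.cls k, 0) := fun i => by
      by_cases hi : i ∈ T
      · simp only [if_pos hi]
        exact ⟨k.2, by rw [cc_left, hs i hi, one_smul]⟩
      · simp only [if_neg hi]
        exact hh i
    exact ⟨⟨_, this.mem⟩, this, fun i hi => if_pos hi⟩
  have hP1 : ∀ (k : d.K) h, (k, h) ∈ P → k.1 ∈ ⁅d.K, d.K⁆ → ∀ i, h.1 i ∈ ⁅d.K, d.K⁆ := by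
    intro k h hh hk i
    rw [← d.cls_zero _ (hh.1 i).1, (hh.1 i).2, cc_left, (d.cls_zero _ k.2).mpr hk, smul_zero]
  obtain ⟨fK, hfK⟩ := graph_hom' P φ hP (fun h hh => kill h (hP1 1 h hh (one_mem _)) hh.2)
  let Δ : Y →* d.H u v Y :=
    ((MonoidHom.pi (fun _ => MonoidHom.id B)).comp Y.subtype).codRestrict _ (fun y => diag_mem y.2)
  have hΔ : ∀ (y : Y) i, (Δ y).1 i = y := fun _ _ => rfl
  let Z : Subgroup (d.H u v Y) :=
    { carrier := {z | (∀ i, z.1 i ∈ d.K) ∧ ∀ i ∈ T, z.1 i = 1}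
      one_mem' := ⟨fun _ => one_mem _, fun _ _ => rfl⟩
      mul_mem' := fun {a b} ha hb =>
        ⟨fun i => mul_mem (ha.1 i) (hb.1 i), fun i hi => by simp [ha.2 i hi, hb.2 i hi]⟩
      inv_mem' := fun {a} ha => ⟨fun i => inv_mem (ha.1 i), fun i hi => by simp [ha.2 i hi]⟩ }
  have cz : ∀ h : d.H u v Y, (∀ i, h.1 i ∈ d.K) → ∀ x ∈ Z.map φ, φ h * x = x * φ h := by
    rintro h hh _ ⟨z, hz, rfl⟩
    rw [← commutatorElement_eq_one_iff_mul_comm, ← map_commutatorElement]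
    refine kill _ (fun i => commutator_mem_commutator (hh i) (hz.1 i)) (fun i hi => ?_)
    show ⁅h.1 i, z.1 i⁆ = 1
    rw [hz.2 i hi, commutatorElement_one_right]
  have cz' : ∀ k, ∀ x ∈ Z.map φ, fK k * x = x * fK k := fun k x hx => by
    obtain ⟨h, hh⟩ := hP k
    rw [hfK k h hh]
    exact cz h (fun i => (hh.1 i).1) x hx
  have heq : ∀ (y : Y) (k : d.K), fK ⟨y * k * (y : B)⁻¹, d.nK.conj_mem _ k.2 _⟩ =
      φ (Δ y) * fK k * (φ (Δ y))⁻¹ := fun y k => by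
    obtain ⟨h, hh⟩ := hP k
    rw [hfK k h hh, ← map_inv, ← map_mul, ← map_mul]
    refine hfK _ _ ⟨?_, fun i hi => by simp [hΔ, show h.1 i = k.1 from hh.2 i hi]⟩
    have := hh.1.conj y
    simp only [ZMod.map_smul, Pi.zero_apply, map_zero, d.act_cls _ _ k.2] at this
    exact this
  let lam : B → G := fun a =>
    if h : a ∈ Y ∧ a ∈ d.K then (fK ⟨a, h.2⟩)⁻¹ * φ (Δ ⟨a, h.1⟩) else 1
  have hlam : ∀ a (h : a ∈ Y) (h' : a ∈ d.K), lam a = (fK ⟨a, h'⟩)⁻¹ * φ (Δ ⟨a, h⟩) :=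
    fun a h h' => dif_pos ⟨h, h'⟩
  have hlamN : ∀ a ∈ Y, a ∈ d.K → lam a ∈ Z.map φ := fun a h h' => by
    obtain ⟨x, hx⟩ := hP ⟨a, h'⟩
    rw [hlam a h h', hfK _ x hx]
    exact ⟨x⁻¹ * Δ ⟨a, h⟩, ⟨fun i => mul_mem (inv_mem (hx.1 i).1) h', fun i hi => by
      simp [hΔ, show x.1 i = a from hx.2 i hi]⟩, by simp⟩
  obtain ⟨ψ, hψ1, hψ2, hψ3⟩ := hE (Z.map φ) (by
      rintro _ ⟨z, hz, rfl⟩ x hx
      exact cz z hz.1 x hx) (φ.comp Δ) (by
      rintro y _ ⟨z, hz, rfl⟩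
      exact ⟨Δ y * z * (Δ y)⁻¹, ⟨fun i => d.nK.conj_mem _ (hz.1 i) _, fun i hi => by
        simp [hz.2 i hi]⟩, by simp⟩)
    (fun y hy x hx => cz (Δ y) (fun _ => hy) x hx) lam hlamN (fun a h h' a' h2 h2' => by
      have e := cz' ⟨a', h2'⟩⁻¹ _ (hlamN a h h')
      rw [hlam a' h2 h2', ← mul_assoc, ← map_inv, ← e, hlam a h h',
        hlam _ (mul_mem h h2) (mul_mem h' h2')]
      have e1 : (⟨a * a', mul_mem h' h2'⟩ : d.K) = ⟨a, h'⟩ * ⟨a', h2'⟩ := rfl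
      have e2 : (⟨a * a', mul_mem h h2⟩ : Y) = ⟨a, h⟩ * ⟨a', h2⟩ := rfl
      rw [e1, e2]
      simp only [map_mul, map_inv, mul_inv_rev, mul_assoc]) (fun a ha => by
      obtain ⟨x, hx⟩ := hP ⟨a, commutator_le_self _ ha⟩
      rw [hlam a (hY ha) (commutator_le_self _ ha), hfK _ x hx, ← map_inv, ← map_mul]
      exact kill _ (fun i => mul_mem (inv_mem (hP1 _ x hx ha i)) ha) (fun i hi => by
        simp [hΔ, show x.1 i = a from hx.2 i hi])) (fun y a h h' => by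
      rw [hlam a h h', hlam _ (mul_mem (mul_mem y.2 h) (inv_mem y.2)) (d.nK.conj_mem _ h' _),
        heq y ⟨a, h'⟩]
      have e2 : (⟨y * a * (y : B)⁻¹, mul_mem (mul_mem y.2 h) (inv_mem y.2)⟩ : Y) =
        y * ⟨a, h⟩ * y⁻¹ := rfl
      rw [e2]
      simp [mul_assoc])
  obtain ⟨F, hF⟩ := glue d.K Y0 gen (MonoidHom.mk' (fun k => fK k * ψ k) (fun a b => by
      rw [map_mul, map_mul, mul_assoc, mul_assoc, ← mul_assoc (fK b), cz' b _ (hψ1 a), mul_assoc]))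
    ((φ.comp Δ).comp (inclusion h0)) (fun a hk hy => by
      show fK _ * ψ _ = φ (Δ ⟨a, h0 hy⟩)
      rw [hψ3 a hk hy, hlam a (h0 hy) hk, mul_inv_cancel_left]) (fun k y => by
      show fK _ * ψ _ = φ (Δ ⟨y, h0 y.2⟩) * (fK k * ψ k) * (φ (Δ ⟨y, h0 y.2⟩))⁻¹
      rw [heq ⟨y, h0 y.2⟩ k, hψ2 ⟨y, h0 y.2⟩ y.2 k]
      simp [mul_assoc])
  exact (hF ⟨b, hb⟩).symm.trans (hR F)

theorem nice [Finite B] [Finite M] (d : AS B M) [Module (ZMod (Nat.card G)) M]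
    {Y0 Y : Subgroup B} (h0 : Y0 ≤ Y) (hY : ⁅d.K, d.K⁆ ≤ Y) (hYt : Y ≠ ⊤)
    (gen : ∀ x, ∃ k ∈ d.K, ∃ y ∈ Y0, x = k * y) (hE : d.Ext Y0 Y G)
    {b : B} (hb : b ∈ Y0) (hR : ∀ f : B →* G, f b = 1) : Nice G d.K b := by
  have : NeZero (Nat.card G) := ⟨Nat.card_pos.ne'⟩
  obtain ⟨t2, ht2⟩ := rows (ZMod (Nat.card G)) (B → M)
    ((Nat.card G * Nat.card B ^ (2 * Nat.card G)) *
        Nat.card (ZMod (Nat.card G)) ^ (Nat.card G * Nat.card B ^ (2 * Nat.card G)))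
  obtain ⟨n, m, u, v, hm, h1, h2, h3⟩ := ht2
    (2 * Nat.card G + Nat.card (M × M × (G → ZMod (Nat.card G))) * t2 + 1)
  refine ⟨Fin m, inferInstance, ⟨⟨0, hm⟩⟩, d.H u v Y, diag_mem (h0 hb), fun φ => ?_,
    fun h hh i j => ?_, fun f hf => ?_⟩
  · obtain ⟨T, hT, h4⟩ := few3 (fun _ => pow_card_eq_one') h2 (by omega) h3 φ
    exact kill_diag h0 hY gen hE h2 hb hR φ T (hT.trans (Nat.le_succ _)) h4
  · obtain ⟨y, -, w, hw⟩ := hh
    have := d.nK.conj_mem _ (mul_mem (inv_mem (hw i).1) (hw j).1) y⁻¹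
    simpa [mul_assoc] using this
  · choose y hy w hw using hf
    obtain ⟨i, hi⟩ := h1 (fun j x => (w x).1 j) (fun j x => (w x).2 j)
    refine ⟨i, Y, hYt, fun x => ?_⟩
    have h4 : d.cls (f x i * (y x)⁻¹) = 0 := by
      rw [(hw x i).2, cc_apply]
      simpa using congrFun hi x
    simpa using mul_mem (hY ((d.cls_zero _ (hw x i).1).mp h4)) (hy x)

end AS

end Pool.Agent.Lib.MP_6fc7a0_al.H26
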