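import Pool.Agent.Lib.MP_6fc7a0_al.H26Laws

set_option autoImplicit false

namespace Pool.Agent.Lib.MP_6fc7a0_al.H26

open Subgroup
open scoped commutatorElement

variable {G : Type} [Group G]

theorem exists_minN {P : Type} [Group P] [Finite P] (h : (⊤ : Subgroup P) ≠ ⊥) :
    ∃ X : Subgroup P, MinN X := by
  obtain ⟨X, ⟨h1, h2⟩, hmin⟩ := (wellFounded_lt (α := Subgroup P)).has_min
    {S : Subgroup P | S.Normal ∧ S ≠ ⊥} ⟨⊤, inferInstance, h⟩
  refine ⟨X, h1, h2, fun N hN hle => ?_⟩
  by_cases hb : N = ⊥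
  · exact Or.inl hb
  · exact Or.inr (eq_of_le_of_not_lt hle (hmin N ⟨hN, hb⟩))

theorem solv_of_kill [Finite G] (n : ℕ) : ∀ (P : Type) [Group P] [Finite P], Nat.card P ≤ n →
    Law G (kc G) P → ∀ F : Subgroup P,
    (∀ f : P →* Equiv.Perm (Fin (Nat.card G)), F ≤ f.ker) → ∃ j, der F j = ⊥ := by
  induction n with
  | zero =>
    intro P _ _ h
    have : 0 < Nat.card P := Nat.card_pos
    omega
  | succ n ih =>
    intro P _ _ hc hL F hF
    by_cases h : (⊤ : Subgroup P) = ⊥
    · exact ⟨0, eq_bot_iff.mpr (h ▸ le_top)⟩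
    obtain ⟨X, hX⟩ := exists_minN h
    have hXn := hX.1
    obtain ⟨h1, h2⟩ := hX.index_le hL
    obtain ⟨f, hf⟩ := exists_perm_hom (centralizer (X : Set P)) _ h2
    have hFC : F ≤ centralizer (X : Set P) := hf ▸ hF f
    have hcard : Nat.card (P ⧸ X) ≤ n := by
      have e := X.card_eq_card_quotient_mul_card_subgroup
      have h3 : 1 < Nat.card X := (one_lt_card_iff_ne_bot X).mpr hX.2.1
      have h4 : 0 < Nat.card (P ⧸ X) := Nat.card_pos
      nlinarith
    obtain ⟨j, hj⟩ := ih (P ⧸ X) hcard (hL.quot X) (F.map (QuotientGroup.mk' X)) (by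
      intro g
      rintro _ ⟨x, hx, rfl⟩
      exact hF (g.comp (QuotientGroup.mk' X)) hx)
    rw [← map_der, Subgroup.map_eq_bot_iff, QuotientGroup.ker_mk'] at hj
    refine ⟨j + 1, ?_⟩
    rw [der_succ, commutator_eq_bot_iff_le_centralizer]
    exact ((der_le F j).trans hFC).trans (centralizer_le hj)

theorem finite_hom {P X : Type} [Group P] [Group X] [h : Group.FG P] [Finite X] :
    Finite (P →* X) := by
  obtain ⟨s, hs⟩ := h.out
  refine Finite.of_injective (fun (f : P →* X) (x : s) => f x) (fun f g hfg => ?_)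
  exact MonoidHom.eq_of_eqOn_dense hs (fun x hx => congrFun hfg ⟨x, hx⟩)

theorem finite_comm [Finite G] {P : Type} [Group P] [Group.FG P] (hL : Law G 1 P)
    (hc : ∀ a b : P, a * b = b * a) : Finite P := by
  let _ : CommGroup P := { (inferInstance : Group P) with mul_comm := hc }
  apply CommGroup.finite_of_fg_isMulTorsion
  intro x
  exact isOfFinOrder_iff_pow_eq_one.mpr ⟨Nat.card G, Nat.card_pos, hL.pow le_rfl x⟩

theorem finiteIndex_der [Finite G] {P : Type} [Group P] [Group.FG P] (hL : Law G 1 P)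
    (H : Subgroup P) [h : H.FiniteIndex] (n : ℕ) : (der H n).FiniteIndex := by
  induction n with
  | zero => exact h
  | succ n ih =>
    set N := der H n
    have h1 : Finite (N ⧸ _root_.commutator N) := by
      refine finite_comm ((hL.subgroup N).quot _) ?_
      have := (Normal.quotient_commutative_iff_commutator_le
        (N := _root_.commutator N)).mpr le_rfl
      exact fun a b => this.is_comm.comm a b
    have h2 : (_root_.commutator N).FiniteIndex := finiteIndex_of_finite_quotient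
    rw [der_succ, ← map_subtype_commutator]
    exact ⟨by rw [index_map_subtype]; exact mul_ne_zero h2.1 ih.1⟩

theorem exists_max_normal {P : Type} [Group P] [h : Group.FG P] (hne : (⊤ : Subgroup P) ≠ ⊥) :
    ∃ M : Subgroup P, M.Normal ∧ M ≠ ⊤ ∧ ∀ N : Subgroup P, N.Normal → M ≤ N → N = M ∨ N = ⊤ := by
  obtain ⟨s, hs⟩ := h.out
  obtain ⟨M, -, hM⟩ := zorn_le_nonempty₀ {S : Subgroup P | S.Normal ∧ S ≠ ⊤} (by
    intro c hc hch y hy
    have hd : DirectedOn (· ≤ ·) c := hch.directedOn
    refine ⟨sSup c, ⟨⟨fun n hn g => ?_⟩, fun ht => ?_⟩, fun z hz => le_sSup hz⟩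
    · obtain ⟨S, hS, hn⟩ := (mem_sSup_of_directedOn ⟨y, hy⟩ hd).mp hn
      exact (le_sSup hS : S ≤ _) ((hc hS).1.conj_mem n hn g)
    · have key : ∀ t : Finset P, ∃ S ∈ c, (t : Set P) ⊆ S := by
        classical
        intro t
        induction t using Finset.induction_on with
        | empty => exact ⟨y, hy, by simp⟩
        | insert a t _ ih =>
          obtain ⟨S, hS, h1⟩ := ih
          obtain ⟨T, hT, h2⟩ := (mem_sSup_of_directedOn ⟨y, hy⟩ hd).mp
            (show a ∈ sSup c by rw [ht]; trivial)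
          obtain ⟨U, hU, h3, h4⟩ := hd S hS T hT
          refine ⟨U, hU, ?_⟩
          rw [Finset.coe_insert]
          exact Set.insert_subset (h4 h2) (h1.trans h3)
      obtain ⟨S, hS, h1⟩ := key s
      exact (hc hS).2 (eq_top_iff.mpr (hs ▸ (closure_le _).mpr h1))) ⊥
      ⟨inferInstance, hne.symm⟩
  refine ⟨M, hM.prop.1, hM.prop.2, fun N hN hle => ?_⟩
  by_cases ht : N = ⊤
  · exact Or.inr ht
  · exact Or.inl (le_antisymm (hM.le_of_ge ⟨hN, ht⟩ hle) hle)

/-- a maximal normal subgroup has index at most the order of `G` -/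
theorem max_normal_index [Finite G] {P : Type} [Group P] [Group.FG P] (hL : Law G (kc G) P)
    (M : Subgroup P) [M.Normal] (hM : M ≠ ⊤)
    (hmax : ∀ N : Subgroup P, N.Normal → M ≤ N → N = M ∨ N = ⊤) :
    M.FiniteIndex ∧ M.index ≤ Nat.card G := by
  have hL1 : Law G 1 (P ⧸ M) := (hL.quot M).mono (by unfold kc; omega)
  have hsimp : ∀ N : Subgroup (P ⧸ M), N.Normal → N = ⊥ ∨ N = ⊤ := by
    intro N hN
    rcases hmax (N.comap (QuotientGroup.mk' M)) inferInstance (by
      intro x hx
      rw [mem_comap, QuotientGroup.mk'_apply, (QuotientGroup.eq_one_iff x).mpr hx]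
      exact N.one_mem) with h | h
    · left
      rw [eq_bot_iff_forall]
      intro x hx
      obtain ⟨y, rfl⟩ := QuotientGroup.mk'_surjective M x
      have : y ∈ M := h ▸ hx
      exact (QuotientGroup.eq_one_iff y).mpr this
    · right
      rw [eq_top_iff]
      intro x _
      obtain ⟨y, rfl⟩ := QuotientGroup.mk'_surjective M x
      have : y ∈ N.comap (QuotientGroup.mk' M) := by rw [h]; trivial
      exact this
  have hnt : (⊤ : Subgroup (P ⧸ M)) ≠ ⊥ := by
    intro h
    apply hM
    rw [eq_top_iff]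
    intro x _
    have : (x : P ⧸ M) ∈ (⊥ : Subgroup (P ⧸ M)) := by rw [← h]; trivial
    exact (QuotientGroup.eq_one_iff x).mp (mem_bot.mp this)
  have hX : MinN (⊤ : Subgroup (P ⧸ M)) := ⟨inferInstance, hnt, fun N hN _ => hsimp N hN⟩
  obtain ⟨h1, h2⟩ := hX.index_le (hL.quot M)
  rcases hsimp (centralizer ((⊤ : Subgroup (P ⧸ M)) : Set (P ⧸ M))) inferInstance with h | h
  · rw [h] at h1 h2
    rw [index_bot] at h2
    have : Finite (P ⧸ M) := by
      have := h1.1
      rw [index_bot] at this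
      exact Nat.finite_of_card_ne_zero this
    exact ⟨finiteIndex_of_finite_quotient, h2⟩
  · have hc : ∀ a b : P ⧸ M, a * b = b * a := by
      intro a b
      have : b ∈ centralizer ((⊤ : Subgroup (P ⧸ M)) : Set (P ⧸ M)) := by rw [h]; trivial
      exact mem_centralizer_iff.mp this a trivial
    have hf : Finite (P ⧸ M) := finite_comm hL1 hc
    refine ⟨finiteIndex_of_finite_quotient, ?_⟩
    obtain ⟨x, hx⟩ : ∃ x : P ⧸ M, x ≠ 1 := by
      by_contra hx
      push Not at hx
      exact hnt ((eq_bot_iff_forall _).mpr (fun y _ => hx y))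
    have hz : zpowers x = ⊤ := by
      rcases hsimp (zpowers x) ⟨fun n hn g => by rw [hc g n]; simpa using hn⟩ with h | h
      · exact absurd (zpowers_eq_bot.mp h) hx
      · exact h
    have e : Nat.card (P ⧸ M) = orderOf x := by
      rw [← Nat.card_zpowers, hz, card_top]
    show Nat.card (P ⧸ M) ≤ _
    rw [e]
    exact orderOf_le_of_pow_eq_one Nat.card_pos (hL1.pow le_rfl x)

/-- enough variables for all structural laws -/
noncomputable def kl (G : Type) : ℕ := kc G + 2 ^ Nat.card G

theorem law_finite [Finite G] {P : Type} [Group P] [Group.FG P] (hL : Law G (kl G) P) :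
    Finite P := by
  have hLc : Law G (kc G) P := hL.mono (Nat.le_add_right _ _)
  have hL1 : Law G 1 P := hLc.mono (by unfold kc; omega)
  have hLd : Law G (2 ^ Nat.card G) P := hL.mono (Nat.le_add_left _ _)
  have := finite_hom (P := P) (X := Equiv.Perm (Fin (Nat.card G)))
  let H1 : Subgroup P := ⨅ f : P →* Equiv.Perm (Fin (Nat.card G)), f.ker
  have h1 : H1.FiniteIndex := finiteIndex_iInf (fun f => inferInstance)
  have h2 := finiteIndex_der hL1 H1 (Nat.card G)
  set H2 := der H1 (Nat.card G) with hH2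
  by_cases hb : (⊤ : Subgroup H2) = ⊥
  · have : H2 = ⊥ := by
      rw [eq_bot_iff_forall]
      intro x hx
      have : (⟨x, hx⟩ : H2) ∈ (⊥ : Subgroup H2) := by rw [← hb]; trivial
      exact congrArg Subtype.val (mem_bot.mp this)
    have h3 := h2.1
    rw [this, index_bot] at h3
    exact Nat.finite_of_card_ne_zero h3
  exfalso
  obtain ⟨M, hMn, hM, hmax⟩ := exists_max_normal hb
  obtain ⟨h3, -⟩ := max_normal_index (hLc.subgroup H2) M hM hmax
  have h4 : (M.map H2.subtype).FiniteIndex :=
    ⟨by rw [index_map_subtype]; exact mul_ne_zero h3.1 h2.1⟩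
  set C := (M.map H2.subtype).normalCore
  have : Finite (P ⧸ C) := finite_quotient_of_finiteIndex
  obtain ⟨j, hj⟩ := solv_of_kill _ (P ⧸ C) le_rfl (hLc.quot C) (H1.map (QuotientGroup.mk' C)) (by
    intro g
    rintro _ ⟨x, hx, rfl⟩
    exact mem_iInf.mp hx (g.comp (QuotientGroup.mk' C)))
  have := solvable_of_der _ _ hj
  have h5 := ((hLd.quot C).subgroup (H1.map (QuotientGroup.mk' C))).der_bot
  have h6 : der (H1.map (QuotientGroup.mk' C)) (Nat.card G) = ⊥ := by
    rw [der_eq_map, h5, Subgroup.map_bot]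
  rw [← map_der, Subgroup.map_eq_bot_iff, QuotientGroup.ker_mk'] at h6
  apply hM
  rw [eq_top_iff]
  intro x _
  obtain ⟨y, hy, e⟩ := normalCore_le _ (h6 x.2)
  have : y = x := Subtype.ext e
  exact this ▸ hy

theorem law_bound (G : Type) [Group G] [Finite G] :
    ∃ k, ∀ r, ∃ N, ∀ (P : Type) [Group P], Law G k P → ∀ s : Finset P, s.card ≤ r →
      Finite (closure (s : Set P)) ∧ Nat.card (closure (s : Set P)) ≤ N := by
  refine ⟨kl G, fun r => ?_⟩
  let N0 : Subgroup (FreeGroup (Fin r)) :=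
    { carrier := {w | ∀ (P : Type) [Group P], Law G (kl G) P →
        ∀ f : FreeGroup (Fin r) →* P, f w = 1}
      one_mem' := fun P _ _ f => map_one f
      mul_mem' := fun ha hb P _ hP f => by rw [map_mul, ha P hP f, hb P hP f, one_mul]
      inv_mem' := fun ha P _ hP f => by rw [map_inv, ha P hP f, inv_one] }
  have hN0 : N0.Normal := ⟨fun n hn g P _ hP f => by
    rw [map_mul, map_mul, hn P hP f]; simp⟩
  have hL : Law G (kl G) (FreeGroup (Fin r) ⧸ N0) := by
    intro ι _ hι p w hw
    choose p' hp' using fun i => QuotientGroup.mk'_surjective N0 (p i)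
    have : p = fun i => QuotientGroup.mk' N0 (p' i) := funext fun i => (hp' i).symm
    rw [this, ← map_lift, QuotientGroup.mk'_apply, QuotientGroup.eq_one_iff]
    intro P _ hP f
    rw [map_lift]
    exact hP ι hι _ w hw
  have hf := law_finite hL
  refine ⟨Nat.card (FreeGroup (Fin r) ⧸ N0), fun P _ hP s hs => ?_⟩
  obtain ⟨p, hp⟩ : ∃ p : Fin r → P, ∀ x ∈ s, ∃ i, p i = x := by
    let e := s.equivFin
    refine ⟨fun i => if h : i.1 < s.card then (e.symm ⟨i.1, h⟩).1 else 1, fun x hx => ?_⟩
    refine ⟨⟨(e ⟨x, hx⟩).1, (e ⟨x, hx⟩).2.trans_le hs⟩, ?_⟩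
    simp
  let F : FreeGroup (Fin r) ⧸ N0 →* P :=
    QuotientGroup.lift N0 (FreeGroup.lift p) (fun w hw => hw P hP _)
  have hle : closure (s : Set P) ≤ F.range := (closure_le _).mpr (fun x hx => by
    obtain ⟨i, rfl⟩ := hp x hx
    exact ⟨QuotientGroup.mk (FreeGroup.of i), (QuotientGroup.lift_mk' _ _ _).trans (by simp)⟩)
  have h1 : Finite F.range := Finite.of_surjective _ F.rangeRestrict_surjective
  refine ⟨Finite.of_injective _ (inclusion_injective hle), ?_⟩
  exact (Nat.card_le_card_of_injective _ (inclusion_injective hle)).trans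
    (Nat.card_le_card_of_surjective _ F.rangeRestrict_surjective)

end Pool.Agent.Lib.MP_6fc7a0_al.H26
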