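import Pool.Agent.Lib.MP_6fc7a0_al.H26Perf2
import Pool.Agent.Lib.MP_6fc7a0_al.H26Fin

set_option autoImplicit false

namespace Pool.Agent.Lib.MP_6fc7a0_al.H26

open Subgroup
open scoped commutatorElement

theorem ramsey_aux (C : Type) [Fintype C] [Nonempty C] (r : ℕ) : ∃ w, ∀ (c : ℕ → ℕ → C) (S : Finset ℕ),
    w ≤ S.card → ∃ T ⊆ S, T.card = r ∧ ∃ d : ℕ → C, ∀ a ∈ T, ∀ b ∈ T, a < b → c a b = d a := by
  classical
  induction r with
  | zero => exact ⟨0, fun c S _ => ⟨∅, by simp, rfl, fun _ => Classical.arbitrary C, by simp⟩⟩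
  | succ r ih =>
    obtain ⟨w, hw⟩ := ih
    refine ⟨Fintype.card C * w + 1, fun c S hS => ?_⟩
    have hne : S.Nonempty := Finset.card_pos.mp (by omega)
    obtain ⟨col, -, hcol⟩ := Finset.exists_le_card_fiber_of_mul_le_card_of_maps_to
      (s := S.erase (S.min' hne)) (t := Finset.univ) (f := c (S.min' hne)) (n := w)
      (fun _ _ => Finset.mem_univ _) Finset.univ_nonempty (by
        rw [Finset.card_erase_of_mem (S.min'_mem hne), Finset.card_univ]; omega)
    obtain ⟨T, h1, h2, d, h3⟩ := hw c _ hcol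
    have hT : ∀ x ∈ T, x ∈ S ∧ S.min' hne < x ∧ c (S.min' hne) x = col := fun x hx => by
      have := Finset.mem_filter.mp (h1 hx)
      have h4 := Finset.mem_erase.mp this.1
      exact ⟨h4.2, lt_of_le_of_ne (S.min'_le x h4.2) h4.1.symm, this.2⟩
    have hn : S.min' hne ∉ T := fun h => lt_irrefl _ (hT _ h).2.1
    refine ⟨insert (S.min' hne) T, ?_, by rw [Finset.card_insert_of_notMem hn, h2],
      Function.update d (S.min' hne) col, fun a ha b hb hab => ?_⟩
    · intro x hx
      rcases Finset.mem_insert.mp hx with rfl | hx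
      · exact S.min'_mem hne
      · exact (hT x hx).1
    · rcases Finset.mem_insert.mp ha with rfl | ha
      · rcases Finset.mem_insert.mp hb with rfl | hb
        · exact absurd hab (lt_irrefl _)
        · simp [(hT b hb).2.2]
      · rw [Function.update_of_ne (hT a ha).2.1.ne']
        rcases Finset.mem_insert.mp hb with rfl | hb
        · exact absurd hab (not_lt.mpr (hT a ha).2.1.le)
        · exact h3 a ha b hb hab

theorem ramsey (C : Type) [Finite C] [Nonempty C] (t : ℕ) : ∃ w, ∀ (c : ℕ → ℕ → C),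
    ∃ (e : ℕ → ℕ) (col : C), (∀ i ≤ t, e i < w) ∧
      ∀ i j, i < j → j ≤ t → e i < e j ∧ c (e i) (e j) = col := by
  classical
  have := Fintype.ofFinite C
  obtain ⟨w, hw⟩ := ramsey_aux C (Fintype.card C * (t + 1))
  refine ⟨w, fun c => ?_⟩
  obtain ⟨T, h1, h2, d, h3⟩ := hw c (Finset.range w) (by simp)
  obtain ⟨col, -, hcol⟩ := Finset.exists_le_card_fiber_of_mul_le_card_of_maps_to
    (s := T) (t := Finset.univ) (f := d) (n := t + 1)
    (fun _ _ => Finset.mem_univ _) Finset.univ_nonempty (by rw [h2, Finset.card_univ])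
  let E := Finset.orderEmbOfCardLe _ hcol
  have hE : ∀ i, E i ∈ T ∧ d (E i) = col := fun i =>
    Finset.mem_filter.mp (Finset.orderEmbOfCardLe_mem _ hcol i)
  refine ⟨fun i => E ⟨min i t, by omega⟩, col, fun i _ => Finset.mem_range.mp (h1 (hE _).1),
    fun i j hij hj => ?_⟩
  have : E ⟨min i t, by omega⟩ < E ⟨min j t, by omega⟩ := E.strictMono (by
    rw [Fin.mk_lt_mk]; omega)
  exact ⟨this, (h3 _ (hE _).1 _ (hE _).1 this).trans (hE _).2⟩

variable {G : Type} [Group G]

theorem index_normalCore_le {B : Type} [Group B] [Finite B] (H : Subgroup B) (m : ℕ)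
    (hm : H.index ≤ m) : H.normalCore.index ≤ m.factorial := by
  classical
  have := Fintype.ofFinite (B ⧸ H)
  rw [normalCore_eq_ker, index_ker]
  refine (Nat.card_le_card_of_injective _ Subtype.val_injective).trans ?_
  rw [Nat.card_eq_fintype_card, Fintype.card_perm, ← Nat.card_eq_fintype_card]
  exact Nat.factorial_le hm

theorem crt {B : Type} [Group B] {K W A C : Subgroup B} [W.Normal] [A.Normal] [C.Normal]
    (hK : K ≤ ⁅K, K⁆) (hA : K ≤ W ⊔ A) (hC : K ≤ W ⊔ C) : K ≤ W ⊔ (A ⊓ C) := by
  refine hK.trans (commutator_le.mpr (fun x hx y hy => ?_))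
  obtain ⟨w, hw, a, ha, rfl⟩ := mem_sup_of_normal_left.mp (hA hx)
  obtain ⟨w', hw', c, hc, rfl⟩ := mem_sup_of_normal_left.mp (hC hy)
  have h1 : ((⁅a, c⁆ : B) : B ⧸ W) = (⁅w * a, w' * c⁆ : B) := by
    simp only [← QuotientGroup.mk'_apply, map_commutatorElement, map_mul]
    simp only [QuotientGroup.mk'_apply, (QuotientGroup.eq_one_iff _).mpr hw,
      (QuotientGroup.eq_one_iff _).mpr hw', one_mul]
  have h2 := QuotientGroup.eq.mp h1
  have h3 : ⁅a, c⁆ ∈ A ⊓ C := commutator_le_inf A C (commutator_mem_commutator ha hc)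
  have h4 := mul_mem (mem_sup_right h3 : _ ∈ W ⊔ (A ⊓ C)) (mem_sup_left h2)
  rwa [mul_inv_cancel_left] at h4

/-- maximal among the normal subgroups of `B` properly contained in `K` -/
def MaxN {B : Type} [Group B] (K W : Subgroup B) : Prop :=
  W.Normal ∧ W < K ∧ ∀ N : Subgroup B, N.Normal → W ≤ N → N ≤ K → N = W ∨ N = K

/-- the core of the kernel of a homomorphism defined on `K` -/
def core {B : Type} [Group B] {K : Subgroup B} (f : K →* G) : Subgroup B :=
  (f.ker.map K.subtype).normalCore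

instance {B : Type} [Group B] {K : Subgroup B} (f : K →* G) : (core f).Normal := by
  unfold core; infer_instance

theorem core_le {B : Type} [Group B] {K : Subgroup B} (f : K →* G) : core f ≤ K :=
  (normalCore_le _).trans (map_subtype_le _)

theorem core_ker {B : Type} [Group B] {K : Subgroup B} (f : K →* G) {x : K}
    (hx : x.1 ∈ core f) : f x = 1 := by
  obtain ⟨y, hy, e⟩ := normalCore_le _ hx
  have : y = x := Subtype.ext e
  exact this ▸ hy

theorem core_index [Finite G] {B : Type} [Group B] [Finite B] {K : Subgroup B} (f : K →* G)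
    {β : ℕ} (hβ : K.index ≤ β) : (core f).index ≤ (Nat.card G * β).factorial := by
  apply index_normalCore_le
  rw [index_map_subtype, index_ker]
  exact Nat.mul_le_mul (Nat.card_le_card_of_injective _ Subtype.val_injective) hβ

theorem MaxN.sup {B : Type} [Group B] {K W N : Subgroup B} (h : MaxN K W) [N.Normal] (hN : N ≤ K)
    (hn : ¬ N ≤ W) : K ≤ W ⊔ N := by
  have := h.1
  rcases h.2.2 (W ⊔ N) inferInstance le_sup_left (sup_le h.2.1.le hN) with h1 | h1
  · exact absurd (h1 ▸ le_sup_right) hn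
  · exact h1.ge

theorem MaxN.index_le [Finite G] {B : Type} [Group B] [Finite B] {K W : Subgroup B} [K.Normal]
    (h : MaxN K W) (hK : K ≤ ⁅K, K⁆) (hR : Res G K) {β : ℕ} (hβ : K.index ≤ β) :
    W.index ≤ (Nat.card G * β).factorial := by
  classical
  have := h.1
  by_cases hc : ∃ f : K →* G, core f ≤ W
  · obtain ⟨f, hf⟩ := hc
    exact (index_antitone hf).trans (core_index f hβ)
  exfalso
  push Not at hc
  have key : ∀ s : Finset (K →* G), K ≤ W ⊔ (K ⊓ ⨅ f ∈ s, core f) := by
    intro s
    induction s using Finset.induction_on with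
    | empty => simp
    | insert a s ha ih =>
      rw [Finset.iInf_insert, inf_left_comm]
      have : (⨅ f ∈ s, core f).Normal :=
        normal_iInf_normal (fun f => normal_iInf_normal (fun _ => inferInstance))
      exact crt hK (h.sup (core_le a) (hc a)) ih
  have := finite_hom (P := K) (X := G)
  have := Fintype.ofFinite (K →* G)
  have h1 : (K ⊓ ⨅ f ∈ (Finset.univ : Finset (K →* G)), core f) = ⊥ := by
    rw [eq_bot_iff_forall]
    intro x hx
    by_contra hne
    obtain ⟨f, hf⟩ := hR ⟨x, hx.1⟩ (fun h => hne (congrArg Subtype.val h))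
    apply hf
    apply core_ker
    exact mem_iInf.mp (mem_iInf.mp hx.2 f) (Finset.mem_univ f)
  have h2 := key Finset.univ
  rw [h1, sup_bot_eq] at h2
  exact h.2.1.not_ge h2

theorem exists_transversal {B : Type} [Group B] [Finite B] (K : Subgroup B) [K.Normal] {β : ℕ}
    (hβ : K.index ≤ β) : ∃ y : Fin β → B, ∀ x, ∃ j, x * (y j)⁻¹ ∈ K := by
  have := Fintype.ofFinite (B ⧸ K)
  obtain ⟨e⟩ : Nonempty (B ⧸ K ↪ Fin β) :=
    Function.Embedding.nonempty_of_card_le (by
      rw [Fintype.card_fin, ← Nat.card_eq_fintype_card]; exact hβ)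
  refine ⟨fun j => (Function.invFun e j).out, fun x => ⟨e x, ?_⟩⟩
  beta_reduce
  rw [Function.leftInverse_invFun e.injective, ← QuotientGroup.eq_one_iff]
  simp

theorem PS.index_J0 [Finite G] {B L : Type} [Group B] [Finite B] [Group L] (d : PS B L)
    (hR : Res G d.K) {β r : ℕ} (hβ : d.K.index ≤ β) (hr : d.J.index ≤ r) :
    d.J0.index ≤ bnd G r * β := by
  classical
  obtain ⟨y, hy⟩ := exists_transversal d.K hβ
  obtain ⟨z, hz⟩ := exists_transversal d.J hr
  let s : Finset B := (Finset.univ.image z).filter (· ∈ d.K)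
  have hs : closure (s : Set B) ≤ d.K := (closure_le _).mpr (fun x hx => (Finset.mem_filter.mp hx).2)
  obtain ⟨h1, h2⟩ := card_le_bnd s r ((Finset.card_filter_le _ _).trans
    (Finset.card_image_le.trans (by simp))) (hR.mono hs)
  have h3 : d.K ≤ closure (s : Set B) ⊔ d.J0 := d.cover _ le_sup_right (fun k hk => by
    obtain ⟨j, hj⟩ := hz k
    refine ⟨z j, mem_sup_left (subset_closure (Finset.mem_filter.mpr ⟨by simp, ?_⟩)), hj⟩
    simpa using d.K.mul_mem (d.K.inv_mem (d.J_le_K hj)) hk)
  have h4 : Function.Surjective (fun p : closure (s : Set B) × Fin β =>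
      ((p.1.1 * y p.2 : B) : B ⧸ d.J0)) := by
    intro q
    obtain ⟨x, rfl⟩ := QuotientGroup.mk_surjective q
    obtain ⟨j, hj⟩ := hy x
    obtain ⟨a, ha, c, hc, e⟩ := mem_sup_of_normal_right.mp (h3 hj)
    refine ⟨(⟨a, ha⟩, j), ?_⟩
    have : x = a * c * y j := by rw [e]; simp
    simp only [this, QuotientGroup.mk_mul, (QuotientGroup.eq_one_iff _).mpr hc, mul_one]
  refine (Nat.card_le_card_of_surjective _ h4).trans ?_
  rw [Nat.card_prod, Nat.card_eq_fintype_card (α := Fin β), Fintype.card_fin]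
  exact Nat.mul_le_mul_right _ h2

theorem perfect_case (G : Type) [Group G] [Finite G] (β : ℕ) : ∃ w, ∀ (B : Type) [Group B]
    [Finite B] (K : Subgroup B) [K.Normal], K ≤ ⁅K, K⁆ → K.index ≤ β → Res G K →
    ∀ b : B, (∀ f : B →* G, f b = 1) → w ≤ {W | MaxN K W}.ncard → Nice G K b := by
  classical
  let β0 := (Nat.card G * β).factorial
  let β1 := Nat.card G * (bnd G (β0 * β0) * β)
  let L := Equiv.Perm (Fin β0)
  let M := Equiv.Perm (Fin β1)
  let ι := Option (Fin β)
  let top := 6 * Nat.card G + 4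
  obtain ⟨w, hw⟩ := ramsey (((ι → L) × Set L) × ((ι → L) × Set L) ×
    Set (Set M × (ι → M) × (M → L × L))) top
  refine ⟨w, fun B _ _ K _ hK hβ hR b hb hW => ?_⟩
  obtain ⟨y0, hy0⟩ := exists_transversal K hβ
  let y : ι → B := fun j => j.elim b y0
  have := Fintype.ofFinite {W | MaxN K W}
  obtain ⟨W0⟩ : Nonempty (Fin w ↪ {W | MaxN K W}) :=
    Function.Embedding.nonempty_of_card_le (by
      rw [Fintype.card_fin, ← Nat.card_eq_fintype_card]; exact hW)
  have hpr : ∀ i : ℕ, ∃ f : B →* L, ∀ h : i < w, f.ker = (W0 ⟨i, h⟩).1 := by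
    intro i
    by_cases h : i < w
    · have h1 : MaxN K (W0 ⟨i, h⟩).1 := (W0 ⟨i, h⟩).2
      have := h1.1
      obtain ⟨f, hf⟩ := exists_perm_hom _ β0 (h1.index_le hK hR hβ)
      exact ⟨f, fun _ => hf⟩
    · exact ⟨1, fun h' => absurd h' h⟩
  choose p hp using hpr
  let un : ℕ → (ι → L) × Set L := fun a => (fun j => p a (y j), (K.map (p a) : Set L))
  let bi : ℕ → ℕ → Set (Set M × (ι → M) × (M → L × L)) := fun a a' =>
    {D | ∃ θ : B →* M, (∀ x, θ x ∈ D.1) ∧ (∀ j, θ (y j) = D.2.1 j) ∧
      ∀ x, D.2.2 (θ x) = (p a x, p a' x)}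
  obtain ⟨e, col, he1, he2⟩ := hw (fun a a' => (un a, un a', bi a a'))
  have htop : 1 < top := by simp only [top]; omega
  have hun : ∀ c ≤ top, un (e c) = un (e 0) := by
    have h1 : ∀ c < top, un (e c) = col.1 := fun c hc => congrArg Prod.fst (he2 c top hc le_rfl).2
    have h2 : ∀ c ≤ top, 0 < c → un (e c) = col.2.1 := fun c hc h =>
      congrArg (fun x => x.2.1) (he2 0 c h hc).2
    intro c hc
    rcases Nat.eq_zero_or_pos c with rfl | h
    · rfl
    · rw [h2 c hc h, ← h2 1 htop.le one_pos, h1 1 htop, h1 0 (by omega)]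
  have hbi : ∀ c c', c < c' → c' ≤ top → bi (e c) (e c') = bi (e 0) (e top) := fun c c' h h' =>
    (congrArg (fun x => x.2.2) (he2 c c' h h').2).trans
      (congrArg (fun x => x.2.2) (he2 0 top (by omega) le_rfl).2).symm
  have hmax : ∀ c ≤ top, MaxN K (p (e c)).ker := fun c hc => by
    rw [hp _ (he1 c hc)]; exact (W0 _).2
  have hne : ∀ a ≤ top, ∀ c ≤ top, a ≠ c → K ≤ (p (e a)).ker ⊔ (p (e c)).ker := by
    intro a ha c hc hac
    refine (hmax a ha).sup (hmax c hc).2.1.le (fun hle => ?_)
    rcases (hmax c hc).2.2 _ inferInstance hle (hmax a ha).2.1.le with h | h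
    · rw [hp _ (he1 c hc), hp _ (he1 a ha)] at h
      have := Fin.mk.inj (W0.injective (Subtype.ext h))
      rcases lt_or_gt_of_ne hac with h' | h'
      · exact (he2 _ _ h' hc).1.ne this
      · exact (he2 _ _ h' ha).1.ne this.symm
    · exact (hmax a ha).2.1.ne h
  let d : PS B L :=
    { K := K
      Y := closure (Set.range y)
      top := top
      pr := fun c => p (e c)
      β := β1
      nK := inferInstance
      perf := hK
      gen := fun x => by
        obtain ⟨j, hj⟩ := hy0 x
        exact ⟨_, hj, y0 j, subset_closure ⟨some j, rfl⟩, by simp⟩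
      h1 := fun c hc u hu => MonoidHom.eqOn_closure (f := p (e c)) (g := p (e 0)) (by
        rintro _ ⟨j, rfl⟩
        exact congrFun (congrArg Prod.fst (hun c hc)) j) hu
      h2 := fun c hc => SetLike.coe_injective (congrArg Prod.snd (hun c hc))
      h3 := fun c hc => (hmax c hc).2.1.le
      h4 := fun a ha a' ha' c hc h1 h2 k hk => by
        obtain ⟨u, hu, x, hx, rfl⟩ :=
          mem_sup_of_normal_left.mp (crt hK (hne a ha a' ha' h1) (hne a ha c hc h2) hk)
        exact ⟨x, (hmax c hc).2.1.le hx.2, by rw [map_mul, MonoidHom.mem_ker.mp hu, one_mul],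
          hx.1, hx.2⟩
      h5 := fun J' _ hJ hi c c' h1 h2 => by
        obtain ⟨g, hg⟩ := exists_perm_hom J' β1 hi
        let μ : M → L × L := fun σ => (p (e 0) (Function.invFun g σ), p (e top) (Function.invFun g σ))
        have hμ : ∀ x, μ (g x) = (p (e 0) x, p (e top) x) := fun x => by
          have h3 : g (Function.invFun g (g x)) = g x := Function.invFun_eq ⟨x, rfl⟩
          have h4 : x⁻¹ * Function.invFun g (g x) ∈ J' := by
            rw [← hg, MonoidHom.mem_ker]; simp [h3]
          have h5 := hJ h4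
          rw [mem_inf, MonoidHom.mem_ker, MonoidHom.mem_ker, map_mul, map_mul, map_inv, map_inv,
            inv_mul_eq_one, inv_mul_eq_one] at h5
          simp only [μ, ← h5.1, ← h5.2]
        have : (Set.range g, fun j => g (y j), μ) ∈ bi (e c) (e c') := by
          rw [hbi c c' h1 h2]
          exact ⟨g, fun x => ⟨x, rfl⟩, fun _ => rfl, hμ⟩
        obtain ⟨θ, h3, h4, h5⟩ := this
        let P : Subgroup (B × B) :=
          { carrier := {q | θ q.1 = g q.2}
            one_mem' := by simp
            mul_mem' := fun {a a'} ha ha' => by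
              simp only [Set.mem_ofPred_eq, Prod.fst_mul, Prod.snd_mul, map_mul] at *
              rw [ha, ha']
            inv_mem' := fun {a} ha => by
              simp only [Set.mem_ofPred_eq, Prod.fst_inv, Prod.snd_inv, map_inv] at *
              rw [ha] }
        obtain ⟨F, hF⟩ := graph_hom' P (QuotientGroup.mk' J') (fun x => by
          obtain ⟨x', hx'⟩ := h3 x
          exact ⟨x', hx'.symm⟩) (fun x hx => by
          rw [QuotientGroup.mk'_apply, QuotientGroup.eq_one_iff, ← hg, MonoidHom.mem_ker]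
          exact (show θ 1 = g x from hx).symm.trans (map_one θ))
        refine ⟨F, fun u hu => MonoidHom.eqOn_closure (f := F) (g := QuotientGroup.mk' J') (by
          rintro _ ⟨j, rfl⟩
          exact hF _ _ (h4 j)) hu, fun x x' hx => ?_⟩
        obtain ⟨x'', hx''⟩ := h3 x
        have h6 : x''⁻¹ * x' ∈ g.ker := by
          rw [hg, ← QuotientGroup.eq, ← hx]
          exact (hF x x'' hx''.symm).symm
        rw [MonoidHom.mem_ker, map_mul, map_inv, inv_mul_eq_one] at h6
        have h7 := h5 x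
        rw [← hx'', h6] at h7
        exact Prod.mk.inj ((hμ x').symm.trans h7)
      nt := by
        obtain ⟨k, hk, hk'⟩ := SetLike.exists_of_lt (hmax 0 (Nat.zero_le _)).2.1
        exact ⟨k, hk, hk'⟩
      tp := by omega }
  refine PS.nice d (by simp only [d, top]; omega) (Nat.mul_le_mul_left _ (d.index_J0 hR hβ ?_))
    (subset_closure ⟨none, rfl⟩) hb
  exact index_inf_le.trans (Nat.mul_le_mul ((hmax 0 (Nat.zero_le _)).index_le hK hR hβ)
    ((hmax top le_rfl).index_le hK hR hβ))

end Pool.Agent.Lib.MP_6fc7a0_al.H26
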