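import Pool.Agent.Lib.MP_6fc7a0_al.H26Ab2
import Pool.Agent.Lib.MP_6fc7a0_al.H26Perf3

set_option autoImplicit false

namespace Pool.Agent.Lib.MP_6fc7a0_al.H26

open Subgroup
open scoped commutatorElement

def Valid {A Ω G : Type} [CommGroup A] [Group G] (α : Ω → A →* A) (N : Subgroup G) (γ : Ω → G)
    (A1 : Subgroup A) (f : A → G) : Prop :=
  (∀ a ∈ A1, f a ∈ N) ∧ (∀ a ∈ A1, ∀ b ∈ A1, f (a * b) = f a * f b) ∧
    ∀ ω, ∀ a ∈ A1, f (α ω a) = γ ω * f a * (γ ω)⁻¹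

theorem ext_local' {A Ω G : Type} [CommGroup A] [Group G] [Finite A] [Finite Ω] [Finite G]
    (α : Ω → A →* A) (N : Subgroup G) (γ : Ω → G) (hN : ∀ x ∈ N, ∀ y ∈ N, x * y = y * x)
    (hγ : ∀ ω, ∀ x ∈ N, γ ω * x * (γ ω)⁻¹ ∈ N) (A0 : Subgroup A)
    (hA0 : ∀ ω, ∀ a ∈ A0, α ω a ∈ A0) (f0 : A → G) (h0 : Valid α N γ A0 f0) :
    ∃ s : Finset A, s.card ≤ Nat.card G * Nat.card G + Nat.card G * Nat.card Ω ∧
      ∀ A1 : Subgroup A, A0 ≤ A1 → (∀ a ∈ s, a ∈ A1) → (∀ ω, ∀ a ∈ A1, α ω a ∈ A1) →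
        ∀ f1, Valid α N γ A1 f1 → (∀ a ∈ A0, f1 a = f0 a) →
          ∃ F : A →* G, (∀ a, F a ∈ N) ∧ (∀ ω a, F (α ω a) = γ ω * F a * (γ ω)⁻¹) ∧
            ∀ a ∈ A0, F a = f0 a := by
  classical
  let _ : CommGroup N := { (inferInstance : Group N) with
    mul_comm := fun a b => Subtype.ext (hN _ a.2 _ b.2) }
  let γ' : Ω → N →* N := fun ω => MonoidHom.mk' (fun x => ⟨_, hγ ω x.1 x.2⟩) (fun a b =>
    Subtype.ext (by simp [mul_assoc]))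
  let c : (A → G) → A → N := fun f a => if h : f a ∈ N then ⟨f a, h⟩ else 1
  have hc : ∀ f a, f a ∈ N → (c f a).1 = f a := fun f a h => by simp only [c, dif_pos h]
  have hv : ∀ A1 f, (∀ ω, ∀ a ∈ A1, α ω a ∈ A1) → Valid α N γ A1 f → HomOn α γ' A1 (c f) := by
    intro A1 f hst h
    refine ⟨fun a ha b hb => Subtype.ext ?_, fun ω a ha => Subtype.ext ?_⟩
    · rw [Subgroup.coe_mul, hc _ _ (h.1 _ (mul_mem ha hb)), hc _ _ (h.1 _ ha), hc _ _ (h.1 _ hb),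
        h.2.1 a ha b hb]
    · rw [hc _ _ (h.1 _ (hst ω a ha)), h.2.2 ω a ha, ← hc _ _ (h.1 _ ha)]
      rfl
  obtain ⟨s, hs1, hs2⟩ := ext_local A0 (c f0) (hv A0 f0 hA0 h0)
  have hN' : Nat.card N ≤ Nat.card G := Nat.card_le_card_of_injective _ Subtype.val_injective
  refine ⟨s, hs1.trans (Nat.add_le_add (Nat.mul_le_mul hN' hN') (Nat.mul_le_mul_right _ hN')),
    fun A1 h1 h2 h3 f1 h4 h5 => ?_⟩
  obtain ⟨F, hF1, hF2⟩ := hs2 A1 h1 h2 h3 (c f1) (hv A1 f1 h3 h4) (fun a ha => Subtype.ext (by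
    rw [hc _ _ (h4.1 _ (h1 ha)), hc _ _ (h0.1 _ ha), h5 a ha]))
  refine ⟨N.subtype.comp F, fun a => (F a).2, fun ω a => congrArg Subtype.val (hF1 ω a),
    fun a ha => ?_⟩
  rw [← hc _ _ (h0.1 _ ha), ← hF2 a ha]
  rfl

namespace AS

variable {B M : Type} [Group B] [AddCommGroup M] (d : AS B M)

def AY (Y : Subgroup B) : Subgroup (Multiplicative M) where
  carrier := {x | ∃ a ∈ Y, a ∈ d.K ∧ Multiplicative.ofAdd (d.cls a) = x}
  one_mem' := ⟨1, one_mem _, one_mem _, by simp [d.cls_one]⟩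
  mul_mem' := by
    rintro _ _ ⟨a, h1, h2, rfl⟩ ⟨b, h3, h4, rfl⟩
    exact ⟨a * b, mul_mem h1 h3, mul_mem h2 h4, by simp [d.cls_mul _ h2 _ h4]⟩
  inv_mem' := by
    rintro _ ⟨a, h1, h2, rfl⟩
    exact ⟨a⁻¹, inv_mem h1, inv_mem h2, by simp [d.cls_inv h2]⟩

def al (g : B) : Multiplicative M →* Multiplicative M := AddMonoidHom.toMultiplicative (d.act g)

theorem al_cls (g : B) {k : B} (hk : k ∈ d.K) :
    d.al g (Multiplicative.ofAdd (d.cls k)) = Multiplicative.ofAdd (d.cls (g * k * g⁻¹)) := by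
  rw [← d.act_cls g k hk]; rfl

theorem AY_stable {Y : Subgroup B} {g : B} (hg : g ∈ Y) : ∀ a ∈ d.AY Y, d.al g a ∈ d.AY Y := by
  rintro _ ⟨a, h1, h2, rfl⟩
  exact ⟨_, mul_mem (mul_mem hg h1) (inv_mem hg), d.nK.conj_mem _ h2 g, (d.al_cls g h2).symm⟩

theorem exists_Y {G : Type} [Group G] [Finite G] [Finite B] [Finite M] {β : ℕ} (y : Fin β → B)
    (hy : ∀ x, ∃ j, x * (y j)⁻¹ ∈ d.K) (Y0 : Subgroup B) (hy0 : ∀ j, y j ∈ Y0) :
    ∃ s : Finset B, s.card ≤ Nat.card (Subgroup G × (Fin β → G) × (Y0 → G)) *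
      (Nat.card G * Nat.card G + Nat.card G * β) ∧
      ∀ Y : Subgroup B, Y0 ≤ Y → ⁅d.K, d.K⁆ ≤ Y → (∀ a ∈ s, a ∈ Y) → d.Ext Y0 Y G := by
  classical
  choose l hl1 hl2 using d.surj
  have key : ∀ D : Subgroup G × (Fin β → G) × (Y0 → G), ∃ s : Finset (Multiplicative M),
      s.card ≤ Nat.card G * Nat.card G + Nat.card G * β ∧
      ((∀ x ∈ D.1, ∀ y ∈ D.1, x * y = y * x) → (∀ ω, ∀ x ∈ D.1, D.2.1 ω * x * (D.2.1 ω)⁻¹ ∈ D.1) →
      ∀ A1 : Subgroup (Multiplicative M), d.AY Y0 ≤ A1 → (∀ a ∈ s, a ∈ A1) →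
        (∀ ω, ∀ a ∈ A1, d.al (y ω) a ∈ A1) →
        ∀ f1, Valid (fun ω => d.al (y ω)) D.1 D.2.1 A1 f1 →
          (∀ a : Y0, a.1 ∈ d.K → f1 (Multiplicative.ofAdd (d.cls a)) = D.2.2 a) →
          ∃ F : Multiplicative M →* G, (∀ a, F a ∈ D.1) ∧
            (∀ ω a, F (d.al (y ω) a) = D.2.1 ω * F a * (D.2.1 ω)⁻¹) ∧
            ∀ a : Y0, a.1 ∈ d.K → F (Multiplicative.ofAdd (d.cls a)) = D.2.2 a) := by
    rintro ⟨N, γ, lam⟩
    by_cases hc : (∀ x ∈ N, ∀ y ∈ N, x * y = y * x) ∧ (∀ ω, ∀ x ∈ N, γ ω * x * (γ ω)⁻¹ ∈ N) ∧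
      ∃ f0, Valid (fun ω => d.al (y ω)) N γ (d.AY Y0) f0 ∧
        ∀ a : Y0, a.1 ∈ d.K → f0 (Multiplicative.ofAdd (d.cls a)) = lam a
    · obtain ⟨h1, h2, f0, h3, h4⟩ := hc
      obtain ⟨s, hs1, hs2⟩ := ext_local' _ N γ h1 h2 _ (fun ω => d.AY_stable (hy0 ω)) f0 h3
      refine ⟨s, by simpa using hs1, fun _ _ A1 h5 h6 h7 f1 h8 h9 => ?_⟩
      obtain ⟨F, hF1, hF2, hF3⟩ := hs2 A1 h5 h6 h7 f1 h8 (by
        rintro _ ⟨a, ha, hk, rfl⟩
        exact (h9 ⟨a, ha⟩ hk).trans (h4 ⟨a, ha⟩ hk).symm)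
      exact ⟨F, hF1, hF2, fun a hk => (hF3 _ ⟨a, a.2, hk, rfl⟩).trans (h4 a hk)⟩
    · refine ⟨∅, by simp, fun h1 h2 A1 h5 _ _ f1 h8 h9 => absurd ⟨h1, h2, f1, ?_, h9⟩ hc⟩
      exact ⟨fun a ha => h8.1 a (h5 ha), fun a ha b hb => h8.2.1 a (h5 ha) b (h5 hb),
        fun ω a ha => h8.2.2 ω a (h5 ha)⟩
  choose s hs1 hs2 using key
  have := Fintype.ofFinite (Subgroup G × (Fin β → G) × (Y0 → G))
  refine ⟨Finset.univ.biUnion (fun D => (s D).image (fun x => l x.toAdd)),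
    (Finset.card_biUnion_le_card_mul _ _ _ (fun D _ => Finset.card_image_le.trans (hs1 D))).trans
      (by simp), fun Y h0 hY hsY N hN g hg1 hg2 lam hl3 hl4 hl5 hl6 => ?_⟩
  let f1 : Multiplicative M → G := fun x => if h : x ∈ d.AY Y then lam h.choose else 1
  have hf1 : ∀ a ∈ Y, a ∈ d.K → f1 (Multiplicative.ofAdd (d.cls a)) = lam a := fun a ha hk => by
    have h : Multiplicative.ofAdd (d.cls a) ∈ d.AY Y := ⟨a, ha, hk, rfl⟩
    obtain ⟨h1, h2, h3⟩ := h.choose_spec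
    have h4 := d.cls_eq h2 hk (Multiplicative.ofAdd.injective h3)
    have h5 := hl4 _ h1 h2 _ (hY h4) (commutator_le_self _ h4)
    rw [mul_inv_cancel_left, hl5 _ h4, mul_one] at h5
    simp only [f1, dif_pos h, h5]
  obtain ⟨F, hF1, hF2, hF3⟩ := hs2 (N, fun j => g ⟨y j, h0 (hy0 j)⟩, fun a => lam a) hN
    (fun j => hg1 _) (d.AY Y) (by
      rintro _ ⟨a, ha, hk, rfl⟩
      exact ⟨a, h0 ha, hk, rfl⟩) (fun a ha => ⟨l a.toAdd, hsY _ (Finset.mem_biUnion.mpr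
        ⟨_, Finset.mem_univ _, Finset.mem_image_of_mem _ ha⟩), hl1 _, by rw [hl2]; rfl⟩)
    (fun ω => d.AY_stable (h0 (hy0 ω))) f1 ⟨by
      rintro _ ⟨a, ha, hk, rfl⟩
      rw [hf1 a ha hk]; exact hl3 a ha hk, by
      rintro _ ⟨a, ha, hk, rfl⟩ _ ⟨a', ha', hk', rfl⟩
      rw [← ofAdd_add, ← d.cls_mul _ hk _ hk', hf1 a ha hk, hf1 a' ha' hk',
        hf1 _ (mul_mem ha ha') (mul_mem hk hk'), hl4 a ha hk a' ha' hk'], by
      rintro ω _ ⟨a, ha, hk, rfl⟩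
      rw [d.al_cls _ hk, hf1 a ha hk, hf1 _ (mul_mem (mul_mem (h0 (hy0 ω)) ha)
        (inv_mem (h0 (hy0 ω)))) (d.nK.conj_mem _ hk _)]
      exact hl6 ⟨y ω, h0 (hy0 ω)⟩ a ha hk⟩ (fun a hk => hf1 a (h0 a.2) hk)
  refine ⟨MonoidHom.mk' (fun k => F (Multiplicative.ofAdd (d.cls k))) (fun a b => by
    rw [← map_mul, ← ofAdd_add, ← d.cls_mul _ a.2 _ b.2]; rfl), fun k => hF1 _, fun z hz k => ?_,
    fun a ha h => hF3 ⟨a, h⟩ ha⟩
  obtain ⟨j, hj⟩ := hy z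
  show F (Multiplicative.ofAdd (d.cls (z * k * (z : B)⁻¹))) = g z * F _ * (g z)⁻¹
  have e1 : d.cls (z * k * (z : B)⁻¹) = d.act (y j) (d.cls k) := by
    rw [← d.act_cls _ _ k.2, ← d.act_K hj (d.act (y j) _), ← d.act_mul]
    simp
  have e2 : g z = g (z * ⟨y j, h0 (hy0 j)⟩⁻¹) * g ⟨y j, h0 (hy0 j)⟩ := by simp
  have e3 := hF2 j (Multiplicative.ofAdd (d.cls k))
  have e4 := hg2 (z * ⟨y j, h0 (hy0 j)⟩⁻¹) hj _ (hF1 (d.al (y j) (Multiplicative.ofAdd (d.cls k))))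
  rw [e1, e2]
  change F (d.al (y j) (Multiplicative.ofAdd (d.cls k))) = _
  rw [← mul_inv_eq_iff_eq_mul] at e4
  rw [← e4, e3]
  simp only [mul_inv_rev, mul_assoc]

end AS

theorem abelian_case (G : Type) [Group G] [Finite G] (β : ℕ) : ∃ β' k, ∀ (B : Type) [Group B]
    [Finite B], Loc G k B → ∀ (K : Subgroup B) [K.Normal], K.index ≤ β → Res G K →
    ∀ b : B, (∀ f : B →* G, f b = 1) → (⁅K, K⁆ : Subgroup B).index ≤ β' ∨ Nice G K b := by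
  classical
  let g := β + 1 + Nat.card (Subgroup G) * (Nat.card G ^ β * Nat.card G ^ bnd G (β + 1)) *
      (Nat.card G * Nat.card G + Nat.card G * β)
  refine ⟨bnd G g, g, fun B _ _ hL K _ hβ hR b hb => ?_⟩
  obtain ⟨d, hd⟩ := exists_AS K
  have hfin : Finite (Additive (Abelianization K)) :=
    Finite.of_surjective (fun x : B => d.cls x) (fun m => by
      obtain ⟨k, -, hk⟩ := d.surj m
      exact ⟨k, hk⟩)
  let _ : Module (ZMod (Nat.card G)) (Additive (Abelianization K)) :=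
    AddCommGroup.zmodModule (fun x => by
      have := ((hR.law 1).quot (_root_.commutator K)).pow le_rfl x.toMul
      exact congrArg Additive.ofMul this)
  obtain ⟨y, hy⟩ := exists_transversal K hβ
  let s0 : Finset B := insert b (Finset.univ.image y)
  have hs0 : s0.card ≤ β + 1 :=
    (Finset.card_insert_le _ _).trans (Nat.succ_le_succ (Finset.card_image_le.trans (by simp)))
  have hy0 : ∀ j, y j ∈ closure (s0 : Set B) := fun j => subset_closure (by simp [s0])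
  obtain ⟨-, hc0⟩ := card_le_bnd s0 _ hs0 (hL s0 (hs0.trans (Nat.le_add_right _ _)))
  obtain ⟨s, hs1, hs2⟩ := d.exists_Y (G := G) y (by rw [hd]; exact hy) _ hy0
  have hs : (s0 ∪ s).card ≤ g := by
    refine (Finset.card_union_le _ _).trans (Nat.add_le_add hs0 (hs1.trans
      (Nat.mul_le_mul_right _ ?_)))
    rw [Nat.card_prod, Nat.card_prod, Nat.card_fun, Nat.card_fun]
    refine Nat.mul_le_mul_left _ (Nat.mul_le_mul (by simp) ?_)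
    exact Nat.pow_le_pow_right Nat.card_pos hc0
  have hle : closure (s0 : Set B) ≤ closure ((s0 ∪ s : Finset B) : Set B) ⊔ ⁅K, K⁆ :=
    (Subgroup.closure_mono (by simp)).trans le_sup_left
  by_cases hY : closure ((s0 ∪ s : Finset B) : Set B) ⊔ ⁅K, K⁆ = ⊤
  · left
    obtain ⟨h1, h2⟩ := card_le_bnd _ _ hs (hL _ hs)
    refine le_trans (Nat.card_le_card_of_surjective
      (fun x : closure ((s0 ∪ s : Finset B) : Set B) => ((x.1 : B) : B ⧸ ⁅K, K⁆)) ?_) h2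
    intro q
    obtain ⟨x, rfl⟩ := QuotientGroup.mk_surjective q
    obtain ⟨a, ha, c, hc, rfl⟩ := mem_sup_of_normal_right.mp (show x ∈ _ by rw [hY]; trivial)
    exact ⟨⟨a, ha⟩, by simp only [QuotientGroup.mk_mul, (QuotientGroup.eq_one_iff _).mpr hc, mul_one]⟩
  · right
    rw [← hd]
    refine d.nice hle (by rw [hd]; exact le_sup_right) hY (fun x => ?_)
      (hs2 _ hle (by rw [hd]; exact le_sup_right)
        (fun a ha => mem_sup_left (subset_closure (by simp [ha]))))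
      (subset_closure (by simp [s0])) hb
    obtain ⟨j, hj⟩ := hy x
    exact ⟨_, by rw [hd]; exact hj, y j, hy0 j, by simp⟩

end Pool.Agent.Lib.MP_6fc7a0_al.H26
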