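import Mathlib

set_option autoImplicit false

namespace Pool.Agent.Lib.MP_6fc7a0_al.H26

open Subgroup

variable (G : Type) [Group G]

/-- residually `G` -/
def Res (P : Type) [Group P] : Prop := ∀ x : P, x ≠ 1 → ∃ f : P →* G, f x ≠ 1

/-- all subgroups on at most `k` generators are residually `G` -/
def Loc (k : ℕ) (P : Type) [Group P] : Prop :=
  ∀ s : Finset P, s.card ≤ k → Res G (closure (s : Set P))

/-- the conclusion of the sparsification theorem -/
def Good (B : Type) [Group B] : Prop :=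
  ∃ (ι : Type) (_ : Finite ι) (H : Subgroup (ι → B)), ¬ Res G H ∧
    ∀ (f : B →* (ι → B)), (∀ x, f x ∈ H) → ∀ i, ¬ (∀ x, f x i = x)

def Nice {B : Type} [Group B] (K : Subgroup B) (b : B) : Prop :=
  ∃ (ι : Type) (_ : Finite ι) (_ : Nonempty ι) (H : Subgroup (ι → B)) (hb : (fun _ => b) ∈ H),
    (∀ φ : H →* G, φ ⟨_, hb⟩ = 1) ∧ (∀ h ∈ H, ∀ i j, (h i)⁻¹ * h j ∈ K) ∧
    (∀ f : B → (ι → B), (∀ x, f x ∈ H) → ∃ i, ∃ M : Subgroup B, M ≠ ⊤ ∧ ∀ x, f x i ∈ M)

variable {G}

theorem Res.of_injective {P Q : Type} [Group P] [Group Q] (f : Q →* P)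
    (hf : Function.Injective f) (h : Res G P) : Res G Q := by
  intro x hx
  obtain ⟨g, hg⟩ := h (f x) (fun h' => hx (hf (by simpa using h')))
  exact ⟨g.comp f, hg⟩

theorem Res.mono {P : Type} [Group P] {A C : Subgroup P} (hle : A ≤ C) (h : Res G C) :
    Res G A :=
  Res.of_injective (inclusion hle) (inclusion_injective hle) h

theorem Res.of_top {P : Type} [Group P] (h : Res G (⊤ : Subgroup P)) : Res G P :=
  Res.of_injective (topEquiv.symm : P ≃* (⊤ : Subgroup P)).toMonoidHom
    (topEquiv.symm : P ≃* (⊤ : Subgroup P)).injective h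

theorem Loc.mono {P : Type} [Group P] {k l : ℕ} (h : Loc G l P) (hkl : k ≤ l) : Loc G k P :=
  fun s hs => h s (hs.trans hkl)

theorem Nice.good {B : Type} [Group B] {K : Subgroup B} {b : B} (h : Nice G K b)
    (hbK : b ∉ K) (hb : ∀ f : B →* G, f b = 1) (hM : ∀ M : Subgroup B, M ≠ ⊤ → Res G M) :
    Good G B := by
  obtain ⟨ι, hι, ⟨i0⟩, H, hbH, h1, h2, h3⟩ := h
  have hb1 : b ≠ 1 := fun h => hbK (h ▸ K.one_mem)
  refine ⟨ι, hι, H, fun hR => ?_, fun f hf i hi => ?_⟩
  · obtain ⟨φ, hφ⟩ := hR ⟨_, hbH⟩ (fun h => hb1 (congrFun (congrArg Subtype.val h) i0))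
    exact hφ (h1 φ)
  · obtain ⟨j, M, hMt, hj⟩ := h3 f hf
    let ε : B →* M := ((Pi.evalMonoidHom (fun _ => B) j).comp f).codRestrict M hj
    have hε : ε b ≠ 1 := by
      intro h
      have h' : f b j = 1 := congrArg Subtype.val h
      have := h2 _ (hf b) j i
      rw [h', hi] at this
      exact hbK (by simpa using this)
    obtain ⟨g, hg⟩ := hM M hMt _ hε
    exact hg (hb (g.comp ε))

/-- bound for the order of a residually `G` group on `r` generators -/
noncomputable def bnd (G : Type) (r : ℕ) : ℕ := Nat.card G ^ (Nat.card G ^ r)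

theorem card_le_bnd [Finite G] {P : Type} [Group P] (s : Finset P) (r : ℕ) (hs : s.card ≤ r)
    (h : Res G (closure (s : Set P))) :
    Finite (closure (s : Set P)) ∧ Nat.card (closure (s : Set P)) ≤ bnd G r := by
  classical
  set C := closure (s : Set P) with hC
  let e : (C →* G) → (s → G) := fun f x => f ⟨x.1, subset_closure x.2⟩
  have he : Function.Injective e := by
    intro f g hfg
    ext ⟨x, hx⟩
    induction hx using closure_induction with
    | mem x hx => exact congrFun hfg ⟨x, hx⟩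
    | one => exact (map_one f).trans (map_one g).symm
    | mul x y hx hy ihx ihy =>
      have : (⟨x * y, mul_mem hx hy⟩ : C) = ⟨x, hx⟩ * ⟨y, hy⟩ := rfl
      rw [this, map_mul, map_mul, ihx, ihy]
    | inv x hx ih =>
      have : (⟨x⁻¹, inv_mem hx⟩ : C) = ⟨x, hx⟩⁻¹ := rfl
      rw [this, map_inv, map_inv, ih]
  have : Finite (C →* G) := Finite.of_injective e he
  let E : C → ((C →* G) → G) := fun x f => f x
  have hE : Function.Injective E := by
    intro x y hxy
    by_contra hne
    obtain ⟨f, hf⟩ := h (x * y⁻¹) (fun h' => hne (mul_inv_eq_one.mp h'))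
    apply hf
    have : f x = f y := congrFun hxy f
    simp [this]
  refine ⟨Finite.of_injective E hE, ?_⟩
  have hG : 1 ≤ Nat.card G := Nat.card_pos
  calc Nat.card C ≤ Nat.card ((C →* G) → G) := Nat.card_le_card_of_injective E hE
    _ = Nat.card G ^ Nat.card (C →* G) := Nat.card_fun
    _ ≤ bnd G r := by
      apply Nat.pow_le_pow_right hG
      calc Nat.card (C →* G) ≤ Nat.card (s → G) := Nat.card_le_card_of_injective e he
        _ = Nat.card G ^ s.card := by rw [Nat.card_fun]; simp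
        _ ≤ _ := Nat.pow_le_pow_right hG hs

/-- a subgroup of a product which is the graph of a function -/
theorem graph_hom {B X : Type} [Group B] [Group X] (P : Subgroup (B × X))
    (h1 : ∀ x, ∃ g, (x, g) ∈ P) (h2 : ∀ g, ((1 : B), g) ∈ P → g = 1) :
    ∃ F : B →* X, ∀ x g, (x, g) ∈ P → F x = g := by
  choose F hF using h1
  have key : ∀ x g, (x, g) ∈ P → F x = g := by
    intro x g hg
    have := h2 ((F x)⁻¹ * g) (by simpa using P.mul_mem (P.inv_mem (hF x)) hg)
    exact (inv_mul_eq_one.mp this)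
  refine ⟨MonoidHom.mk' F (fun x y => key _ _ ?_), key⟩
  exact P.mul_mem (hF x) (hF y)

/-- relational form: a relation closed under the group operations, composed with a hom -/
theorem graph_hom' {B H X : Type} [Group B] [Group H] [Group X] (P : Subgroup (B × H))
    (φ : H →* X) (h1 : ∀ x, ∃ h, (x, h) ∈ P) (h2 : ∀ h, ((1 : B), h) ∈ P → φ h = 1) :
    ∃ F : B →* X, ∀ x h, (x, h) ∈ P → F x = φ h := by
  obtain ⟨F, hF⟩ := graph_hom (P.map ((MonoidHom.id B).prodMap φ)) (fun x => by
    obtain ⟨h, hh⟩ := h1 x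
    exact ⟨φ h, ⟨(x, h), hh, rfl⟩⟩) (by
    rintro g ⟨⟨x, h⟩, hh, he⟩
    have e1 : x = 1 := congrArg Prod.fst he
    have e2 : φ h = g := congrArg Prod.snd he
    subst e1
    rw [← e2, h2 h hh])
  exact ⟨F, fun x h hh => hF _ _ ⟨(x, h), hh, rfl⟩⟩

theorem glue {B X : Type} [Group B] [Group X] (K Y : Subgroup B) [hK : K.Normal]
    (hKY : ∀ x, ∃ k ∈ K, ∃ y ∈ Y, x = k * y) (f : K →* X) (g : Y →* X)
    (h1 : ∀ (u : B) (hk : u ∈ K) (hy : u ∈ Y), f ⟨u, hk⟩ = g ⟨u, hy⟩)
    (h2 : ∀ (k : K) (y : Y),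
      f ⟨y * k * (y : B)⁻¹, hK.conj_mem _ k.2 _⟩ = g y * f k * (g y)⁻¹) :
    ∃ F : B →* X, ∀ y : Y, F y = g y := by
  let P : Subgroup (B × X) :=
    { carrier := {p | ∃ (k : K) (y : Y), p = ((k : B) * y, f k * g y)}
      one_mem' := ⟨1, 1, by simp; rfl⟩
      mul_mem' := by
        rintro _ _ ⟨k, y, rfl⟩ ⟨k', y', rfl⟩
        refine ⟨k * ⟨y * k' * (y : B)⁻¹, hK.conj_mem _ k'.2 _⟩, y * y', ?_⟩
        rw [map_mul, map_mul, h2]
        ext
        · simp [mul_assoc]
        · simp [mul_assoc]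
      inv_mem' := by
        rintro _ ⟨k, y, rfl⟩
        refine ⟨⟨(y⁻¹ : Y) * (k⁻¹ : K) * ((y⁻¹ : Y) : B)⁻¹, hK.conj_mem _ (k⁻¹).2 _⟩, y⁻¹, ?_⟩
        rw [h2]
        ext
        · simp [mul_assoc]
        · simp [mul_assoc] }
  obtain ⟨F, hF⟩ := graph_hom P (fun x => by
    obtain ⟨k, hk, y, hy, rfl⟩ := hKY x
    exact ⟨_, ⟨k, hk⟩, ⟨y, hy⟩, rfl⟩) (by
    rintro g' ⟨k, y, he⟩
    have e1 : (1 : B) = k * y := congrArg Prod.fst he
    have e2 : g' = f k * g y := congrArg Prod.snd he
    have e3 : (k : B) = (y : B)⁻¹ := eq_inv_of_mul_eq_one_left e1.symm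
    have hk : (k : B) ∈ Y := e3 ▸ Y.inv_mem y.2
    have : f k = g ⟨k, hk⟩ := h1 k k.2 hk
    rw [e2, this, ← map_mul, ← map_one g]
    congr 1
    exact Subtype.ext e1.symm)
  exact ⟨F, fun y => hF _ _ ⟨1, y, by simp⟩⟩

/-- pairwise commuting non-commutative subgroups are few -/
theorem comm_family {X ι : Type} [Group X] [Finite X] (D : ι → Subgroup X)
    (hD : ∀ i j, i ≠ j → ∀ x ∈ D i, ∀ y ∈ D j, x * y = y * x) (S : Finset ι)
    (hS : ∀ i ∈ S, ¬ ∀ x ∈ D i, ∀ y ∈ D i, x * y = y * x) : S.card ≤ Nat.card X := by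
  classical
  have key : ∀ S : Finset ι, (∀ i ∈ S, ¬ ∀ x ∈ D i, ∀ y ∈ D i, x * y = y * x) →
      S.card < Nat.card (⨆ i ∈ S, D i : Subgroup X) := by
    intro S
    induction S using Finset.induction_on with
    | empty => intro _; simp
    | insert a S ha ih =>
      intro hS
      have h1 := ih (fun i hi => hS i (Finset.mem_insert_of_mem hi))
      rw [Finset.card_insert_of_notMem ha]
      have hlt : (⨆ i ∈ S, D i : Subgroup X) < ⨆ i ∈ insert a S, D i := by
        refine lt_of_le_of_ne (biSup_mono (fun i hi => Finset.mem_insert_of_mem hi)) ?_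
        intro he
        apply hS a (Finset.mem_insert_self _ _)
        intro x hx y hy
        have hx' : x ∈ (⨆ i ∈ S, D i : Subgroup X) := by
          rw [he]
          exact (le_biSup D (Finset.mem_insert_self a S)) hx
        have : (⨆ i ∈ S, D i : Subgroup X) ≤ centralizer {y} := by
          refine iSup₂_le (fun i hi z hz => ?_)
          rw [mem_centralizer_singleton_iff]
          exact hD i a (fun h => ha (h ▸ hi)) z hz y hy
        exact mem_centralizer_singleton_iff.mp (this hx')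
      have := Set.ncard_lt_ncard (SetLike.coe_ssubset_coe.mpr hlt) (Set.toFinite _)
      simp only [← Nat.card_coe_set_eq, SetLike.coe_sort_coe] at this
      omega
  exact (key S hS).le.trans (Nat.card_le_card_of_injective _ Subtype.val_injective)

/-- an element whose coordinates are all killed is killed -/
theorem kill_prod {ι B X : Type} [Finite ι] [DecidableEq ι] [Group B] [Group X]
    (H : Subgroup (ι → B)) (φ : H →* X) (z : ι → B)
    (h : ∀ i, ∃ hi : Pi.mulSingle i (z i) ∈ H, φ ⟨_, hi⟩ = 1) :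
    ∃ hz : z ∈ H, φ ⟨z, hz⟩ = 1 := by
  have := Fintype.ofFinite ι
  have key : ∀ s : Finset ι, ∃ hz : (fun i => if i ∈ s then z i else 1) ∈ H, φ ⟨_, hz⟩ = 1 := by
    intro s
    induction s using Finset.induction_on with
    | empty =>
      have : (fun i => if i ∈ (∅ : Finset ι) then z i else 1) = (1 : ι → B) := by
        funext i; simp
      simp only [this]
      exact ⟨H.one_mem, map_one φ⟩
    | insert a s ha ih =>
      obtain ⟨h1, h2⟩ := ih
      obtain ⟨h3, h4⟩ := h a
      have : (fun i => if i ∈ insert a s then z i else 1) =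
          Pi.mulSingle a (z a) * (fun i => if i ∈ s then z i else 1) := by
        funext i
        by_cases hi : i = a
        · subst hi; simp [ha]
        · simp [hi]
      simp only [this]
      refine ⟨H.mul_mem h3 h1, ?_⟩
      have e : (⟨_, H.mul_mem h3 h1⟩ : H) = ⟨_, h3⟩ * ⟨_, h1⟩ := rfl
      rw [e, map_mul, h2, h4, one_mul]
  obtain ⟨h1, h2⟩ := key Finset.univ
  have : (fun i => if i ∈ (Finset.univ : Finset ι) then z i else 1) = z := by
    funext i; simp
  simp only [this] at h1 h2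
  exact ⟨_, h2⟩

end Pool.Agent.Lib.MP_6fc7a0_al.H26
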