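import Pool.Agent.Lib.MP_6fc7a0_al.H26Basic

set_option autoImplicit false

namespace Pool.Agent.Lib.MP_6fc7a0_al.H26

open Subgroup

section
variable {A N Ω : Type} [CommGroup A] [CommGroup N] (α : Ω → A →* A) (γ : Ω → N →* N)

def HomOn (A1 : Subgroup A) (f : A → N) : Prop :=
  (∀ a ∈ A1, ∀ b ∈ A1, f (a * b) = f a * f b) ∧ ∀ ω, ∀ a ∈ A1, f (α ω a) = γ ω (f a)

variable {α γ}

theorem HomOn.one {A1 : Subgroup A} {f : A → N} (h : HomOn α γ A1 f) : f 1 = 1 := by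
  have := h.1 1 A1.one_mem 1 A1.one_mem
  simpa using this

theorem ext_local [Finite A] [Finite N] [Finite Ω] (A0 : Subgroup A) (f0 : A → N)
    (h0 : HomOn α γ A0 f0) :
    ∃ s : Finset A, s.card ≤ Nat.card N * Nat.card N + Nat.card N * Nat.card Ω ∧
      ∀ A1 : Subgroup A, A0 ≤ A1 → (∀ a ∈ s, a ∈ A1) → (∀ ω, ∀ a ∈ A1, α ω a ∈ A1) →
        ∀ f1, HomOn α γ A1 f1 → (∀ a ∈ A0, f1 a = f0 a) →
          ∃ F : A →* N, (∀ ω a, F (α ω a) = γ ω (F a)) ∧ ∀ a ∈ A0, F a = f0 a := by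
  classical
  have : NeZero (Monoid.exponent N) := ⟨Monoid.exponent_ne_zero_of_finite⟩
  have : NeZero (Monoid.exponent ((N →* ℂˣ) → A)) := ⟨Monoid.exponent_ne_zero_of_finite⟩
  have := Fintype.ofFinite (N →* ℂˣ)
  have := Fintype.ofFinite Ω
  let sg : (N →* ℂˣ) → A →* ((N →* ℂˣ) → A) := fun χ => MonoidHom.mulSingle (fun _ => A) χ
  let r : ((N →* ℂˣ) × (N →* ℂˣ)) ⊕ ((N →* ℂˣ) × Ω) → A →* ((N →* ℂˣ) → A) :=
    Sum.elim (fun p => sg p.1 * sg p.2 * (sg (p.1 * p.2))⁻¹)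
      (fun p => (sg p.1).comp (α p.2) * (sg (p.1.comp (γ p.2)))⁻¹)
  let ρ : (((N →* ℂˣ) × (N →* ℂˣ)) ⊕ ((N →* ℂˣ) × Ω) → A) →* ((N →* ℂˣ) → A) :=
    MonoidHom.mk' (fun u => ∏ j, r j (u j)) (fun u v => by
      simp only [Pi.mul_apply, map_mul, Finset.prod_mul_distrib])
  have hρ : ∀ j a, ρ (Pi.mulSingle j a) = r j a := fun j a => by
    show ∏ i, r i (Pi.mulSingle (M := fun _ => A) j a i) = _
    rw [Finset.prod_eq_single j (fun i _ hi => by simp [Pi.mulSingle_eq_of_ne hi]) (by simp)]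
    simp
  let V : Subgroup A → Subgroup ((N →* ℂˣ) → A) := fun A1 => Subgroup.pi Set.univ (fun _ => A1)
  have hV : ∀ A1 v, v ∈ V A1 ↔ ∀ χ, v χ ∈ A1 := fun A1 v => by simp [V, Subgroup.mem_pi]
  have hsg : ∀ A1 χ, ∀ a ∈ A1, sg χ a ∈ V A1 := fun A1 χ a ha => (hV _ _).mpr (fun χ' => by
    by_cases h : χ' = χ
    · subst h; simpa [sg] using ha
    · simp [sg, Pi.mulSingle_eq_of_ne h])
  have hΦ : ∀ A1 f, HomOn α γ A1 f → ∃ Φ : V A1 →* ℂˣ, ∀ v, Φ v = ∏ χ : N →* ℂˣ, χ (f (v.1 χ)) := by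
    intro A1 f hf
    refine ⟨MonoidHom.mk' (fun v => ∏ χ : N →* ℂˣ, χ (f (v.1 χ))) (fun v w => ?_), fun v => rfl⟩
    rw [← Finset.prod_mul_distrib]
    refine Finset.prod_congr rfl (fun χ _ => ?_)
    rw [← map_mul, ← hf.1 _ ((hV _ _).mp v.2 χ) _ ((hV _ _).mp w.2 χ)]
    rfl
  have hΦs : ∀ A1 f, HomOn α γ A1 f → ∀ χ a, ∏ χ' : N →* ℂˣ, χ' (f (sg χ a χ')) = χ (f a) := by
    intro A1 f hf χ a
    rw [Finset.prod_eq_single χ (fun i _ hi => by simp [sg, Pi.mulSingle_eq_of_ne hi, hf.one])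
      (by simp)]
    simp [sg]
  obtain ⟨Φ0, hΦ0⟩ := hΦ A0 f0 h0
  by_cases hc : ∃ u, ∃ h : ρ u ∈ V A0, Φ0 ⟨_, h⟩ ≠ 1
  · obtain ⟨u, hu, hne⟩ := hc
    refine ⟨Finset.univ.image u, Finset.card_image_le.trans ?_, fun A1 hle hs hst f1 h1 he => ?_⟩
    · simp [← Nat.card_eq_fintype_card, CommGroup.card_monoidHom_of_hasEnoughRootsOfUnity]
    exfalso
    apply hne
    obtain ⟨Φ1, hΦ1⟩ := hΦ A1 f1 h1
    have hu1 : ∀ j, u j ∈ A1 := fun j => hs _ (by simp)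
    have key : ∀ j, ∀ a ∈ A1, r j a ∈ Φ1.ker.map (V A1).subtype := by
      rintro (⟨χ, χ'⟩ | ⟨χ, ω⟩) a ha
      · refine ⟨⟨_, hsg A1 χ a ha⟩ * ⟨_, hsg A1 χ' a ha⟩ * ⟨_, hsg A1 (χ * χ') a ha⟩⁻¹, ?_, rfl⟩
        show Φ1 _ = 1
        rw [map_mul, map_mul, map_inv, hΦ1, hΦ1, hΦ1]
        simp only [hΦs A1 f1 h1]
        simp
      · refine ⟨⟨_, hsg A1 χ _ (hst ω a ha)⟩ * ⟨_, hsg A1 (χ.comp (γ ω)) a ha⟩⁻¹, ?_, rfl⟩
        show Φ1 _ = 1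
        rw [map_mul, map_inv, hΦ1, hΦ1]
        simp only [hΦs A1 f1 h1, h1.2 ω a ha]
        simp
    have : ρ u ∈ Φ1.ker.map (V A1).subtype := prod_mem (fun j _ => key j _ (hu1 j))
    obtain ⟨v, hv, e⟩ := this
    rw [SetLike.mem_coe, MonoidHom.mem_ker, hΦ1] at hv
    rw [hΦ0, ← hv]
    refine Finset.prod_congr rfl (fun χ _ => ?_)
    have e' : v.1 = ρ u := e
    rw [e', he _ ((hV _ _).mp hu χ)]
  push Not at hc
  refine ⟨∅, by simp, fun _ _ _ _ _ _ _ => ?_⟩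
  let P : Subgroup ((V A0 ⊔ ρ.range : Subgroup _) × V A0) :=
    { carrier := {p | ∃ u, p.1.1 = p.2.1 * ρ u}
      one_mem' := ⟨1, by simp⟩
      mul_mem' := by
        rintro a b ⟨u, hu⟩ ⟨v, hv⟩
        refine ⟨u * v, ?_⟩
        show a.1.1 * b.1.1 = a.2.1 * b.2.1 * ρ (u * v)
        rw [hu, hv, map_mul, mul_mul_mul_comm]
      inv_mem' := by
        rintro a ⟨u, hu⟩
        refine ⟨u⁻¹, ?_⟩
        show a.1.1⁻¹ = a.2.1⁻¹ * ρ u⁻¹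
        rw [hu, map_inv, mul_inv] }
  obtain ⟨Ψ0, hΨ0⟩ := graph_hom' P Φ0 (fun x => by
    obtain ⟨a, ha, _, ⟨u, rfl⟩, e⟩ := Subgroup.mem_sup.mp x.2
    exact ⟨⟨a, ha⟩, u, e.symm⟩) (by
    rintro h ⟨u, hu⟩
    have e : ρ u⁻¹ = h.1 := by
      rw [map_inv]; exact (eq_inv_of_mul_eq_one_left hu.symm).symm
    have := hc u⁻¹ (e ▸ h.2)
    simpa only [e] using this)
  obtain ⟨Ψ, hΨ⟩ := MonoidHom.domRestrict_surjective ℂ (V A0 ⊔ ρ.range) Ψ0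
  have hΨ' : ∀ x : (V A0 ⊔ ρ.range : Subgroup _), Ψ x = Ψ0 x := fun x => by rw [← hΨ]; rfl
  have hr : ∀ j a, Ψ (r j a) = 1 := fun j a => by
    rw [← hρ, hΨ' ⟨_, mem_sup_right ⟨_, rfl⟩⟩, hΨ0 _ 1 ⟨Pi.mulSingle j a, by simp⟩, map_one]
  let η : A → (N →* ℂˣ) →* ℂˣ := fun a => MonoidHom.mk' (fun χ => Ψ (sg χ a)) (fun χ χ' => by
    have := hr (.inl (χ, χ')) a
    simp only [r, Sum.elim_inl, MonoidHom.mul_apply, MonoidHom.inv_apply, map_mul, map_inv] at this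
    exact (mul_inv_eq_one.mp this).symm)
  have hF : ∀ (χ : N →* ℂˣ) a, χ (CommGroup.monoidHomMonoidHomEquiv N ℂ (η a)) = Ψ (sg χ a) :=
    fun χ a => CommGroup.apply_monoidHomMonoidHomEquiv ℂ χ (η a)
  refine ⟨MonoidHom.mk' (fun a => CommGroup.monoidHomMonoidHomEquiv N ℂ (η a)) (fun a b => ?_),
    fun ω a => ?_, fun a ha => ?_⟩
  · rw [← CommGroup.forall_apply_eq_apply_iff N (M := ℂ)]
    intro χ
    rw [map_mul, hF, hF, hF, map_mul, map_mul]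
  · rw [← CommGroup.forall_apply_eq_apply_iff N (M := ℂ)]
    intro χ
    have := hr (.inr (χ, ω)) a
    simp only [r, Sum.elim_inr, MonoidHom.mul_apply, MonoidHom.inv_apply, map_mul, map_inv,
      MonoidHom.comp_apply] at this
    exact (hF _ _).trans ((mul_inv_eq_one.mp this).trans (hF (χ.comp (γ ω)) a).symm)
  · rw [← CommGroup.forall_apply_eq_apply_iff N (M := ℂ)]
    intro χ
    refine (hF _ _).trans ?_
    rw [hΨ' ⟨_, mem_sup_left (hsg A0 χ a ha)⟩, hΨ0 _ ⟨_, hsg A0 χ a ha⟩ ⟨1, by simp⟩, hΦ0]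
    exact hΦs A0 f0 h0 χ a

end

theorem exists_zmod_char {D : Type} [CommGroup D] [Finite D] (e : ℕ) [NeZero e]
    (he : ∀ x : D, x ^ e = 1) {x : D} (hx : x ≠ 1) :
    ∃ f : D →* Multiplicative (ZMod e), f x ≠ 1 := by
  have : NeZero (Monoid.exponent D) := ⟨Monoid.exponent_ne_zero_of_finite⟩
  obtain ⟨χ, hχ⟩ := CommGroup.exists_apply_ne_one_of_hasEnoughRootsOfUnity D ℂ hx
  let χ' : D →* rootsOfUnity e ℂ := χ.codRestrict _ (fun y => by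
    rw [mem_rootsOfUnity, ← map_pow, he, map_one])
  have hc : Nat.card (rootsOfUnity e ℂ) = e := HasEnoughRootsOfUnity.natCard_rootsOfUnity ℂ e
  let E : Multiplicative (ZMod e) ≃* rootsOfUnity e ℂ :=
    mulEquivOfCyclicCardEq (by rw [hc]; simp)
  refine ⟨E.symm.toMonoidHom.comp χ', fun h => hχ ?_⟩
  have : χ' x = 1 := by simpa using h
  exact congrArg Subtype.val this

end Pool.Agent.Lib.MP_6fc7a0_al.H26
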