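import Pool.Agent.Lib.MP_6fc7a0_al.H26Basic

set_option autoImplicit false

namespace Pool.Agent.Lib.MP_6fc7a0_al.H26

open Subgroup
open scoped commutatorElement

variable (G : Type) [Group G]

/-- `P` satisfies the laws of `G` in at most `k` variables -/
def Law (k : ℕ) (P : Type) [Group P] : Prop :=
  ∀ (ι : Type) [Fintype ι], Fintype.card ι ≤ k → ∀ (p : ι → P) (w : FreeGroup ι),
    (∀ g : ι → G, FreeGroup.lift g w = 1) → FreeGroup.lift p w = 1

variable {G}

theorem map_lift {ι P Q : Type} [Group P] [Group Q] (f : P →* Q) (p : ι → P) (w : FreeGroup ι) :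
    f (FreeGroup.lift p w) = FreeGroup.lift (fun i => f (p i)) w := by
  have : f.comp (FreeGroup.lift p) = FreeGroup.lift (fun i => f (p i)) := by
    ext i; simp
  exact DFunLike.congr_fun this w

theorem Law.mono {P : Type} [Group P] {k l : ℕ} (h : Law G l P) (hkl : k ≤ l) : Law G k P :=
  fun ι _ hι => h ι (hι.trans hkl)

theorem Law.of_injective {P Q : Type} [Group P] [Group Q] {k : ℕ} (f : Q →* P)
    (hf : Function.Injective f) (h : Law G k P) : Law G k Q := by
  intro ι _ hι p w hw
  apply hf
  rw [map_lift, map_one]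
  exact h ι hι _ w hw

theorem Law.subgroup {P : Type} [Group P] {k : ℕ} (h : Law G k P) (A : Subgroup P) :
    Law G k A := h.of_injective A.subtype A.subtype_injective

theorem Law.of_surjective {P Q : Type} [Group P] [Group Q] {k : ℕ} (f : P →* Q)
    (hf : Function.Surjective f) (h : Law G k P) : Law G k Q := by
  intro ι _ hι p w hw
  choose p' hp' using fun i => hf (p i)
  have : p = fun i => f (p' i) := funext fun i => (hp' i).symm
  rw [this, ← map_lift, h ι hι p' w hw, map_one]

theorem Law.quot {P : Type} [Group P] {k : ℕ} (h : Law G k P) (A : Subgroup P) [A.Normal] :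
    Law G k (P ⧸ A) := h.of_surjective (QuotientGroup.mk' A) (QuotientGroup.mk'_surjective A)

theorem Res.law {P : Type} [Group P] (h : Res G P) (k : ℕ) : Law G k P := by
  intro ι _ _ p w hw
  by_contra hne
  obtain ⟨f, hf⟩ := h _ hne
  exact hf (by rw [map_lift]; exact hw _)

theorem Loc.law {P : Type} [Group P] {k : ℕ} (h : Loc G k P) : Law G k P := by
  classical
  intro ι _ hι p w hw
  have h1 := (h (Finset.univ.image p) (Finset.card_image_le.trans (by simpa using hι))).law k
  let p' : ι → closure ((Finset.univ.image p : Finset P) : Set P) :=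
    fun i => ⟨p i, subset_closure (by simp)⟩
  have := congrArg (Subgroup.subtype _) (h1 ι hι p' w hw)
  rw [map_lift, map_one] at this
  exact this

theorem Law.pow {P : Type} [Group P] [Finite G] {k : ℕ} (h : Law G k P) (hk : 1 ≤ k) (x : P) :
    x ^ Nat.card G = 1 := by
  have := h Unit (by simpa using hk) (fun _ => x) (FreeGroup.of () ^ Nat.card G)
    (fun g => by simp)
  simpa using this

/-- minimal normal subgroup -/
def MinN {P : Type} [Group P] (X : Subgroup P) : Prop :=
  X.Normal ∧ X ≠ ⊥ ∧ ∀ N : Subgroup P, N.Normal → N ≤ X → N = ⊥ ∨ N = X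

theorem MinN.step {P : Type} [Group P] {X : Subgroup P} (hX : MinN X) {z g : P} (hz : z ∈ X)
    (hz1 : z ≠ 1) (hg : g ∉ centralizer (X : Set P)) : ∃ c : P, ⁅z, c * g * c⁻¹⁆ ≠ 1 := by
  by_contra hc
  push Not at hc
  have hXn := hX.1
  let N : Subgroup P :=
    { carrier := {z | z ∈ X ∧ ∀ c : P, Commute z (c * g * c⁻¹)}
      one_mem' := ⟨X.one_mem, fun c => Commute.one_left _⟩
      mul_mem' := fun ha hb => ⟨X.mul_mem ha.1 hb.1, fun c => (ha.2 c).mul_left (hb.2 c)⟩
      inv_mem' := fun ha => ⟨X.inv_mem ha.1, fun c => (ha.2 c).inv_left⟩ }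
  have hN : N.Normal := ⟨fun n hn d => ⟨hXn.conj_mem n hn.1 d, fun c => by
    have := (hn.2 (d⁻¹ * c)).map (MulAut.conj d)
    simpa [mul_assoc] using this⟩⟩
  rcases hX.2.2 N hN (fun x hx => hx.1) with h | h
  · have : z ∈ N := ⟨hz, fun c => commutatorElement_eq_one_iff_commute.mp (hc c)⟩
    rw [h] at this
    exact hz1 (mem_bot.mp this)
  · apply hg
    rw [mem_centralizer_iff]
    intro x hx
    have : x ∈ N := h ▸ hx
    simpa using (this.2 1).eq

/-- number of variables of the chief centraliser law -/
noncomputable def kc (G : Type) : ℕ := 1 + ((Nat.card G + 1) + (Nat.card G + 1) * (Nat.card G + 1))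

theorem MinN.pigeon [Finite G] {P : Type} [Group P] {X : Subgroup P} (hX : MinN X)
    (hL : Law G (kc G) P) (x : Fin (Nat.card G + 1) → P) :
    ∃ a b, a ≠ b ∧ x a * (x b)⁻¹ ∈ centralizer (X : Set P) := by
  classical
  by_contra hc
  push Not at hc
  have hXn := hX.1
  obtain ⟨z, hz, hz1⟩ : ∃ z ∈ X, z ≠ 1 := by
    by_contra h
    push Not at h
    exact hX.2.1 ((Subgroup.eq_bot_iff_forall X).mpr h)
  obtain ⟨m, hm⟩ : ∃ m, m = Nat.card G + 1 := ⟨_, rfl⟩
  revert x
  rw [← hm]
  intro x hc
  let ι := Unit ⊕ (Fin m ⊕ (Fin m × Fin m))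
  let asg : (Fin m × Fin m → P) → ι → P := fun y => Sum.elim (fun _ => z) (Sum.elim x y)
  have key : ∀ s : Finset (Fin m × Fin m), (∀ q ∈ s, q.1 ≠ q.2) →
      ∃ (w : FreeGroup ι) (y : Fin m × Fin m → P),
        (∀ y', (∀ q ∈ s, y' q = y q) → FreeGroup.lift (asg y') w = FreeGroup.lift (asg y) w) ∧
        FreeGroup.lift (asg y) w ∈ X ∧ FreeGroup.lift (asg y) w ≠ 1 ∧
        ∀ g : ι → G, (∃ q ∈ s, g (.inr (.inl q.1)) = g (.inr (.inl q.2))) →
          FreeGroup.lift g w = 1 := by
    intro s
    induction s using Finset.induction_on with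
    | empty =>
      intro _
      refine ⟨FreeGroup.of (.inl ()), fun _ => 1, fun y' _ => by simp [asg], by simpa [asg],
        by simpa [asg], by simp⟩
    | insert q s hq ih =>
      intro hs
      obtain ⟨w, y, h1, h2, h3, h4⟩ := ih (fun r hr => hs r (Finset.mem_insert_of_mem hr))
      obtain ⟨c, hc'⟩ := hX.step h2 h3 (hc q.1 q.2 (hs q (Finset.mem_insert_self _ _)))
      have e1 : FreeGroup.lift (asg (Function.update y q c)) w = FreeGroup.lift (asg y) w :=
        h1 _ (fun r hr => Function.update_of_ne (fun h : r = q => hq (h ▸ hr)) _ _)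
      refine ⟨⁅w, FreeGroup.of (.inr (.inr q)) * (FreeGroup.of (.inr (.inl q.1)) *
        (FreeGroup.of (.inr (.inl q.2)))⁻¹) * (FreeGroup.of (.inr (.inr q)))⁻¹⁆,
        Function.update y q c, ?_, ?_, ?_, ?_⟩
      · intro y' hy'
        have e2 : FreeGroup.lift (asg y') w = FreeGroup.lift (asg y) w :=
          h1 _ (fun r hr => by
            rw [hy' r (Finset.mem_insert_of_mem hr)]
            exact Function.update_of_ne (fun h : r = q => hq (h ▸ hr)) _ _)
        have e3 : y' q = c := by rw [hy' q (Finset.mem_insert_self _ _)]; simp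
        simp only [map_commutatorElement, e1, e2, map_mul, map_inv, FreeGroup.lift_apply_of]
        simp [asg, e3]
      · simp only [map_commutatorElement, e1]
        rw [commutatorElement_def, mul_assoc, mul_assoc, ← mul_assoc _ _⁻¹]
        exact X.mul_mem h2 (hXn.conj_mem _ (X.inv_mem h2) _)
      · simp only [map_commutatorElement, e1, map_mul, map_inv, FreeGroup.lift_apply_of]
        simpa [asg] using hc'
      · rintro g ⟨r, hr, hg⟩
        rcases Finset.mem_insert.mp hr with rfl | hr
        · simp [map_commutatorElement, hg]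
        · simp [map_commutatorElement, h4 g ⟨r, hr, hg⟩]
  obtain ⟨w, y, -, -, h3, h4⟩ := key (Finset.univ.filter (fun q => q.1 ≠ q.2)) (by simp)
  apply h3
  apply hL ι (by simp [ι, kc, hm])
  intro g
  apply h4
  have : Fintype G := Fintype.ofFinite G
  obtain ⟨a, b, hab, he⟩ := Fintype.exists_ne_map_eq_of_card_lt
    (fun a : Fin m => g (.inr (.inl a))) (by simp [hm])
  exact ⟨(a, b), by simpa using hab, he⟩

theorem MinN.index_le [Finite G] {P : Type} [Group P] {X : Subgroup P} (hX : MinN X)
    (hL : Law G (kc G) P) :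
    (centralizer (X : Set P)).FiniteIndex ∧ (centralizer (X : Set P)).index ≤ Nat.card G := by
  set C := centralizer (X : Set P)
  have key : ∀ e : Fin (Nat.card G + 1) → P ⧸ C, ¬ Function.Injective e := by
    intro e he
    obtain ⟨a, b, hab, h⟩ := hX.pigeon hL (fun a => ((e a).out)⁻¹)
    apply hab
    apply he
    rw [← QuotientGroup.out_eq' (e a), ← QuotientGroup.out_eq' (e b), QuotientGroup.eq]
    simpa using h
  have hf : Finite (P ⧸ C) := by
    by_contra hinf
    have : Infinite (P ⧸ C) := not_finite_iff_infinite.mp hinf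
    exact key (fun a => Infinite.natEmbedding _ a.1)
      ((Infinite.natEmbedding _).injective.comp Fin.val_injective)
  refine ⟨finiteIndex_of_finite_quotient, ?_⟩
  by_contra hlt
  have := Fintype.ofFinite (P ⧸ C)
  obtain ⟨e⟩ : Nonempty (Fin (Nat.card G + 1) ↪ P ⧸ C) :=
    Function.Embedding.nonempty_of_card_le (by
      rw [Fintype.card_fin, ← Nat.card_eq_fintype_card]
      exact Nat.succ_le_of_lt (not_le.mp hlt))
  exact key e e.injective

theorem exists_perm_hom {P : Type} [Group P] (N : Subgroup P) [N.Normal] [N.FiniteIndex] (m : ℕ)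
    (hm : N.index ≤ m) : ∃ f : P →* Equiv.Perm (Fin m), f.ker = N := by
  have := Fintype.ofFinite (P ⧸ N)
  obtain ⟨e⟩ : Nonempty (P ⧸ N ↪ Fin m) :=
    Function.Embedding.nonempty_of_card_le (by
      rw [Fintype.card_fin, ← Nat.card_eq_fintype_card]; exact hm)
  refine ⟨(Equiv.Perm.viaEmbeddingHom e).comp (MulAction.toPermHom P (P ⧸ N)), ?_⟩
  rw [MonoidHom.ker_comp_of_injective _ _ (Equiv.Perm.viaEmbeddingHom_injective e),
    ← normalCore_eq_ker, normalCore_eq_self]

/-- derived series of a subgroup, inside the ambient group -/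
def der {P : Type} [Group P] (D : Subgroup P) : ℕ → Subgroup P
  | 0 => D
  | n + 1 => ⁅der D n, der D n⁆

theorem der_succ {P : Type} [Group P] (D : Subgroup P) (n : ℕ) :
    der D (n + 1) = ⁅der D n, der D n⁆ := rfl

theorem der_succ' {P : Type} [Group P] (D : Subgroup P) (n : ℕ) :
    der D (n + 1) = der ⁅D, D⁆ n := by
  induction n with
  | zero => rfl
  | succ n ih => rw [der_succ, ih, der_succ]

theorem map_der {P Q : Type} [Group P] [Group Q] (f : P →* Q) (D : Subgroup P) (n : ℕ) :
    (der D n).map f = der (D.map f) n := by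
  induction n with
  | zero => rfl
  | succ n ih => rw [der_succ, der_succ, map_commutator, ih]

theorem der_mono {P : Type} [Group P] {D E : Subgroup P} (h : D ≤ E) (n : ℕ) :
    der D n ≤ der E n := by
  induction n with
  | zero => exact h
  | succ n ih => exact commutator_mono ih ih

theorem der_anti {P : Type} [Group P] (D : Subgroup P) : Antitone (der D) :=
  antitone_nat_of_succ_le (fun _ => commutator_le_self _)

theorem der_le {P : Type} [Group P] (D : Subgroup P) (n : ℕ) : der D n ≤ D :=
  der_anti D (Nat.zero_le n)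

theorem der_top (P : Type) [Group P] (n : ℕ) : der (⊤ : Subgroup P) n = derivedSeries P n := by
  induction n with
  | zero => rfl
  | succ n ih => rw [der_succ, ih, derivedSeries_succ]

theorem der_normal {P : Type} [Group P] (D : Subgroup P) [h : D.Normal] (n : ℕ) :
    (der D n).Normal := by
  induction n with
  | zero => exact h
  | succ n ih => exact commutator_normal _ _

theorem der_eq_map {P : Type} [Group P] (D : Subgroup P) (n : ℕ) :
    der D n = (derivedSeries D n).map D.subtype := by
  rw [← der_top, map_der, ← MonoidHom.range_eq_map, range_subtype]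

theorem solvable_of_der {P : Type} [Group P] (D : Subgroup P) (n : ℕ) (h : der D n = ⊥) :
    Group.IsSolvable D := by
  refine ⟨⟨n, ?_⟩⟩
  rw [der_eq_map] at h
  exact (map_eq_bot_iff_of_injective _ D.subtype_injective).mp h

theorem der_card {X : Type} [Group X] [Finite X] [Group.IsSolvable X] (n : ℕ) :
    derivedSeries X n = ⊥ ∨ Nat.card (derivedSeries X n) + n ≤ Nat.card X := by
  induction n with
  | zero => right; simp
  | succ n ih =>
    by_cases h : derivedSeries X n = ⊥
    · left; rw [derivedSeries_succ, h]; simp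
    · right
      have hlt : derivedSeries X (n + 1) < derivedSeries X n :=
        Group.IsSolvable.commutator_lt_of_ne_bot h
      have := Set.ncard_lt_ncard (SetLike.coe_ssubset_coe.mpr hlt) (Set.toFinite _)
      simp only [← Nat.card_coe_set_eq, SetLike.coe_sort_coe] at this
      rcases ih with ih | ih
      · exact absurd ih h
      · omega

theorem der_bot_of_card {X : Type} [Group X] [Finite X] [Group.IsSolvable X] (n : ℕ)
    (hn : Nat.card X ≤ n) : derivedSeries X n = ⊥ := by
  rcases der_card (X := X) n with h | h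
  · exact h
  · have : 0 < Nat.card (derivedSeries X n) := Nat.card_pos
    omega

theorem Res.der_bot [Finite G] {A : Type} [Group A] [Group.IsSolvable A] (h : Res G A) :
    derivedSeries A (Nat.card G) = ⊥ := by
  rw [eq_bot_iff_forall]
  intro x hx
  by_contra hne
  obtain ⟨f, hf⟩ := h x hne
  have : Group.IsSolvable f.range :=
    Group.isSolvable_of_surjective f.rangeRestrict_surjective
  have h1 := der_bot_of_card (X := f.range) (Nat.card G)
    (Nat.card_le_card_of_injective _ Subtype.val_injective)
  have h2 := map_derivedSeries_le_derivedSeries f.rangeRestrict (Nat.card G) ⟨x, hx, rfl⟩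
  rw [h1, mem_bot] at h2
  exact hf (congrArg Subtype.val h2)

theorem der_bot_of_cover [Finite G] {A D : Type} [Group A] [Finite A] [Group D]
    [Group.IsSolvable D] (h : Res G A) (π : A →* D) (hπ : Function.Surjective π) :
    derivedSeries D (Nat.card G) = ⊥ := by
  obtain ⟨A0, h0, hmin⟩ := (wellFounded_lt (α := Subgroup A)).has_min
    {S : Subgroup A | S.map π = ⊤} ⟨⊤, by
      rw [Set.mem_ofPred_eq, ← MonoidHom.range_eq_map]; exact MonoidHom.range_eq_top.mpr hπ⟩
  let π0 : A0 →* D := π.comp A0.subtype
  have hs : Function.Surjective π0 := by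
    intro d
    have : d ∈ A0.map π := by rw [h0]; trivial
    obtain ⟨a, ha, rfl⟩ := this
    exact ⟨⟨a, ha⟩, rfl⟩
  have hker : π0.ker ≤ frattini A0 := by
    intro x hx
    unfold frattini Order.radical
    simp only [mem_iInf]
    intro M hM
    by_contra hxM
    have htop : M ⊔ π0.ker = ⊤ := hM.2 _ (lt_of_le_of_ne le_sup_left (fun he =>
      hxM (he ▸ (mem_sup_right hx : x ∈ M ⊔ π0.ker))))
    apply hmin (M.map A0.subtype)
    · rw [Set.mem_ofPred_eq, map_map, eq_top_iff]
      intro d _
      obtain ⟨a, rfl⟩ := hs d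
      have : a ∈ M ⊔ π0.ker := by rw [htop]; trivial
      obtain ⟨m, hm, k, hk, rfl⟩ := mem_sup_of_normal_right.mp this
      exact ⟨m, hm, by rw [map_mul, MonoidHom.mem_ker.mp hk, mul_one]⟩
    · refine lt_of_le_of_ne (map_subtype_le _) (fun he => hM.1 ?_)
      rw [eq_top_iff]
      intro a _
      have : a.1 ∈ M.map A0.subtype := by rw [he]; exact a.2
      obtain ⟨m, hm, e⟩ := this
      have : m = a := Subtype.ext e
      exact this ▸ hm
  have := frattini_nilpotent (G := A0)
  have : Group.IsSolvable A0 :=
    Group.isSolvable_of_ker_le_range (frattini A0).subtype π0 (by simpa using hker)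
  have h1 := (h.of_injective A0.subtype A0.subtype_injective).der_bot
  rw [← map_derivedSeries_eq hs, h1, Subgroup.map_bot]

theorem law_cover [Finite G] {P ι : Type} [Group P] [Fintype ι] {k : ℕ} (hL : Law G k P)
    (hι : Fintype.card ι ≤ k) (p : ι → P) :
    ∃ (A : Type) (_ : Group A) (_ : Finite A), Res G A ∧ ∃ π : A →* P, ∀ i, p i ∈ π.range := by
  let x : ι → ((ι → G) → G) := fun i g => g i
  let F : FreeGroup ι →* ((ι → G) → G) := FreeGroup.lift x
  have hF : ∀ w g, F w g = FreeGroup.lift g w := fun w g =>
    map_lift (Pi.evalMonoidHom (fun _ => G) g) x w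
  refine ⟨F.range, inferInstance, inferInstance, ?_, ?_⟩
  · intro a ha
    obtain ⟨g, hg⟩ : ∃ g, a.1 g ≠ 1 := by
      by_contra hc
      push Not at hc
      exact ha (Subtype.ext (funext hc))
    exact ⟨(Pi.evalMonoidHom (fun _ => G) g).comp F.range.subtype, hg⟩
  · obtain ⟨π, hπ⟩ := graph_hom (F.rangeRestrict.prod (FreeGroup.lift p)).range (by
      rintro ⟨_, w, rfl⟩
      exact ⟨_, w, rfl⟩) (by
      rintro g ⟨w, hw⟩
      have e1 : F.rangeRestrict w = 1 := congrArg Prod.fst hw
      have e2 : FreeGroup.lift p w = g := congrArg Prod.snd hw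
      rw [← e2]
      apply hL ι hι
      intro g
      rw [← hF]
      exact congrFun (congrArg Subtype.val e1) g)
    refine ⟨π, fun i => ⟨F.rangeRestrict (FreeGroup.of i), hπ _ _ ⟨FreeGroup.of i, ?_⟩⟩⟩
    simp

theorem der_le_closure {P : Type} [Group P] (n : ℕ) :
    derivedSeries P n ≤
      closure {x | ∃ s : Finset P, s.card ≤ 2 ^ n ∧ x ∈ der (closure (s : Set P)) n} := by
  classical
  induction n with
  | zero =>
    intro x _
    exact subset_closure ⟨{x}, by simp, subset_closure (by simp)⟩
  | succ n ih =>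
    set X := {x | ∃ s : Finset P, s.card ≤ 2 ^ n ∧ x ∈ der (closure (s : Set P)) n}
    set X' := {x | ∃ s : Finset P, s.card ≤ 2 ^ (n + 1) ∧ x ∈ der (closure (s : Set P)) (n + 1)}
    have hN : (closure X').Normal := by
      have : normalClosure X' = closure X' := by
        unfold normalClosure
        congr 1
        refine le_antisymm ?_ Group.subset_conjugatesOfSet
        intro y hy
        obtain ⟨x, ⟨s, hs, hx⟩, hxy⟩ := Group.mem_conjugatesOfSet_iff.mp hy
        obtain ⟨c, rfl⟩ := isConj_iff.mp hxy
        refine ⟨s.image (MulAut.conj c), Finset.card_image_le.trans hs, ?_⟩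
        have := mem_map_of_mem (MulAut.conj c).toMonoidHom hx
        rw [map_der, MonoidHom.map_closure] at this
        simpa using this
      rw [← this]; infer_instance
    rw [derivedSeries_succ]
    refine (commutator_mono ih ih).trans (commutator_le.mpr ?_)
    intro x hx y hy
    rw [← QuotientGroup.eq_one_iff, ← QuotientGroup.mk'_apply, map_commutatorElement,
      commutatorElement_eq_one_iff_commute]
    induction hx using closure_induction with
    | mem x hx =>
      induction hy using closure_induction with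
      | mem y hy =>
        rw [← commutatorElement_eq_one_iff_commute, ← map_commutatorElement,
          QuotientGroup.mk'_apply, QuotientGroup.eq_one_iff]
        obtain ⟨s, hs, hx⟩ := hx
        obtain ⟨t, ht, hy⟩ := hy
        refine subset_closure ⟨s ∪ t, (Finset.card_union_le _ _).trans (by rw [pow_succ]; omega), ?_⟩
        exact commutator_mem_commutator
          (der_mono (closure_mono (by simp)) n hx) (der_mono (closure_mono (by simp)) n hy)
      | one => simp
      | mul a b _ _ ha hb => rw [map_mul]; exact ha.mul_right hb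
      | inv a _ ha => rw [map_inv]; exact ha.inv_right
    | one => simp
    | mul a b _ _ ha hb => rw [map_mul]; exact ha.mul_left hb
    | inv a _ ha => rw [map_inv]; exact ha.inv_left

theorem Law.der_bot [Finite G] {P : Type} [Group P] [Group.IsSolvable P]
    (hL : Law G (2 ^ Nat.card G) P) : derivedSeries P (Nat.card G) = ⊥ := by
  rw [eq_bot_iff]
  refine (der_le_closure _).trans ((closure_le _).mpr ?_)
  rintro x ⟨s, hs, hx⟩
  obtain ⟨A, _, _, hA, π, hπ⟩ := law_cover hL (ι := s) (by simpa using hs) Subtype.val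
  have h1 := der_bot_of_cover hA π.rangeRestrict π.rangeRestrict_surjective
  have h2 : closure (s : Set P) ≤ π.range := (closure_le _).mpr (fun y hy => hπ ⟨y, hy⟩)
  have h3 := der_mono h2 _ hx
  rw [der_eq_map, h1, Subgroup.map_bot] at h3
  exact h3

theorem Law.der_perfect [Finite G] {B : Type} [Group B] [Finite B]
    (hL : Law G (2 ^ Nat.card G) B) (K : Subgroup B) :
    der K (Nat.card G) ≤ ⁅der K (Nat.card G), der K (Nat.card G)⁆ := by
  obtain ⟨_, ⟨j, rfl⟩, hmin⟩ := (wellFounded_lt (α := Subgroup K)).has_min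
    (Set.range (derivedSeries K)) (Set.range_nonempty _)
  have hle : ∀ n, derivedSeries K j ≤ derivedSeries K n := by
    intro n
    rcases le_total n j with h | h
    · exact derivedSeries_antitone K h
    · have := derivedSeries_antitone K h
      exact (eq_of_le_of_not_lt this (hmin _ ⟨n, rfl⟩)).ge
  have hn := derivedSeries_normal K j
  have hs : Group.IsSolvable (K ⧸ derivedSeries K j) := ⟨⟨j, by
    rw [← map_derivedSeries_eq (QuotientGroup.mk'_surjective _), Subgroup.map_eq_bot_iff,
      QuotientGroup.ker_mk']⟩⟩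
  have h1 := ((hL.subgroup K).quot (derivedSeries K j)).der_bot
  rw [← map_derivedSeries_eq (QuotientGroup.mk'_surjective _), Subgroup.map_eq_bot_iff,
      QuotientGroup.ker_mk'] at h1
  rw [← der_succ, der_eq_map, der_eq_map]
  exact map_mono (h1.trans (hle _))

end Pool.Agent.Lib.MP_6fc7a0_al.H26
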