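import Pool.Agent.Lib.MP_6fc7a0_al.H26Fin

set_option autoImplicit false

namespace Pool.Agent.Lib.MP_6fc7a0_al.H26

open Subgroup

abbrev QI : Type := Finset (FreeGroup ℕ) × FreeGroup ℕ

def Sat (H : Type) [Group H] (p : QI) : Prop :=
  ∀ ψ : FreeGroup ℕ →* H, (∀ w ∈ p.1, ψ w = 1) → ψ p.2 = 1

inductive Der (T : Set QI) (E : Finset (FreeGroup ℕ)) : FreeGroup ℕ → Prop
  | base (w) : w ∈ E → Der T E w
  | one : Der T E 1
  | mul (x y) : Der T E x → Der T E y → Der T E (x * y)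
  | inv (x) : Der T E x → Der T E x⁻¹
  | conj (x g) : Der T E x → Der T E (g * x * g⁻¹)
  | rule (p : QI) (θ : FreeGroup ℕ →* FreeGroup ℕ) : p ∈ T → (∀ w ∈ p.1, Der T E (θ w)) →
      Der T E (θ p.2)

theorem Der.mono {T T' : Set QI} (h : T ⊆ T') {E : Finset (FreeGroup ℕ)} {x : FreeGroup ℕ}
    (hx : Der T E x) : Der T' E x := by
  induction hx with
  | base w hw => exact .base w hw
  | one => exact .one
  | mul x y _ _ a b => exact .mul x y a b
  | inv x _ a => exact .inv x a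
  | conj x g _ a => exact .conj x g a
  | rule p θ hp _ a => exact .rule p θ (h hp) a

theorem Der.fin {S : Set QI} {E : Finset (FreeGroup ℕ)} {x : FreeGroup ℕ}
    (hx : Der S E x) : ∃ T ⊆ S, T.Finite ∧ Der T E x := by
  induction hx with
  | base w hw => exact ⟨∅, by simp, by simp, .base w hw⟩
  | one => exact ⟨∅, by simp, by simp, .one⟩
  | mul x y _ _ a b =>
    obtain ⟨T, h1, h2, h3⟩ := a
    obtain ⟨T', h1', h2', h3'⟩ := b
    exact ⟨T ∪ T', Set.union_subset h1 h1', h2.union h2',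
      .mul x y (h3.mono Set.subset_union_left) (h3'.mono Set.subset_union_right)⟩
  | inv x _ a =>
    obtain ⟨T, h1, h2, h3⟩ := a
    exact ⟨T, h1, h2, .inv x h3⟩
  | conj x g _ a =>
    obtain ⟨T, h1, h2, h3⟩ := a
    exact ⟨T, h1, h2, .conj x g h3⟩
  | rule p θ hp _ a =>
    choose T h1 h2 h3 using a
    refine ⟨insert p (⋃ w : p.1, T w.1 w.2), ?_, ?_, .rule p θ (Set.mem_insert _ _) fun w hw => ?_⟩
    · exact Set.insert_subset hp (Set.iUnion_subset fun w => h1 w.1 w.2)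
    · exact (Set.finite_iUnion fun w : p.1 => h2 w.1 w.2).insert p
    · exact (h3 w hw).mono ((Set.subset_iUnion (fun w : p.1 => T w.1 w.2) ⟨w, hw⟩).trans
        (Set.subset_insert _ _))

theorem Der.sound {T : Set QI} {E : Finset (FreeGroup ℕ)} {x : FreeGroup ℕ}
    (hx : Der T E x) {H : Type} [Group H] (hH : ∀ p ∈ T, Sat H p) (ψ : FreeGroup ℕ →* H)
    (hψ : ∀ w ∈ E, ψ w = 1) : ψ x = 1 := by
  induction hx with
  | base w hw => exact hψ w hw
  | one => simp
  | mul x y _ _ a b => simp [a, b]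
  | inv x _ a => simp [a]
  | conj x g _ a => simp [a]
  | rule p θ hp _ a => exact hH p hp (ψ.comp θ) a

theorem compact (S : Set QI) (q : QI)
    (h : ∀ (H : Type) [Group H], (∀ p ∈ S, Sat H p) → Sat H q) :
    ∃ T ⊆ S, T.Finite ∧ ∀ (H : Type) [Group H], (∀ p ∈ T, Sat H p) → Sat H q := by
  let N : Subgroup (FreeGroup ℕ) :=
    { carrier := {x | Der S q.1 x}
      one_mem' := .one
      mul_mem' := fun a b => .mul _ _ a b
      inv_mem' := fun a => .inv _ a }
  have hN : N.Normal := ⟨fun x hx g => Der.conj x g hx⟩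
  have hS : ∀ p ∈ S, Sat (FreeGroup ℕ ⧸ N) p := by
    intro p hp ψ hψ
    choose t ht using fun i : ℕ => QuotientGroup.mk'_surjective N (ψ (FreeGroup.of i))
    have e : (QuotientGroup.mk' N).comp (FreeGroup.lift t) = ψ := by
      ext i; simpa using ht i
    rw [← e] at hψ ⊢
    exact (QuotientGroup.eq_one_iff _).2 (Der.rule p _ hp
      fun w hw => (QuotientGroup.eq_one_iff _).1 (hψ w hw))
  have h2 : Der S q.1 q.2 := (QuotientGroup.eq_one_iff (N := N) _).1
    (h _ hS (QuotientGroup.mk' N) fun w hw => (QuotientGroup.eq_one_iff _).2 (Der.base w hw))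
  obtain ⟨T, h1, h2, h3⟩ := h2.fin
  exact ⟨T, h1, h2, fun H _ hH ψ hψ => h3.sound hH ψ hψ⟩

open Classical in
noncomputable def qi {α : Type} (j : α → ℕ) (E : Finset (FreeGroup α)) (x : FreeGroup α) : QI :=
  (E.image (FreeGroup.map j), FreeGroup.map j x)

theorem sat_qi {α : Type} {j : α → ℕ} (hj : Function.Injective j) (E : Finset (FreeGroup α))
    (x : FreeGroup α) (H : Type) [Group H] :
    Sat H (qi j E x) ↔ ∀ ψ : FreeGroup α →* H, (∀ w ∈ E, ψ w = 1) → ψ x = 1 := by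
  classical
  constructor
  · intro h ψ hψ
    let ψ' : FreeGroup ℕ →* H :=
      FreeGroup.lift (Function.extend j (fun a => ψ (FreeGroup.of a)) 1)
    have e : ψ'.comp (FreeGroup.map j) = ψ := by
      ext a; simp [ψ', hj.extend_apply]
    rw [← e]
    refine h ψ' fun w hw => ?_
    obtain ⟨w', hw', rfl⟩ := Finset.mem_image.1 hw
    have := hψ w' hw'
    rwa [← e] at this
  · intro h ψ hψ
    exact h (ψ.comp (FreeGroup.map j)) fun w hw => hψ _ (Finset.mem_image_of_mem _ hw)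

theorem factor {F H X : Type} [Group F] [Group H] [Group X] (ψ : F →* H)
    (hψ : Function.Surjective ψ) (φ : F →* X) (h : ψ.ker ≤ φ.ker) :
    ∃ f : H →* X, ∀ x, f (ψ x) = φ x :=
  ⟨ψ.liftOfSurjective hψ ⟨φ, h⟩, fun x => ψ.liftOfRightInverse_comp_apply _ _ ⟨φ, h⟩ x⟩

theorem gens {F : Type} [Group F] [Group.FG F] (N : Subgroup F) [N.FiniteIndex] :
    ∃ E : Finset F, closure (E : Set F) = N := by
  have : Group.FG N := Subgroup.fg_of_index_ne_zero N
  exact (Group.fg_iff_subgroup_fg N).1 this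

variable {G : Type} [Group G]

theorem Res.sat {H : Type} [Group H] (h : Res G H) {p : QI} (hp : Sat G p) : Sat H p := by
  intro ψ hψ
  by_contra hne
  obtain ⟨f, hf⟩ := h _ hne
  exact hf (hp (f.comp ψ) fun w hw => by simp [hψ w hw])

theorem res_of_sat {B : Type} [Group B] [Finite B] (h : ∀ p, Sat G p → Sat B p) : Res G B := by
  intro y hy
  by_contra hne
  push Not at hne
  obtain ⟨j, hj⟩ := Countable.exists_injective_nat B
  let ψ : FreeGroup B →* B := FreeGroup.lift id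
  have hψ : Function.Surjective ψ := fun b => ⟨FreeGroup.of b, by simp [ψ]⟩
  obtain ⟨E, hE⟩ := gens ψ.ker
  have h1 : Sat G (qi j E (FreeGroup.of y)) := by
    rw [sat_qi hj]
    intro φ hφ
    obtain ⟨f, hf⟩ := factor ψ hψ φ (by rw [← hE, closure_le]; exact fun w hw => hφ w hw)
    rw [← hf]; simpa [ψ] using hne f
  have h2 := (sat_qi hj _ _ _).1 (h _ h1) ψ fun w hw => by
    have : w ∈ ψ.ker := hE ▸ subset_closure hw
    exact this
  exact hy (by simpa [ψ] using h2)

theorem fin_loc [Finite G] (k : ℕ) : ∃ Q : Set QI, Q.Finite ∧ (∀ p ∈ Q, Sat G p) ∧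
    ∀ (H : Type) [Group H], (∀ p ∈ Q, Sat H p) → Loc G k H := by
  classical
  have : Finite (FreeGroup (Fin k) →* G) := finite_hom
  let V : Subgroup (FreeGroup (Fin k)) := ⨅ φ : FreeGroup (Fin k) →* G, φ.ker
  have hVi : V.FiniteIndex := finiteIndex_iInf fun _ => inferInstance
  have hVn : V.Normal := normal_iInf_normal fun _ => inferInstance
  have hfin : {N : Subgroup (FreeGroup (Fin k)) | V ≤ N}.Finite := by
    apply Set.Finite.of_finite_image (f := Subgroup.map (QuotientGroup.mk' V)) (Set.toFinite _)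
    intro A hA B hB hAB
    exact map_injective_of_ker_le _ (by simpa using hA) (by simpa using hB) hAB
  have := hfin.to_subtype
  have hg : ∀ N : {N : Subgroup (FreeGroup (Fin k)) | V ≤ N},
      ∃ E : Finset (FreeGroup (Fin k)), closure (E : Set (FreeGroup (Fin k))) = N := by
    intro N
    have : (N : Subgroup (FreeGroup (Fin k))).FiniteIndex := finiteIndex_of_le N.2
    exact gens _
  choose E hE using hg
  have hVV : V ∈ {N : Subgroup (FreeGroup (Fin k)) | V ≤ N} := le_refl V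
  have hj : Function.Injective (Fin.val : Fin k → ℕ) := Fin.val_injective
  let Q1 : Set QI := (fun v => qi Fin.val ∅ v) '' (E ⟨V, hVV⟩ : Set (FreeGroup (Fin k)))
  let Q2 : Set QI := Set.range fun z : {N : Subgroup (FreeGroup (Fin k)) | V ≤ N} ×
    (FreeGroup (Fin k) ⧸ V) => qi Fin.val (E z.1) z.2.out
  refine ⟨{p ∈ Q1 ∪ Q2 | Sat G p}, ((((E ⟨V, hVV⟩).finite_toSet.image _).union
    (Set.finite_range _))).subset fun p hp => hp.1, fun p hp => hp.2, fun H _ hH s hs => ?_⟩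
  have hc : Fintype.card s ≤ Fintype.card (Fin k) := by simpa using hs
  obtain ⟨g⟩ := Function.Embedding.nonempty_of_card_le hc
  let C := closure (s : Set H)
  let t : Fin k → C := Function.extend g (fun x => ⟨x.1, subset_closure x.2⟩) 1
  let ψ : FreeGroup (Fin k) →* C := FreeGroup.lift t
  have hψ : Function.Surjective ψ := by
    rintro ⟨x, hx⟩
    induction hx using closure_induction with
    | mem x hx => exact ⟨FreeGroup.of (g ⟨x, hx⟩), by simp [ψ, t, g.injective.extend_apply]⟩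
    | one => exact ⟨1, map_one ψ⟩
    | mul x y hx hy ihx ihy =>
      obtain ⟨a, ha⟩ := ihx
      obtain ⟨b, hb⟩ := ihy
      exact ⟨a * b, by rw [map_mul, ha, hb]; rfl⟩
    | inv x hx ih =>
      obtain ⟨a, ha⟩ := ih
      exact ⟨a⁻¹, by rw [map_inv, ha]; rfl⟩
  have key : ∀ (E' : Finset (FreeGroup (Fin k))) (x : FreeGroup (Fin k)),
      qi Fin.val E' x ∈ Q1 ∪ Q2 →
      (∀ φ : FreeGroup (Fin k) →* G, (∀ w ∈ E', φ w = 1) → φ x = 1) →
      (∀ w ∈ E', ψ w = 1) → ψ x = 1 := by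
    intro E' x h1 h2 h3
    have := (sat_qi hj _ _ _).1 (hH _ ⟨h1, (sat_qi hj _ _ _).2 h2⟩) (C.subtype.comp ψ)
      (fun w hw => by simp [h3 w hw])
    exact Subtype.ext this
  have hV : V ≤ ψ.ker := by
    have e : closure (E ⟨V, hVV⟩ : Set (FreeGroup (Fin k))) = V := hE ⟨V, hVV⟩
    rw [← e, closure_le]
    intro v hv
    refine key ∅ v (Or.inl ⟨v, hv, rfl⟩) (fun φ _ => ?_) (by simp)
    have : v ∈ V := e ▸ subset_closure hv
    exact mem_iInf.1 this φ
  intro y hy
  by_contra hne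
  push Not at hne
  obtain ⟨x, rfl⟩ := hψ y
  have e : closure (E ⟨ψ.ker, hV⟩ : Set (FreeGroup (Fin k))) = ψ.ker := hE ⟨ψ.ker, hV⟩
  obtain ⟨v, hv⟩ := QuotientGroup.mk_out_eq_mul V x
  have hx : ψ (QuotientGroup.mk x : FreeGroup (Fin k) ⧸ V).out = ψ x := by
    have : ψ v = 1 := hV v.2
    rw [hv, map_mul, this, mul_one]
  apply hy
  rw [← hx]
  refine key (E ⟨ψ.ker, hV⟩) _ (Or.inr ⟨(⟨ψ.ker, hV⟩, QuotientGroup.mk x), rfl⟩)
    (fun φ hφ => ?_) (fun w hw => ?_)
  · obtain ⟨f, hf⟩ := factor ψ hψ φ (by rw [← e, closure_le]; exact fun w hw => hφ w hw)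
    rw [← hf, hx]; exact hne f
  · have : w ∈ ψ.ker := e ▸ subset_closure hw
    exact this

theorem Sat.of_injective {P Q : Type} [Group P] [Group Q] (f : Q →* P)
    (hf : Function.Injective f) {p : QI} (h : Sat P p) : Sat Q p := by
  intro ψ hψ
  apply hf
  rw [map_one]
  exact h (f.comp ψ) fun w hw => by simp [hψ w hw]

theorem Sat.pi {B ι : Type} [Group B] {p : QI} (h : Sat B p) : Sat (ι → B) p := by
  intro ψ hψ
  funext i
  exact h ((Pi.evalMonoidHom (fun _ => B) i).comp ψ) fun w hw => by simp [hψ w hw]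

theorem exists_supp (w : FreeGroup ℕ) :
    ∃ X : Finset ℕ, w ∈ closure (FreeGroup.of '' (X : Set ℕ)) := by
  classical
  induction w using FreeGroup.induction_on with
  | C1 => exact ⟨∅, one_mem _⟩
  | of i => exact ⟨{i}, subset_closure ⟨i, by simp, rfl⟩⟩
  | inv_of i h => obtain ⟨X, hX⟩ := h; exact ⟨X, inv_mem hX⟩
  | mul x y hx hy =>
    obtain ⟨X, hX⟩ := hx
    obtain ⟨Y, hY⟩ := hy
    refine ⟨X ∪ Y, mul_mem (closure_mono ?_ hX) (closure_mono ?_ hY)⟩ <;>
      exact Set.image_mono (by simp)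

theorem witness (σ : QI) : ∃ r : ℕ, ∀ (H : Type) [Group H], ¬ Sat H σ →
    ∃ s : Finset H, s.card ≤ r ∧ ¬ Sat (closure (s : Set H)) σ := by
  classical
  choose X hX using exists_supp
  let Y : Finset ℕ := (insert σ.2 σ.1).biUnion X
  have hY : ∀ w ∈ insert σ.2 σ.1, w ∈ closure (FreeGroup.of '' (Y : Set ℕ)) := fun w hw =>
    closure_mono (Set.image_mono (by
      exact_mod_cast Finset.subset_biUnion_of_mem X hw)) (hX w)
  refine ⟨Y.card, fun H _ hH => ?_⟩
  unfold Sat at hH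
  push Not at hH
  obtain ⟨ψ, h1, h2⟩ := hH
  let s : Finset H := Y.image fun i => ψ (FreeGroup.of i)
  refine ⟨s, Finset.card_image_le, fun h => ?_⟩
  let ψ' : FreeGroup ℕ →* closure (s : Set H) := FreeGroup.lift fun i =>
    if hi : i ∈ Y then ⟨ψ (FreeGroup.of i), subset_closure
      (Finset.mem_coe.2 (Finset.mem_image_of_mem _ hi))⟩ else 1
  have e : ∀ w ∈ closure (FreeGroup.of '' (Y : Set ℕ)), (ψ' w : H) = ψ w := by
    intro w hw
    have := MonoidHom.eqOn_closure (f := (closure (s : Set H)).subtype.comp ψ') (g := ψ)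
      (s := FreeGroup.of '' (Y : Set ℕ)) (by
        rintro _ ⟨i, hi, rfl⟩
        have hi' : i ∈ Y := hi
        simp [ψ', hi']) hw
    exact this
  apply h2
  rw [← e _ (hY _ (Finset.mem_insert_self _ _)), h ψ' fun w hw => Subtype.ext ?_]
  · rfl
  · rw [e _ (hY _ (Finset.mem_insert_of_mem hw))]; exact h1 w hw

theorem exists_min {A : Type} [Group A] [Finite A] (h : ¬ Res G A) :
    ∃ B : Subgroup A, ¬ Res G B ∧ ∀ M : Subgroup B, M ≠ ⊤ → Res G M := by
  obtain ⟨B, hB, hmin⟩ := (wellFounded_lt (α := Subgroup A)).has_min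
    {B : Subgroup A | ¬ Res G B} ⟨⊤, fun h' => h h'.of_top⟩
  refine ⟨B, hB, fun M hM => ?_⟩
  have hlt : M.map B.subtype < B := by
    refine lt_of_le_of_ne (map_subtype_le M) fun he => hM ?_
    apply map_injective B.subtype_injective
    rw [he, ← MonoidHom.range_eq_map, range_subtype]
  have : Res G (M.map B.subtype) := by
    by_contra hc
    exact hmin _ hc hlt
  exact this.of_injective (equivMapOfInjective M B.subtype B.subtype_injective).toMonoidHom
    (equivMapOfInjective M B.subtype B.subtype_injective).injective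

theorem logic (G : Type) [Group G] [Finite G] (S : Set (Finset (FreeGroup ℕ) × FreeGroup ℕ))
    (hbasis : ∀ q : Finset (FreeGroup ℕ) × FreeGroup ℕ,
          (∀ φ : FreeGroup ℕ →* G, (∀ w ∈ q.1, φ w = 1) → φ q.2 = 1) ↔
          (∀ (H : Type) [Group H],
            (∀ p ∈ S, ∀ ψ : FreeGroup ℕ →* H, (∀ w ∈ p.1, ψ w = 1) → ψ p.2 = 1) →
            ∀ ψ : FreeGroup ℕ →* H, (∀ w ∈ q.1, ψ w = 1) → ψ q.2 = 1))
    (hindep : ∀ σ ∈ S, ¬ (∀ (H : Type) [Group H],
            (∀ p ∈ S, p ≠ σ → ∀ ψ : FreeGroup ℕ →* H, (∀ w ∈ p.1, ψ w = 1) → ψ p.2 = 1) →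
            ∀ ψ : FreeGroup ℕ →* H, (∀ w ∈ σ.1, ψ w = 1) → ψ σ.2 = 1))
    (hinf : S.Infinite) (k : ℕ) :
    ∃ (B : Type) (_ : Group B) (_ : Finite B), Loc G k B ∧ ¬ Res G B ∧
      (∀ M : Subgroup B, M ≠ ⊤ → Res G M) ∧ ¬ Good G B := by
  obtain ⟨k0, hk0⟩ := law_bound G
  obtain ⟨Q, hQ, hQG, hQL⟩ := fin_loc (G := G) (max k k0)
  have hb1 : ∀ q : QI, Sat G q → ∀ (H : Type) [Group H], (∀ p ∈ S, Sat H p) → Sat H q :=
    fun q hq => (hbasis q).1 hq
  have hb2 : ∀ q ∈ S, Sat G q := fun q hq => (hbasis q).2 fun H _ hH => hH q hq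
  choose T hT1 hT2 hT3 using fun q : Q => compact S q.1 (hb1 q.1 (hQG q.1 q.2))
  have := hQ.to_subtype
  obtain ⟨σ, hσ, hσT⟩ := hinf.exists_notMem_finite (Set.finite_iUnion hT2)
  have hloc : ∀ (H : Type) [Group H], (∀ p ∈ S, p ≠ σ → Sat H p) → Loc G (max k k0) H := by
    intro H _ hH
    refine hQL H fun q hq => hT3 ⟨q, hq⟩ H fun p hp => hH p (hT1 _ hp) ?_
    rintro rfl
    exact hσT (Set.mem_iUnion.2 ⟨_, hp⟩)
  obtain ⟨r, hr⟩ := witness σ
  obtain ⟨N, hN⟩ := hk0 r
  let W : Set ℕ := {n | ∃ (B : Type) (_ : Group B) (_ : Finite B),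
    (∀ p ∈ S, p ≠ σ → Sat B p) ∧ ¬ Res G B ∧ (∀ M : Subgroup B, M ≠ ⊤ → Res G M) ∧
    Nat.card B = n}
  have hW : ∀ (A : Type) [Group A] [Finite A], (∀ p ∈ S, p ≠ σ → Sat A p) →
      ∀ B : Subgroup A, ¬ Res G B → (∀ M : Subgroup B, M ≠ ⊤ → Res G M) → Nat.card B ∈ W :=
    fun A _ _ hA B h1 h2 => ⟨B, inferInstance, inferInstance,
      fun p hp hne => (hA p hp hne).of_injective B.subtype B.subtype_injective, h1, h2, rfl⟩
  have hne : W.Nonempty := by
    have := hindep σ hσ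
    push Not at this
    obtain ⟨H, _, hH, hH2⟩ := this
    have hH3 : ¬ Sat H σ := by
      unfold Sat; push Not; exact hH2
    obtain ⟨s, hs, hs2⟩ := hr H hH3
    have hfin := (hN H ((hloc H hH).law.mono (le_max_right _ _)) s hs).1
    obtain ⟨B, h1, h2⟩ := exists_min (G := G) (A := closure (s : Set H))
      fun h => hs2 (h.sat (hb2 σ hσ))
    exact ⟨_, hW _ (fun p hp hne => Sat.of_injective (closure (s : Set H)).subtype
      (closure (s : Set H)).subtype_injective (hH p hp hne)) B h1 h2⟩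
  have hbdd : BddAbove W := by
    refine ⟨N, ?_⟩
    rintro _ ⟨B, _, _, h1, h2, h3, rfl⟩
    have hB : ¬ Sat B σ := fun h => h2 (res_of_sat fun q hq => hb1 q hq B fun p hp => by
      by_cases e : p = σ
      · exact e ▸ h
      · exact h1 p hp e)
    obtain ⟨s, hs, hs2⟩ := hr B hB
    have htop : closure (s : Set B) = ⊤ := by
      by_contra hc
      exact hs2 ((h3 _ hc).sat (hb2 σ hσ))
    have := (hN B ((hloc B h1).law.mono (le_max_right _ _)) s hs).2
    rwa [htop, card_top] at this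
  obtain ⟨B, _, _, h1, h2, h3, h4⟩ := Nat.sSup_mem hne hbdd
  refine ⟨B, inferInstance, inferInstance, (hloc B h1).mono (le_max_left _ _), h2, h3, ?_⟩
  rintro ⟨ι, _, H, hH, hf⟩
  obtain ⟨B2, g1, g2⟩ := exists_min hH
  have hcard : Nat.card B2 ≤ Nat.card B := by
    rw [h4]
    exact le_csSup hbdd (hW H (fun p hp hne => Sat.of_injective H.subtype H.subtype_injective
      (h1 p hp hne).pi) B2 g1 g2)
  let π : ι → (B2 →* B) := fun i =>
    (Pi.evalMonoidHom (fun _ => B) i).comp (H.subtype.comp B2.subtype)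
  have hsurj : ∃ i, Function.Surjective (π i) := by
    by_contra hc
    push Not at hc
    apply g1
    intro x hx
    have : ∃ i, π i x ≠ 1 := by
      by_contra h'
      push Not at h'
      exact hx (Subtype.ext (Subtype.ext (funext h')))
    obtain ⟨i, hi⟩ := this
    obtain ⟨f, hf'⟩ := h3 (π i).range (fun h => hc i (MonoidHom.range_eq_top.1 h))
      ((π i).rangeRestrict x) (fun h => hi (congrArg Subtype.val h))
    exact ⟨f.comp (π i).rangeRestrict, hf'⟩
  obtain ⟨i, hi⟩ := hsurj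
  have hbij : Function.Bijective (π i) := hi.bijective_of_nat_card_le hcard
  let e := MulEquiv.ofBijective (π i) hbij
  exact hf ((H.subtype.comp B2.subtype).comp e.symm.toMonoidHom) (fun x => (e.symm x).1.2) i
    fun x => e.apply_symm_apply x

end Pool.Agent.Lib.MP_6fc7a0_al.H26
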