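import Pool.Agent.Lib.MP_6fc7a0_al.H26Ab3
import Pool.Agent.Lib.MP_6fc7a0_al.H26Perf3
import Pool.Agent.Lib.MP_6fc7a0_al.H39Logic

set_option autoImplicit false

namespace Pool.Agent.Lib.MP_6fc7a0_al.H26

open Subgroup
open scoped commutatorElement

/-- every nontrivial element survives in an image of order at most `j` -/
def Ht (G : Type) [Group G] (j : ℕ) (P : Type) [Group P] : Prop :=
  ∀ x : P, x ≠ 1 → ∃ f : P →* G, f x ≠ 1 ∧ Nat.card f.range ≤ j

variable {G : Type} [Group G]

theorem range_incl_le {B : Type} [Group B] {A C : Subgroup B} (hle : A ≤ C) (f : C →* G) :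
    (f.comp (inclusion hle)).range ≤ f.range := by
  rintro _ ⟨x, rfl⟩
  exact ⟨_, rfl⟩

theorem Ht.mono [Finite G] {B : Type} [Group B] {A C : Subgroup B} {j : ℕ} (hle : A ≤ C)
    (h : Ht G j C) : Ht G j A := by
  intro x hx
  obtain ⟨f, hf, hc⟩ := h (inclusion hle x) (fun h' => hx (inclusion_injective hle (by simpa using h')))
  exact ⟨f.comp (inclusion hle), hf, (card_le_of_le (range_incl_le hle f)).trans hc⟩

theorem exists_maxN {B : Type} [Group B] [Finite B] {K C : Subgroup B} [hC : C.Normal]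
    (h : C < K) : ∃ W, MaxN K W ∧ C ≤ W := by
  obtain ⟨W, ⟨h1, h2, h3⟩, hmax⟩ := (wellFounded_gt (α := Subgroup B)).has_min
    {S : Subgroup B | S.Normal ∧ S < K ∧ C ≤ S} ⟨C, hC, h, le_rfl⟩
  refine ⟨W, ⟨h1, h2, fun N hN hWN hNK => ?_⟩, h3⟩
  by_cases hK : N = K
  · exact Or.inr hK
  · left
    by_contra hne
    exact hmax N ⟨hN, lt_of_le_of_ne hNK hK, h3.trans hWN⟩ (lt_of_le_of_ne hWN (Ne.symm hne))

theorem range_drop {B : Type} [Group B] [Finite B] {K W : Subgroup B} [K.Normal]
    (hK : K ≤ ⁅K, K⁆) (hW : MaxN K W) (f : K →* G) (hc : core f ≤ W) :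
    (f.comp (inclusion hW.2.1.le)).range ≠ f.range := by
  classical
  intro he
  have hWn := hW.1
  have := Fintype.ofFinite B
  let A : B → Subgroup K := fun g => (f.comp (MulAut.conjNormal g : MulAut K).toMonoidHom).ker
  have hAn : ∀ g, (A g).Normal := fun g => inferInstance
  have hp : (⊤ : Subgroup K) ≤ ⁅(⊤ : Subgroup K), ⊤⁆ := by
    rw [← map_le_map_iff_of_injective K.subtype_injective, map_commutator,
      ← MonoidHom.range_eq_map, range_subtype]
    exact hK
  have hA : ∀ g, (⊤ : Subgroup K) ≤ W.subgroupOf K ⊔ A g := by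
    intro g x _
    have h1 : f (MulAut.conjNormal g x) ∈ (f.comp (inclusion hW.2.1.le)).range := by
      rw [he]; exact ⟨_, rfl⟩
    obtain ⟨w, hw⟩ := h1
    let w' : K := (MulAut.conjNormal g).symm (inclusion hW.2.1.le w)
    have hw' : w' ∈ W.subgroupOf K := by
      rw [mem_subgroupOf]
      have : (w' : B) = g⁻¹ * w * g := by simp [w']
      rw [this]
      simpa using hWn.conj_mem _ w.2 g⁻¹
    have ha : w'⁻¹ * x ∈ A g := by
      show f (MulAut.conjNormal g (w'⁻¹ * x)) = 1
      rw [map_mul, map_inv, map_mul, map_inv, ← hw]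
      simp [w']
    have : x = w' * (w'⁻¹ * x) := by group
    rw [this]
    exact mul_mem_sup hw' ha
  have key : ∀ s : Finset B, (⊤ : Subgroup K) ≤ W.subgroupOf K ⊔ ⨅ g ∈ s, A g := by
    intro s
    induction s using Finset.induction_on with
    | empty => simp
    | insert a s ha ih =>
      rw [Finset.iInf_insert]
      have : (⨅ g ∈ s, A g).Normal :=
        normal_iInf_normal (fun g => normal_iInf_normal (fun _ => inferInstance))
      exact crt hp (hA a) ih
  have h2 : (⨅ g ∈ (Finset.univ : Finset B), A g) ≤ W.subgroupOf K := by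
    intro x hx
    rw [mem_subgroupOf]
    apply hc
    intro g
    refine ⟨MulAut.conjNormal g x, ?_, by simp⟩
    exact mem_iInf.mp (mem_iInf.mp hx g) (Finset.mem_univ g)
  have h3 := (key Finset.univ).trans (sup_le le_rfl h2)
  exact hW.2.1.not_ge (fun x hx => h3 (mem_top (⟨x, hx⟩ : K)))

theorem Ht.drop [Finite G] {B : Type} [Group B] [Finite B] {K K1 : Subgroup B} [K.Normal] {j : ℕ}
    (hK : K ≤ ⁅K, K⁆) (h1 : K1 ≤ K) (h2 : ∀ W, MaxN K W → K1 ≤ W) (h : Ht G (j + 1) K) :
    Ht G j K1 := by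
  intro x hx
  obtain ⟨f, hf, hc⟩ := h (inclusion h1 x) (fun h' => hx (inclusion_injective h1 (by simpa using h')))
  have hlt : core f < K := lt_of_le_of_ne (core_le f) (fun he => hf (core_ker f (by
    rw [he]; exact (inclusion h1 x).2)))
  obtain ⟨W, hW, hcW⟩ := exists_maxN hlt
  refine ⟨f.comp (inclusion h1), hf, ?_⟩
  have a1 : (f.comp (inclusion h1)).range ≤ (f.comp (inclusion hW.2.1.le)).range := by
    rintro _ ⟨y, rfl⟩
    exact ⟨inclusion (h2 W hW) y, rfl⟩
  have a2 := lt_of_le_of_ne (range_incl_le hW.2.1.le f) (range_drop hK hW f hcW)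
  have a3 : Nat.card (f.comp (inclusion h1)).range < Nat.card f.range := by
    refine lt_of_le_of_ne (card_le_of_le (a1.trans a2.le)) (fun he => ?_)
    have := eq_of_le_of_card_ge (a1.trans a2.le) he.ge
    exact (a1.trans_lt a2).ne this
  omega

/-- the inductive claim -/
def Claim (G : Type) [Group G] (j β k : ℕ) (Q : ∀ (B : Type) [Group B], Subgroup B → Prop) :
    Prop :=
  ∀ (B : Type) [Group B] [Finite B], Loc G k B → ¬ Res G B →
    (∀ M : Subgroup B, M ≠ ⊤ → Res G M) → ∀ (K : Subgroup B) [K.Normal], K.index ≤ β →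
    ∀ b : B, b ∉ K → (∀ f : B →* G, f b = 1) → Ht G j K → Q B K → Good G B

theorem claim_zero [Finite G] (β : ℕ) : Claim G 0 β β (fun _ _ _ => True) := by
  classical
  intro B _ _ hL hR _ K _ hβ b _ _ hH _
  exfalso
  have hK : K = ⊥ := by
    rw [eq_bot_iff_forall]
    intro x hx
    by_contra hne
    obtain ⟨f, -, hc⟩ := hH ⟨x, hx⟩ (fun h => hne (congrArg Subtype.val h))
    have : 0 < Nat.card f.range := Nat.card_pos
    omega
  rw [hK, index_bot] at hβ
  have := Fintype.ofFinite B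
  have h1 := hL Finset.univ (by rw [Finset.card_univ, ← Nat.card_eq_fintype_card]; exact hβ)
  rw [Finset.coe_univ, Subgroup.closure_univ] at h1
  exact hR h1.of_top

theorem claim_step [Finite G] (j : ℕ) (ih : ∀ β, ∃ k, Claim G j β k (fun _ _ _ => True))
    (s : ℕ) : ∀ β, ∃ k, Claim G (j + 1) β k (fun _ _ K => der K s ≤ ⁅der K s, der K s⁆) := by
  classical
  induction s with
  | zero =>
    intro β
    obtain ⟨w, hw⟩ := perfect_case G β
    obtain ⟨k, hk⟩ := ih (β * (Nat.card G * β).factorial ^ w)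
    refine ⟨k, fun B _ _ hL hR hM K _ hβ b hbK hb hH hQ => ?_⟩
    have hK : K ≤ ⁅K, K⁆ := hQ
    have hRK : Res G K := hM K (fun h => hbK (h ▸ mem_top b))
    by_cases hc : w ≤ {W | MaxN K W}.ncard
    · exact (hw B K hK hβ hRK b hb hc).good hbK hb hM
    have := Fintype.ofFinite {W | MaxN K W}
    let K1 : Subgroup B := K ⊓ ⨅ W : {W | MaxN K W}, W.1
    have hn : (⨅ W : {W | MaxN K W}, W.1).Normal := normal_iInf_normal (fun W => W.2.1)
    refine hk B hL hR hM K1 ?_ b (fun h => hbK h.1) hb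
      (hH.drop hK inf_le_left (fun W hW => inf_le_right.trans (iInf_le (fun W : {W | MaxN K W} => W.1) ⟨W, hW⟩))) trivial
    refine index_inf_le.trans (Nat.mul_le_mul hβ ((index_iInf_le _).trans ?_))
    refine (Finset.prod_le_pow_card _ _ _ (fun W _ => W.2.index_le hK hRK hβ)).trans ?_
    apply Nat.pow_le_pow_right (Nat.factorial_pos _)
    rw [Finset.card_univ, ← Nat.card_eq_fintype_card, Nat.card_coe_set_eq]
    omega
  | succ s ihs =>
    intro β
    obtain ⟨β', k1, h1⟩ := abelian_case G β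
    obtain ⟨k2, h2⟩ := ihs β'
    refine ⟨max k1 k2, fun B _ _ hL hR hM K _ hβ b hbK hb hH hQ => ?_⟩
    have hRK : Res G K := hM K (fun h => hbK (h ▸ mem_top b))
    rcases h1 B (hL.mono (le_max_left _ _)) K hβ hRK b hb with h | h
    · refine h2 B (hL.mono (le_max_right _ _)) hR hM ⁅K, K⁆ h b
        (fun h => hbK (commutator_le_self _ h)) hb (hH.mono (commutator_le_self _)) ?_
      simpa only [der_succ'] using hQ
    · exact h.good hbK hb hM

theorem claim_all [Finite G] (j : ℕ) : ∀ β, ∃ k, Claim G j β k (fun _ _ _ => True) := by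
  induction j with
  | zero => exact fun β => ⟨β, claim_zero β⟩
  | succ j ih =>
    intro β
    obtain ⟨k, hk⟩ := claim_step j ih (Nat.card G) β
    refine ⟨max k (2 ^ Nat.card G), fun B _ _ hL hR hM K _ hβ b hbK hb hH _ => ?_⟩
    exact hk B (hL.mono (le_max_left _ _)) hR hM K hβ b hbK hb hH
      ((hL.mono (le_max_right _ _)).law.der_perfect K)

theorem main_group (G : Type) [Group G] [Finite G] : ∃ k, ∀ (B : Type) [Group B] [Finite B],
    Loc G k B → ¬ Res G B → (∀ M : Subgroup B, M ≠ ⊤ → Res G M) → Good G B := by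
  obtain ⟨k, hk⟩ := claim_all (G := G) (Nat.card G)
    (max (Nat.card G) (Nat.card G * Nat.card G).factorial)
  refine ⟨max k (kc G), fun B _ _ hL hR hM => ?_⟩
  obtain ⟨b, hb1, hb⟩ : ∃ b : B, b ≠ 1 ∧ ∀ f : B →* G, f b = 1 := by
    by_contra hc
    push Not at hc
    exact hR hc
  have hne : (⊤ : Subgroup B) ≠ ⊥ := fun h => hb1 (mem_bot.mp (h ▸ mem_top b))
  obtain ⟨N, hN, hNt, hmax⟩ := exists_max_normal hne
  obtain ⟨-, hidx⟩ := max_normal_index (hL.mono (le_max_right _ _)).law N hNt hmax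
  have main : ∀ (K : Subgroup B) [K.Normal],
      K.index ≤ max (Nat.card G) (Nat.card G * Nat.card G).factorial → b ∉ K → Good G B := by
    intro K _ hK hbK
    refine hk B (hL.mono (le_max_left _ _)) hR hM K hK b hbK hb (fun x hx => ?_) trivial
    obtain ⟨f, hf⟩ := hM K (fun h => hbK (h ▸ mem_top b)) x hx
    exact ⟨f, hf, Nat.card_le_card_of_injective _ Subtype.val_injective⟩
  by_cases hbN : b ∈ N
  · obtain ⟨f, hf⟩ := hM N hNt ⟨b, hbN⟩ (fun h => hb1 (congrArg Subtype.val h))
    exact main (core f) ((core_index f hidx).trans (le_max_right _ _))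
      (fun h => hf (core_ker f h))
  · exact main N (hidx.trans (le_max_left _ _)) hbN

end Pool.Agent.Lib.MP_6fc7a0_al.H26
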