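import Pool.Agent.Lib.MP_6fc7a0_al.H26Basic

set_option autoImplicit false

namespace Pool.Agent.Lib.MP_6fc7a0_al.H26

open Subgroup
open scoped commutatorElement

theorem comm_central {Q : Type} [Group Q] {z z' a b : Q} (h1 : Commute z a) (h2 : Commute z b)
    (h3 : Commute z' a) (h4 : Commute z' b) (h5 : Commute z z') :
    ⁅z * a, z' * b⁆ = ⁅a, b⁆ := by
  have e1 : ⁅z * a, z' * b⁆ = z * (a * (z' * b) * a⁻¹) * z⁻¹ * (z' * b)⁻¹ := by
    simp [commutatorElement_def, mul_assoc]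
  have e2 : Commute z (a * (z' * b) * a⁻¹) := (h1.mul_right (h5.mul_right h2)).mul_right h1.inv_right
  rw [e1, e2.eq, mul_inv_cancel_right]
  have e3 : a * (z' * b) * a⁻¹ * (z' * b)⁻¹ = z' * (a * b * a⁻¹ * b⁻¹) * z'⁻¹ := by
    rw [← mul_assoc a z' b, ← h3.eq]; simp [mul_assoc]
  have e4 : Commute z' (a * b * a⁻¹ * b⁻¹) :=
    ((h3.mul_right h4).mul_right h3.inv_right).mul_right h4.inv_right
  rw [e3, e4.eq, mul_inv_cancel_right, commutatorElement_def]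

theorem commute_mk {B : Type} [Group B] (N : Subgroup B) [N.Normal] {a b : B} :
    Commute (a : B ⧸ N) b ↔ ⁅a, b⁆ ∈ N := by
  rw [← QuotientGroup.eq_one_iff, ← commutatorElement_eq_one_iff_commute]
  rfl

theorem three {B : Type} [Group B] (N A D Z : Subgroup B) [N.Normal] (hA : A ≤ D) (hZ : Z ≤ D)
    (hZD : ⁅Z, D⁆ ≤ N) (t : B) (ht : ∀ a ∈ A, t⁻¹ * a * t * a⁻¹ ∈ Z) :
    ∀ c ∈ ⁅A, A⁆, ⁅c, t⁆ ∈ N := by
  have : ⁅A, A⁆ ≤ (centralizer {(t : B ⧸ N)}).comap (QuotientGroup.mk' N) := by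
    rw [commutator_le]
    intro a ha b hb
    rw [mem_comap, mem_centralizer_singleton_iff, map_commutatorElement]
    have hc : ∀ z ∈ Z, ∀ d ∈ D, Commute (z : B ⧸ N) d := fun z hz d hd =>
      (commute_mk N).mpr (hZD (commutator_mem_commutator hz hd))
    have := comm_central (hc _ (ht a ha) a (hA ha)) (hc _ (ht a ha) b (hA hb))
      (hc _ (ht b hb) a (hA ha)) (hc _ (ht b hb) b (hA hb)) (hc _ (ht a ha) _ (hZ (ht b hb)))
    simp only [QuotientGroup.mk_mul, QuotientGroup.mk_inv, inv_mul_cancel_right] at this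
    simp only [QuotientGroup.mk'_apply]
    have e : ⁅(t : B ⧸ N)⁻¹ * a * t, (t : B ⧸ N)⁻¹ * b * t⁆ = (t : B ⧸ N)⁻¹ * ⁅(a : B ⧸ N), (b : B ⧸ N)⁆ * t := by
      simp [commutatorElement_def, mul_assoc]
    rw [e] at this
    calc ⁅(a : B ⧸ N), (b : B ⧸ N)⁆ * t = t * ((t : B ⧸ N)⁻¹ * ⁅(a : B ⧸ N), (b : B ⧸ N)⁆ * t) := by group
      _ = _ := by rw [this]
  intro c hc
  have := this hc
  rw [mem_comap, mem_centralizer_singleton_iff] at this
  exact (commute_mk N).mp this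

/-- data for the perfect case -/
structure PS (B L : Type) [Group B] [Group L] where
  K : Subgroup B
  Y : Subgroup B
  top : ℕ
  pr : ℕ → B →* L
  β : ℕ
  nK : K.Normal
  perf : K ≤ ⁅K, K⁆
  gen : ∀ x, ∃ k ∈ K, ∃ u ∈ Y, x = k * u
  h1 : ∀ c ≤ top, ∀ u ∈ Y, pr c u = pr 0 u
  h2 : ∀ c ≤ top, K.map (pr c) = K.map (pr 0)
  h3 : ∀ c ≤ top, (pr c).ker ≤ K
  h4 : ∀ a ≤ top, ∀ b ≤ top, ∀ c ≤ top, a ≠ b → a ≠ c → ∀ k ∈ K,
    ∃ x ∈ K, pr a x = pr a k ∧ pr b x = 1 ∧ pr c x = 1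
  h5 : ∀ (J' : Subgroup B) [J'.Normal], J' ≤ (pr 0).ker ⊓ (pr top).ker → J'.index ≤ β →
    ∀ c c', c < c' → c' ≤ top → ∃ θ : B →* B ⧸ J', (∀ u ∈ Y, θ u = u) ∧
      ∀ x x' : B, θ x = x' → pr 0 x' = pr c x ∧ pr top x' = pr c' x
  nt : ∃ k ∈ K, pr 0 k ≠ 1
  tp : 0 < top

namespace PS

variable {B L : Type} [Group B] [Group L] (d : PS B L)

def J : Subgroup B := (d.pr 0).ker ⊓ (d.pr d.top).ker

def J0 : Subgroup B := ⁅d.J, d.K⁆

instance : d.K.Normal := d.nK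

instance : d.J.Normal := by unfold J; infer_instance

instance : d.J0.Normal := by unfold J0; infer_instance

theorem mem_J {x : B} : x ∈ d.J ↔ d.pr 0 x = 1 ∧ d.pr d.top x = 1 := Iff.rfl

theorem J_le_K : d.J ≤ d.K := fun _ hx => d.h3 0 (Nat.zero_le _) hx.1

theorem J0_le_J : d.J0 ≤ d.J := commutator_le_left _ _

theorem central {j k : B} (hj : j ∈ d.J) (hk : k ∈ d.K) : Commute (j : B ⧸ d.J0) k :=
  (commute_mk d.J0).mpr (commutator_mem_commutator hj hk)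

theorem comm_eq {a b a' b' : B} (ha : a ∈ d.K) (hb : b ∈ d.K) (h1 : a' * a⁻¹ ∈ d.J)
    (h2 : b' * b⁻¹ ∈ d.J) : ((⁅a', b'⁆ : B) : B ⧸ d.J0) = (⁅a, b⁆ : B) := by
  have := comm_central (d.central h1 ha) (d.central h1 hb) (d.central h2 ha) (d.central h2 hb)
    (d.central h1 (d.J_le_K h2))
  simp only [QuotientGroup.mk_mul, QuotientGroup.mk_inv, inv_mul_cancel_right] at this
  exact this

theorem cover (I : Subgroup B) (hI : d.J0 ≤ I) (h : ∀ k ∈ d.K, ∃ x ∈ I, k * x⁻¹ ∈ d.J) :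
    d.K ≤ I := by
  refine d.perf.trans (commutator_le.mpr (fun a ha b hb => ?_))
  obtain ⟨x, hx, h1⟩ := h a ha
  obtain ⟨y, hy, h2⟩ := h b hb
  have hxK : x ∈ d.K := by
    have := d.K.mul_mem (d.K.inv_mem (d.J_le_K h1)) ha
    simpa using this
  have hyK : y ∈ d.K := by
    have := d.K.mul_mem (d.K.inv_mem (d.J_le_K h2)) hb
    simpa using this
  have := hI (QuotientGroup.eq.mp (d.comm_eq hxK hyK h1 h2).symm)
  have h3 : ⁅x, y⁆ ∈ I := commutator_le_self I (commutator_mem_commutator hx hy)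
  have h4 := I.mul_mem h3 this
  rwa [mul_inv_cancel_left] at h4

theorem J0_perf : d.J0 ≤ ⁅d.J0, d.K⁆ := by
  unfold J0
  rw [commutator_le]
  intro j hj k hk
  rw [← commutatorElement_inv]
  apply inv_mem
  refine three _ d.K d.K d.J0 le_rfl (d.J0_le_J.trans d.J_le_K) le_rfl j (fun a ha => ?_) k
    (d.perf hk)
  have : j⁻¹ * a * j * a⁻¹ = ⁅j⁻¹, a⁆ := by simp [commutatorElement_def]
  rw [this]
  exact commutator_mem_commutator (inv_mem hj) ha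

theorem kers_comm {a a' : B} (ha : d.pr 0 a = 1) (ha' : d.pr d.top a' = 1) :
    Commute (a : B ⧸ d.J0) a' := by
  have hK : (d.pr 0).ker ≤ d.K := d.h3 0 (Nat.zero_le _)
  have ha'K : a' ∈ d.K := d.h3 _ le_rfl ha'
  have h1 : d.K.map (d.pr d.top) ≤ (d.pr 0).ker.map (d.pr d.top) := by
    rintro _ ⟨k, hk, rfl⟩
    obtain ⟨x, -, h1, h2, -⟩ := d.h4 d.top le_rfl 0 (Nat.zero_le _) 0 (Nat.zero_le _)
      d.tp.ne' d.tp.ne' k hk
    exact ⟨x, h2, h1⟩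
  have h2 : d.K.map (d.pr d.top) ≤ (⁅(d.pr 0).ker, (d.pr 0).ker⁆).map (d.pr d.top) := by
    refine (map_mono d.perf).trans ?_
    rw [map_commutator, map_commutator]
    exact commutator_mono h1 h1
  obtain ⟨a1, h3, h4⟩ := h2 ⟨a, hK ha, rfl⟩
  have h5 : a1 ∈ (d.pr 0).ker := commutator_le_self _ h3
  have h6 : a * a1⁻¹ ∈ d.J := d.mem_J.mpr ⟨by
    rw [MonoidHom.mem_ker] at h5; simp [ha, h5], by simp [h4]⟩
  have h7 : Commute (a1 : B ⧸ d.J0) a' := by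
    rw [commute_mk]
    refine three _ _ d.K d.J hK d.J_le_K le_rfl a' (fun x hx => d.mem_J.mpr ⟨?_, ?_⟩) a1 h3
    · rw [MonoidHom.mem_ker] at hx; simp [hx]
    · simp [ha']
  have := (d.central h6 ha'K).mul_left h7
  simpa using this

def Lift (θ : B →* B ⧸ d.J0) (c c' : ℕ) : Prop :=
  (∀ u ∈ d.Y, θ u = u) ∧ ∀ x x' : B, θ x = x' → d.pr 0 x' = d.pr c x ∧ d.pr d.top x' = d.pr c' x

theorem fib {c : ℕ} (hc : c ≤ d.top) {x x' : B} (h : d.pr 0 x' = d.pr c x) : x⁻¹ * x' ∈ d.K := by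
  obtain ⟨k, hk, u, hu, rfl⟩ := d.gen x
  have : d.pr c k ∈ d.K.map (d.pr 0) := d.h2 c hc ▸ mem_map_of_mem _ hk
  obtain ⟨k', hk', e⟩ := this
  have h1 : k'⁻¹ * (x' * u⁻¹) ∈ d.K := d.h3 0 (Nat.zero_le _) (by
    rw [MonoidHom.mem_ker]
    simp [h, e, d.h1 c hc u hu])
  have h2 := d.nK.conj_mem _ (d.K.mul_mem (d.K.mul_mem (d.K.inv_mem hk) hk') h1) u⁻¹
  simpa [mul_assoc] using h2

theorem Lift.unique {θ θ' : B →* B ⧸ d.J0} {c c' : ℕ} (hc : c ≤ d.top) (h : d.Lift θ c c')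
    (h' : d.Lift θ' c c') : θ = θ' := by
  have hK : d.K ≤ θ.eqLocus θ' := by
    refine d.perf.trans (commutator_le.mpr (fun a ha b hb => ?_))
    show θ _ = θ' _
    rw [map_commutatorElement, map_commutatorElement]
    obtain ⟨a1, e1⟩ := QuotientGroup.mk_surjective (θ a)
    obtain ⟨a2, e2⟩ := QuotientGroup.mk_surjective (θ' a)
    obtain ⟨b1, e3⟩ := QuotientGroup.mk_surjective (θ b)
    obtain ⟨b2, e4⟩ := QuotientGroup.mk_surjective (θ' b)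
    have p1 := h.2 _ _ e1.symm
    have p2 := h'.2 _ _ e2.symm
    have p3 := h.2 _ _ e3.symm
    have p4 := h'.2 _ _ e4.symm
    have k2 : a2 ∈ d.K := by simpa using d.K.mul_mem ha (d.fib hc p2.1)
    have k4 : b2 ∈ d.K := by simpa using d.K.mul_mem hb (d.fib hc p4.1)
    rw [← e1, ← e2, ← e3, ← e4]
    exact d.comm_eq k2 k4 (d.mem_J.mpr (by simp [p1, p2])) (d.mem_J.mpr (by simp [p3, p4]))
  ext x
  obtain ⟨k, hk, u, hu, rfl⟩ := d.gen x
  have : θ k = θ' k := hK hk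
  rw [map_mul, map_mul, this, h.1 u hu, h'.1 u hu]

theorem exists_lift (hβ : d.J0.index ≤ d.β) (c c' : ℕ) :
    ∃ θ : B →* B ⧸ d.J0, 0 < c → c ≤ c' → c' < d.top → d.Lift θ c c' := by
  by_cases h : 0 < c ∧ c ≤ c' ∧ c' < d.top
  swap
  · exact ⟨1, fun a b c => absurd ⟨a, b, c⟩ h⟩
  obtain ⟨h1, h2, h3⟩ := h
  rcases h2.lt_or_eq with h2 | rfl
  · obtain ⟨θ, hθ⟩ := d.h5 d.J0 d.J0_le_J hβ c c' h2 h3.le
    exact ⟨θ, fun _ _ _ => hθ⟩
  obtain ⟨u, hu⟩ := d.h5 d.J0 d.J0_le_J hβ c d.top h3 le_rfl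
  obtain ⟨v, hv⟩ := d.h5 d.J0 d.J0_le_J hβ 0 d.top d.tp le_rfl
  obtain ⟨w, hw⟩ := d.h5 d.J0 d.J0_le_J hβ 0 c h1 h3.le
  have key : ∀ x y, Commute ((v x)⁻¹ * w x) (u y * (v y)⁻¹) := by
    intro x y
    obtain ⟨a1, e1⟩ := QuotientGroup.mk_surjective (v x)
    obtain ⟨a2, e2⟩ := QuotientGroup.mk_surjective (w x)
    obtain ⟨b1, e3⟩ := QuotientGroup.mk_surjective (u y)
    obtain ⟨b2, e4⟩ := QuotientGroup.mk_surjective (v y)
    have p1 := hv.2 _ _ e1.symm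
    have p2 := hw.2 _ _ e2.symm
    have p3 := hu.2 _ _ e3.symm
    have p4 := hv.2 _ _ e4.symm
    rw [← e1, ← e2, ← e3, ← e4]
    exact d.kers_comm (a := a1⁻¹ * a2) (a' := b1 * b2⁻¹) (by simp [p1, p2]) (by simp [p3, p4])
  refine ⟨MonoidHom.mk' (fun x => u x * (v x)⁻¹ * w x) (fun x y => ?_), fun _ _ _ => ⟨?_, ?_⟩⟩
  · have := (key x y).eq
    simp only [map_mul, mul_inv_rev]
    calc u x * u y * ((v y)⁻¹ * (v x)⁻¹) * (w x * w y)
        = u x * (u y * (v y)⁻¹ * ((v x)⁻¹ * w x)) * w y := by group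
      _ = u x * ((v x)⁻¹ * w x * (u y * (v y)⁻¹)) * w y := by rw [this]
      _ = _ := by group
  · intro y hy
    simp [hu.1 y hy, hv.1 y hy, hw.1 y hy]
  · intro x x' hx
    obtain ⟨a1, e1⟩ := QuotientGroup.mk_surjective (u x)
    obtain ⟨a2, e2⟩ := QuotientGroup.mk_surjective (v x)
    obtain ⟨a3, e3⟩ := QuotientGroup.mk_surjective (w x)
    have p1 := hu.2 _ _ e1.symm
    have p2 := hv.2 _ _ e2.symm
    have p3 := hw.2 _ _ e3.symm
    have e : ((a1 * a2⁻¹ * a3 : B) : B ⧸ d.J0) = x' := by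
      rw [← hx]; simp [e1, e2, e3]
    have := d.mem_J.mp (d.J0_le_J (QuotientGroup.eq.mp e))
    rw [map_mul, map_mul, map_inv, map_inv, inv_mul_eq_one, inv_mul_eq_one] at this
    rw [← this.1, ← this.2]
    simp [p1, p2, p3]

end PS

end Pool.Agent.Lib.MP_6fc7a0_al.H26
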