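import Pool.Agent.Lib.MP_6fc7a0_al.H26Perf

set_option autoImplicit false

namespace Pool.Agent.Lib.MP_6fc7a0_al.H26

open Subgroup
open scoped commutatorElement

abbrev Edge (n : ℕ) := {p : Fin n × Fin n // p.1 < p.2}

namespace PS

variable {B L : Type} [Group B] [Group L] (d : PS B L) (n : ℕ) (lam : ℕ → ℕ → B →* B ⧸ d.J0)

def Adm (κ : Fin n → ℕ) : Prop := Monotone κ ∧ ∀ a, 0 < κ a ∧ κ a < d.top

def mkE : (Edge n → B) →* (Edge n → B ⧸ d.J0) := (QuotientGroup.mk' d.J0).compLeft (Edge n)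

def th (κ : Fin n → ℕ) : B →* (Edge n → B ⧸ d.J0) :=
  MonoidHom.pi (fun e => lam (κ e.1.1) (κ e.1.2))

def H : Subgroup (Edge n → B) :=
  (⨆ (κ : Fin n → ℕ) (_ : d.Adm n κ), (d.th n lam κ).range).comap (d.mkE n)

def Val (h : Edge n → B) (g : Fin n → L) : Prop :=
  ∀ e, d.pr 0 (h e) = g e.1.1 ∧ d.pr d.top (h e) = g e.1.2

def Inv : Subgroup (Edge n → B) where
  carrier := {h | (∃ g, d.Val n h g) ∧ ∀ e e', (h e : B ⧸ d.K) = h e'}
  one_mem' := ⟨⟨1, fun e => by simp⟩, fun _ _ => rfl⟩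
  mul_mem' := by
    rintro a b ⟨⟨g, hg⟩, ha⟩ ⟨⟨g', hg'⟩, hb⟩
    refine ⟨⟨g * g', fun e => by simp [hg e, hg' e]⟩, fun e e' => ?_⟩
    simp [ha e e', hb e e']
  inv_mem' := by
    rintro a ⟨⟨g, hg⟩, ha⟩
    refine ⟨⟨g⁻¹, fun e => by simp [hg e]⟩, fun e e' => ?_⟩
    simp [ha e e']

def HL : Prop := ∀ c c', 0 < c → c ≤ c' → c' < d.top → d.Lift (lam c c') c c'

variable {d n lam}

theorem mem_H {κ : Fin n → ℕ} (hκ : d.Adm n κ) {x : B} {h : Edge n → B}
    (hh : ∀ e, lam (κ e.1.1) (κ e.1.2) x = h e) : h ∈ d.H n lam := by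
  unfold H
  rw [mem_comap]
  refine mem_iSup_of_mem κ (mem_iSup_of_mem hκ ⟨x, ?_⟩)
  funext e
  exact hh e

theorem mem_H_J0 {h : Edge n → B} (hh : ∀ e, h e ∈ d.J0) : h ∈ d.H n lam := by
  unfold H
  rw [mem_comap]
  have : d.mkE n h = 1 := by
    funext e
    exact (QuotientGroup.eq_one_iff _).mpr (hh e)
  rw [this]
  exact one_mem _

theorem exists_H {κ : Fin n → ℕ} (x : B) :
    ∃ h : Edge n → B, ∀ e, lam (κ e.1.1) (κ e.1.2) x = h e := by
  choose h hh using fun e : Edge n => QuotientGroup.mk_surjective (lam (κ e.1.1) (κ e.1.2) x)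
  exact ⟨h, fun e => (hh e).symm⟩

theorem val_of (hl : d.HL lam) {κ : Fin n → ℕ} (hκ : d.Adm n κ) {x : B} {h : Edge n → B}
    (hh : ∀ e, lam (κ e.1.1) (κ e.1.2) x = h e) :
    d.Val n h (fun a => d.pr (κ a) x) ∧ ∀ e, x⁻¹ * h e ∈ d.K := by
  have : d.Val n h (fun a => d.pr (κ a) x) := fun e =>
    (hl _ _ (hκ.2 _).1 (hκ.1 e.2.le) (hκ.2 _).2).2 _ _ (hh e)
  exact ⟨this, fun e => d.fib (hκ.2 _).2.le (this e).1⟩

theorem H_le_Inv (hl : d.HL lam) : d.H n lam ≤ d.Inv n := by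
  have h1 : (d.mkE n).ker ≤ d.Inv n := by
    intro h hh
    have : ∀ e, h e ∈ d.J0 := fun e => (QuotientGroup.eq_one_iff _).mp (congrFun hh e)
    refine ⟨⟨1, fun e => d.mem_J.mp (d.J0_le_J (this e))⟩, fun e e' => ?_⟩
    rw [(QuotientGroup.eq_one_iff _).mpr (d.J_le_K (d.J0_le_J (this e))),
      (QuotientGroup.eq_one_iff _).mpr (d.J_le_K (d.J0_le_J (this e')))]
  rw [← comap_map_eq_self h1]
  refine comap_mono (iSup₂_le (fun κ hκ => ?_))
  rintro _ ⟨x, rfl⟩
  obtain ⟨h, hh⟩ := exists_H (n := n) (lam := lam) (κ := κ) x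
  obtain ⟨h2, h3⟩ := val_of hl hκ hh
  refine ⟨h, ⟨⟨_, h2⟩, fun e e' => ?_⟩, funext fun e => (hh e).symm⟩
  rw [← QuotientGroup.eq.mpr (h3 e), ← QuotientGroup.eq.mpr (h3 e')]

theorem diag_mem (hl : d.HL lam) (ht : 1 < d.top) {u : B} (hu : u ∈ d.Y) :
    (fun _ => u) ∈ d.H n lam :=
  mem_H (κ := fun _ => 1) ⟨monotone_const, fun _ => ⟨one_pos, ht⟩⟩ (x := u)
    (fun _ => (hl 1 1 one_pos le_rfl ht).1 u hu)

theorem exists_vertex [DecidableEq (Fin n)] (hl : d.HL lam) (ht : 3 < d.top) (a : Fin n) {s : L}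
    (hs : s ∈ d.K.map (d.pr 0)) :
    ∃ h ∈ d.H n lam, (∀ e, h e ∈ d.K) ∧ d.Val n h (Pi.mulSingle a s) := by
  rw [← d.h2 2 (by omega)] at hs
  obtain ⟨k, hk, rfl⟩ := hs
  obtain ⟨x, hx, h2, h1, h3⟩ := d.h4 2 (by omega) 1 (by omega) 3 (by omega) (by omega) (by omega) k hk
  let κ : Fin n → ℕ := fun u => if u < a then 1 else if u = a then 2 else 3
  have hκ : d.Adm n κ := by
    refine ⟨fun u v huv => ?_, fun u => ?_⟩
    · simp only [κ]
      split_ifs <;> omega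
    · simp only [κ]
      split_ifs <;> omega
  obtain ⟨h, hh⟩ := exists_H (n := n) (lam := lam) (κ := κ) x
  obtain ⟨h4, h5⟩ := val_of hl hκ hh
  refine ⟨h, mem_H hκ hh, fun e => by simpa using d.K.mul_mem hx (h5 e), ?_⟩
  have : (fun u => d.pr (κ u) x) = Pi.mulSingle a (d.pr 2 k) := by
    funext u
    by_cases hu : u = a
    · subst hu; simp [κ, h2]
    · rw [Pi.mulSingle_eq_of_ne hu]
      simp only [κ]
      split_ifs <;> assumption
  rwa [this] at h4

theorem Val.mul {h h' : Edge n → B} {g g' : Fin n → L} (h1 : d.Val n h g) (h2 : d.Val n h' g') :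
    d.Val n (h * h') (g * g') := fun e => by simp [h1 e, h2 e]

theorem Val.inv {h : Edge n → B} {g : Fin n → L} (h1 : d.Val n h g) :
    d.Val n h⁻¹ g⁻¹ := fun e => by simp [h1 e]

theorem Val.comm {h h' : Edge n → B} {g g' : Fin n → L} (h1 : d.Val n h g) (h2 : d.Val n h' g') :
    d.Val n ⁅h, h'⁆ ⁅g, g'⁆ := (((h1.mul h2).mul h1.inv).mul h2.inv)

theorem edge_val [DecidableEq (Fin n)] {h h' : Edge n → B} (e : Edge n) {k : B}
    (h1 : d.Val n h (Pi.mulSingle e.1.1 (d.pr 0 k)))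
    (h2 : d.Val n h' (Pi.mulSingle e.1.2 (d.pr d.top k))) : k * ((h * h') e)⁻¹ ∈ d.J := by
  have := (h1.mul h2) e
  have hne : e.1.1 ≠ e.1.2 := e.2.ne
  rw [mem_J, map_mul, map_mul, map_inv, map_inv, this.1, this.2]
  simp [Pi.mulSingle_eq_of_ne hne, Pi.mulSingle_eq_of_ne hne.symm]

theorem top_mem {k : B} (hk : k ∈ d.K) : d.pr d.top k ∈ d.K.map (d.pr 0) :=
  d.h2 _ le_rfl ▸ mem_map_of_mem _ hk

theorem surj_edge (hl : d.HL lam) (ht : 3 < d.top) (e : Edge n) (x : B) :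
    ∃ h ∈ d.H n lam, h e = x := by
  classical
  have : d.K ≤ (d.H n lam).map (Pi.evalMonoidHom (fun _ => B) e) := by
    refine d.cover _ (fun j hj => ⟨Pi.mulSingle e j, mem_H_J0 (fun e' => ?_), by simp⟩)
      (fun k hk => ?_)
    · by_cases he : e' = e
      · subst he; simpa using hj
      · simp [Pi.mulSingle_eq_of_ne he]
    · obtain ⟨h, h1, -, h2⟩ := exists_vertex hl ht e.1.1 (mem_map_of_mem (d.pr 0) hk)
      obtain ⟨h', h3, -, h4⟩ := exists_vertex hl ht e.1.2 (top_mem hk)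
      exact ⟨_, ⟨h * h', mul_mem h1 h3, rfl⟩, edge_val e h2 h4⟩
  obtain ⟨k, hk, u, hu, rfl⟩ := d.gen x
  obtain ⟨h, h1, h2⟩ := this hk
  exact ⟨h * fun _ => u, mul_mem h1 (diag_mem hl (by omega) hu), by
    rw [Pi.mul_apply, ← h2]; rfl⟩

variable {G : Type} [Group G] [Finite G]

theorem few_vertices [DecidableEq (Fin n)] (hl : d.HL lam) (ht : 3 < d.top)
    (φ : d.H n lam →* G) :
    ∃ T : Finset (Fin n), T.card ≤ Nat.card G ∧ ∀ a ∉ T, ∀ s ∈ d.K.map (d.pr 0),
      ∃ h : d.H n lam, φ h = 1 ∧ d.Val n h.1 (Pi.mulSingle a s) := by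
  classical
  let Z : Subgroup (d.H n lam) :=
    { carrier := {h | d.Val n h.1 1}
      one_mem' := fun e => by simp
      mul_mem' := fun ha hb => by simpa using Val.mul ha hb
      inv_mem' := fun ha => by simpa using Val.inv ha }
  have hZ : Z.Normal := ⟨fun z hz g => by
    obtain ⟨⟨v, hv⟩, -⟩ := H_le_Inv hl g.2
    have := (hv.mul hz).mul hv.inv
    rw [mul_one, mul_inv_cancel] at this
    exact this⟩
  have hZ' : (Z.map φ.rangeRestrict).Normal := hZ.map _ φ.rangeRestrict_surjective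
  let ψ := (QuotientGroup.mk' (Z.map φ.rangeRestrict)).comp φ.rangeRestrict
  have hψ : ∀ h ∈ Z, ψ h = 1 := fun h hh =>
    (QuotientGroup.eq_one_iff _).mpr (mem_map_of_mem _ hh)
  have hψ' : ∀ h, ψ h = 1 → ∃ z ∈ Z, φ z = φ h := fun h hh => by
    obtain ⟨z, hz, e⟩ := (QuotientGroup.eq_one_iff _).mp hh
    exact ⟨z, hz, congrArg Subtype.val e⟩
  let Ka : Fin n → Subgroup (d.H n lam) := fun a =>
    { carrier := {h | ∃ s, d.Val n h.1 (Pi.mulSingle a s)}
      one_mem' := ⟨1, fun e => by simp⟩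
      mul_mem' := by
        rintro x y ⟨s, hs⟩ ⟨t, ht⟩
        exact ⟨s * t, by rw [Pi.mulSingle_mul]; exact hs.mul ht⟩
      inv_mem' := by
        rintro x ⟨s, hs⟩
        exact ⟨s⁻¹, by rw [Pi.mulSingle_inv]; exact hs.inv⟩ }
  refine ⟨Finset.univ.filter (fun a => ¬ ∀ x ∈ (Ka a).map ψ, ∀ y ∈ (Ka a).map ψ, x * y = y * x),
    ?_, fun a ha => ?_⟩
  · refine (comm_family (fun a => (Ka a).map ψ) ?_ _ (fun i hi => (Finset.mem_filter.mp hi).2)).trans
      ((Nat.card_le_card_of_surjective _ (QuotientGroup.mk'_surjective _)).trans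
        (Nat.card_le_card_of_injective _ Subtype.val_injective))
    rintro a b hab _ ⟨x, ⟨s, hs⟩, rfl⟩ _ ⟨y, ⟨t, ht⟩, rfl⟩
    rw [← commutatorElement_eq_one_iff_mul_comm, ← map_commutatorElement]
    apply hψ
    have := hs.comm ht
    rwa [(Pi.mulSingle_commute (f := fun _ => L) hab s t).commutator_eq] at this
  · simp only [Finset.mem_filter, Finset.mem_univ, true_and, not_not] at ha
    let V : Subgroup L :=
      { carrier := {s | ∃ h : d.H n lam, φ h = 1 ∧ d.Val n h.1 (Pi.mulSingle a s)}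
        one_mem' := ⟨1, map_one φ, fun e => by simp⟩
        mul_mem' := by
          rintro x y ⟨s, h1, hs⟩ ⟨t, h2, ht⟩
          exact ⟨s * t, by simp [h1, h2], by rw [Pi.mulSingle_mul]; exact hs.mul ht⟩
        inv_mem' := by
          rintro x ⟨s, h1, hs⟩
          exact ⟨s⁻¹, by simp [h1], by rw [Pi.mulSingle_inv]; exact hs.inv⟩ }
    have : d.K.map (d.pr 0) ≤ V := by
      refine (map_mono d.perf).trans ?_
      rw [map_commutator, commutator_le]
      intro s hs t ht'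
      obtain ⟨x, h1, -, h2⟩ := exists_vertex hl ht a hs
      obtain ⟨y, h3, -, h4⟩ := exists_vertex hl ht a ht'
      obtain ⟨z, hz, e⟩ := hψ' ⁅(⟨x, h1⟩ : d.H n lam), ⟨y, h3⟩⁆ (by
        rw [map_commutatorElement, commutatorElement_eq_one_iff_mul_comm]
        exact ha _ ⟨_, ⟨s, h2⟩, rfl⟩ _ ⟨_, ⟨t, h4⟩, rfl⟩)
      refine ⟨⁅(⟨x, h1⟩ : d.H n lam), ⟨y, h3⟩⁆ * z⁻¹, by rw [map_mul, map_inv, e, mul_inv_cancel], ?_⟩
      have := (h2.comm h4).mul (Val.inv hz)
      rw [inv_one, mul_one] at this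
      have e2 : ⁅(Pi.mulSingle a s : Fin n → L), (Pi.mulSingle a t : Fin n → L)⁆ =
          (Pi.mulSingle a (⁅s, t⁆ : L) : Fin n → L) :=
        (map_commutatorElement (MonoidHom.mulSingle (fun _ => L) a) s t).symm
      rwa [e2] at this
    exact this

def sig (d : PS B L) (n : ℕ) (lam : ℕ → ℕ → B →* B ⧸ d.J0) (e : Edge n) : d.J0 →* d.H n lam :=
  ((MonoidHom.mulSingle (fun _ => B) e).comp d.J0.subtype).codRestrict _ (fun j =>
    mem_H_J0 (fun e' => by
      by_cases he : e' = e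
      · subst he; simp
      · simp [Pi.mulSingle_eq_of_ne he]))

theorem sig_conj (e : Edge n) (h : d.H n lam) (j : d.J0) :
    sig d n lam e ⟨h.1 e * j * (h.1 e)⁻¹, Normal.conj_mem inferInstance _ j.2 _⟩ =
      h * sig d n lam e j * h⁻¹ := by
  apply Subtype.ext
  funext e'
  by_cases he : e' = e
  · subst he; simp [sig]
  · simp [sig, Pi.mulSingle_eq_of_ne he]

theorem few_edges (hl : d.HL lam) (ht : 3 < d.top) (φ : d.H n lam →* G) :
    ∃ T : Finset (Fin n), T.card ≤ 3 * Nat.card G ∧ ∀ e : Edge n, e.1.1 ∉ T → e.1.2 ∉ T →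
      ∀ j, φ (sig d n lam e j) = 1 := by
  classical
  obtain ⟨T1, hT1, h1⟩ := few_vertices hl ht φ
  let D : Edge n → Subgroup G := fun e => (φ.comp (sig d n lam e)).range
  let T2 := Finset.univ.filter (fun e => ¬ ∀ x ∈ D e, ∀ y ∈ D e, x * y = y * x)
  have hT2 : T2.card ≤ Nat.card G := by
    refine comm_family D ?_ _ (fun i hi => (Finset.mem_filter.mp hi).2)
    rintro a b hab _ ⟨x, rfl⟩ _ ⟨y, rfl⟩
    simp only [MonoidHom.comp_apply, ← map_mul]
    congr 1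
    exact Subtype.ext (Pi.mulSingle_commute (f := fun _ => B) hab x.1 y.1).eq
  refine ⟨T1 ∪ (T2.image (fun e => e.1.1) ∪ T2.image (fun e => e.1.2)), ?_, fun e ha hb => ?_⟩
  · have := Finset.card_union_le T1 (T2.image (fun e => e.1.1) ∪ T2.image (fun e => e.1.2))
    have := Finset.card_union_le (T2.image (fun e => e.1.1)) (T2.image (fun e => e.1.2))
    have := Finset.card_image_le (s := T2) (f := fun e => e.1.1)
    have := Finset.card_image_le (s := T2) (f := fun e => e.1.2)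
    omega
  simp only [Finset.mem_union, not_or] at ha hb
  have he : ∀ x ∈ D e, ∀ y ∈ D e, x * y = y * x := by
    by_contra hc
    exact ha.2.1 (Finset.mem_image_of_mem _ (Finset.mem_filter.mpr ⟨Finset.mem_univ _, hc⟩))
  let I : Subgroup B :=
    { carrier := {x | ∀ j : d.J0, φ (sig d n lam e
        ⟨x * j * x⁻¹, Normal.conj_mem inferInstance _ j.2 _⟩) = φ (sig d n lam e j)}
      one_mem' := fun j => by simp
      mul_mem' := fun {x y} hx hy j => by
        rw [← hy j, ← hx ⟨y * j * y⁻¹, _⟩]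
        congr 2
        exact Subtype.ext (by simp [mul_assoc])
      inv_mem' := fun {x} hx j => by
        rw [← hx ⟨x⁻¹ * j * x⁻¹⁻¹, _⟩]
        congr 2
        exact Subtype.ext (by simp [mul_assoc]) }
  have hI : d.K ≤ I := by
    refine d.cover I (fun x hx j => ?_) (fun k hk => ?_)
    · have : (⟨x * j * x⁻¹, Normal.conj_mem inferInstance _ j.2 _⟩ : d.J0) =
          ⟨x, hx⟩ * j * ⟨x, hx⟩⁻¹ := rfl
      rw [this, map_mul, map_mul, map_mul, map_mul, map_inv, map_inv,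
        he (φ (sig d n lam e ⟨x, hx⟩)) ⟨_, rfl⟩ (φ (sig d n lam e j)) ⟨_, rfl⟩,
        mul_inv_cancel_right]
    · obtain ⟨h, h2, h3⟩ := h1 _ ha.1 _ (mem_map_of_mem (d.pr 0) hk)
      obtain ⟨h', h4, h5⟩ := h1 _ hb.1 _ (top_mem hk)
      refine ⟨(h * h').1 e, fun j => ?_, edge_val e h3 h5⟩
      rw [sig_conj]
      simp [h2, h4]
  have : d.J0 ≤ ((φ.comp (sig d n lam e)).ker).map d.J0.subtype := by
    refine d.J0_perf.trans (commutator_le.mpr (fun j hj k hk => ?_))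
    refine ⟨⟨j, hj⟩ * ⟨k * (⟨j, hj⟩⁻¹ : d.J0) * k⁻¹,
      Normal.conj_mem inferInstance _ (inv_mem hj) _⟩, ?_, by simp [commutatorElement_def, mul_assoc]⟩
    show φ (sig d n lam e _) = 1
    rw [map_mul, map_mul, hI hk]
    simp
  intro j
  obtain ⟨j', h2, h3⟩ := this j.2
  have : j' = j := Subtype.ext h3
  exact this ▸ h2

theorem kill_diag (hl : d.HL lam) (ht : 6 * Nat.card G + 3 < d.top)
    (hβ : Nat.card G * d.J0.index ≤ d.β) [d.J0.FiniteIndex] {b : B} (hb : b ∈ d.Y)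
    (hR : ∀ f : B →* G, f b = 1) (φ : d.H n lam →* G) :
    φ ⟨_, diag_mem hl (by omega) hb⟩ = 1 := by
  classical
  obtain ⟨T, hT, h1⟩ := few_edges hl (by omega) φ
  let κ : Fin n → ℕ := fun a => 1 + 2 * (T.filter (· < a)).card + if a ∈ T then 1 else 0
  have hκ1 : ∀ a b, a < b → κ a ≤ κ b ∧ (a ∈ T ∨ b ∈ T → κ a < κ b) := by
    intro a b hab
    have e1 : (T.filter (· < a)).card ≤ (T.filter (· < b)).card :=
      Finset.card_le_card (fun x hx => by
        rw [Finset.mem_filter] at hx ⊢; exact ⟨hx.1, hx.2.trans hab⟩)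
    have e2 : a ∈ T → (T.filter (· < a)).card < (T.filter (· < b)).card := fun ha =>
      Finset.card_lt_card ⟨fun x hx => by
        rw [Finset.mem_filter] at hx ⊢; exact ⟨hx.1, hx.2.trans hab⟩, fun hs => by
        have := hs (Finset.mem_filter.mpr ⟨ha, hab⟩)
        simp at this⟩
    simp only [κ]
    by_cases ha : a ∈ T <;> by_cases hb : b ∈ T <;> simp only [ha, hb, if_true, if_false] at * <;>
      simp at * <;> omega
  have hκ : d.Adm n κ := by
    refine ⟨fun a b hab => ?_, fun a => ?_⟩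
    · rcases hab.lt_or_eq with h | rfl
      · exact (hκ1 a b h).1
      · exact le_rfl
    · have := Finset.card_filter_le T (· < a)
      simp only [κ]
      split_ifs <;> omega
  let Je : Edge n → Subgroup B := fun e => ((φ.comp (sig d n lam e)).ker).map d.J0.subtype
  have hJe : ∀ e, Je e ≤ d.J0 := fun e => map_subtype_le _
  have hn : ∀ e, (Je e).Normal := fun e => ⟨by
    rintro _ ⟨j, hj, rfl⟩ x
    obtain ⟨h, hh, rfl⟩ := surj_edge hl (by omega) e x
    refine ⟨⟨h e * j * (h e)⁻¹, Normal.conj_mem inferInstance _ j.2 _⟩, ?_, rfl⟩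
    have hj' : φ (sig d n lam e j) = 1 := hj
    show φ (sig d n lam e _) = 1
    rw [sig_conj e ⟨h, hh⟩]
    simp [hj']⟩
  have hθ : ∀ e : Edge n, ∃ θ : B →* B ⧸ Je e, (∀ u ∈ d.Y, θ u = u) ∧
      ∀ x x' : B, θ x = x' → lam (κ e.1.1) (κ e.1.2) x = x' := by
    intro e
    have hL := hl _ _ (hκ.2 _).1 (hκ.1 e.2.le) (hκ.2 e.1.2).2
    by_cases he : e.1.1 ∈ T ∨ e.1.2 ∈ T
    · obtain ⟨θ, h2, h3⟩ := d.h5 (Je e) ((hJe e).trans d.J0_le_J) (by
        refine le_trans ?_ hβ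
        simp only [Je]
        rw [index_map_subtype, index_ker]
        exact Nat.mul_le_mul_right _ (Nat.card_le_card_of_injective _ Subtype.val_injective))
        _ _ ((hκ1 _ _ e.2).2 he) (hκ.2 _).2.le
      let ρ : B ⧸ Je e →* B ⧸ d.J0 := QuotientGroup.map _ _ (MonoidHom.id B) (hJe e)
      have hρ : ∀ x : B, ρ x = x := fun x => rfl
      have : d.Lift (ρ.comp θ) (κ e.1.1) (κ e.1.2) := by
        refine ⟨fun u hu => by rw [MonoidHom.comp_apply, h2 u hu, hρ], fun x x' hx => ?_⟩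
        obtain ⟨y, hy⟩ := QuotientGroup.mk_surjective (θ x)
        rw [MonoidHom.comp_apply, ← hy, hρ] at hx
        have h4 := d.mem_J.mp (d.J0_le_J (QuotientGroup.eq.mp hx))
        rw [map_mul, map_mul, map_inv, map_inv, inv_mul_eq_one, inv_mul_eq_one] at h4
        rw [← h4.1, ← h4.2]
        exact h3 _ _ hy.symm
      refine ⟨θ, h2, fun x x' hx => ?_⟩
      rw [Lift.unique d (hκ.2 _).2.le hL this, MonoidHom.comp_apply, hx, hρ]
    · push Not at he
      have hle : d.J0 ≤ Je e := fun j hj => ⟨⟨j, hj⟩, h1 e he.1 he.2 _, rfl⟩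
      let ρ : B ⧸ d.J0 →* B ⧸ Je e := QuotientGroup.map _ _ (MonoidHom.id B) hle
      have hρ : ∀ x : B, ρ x = x := fun x => rfl
      refine ⟨ρ.comp (lam _ _), fun u hu => by rw [MonoidHom.comp_apply, hL.1 u hu, hρ],
        fun x x' hx => ?_⟩
      obtain ⟨y, hy⟩ := QuotientGroup.mk_surjective (lam (κ e.1.1) (κ e.1.2) x)
      rw [MonoidHom.comp_apply, ← hy, hρ] at hx
      rw [← hy]
      exact QuotientGroup.eq.mpr (hJe e (QuotientGroup.eq.mp hx))
  choose θ hθ1 hθ2 using hθ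
  let P : Subgroup (B × d.H n lam) :=
    { carrier := {p | ∀ e, θ e p.1 = p.2.1 e}
      one_mem' := fun e => by simp
      mul_mem' := fun {x y} hx hy e => by simp [hx e, hy e]
      inv_mem' := fun {x} hx e => by simp [hx e] }
  obtain ⟨F, hF⟩ := graph_hom' P φ (fun x => by
    choose h hh using fun e => QuotientGroup.mk_surjective (θ e x)
    exact ⟨⟨h, mem_H hκ (fun e => hθ2 e _ _ (hh e).symm)⟩, fun e => (hh e).symm⟩) (fun h hh => by
    obtain ⟨_, h2⟩ := kill_prod (d.H n lam) φ h.1 (fun e => by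
      have : h.1 e ∈ Je e := (QuotientGroup.eq_one_iff _).mp ((hh e).symm.trans (map_one _))
      obtain ⟨j, hj, e2⟩ := this
      rw [← e2]
      exact ⟨(sig d n lam e j).2, hj⟩)
    exact h2)
  rw [← hF b _ (fun e => hθ1 e b hb)]
  exact hR F

theorem nice [Finite B] [Finite L] (d : PS B L) (ht : 6 * Nat.card G + 3 < d.top)
    (hβ : Nat.card G * d.J0.index ≤ d.β) {b : B} (hb : b ∈ d.Y)
    (hR : ∀ f : B →* G, f b = 1) : Nice G d.K b := by
  classical
  have hG : 0 < Nat.card G := Nat.card_pos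
  choose lam hl using d.exists_lift (le_trans (Nat.le_mul_of_pos_left _ hG) hβ)
  let n := Nat.card (B → L) + 2
  refine ⟨Edge n, inferInstance, ⟨⟨(⟨0, by omega⟩, ⟨1, by omega⟩), by simp⟩⟩, d.H n lam,
    diag_mem hl (by omega) hb, kill_diag hl ht hβ hb hR, fun h hh i j => ?_, fun f hf => ?_⟩
  · exact QuotientGroup.eq.mp ((H_le_Inv hl hh).2 i j)
  · choose g hg using fun x => (H_le_Inv hl (hf x)).1
    have := Fintype.ofFinite (B → L)
    obtain ⟨a, a', h1, h2⟩ := Fintype.exists_ne_map_eq_of_card_lt (fun (a : Fin n) x => g x a)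
      (by simp [n])
    have hM : (d.pr 0).eqLocus (d.pr d.top) ≠ ⊤ := by
      intro h
      obtain ⟨k, hk, hk1⟩ := d.nt
      obtain ⟨x, -, h3, h4, -⟩ := d.h4 0 (Nat.zero_le _) d.top le_rfl d.top le_rfl d.tp.ne d.tp.ne k hk
      have : x ∈ (d.pr 0).eqLocus (d.pr d.top) := by rw [h]; trivial
      exact hk1 (h3.symm.trans ((show d.pr 0 x = d.pr d.top x from this).trans h4))
    rcases lt_or_gt_of_ne h1 with h | h
    · refine ⟨⟨(a, a'), h⟩, _, hM, fun x => ?_⟩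
      exact (hg x _).1.trans ((congrFun h2 x).trans (hg x ⟨(a, a'), h⟩).2.symm)
    · refine ⟨⟨(a', a), h⟩, _, hM, fun x => ?_⟩
      exact (hg x _).1.trans ((congrFun h2 x).symm.trans (hg x ⟨(a', a), h⟩).2.symm)

end PS

end Pool.Agent.Lib.MP_6fc7a0_al.H26
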