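import Mathlib

set_option autoImplicit false

namespace Pool.Agent.Lib.MP_6fc7a0_al.Hg

universe u v

/-- group words (terms of the signature mul, inv, one) in the variables x_0, x_1, ... -/
inductive Word : Type
  | var : ℕ → Word
  | one : Word
  | mul : Word → Word → Word
  | inv : Word → Word

/-- value of a word under an assignment -/
def Word.eval {G : Type u} [Group G] (a : ℕ → G) : Word → G
  | .var n => a n
  | .one => 1
  | .mul s t => s.eval a * t.eval a
  | .inv s => (s.eval a)⁻¹

/-- a quasi-identity: finite list of premises u_i = v_i and a conclusion u = v -/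
abbrev QId : Type := List (Word × Word) × (Word × Word)

def Sat (G : Type u) [Group G] (q : QId) : Prop :=
  ∀ a : ℕ → G, (∀ e ∈ q.1, e.1.eval a = e.2.eval a) → q.2.1.eval a = q.2.2.eval a

def Conseq (S : Set QId) (q : QId) : Prop :=
  ∀ (H : Type v) [Group H], (∀ p ∈ S, Sat H p) → Sat H q

def IsBasis (G : Type u) [Group G] (S : Set QId) : Prop :=
  (∀ p ∈ S, Sat G p) ∧ ∀ q, Sat G q → Conseq.{v} S q

def Indep (S : Set QId) : Prop :=
  ∀ p ∈ S, ¬ Conseq.{v} (S \ {p}) p

end Pool.Agent.Lib.MP_6fc7a0_al.Hg
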