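import Pool.Agent.Lib.MP_6fc7a0_al.HgDefs
import Pool.Agent.Lib.MP_6fc7a0_al.H26Main

set_option autoImplicit false

namespace Pool.Agent.Lib.MP_6fc7a0_al.Hg

universe u v

theorem eval_map {G : Type u} {H : Type v} [Group G] [Group H] (f : G →* H) (a : ℕ → G)
    (w : Word) : f (w.eval a) = w.eval (fun n => f (a n)) := by
  induction w with
  | var n => rfl
  | one => simp [Word.eval]
  | mul s t hs ht => simp [Word.eval, hs, ht]
  | inv s hs => simp [Word.eval, hs]

theorem Sat.of_inj {G : Type u} {H : Type v} [Group G] [Group H] (f : G →* H)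
    (hf : Function.Injective f) {q : QId} (h : Sat H q) : Sat G q := by
  intro a ha
  apply hf
  rw [eval_map, eval_map]
  refine h _ fun e he => ?_
  rw [← eval_map, ← eval_map, ha e he]

theorem conseq_zero {S : Set QId} {q : QId} : Conseq.{v} S q ↔ Conseq.{0} S q := by
  constructor
  · intro h H _ hH
    have e : ULift.{v} H ≃* H := MulEquiv.ulift
    exact Sat.of_inj e.symm.toMonoidHom e.symm.injective
      (h (ULift.{v} H) fun p hp => Sat.of_inj e.toMonoidHom e.injective (hH p hp))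
  · intro h H _ hH a ha
    let ψ : FreeGroup ℕ →* H := FreeGroup.lift a
    let j : FreeGroup ℕ ⧸ ψ.ker →* H := QuotientGroup.kerLift ψ
    have hj : Function.Injective j := QuotientGroup.kerLift_injective ψ
    have h1 := h (FreeGroup ℕ ⧸ ψ.ker) fun p hp => Sat.of_inj j hj (hH p hp)
    let b : ℕ → FreeGroup ℕ ⧸ ψ.ker := fun n => QuotientGroup.mk (FreeGroup.of n)
    have hb : (fun n => j (b n)) = a := by
      funext n
      simp [j, b, ψ]
    have h2 := h1 b fun e he => hj (by rw [eval_map, eval_map, hb, ha e he])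
    have h3 := congrArg j h2
    rwa [eval_map, eval_map, hb] at h3

open Classical in
/-- normal form -/
noncomputable def nf (q : QId) : Finset (FreeGroup ℕ) × FreeGroup ℕ :=
  ((q.1.map fun e => e.1.eval FreeGroup.of * (e.2.eval FreeGroup.of)⁻¹).toFinset,
    q.2.1.eval FreeGroup.of * (q.2.2.eval FreeGroup.of)⁻¹)

def SatF (H : Type) [Group H] (p : Finset (FreeGroup ℕ) × FreeGroup ℕ) : Prop :=
  ∀ ψ : FreeGroup ℕ →* H, (∀ w ∈ p.1, ψ w = 1) → ψ p.2 = 1

theorem sat_nf (H : Type) [Group H] (q : QId) : SatF H (nf q) ↔ Sat H q := by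
  have key : ∀ (ψ : FreeGroup ℕ →* H) (s t : Word),
      ψ (s.eval FreeGroup.of * (t.eval FreeGroup.of)⁻¹) = 1 ↔
        s.eval (fun n => ψ (FreeGroup.of n)) = t.eval (fun n => ψ (FreeGroup.of n)) := by
    intro ψ s t
    rw [map_mul, map_inv, eval_map, eval_map, mul_inv_eq_one]
  constructor
  · intro h a ha
    have ea : (fun n => (FreeGroup.lift a) (FreeGroup.of n)) = a := by
      funext n
      simp
    have := h (FreeGroup.lift a) (by
      intro w hw
      simp only [nf, List.mem_toFinset, List.mem_map] at hw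
      obtain ⟨e, he, rfl⟩ := hw
      rw [key, ea]
      exact ha e he)
    simp only [nf] at this
    rwa [key, ea] at this
  · intro h ψ hψ
    simp only [nf]
    rw [key]
    refine h _ fun e he => ?_
    rw [← key]
    apply hψ
    simp only [nf, List.mem_toFinset, List.mem_map]
    exact ⟨e, he, rfl⟩

theorem word_surj (w : FreeGroup ℕ) : ∃ s : Word, s.eval FreeGroup.of = w := by
  induction w using FreeGroup.induction_on with
  | C1 => exact ⟨.one, rfl⟩
  | of n => exact ⟨.var n, rfl⟩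
  | inv_of n _ => exact ⟨.inv (.var n), rfl⟩
  | mul x y hx hy =>
    obtain ⟨s, rfl⟩ := hx
    obtain ⟨t, rfl⟩ := hy
    exact ⟨.mul s t, rfl⟩

theorem nf_surj (p : Finset (FreeGroup ℕ) × FreeGroup ℕ) : ∃ q : QId, nf q = p := by
  classical
  choose s hs using word_surj
  refine ⟨(p.1.toList.map fun w => (s w, .one), (s p.2, .one)), ?_⟩
  ext1
  · ext w
    simp [nf, hs, Word.eval]
  · simp [nf, hs, Word.eval]

theorem frozen_form (G : Type) [Group G] [Finite G]
    (S : Set (Finset (FreeGroup ℕ) × FreeGroup ℕ))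
    (h1 : ∀ q, SatF G q ↔ (∀ (H : Type) [Group H], (∀ p ∈ S, SatF H p) → SatF H q))
    (h2 : ∀ σ ∈ S, ¬ (∀ (H : Type) [Group H], (∀ p ∈ S, p ≠ σ → SatF H p) → SatF H σ)) :
    S.Finite := by
  by_contra hinf
  obtain ⟨k, hk⟩ := Pool.Agent.Lib.MP_6fc7a0_al.H26.main_group G
  obtain ⟨B, _, _, a1, a2, a3, a4⟩ := Pool.Agent.Lib.MP_6fc7a0_al.H26.logic G S h1 h2 hinf k
  exact a4 (hk B a1 a2 a3)

theorem main0 (G : Type) [Group G] [Finite G] (S : Set QId) (hb : IsBasis.{0, 0} G S)
    (hi : Indep.{0} S) : S.Finite := by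
  have hinj : Set.InjOn nf S := by
    intro p hp q hq hpq
    by_contra hne
    refine hi p hp fun H _ hH => ?_
    rw [← sat_nf, hpq, sat_nf]
    exact hH q ⟨hq, fun h => hne (Eq.symm h)⟩
  refine Set.Finite.of_finite_image (frozen_form G (nf '' S) ?_ ?_) hinj
  · intro q
    obtain ⟨r, rfl⟩ := nf_surj q
    constructor
    · intro h H _ hH
      rw [sat_nf] at h ⊢
      exact hb.2 r h H fun p hp => (sat_nf H p).1 (hH _ ⟨p, hp, rfl⟩)
    · intro h
      refine h G ?_
      rintro _ ⟨p, hp, rfl⟩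
      exact (sat_nf G p).2 (hb.1 p hp)
  · rintro _ ⟨σ, hσ, rfl⟩ h
    refine hi σ hσ fun H _ hH => ?_
    rw [← sat_nf]
    refine h H ?_
    rintro _ ⟨p, hp, rfl⟩ hne
    exact (sat_nf H p).2 (hH p ⟨hp, fun e => hne (by rw [show p = σ from e])⟩)

theorem main (G : Type u) [Group G] [Finite G] (S : Set QId) (hb : IsBasis.{u, v} G S)
    (hi : Indep.{v} S) : S.Finite := by
  let e : Shrink.{0} G ≃* G := Shrink.mulEquiv
  have : Finite (Shrink.{0} G) := Finite.of_equiv _ e.symm.toEquiv
  refine main0 (Shrink.{0} G) S ⟨fun p hp => ?_, fun q hq => ?_⟩ fun p hp h => ?_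
  · exact Sat.of_inj e.toMonoidHom e.injective (hb.1 p hp)
  · exact conseq_zero.1 (hb.2 q (Sat.of_inj e.symm.toMonoidHom e.symm.injective hq))
  · exact hi p hp (conseq_zero.2 h)

end Pool.Agent.Lib.MP_6fc7a0_al.Hg
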