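import Pool.Agent.Lib.MP_6fc7a0_al.Core

/-! Quasi-identities: compactness, diagrams, and the theorem for nilpotent groups. -/

namespace Pool.Agent.Lib.MP_6fc7a0_al

open scoped commutatorElement

/-- A quasi-identity: a finite set of premises and a conclusion. -/
abbrev QI := Finset (FreeGroup ℕ) × FreeGroup ℕ

/-- Satisfaction of a quasi-identity. -/
def Sat (H : Type) [Group H] (q : QI) : Prop :=
  ∀ ψ : FreeGroup ℕ →* H, (∀ w ∈ q.1, ψ w = 1) → ψ q.2 = 1

section
variable {G H K : Type} [Group G] [Group H] [Group K] {q : QI}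

lemma Sat.of_inK (h : InK G H) (hq : Sat G q) : Sat H q := by
  intro ψ hψ
  by_contra hne
  obtain ⟨φ, hφ⟩ := h _ hne
  exact hφ (hq (φ.comp ψ) fun w hw => by simp [hψ w hw])

lemma inK_of_injective (f : H →* K) (hf : Function.Injective f) : InK K H :=
  fun _ hx => ⟨f, fun h => hx ((map_eq_one_iff f hf).1 h)⟩

lemma inK_pi (ι : Type) : InK H (ι → H) := fun _ hx => by
  obtain ⟨i, hi⟩ := Function.ne_iff.1 hx
  exact ⟨Pi.evalMonoidHom _ i, hi⟩

lemma lift_exists {α : Type} (f : H →* K) (hf : Function.Surjective f) (ψ : FreeGroup α →* K) :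
    ∃ ψ' : FreeGroup α →* H, f.comp ψ' = ψ := by
  choose s hs using hf
  exact ⟨FreeGroup.lift fun x => s (ψ (FreeGroup.of x)), FreeGroup.ext_hom _ _ fun x => by simp [hs]⟩

lemma compactness (S : Set QI) (q : QI)
    (h : ∀ (H : Type) [Group H], (∀ p ∈ S, Sat H p) → Sat H q) :
    ∃ S₀ ⊆ S, S₀.Finite ∧ ∀ (H : Type) [Group H], (∀ p ∈ S₀, Sat H p) → Sat H q := by
  let N : Subgroup (FreeGroup ℕ) :=
    { carrier := {w | ∃ S₀ ⊆ S, S₀.Finite ∧
        ∀ (H : Type) [Group H], (∀ p ∈ S₀, Sat H p) → Sat H (q.1, w)}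
      one_mem' := ⟨∅, Set.empty_subset _, Set.finite_empty, fun _ _ _ ψ _ => map_one ψ⟩
      mul_mem' := by
        rintro a b ⟨S₁, h1, h1', ha⟩ ⟨S₂, h2, h2', hb⟩
        refine ⟨S₁ ∪ S₂, Set.union_subset h1 h2, h1'.union h2', fun H _ hH ψ hψ => ?_⟩
        rw [map_mul, ha H (fun p hp => hH p (Or.inl hp)) ψ hψ,
          hb H (fun p hp => hH p (Or.inr hp)) ψ hψ, mul_one]
      inv_mem' := by
        rintro a ⟨S₁, h1, h1', ha⟩
        exact ⟨S₁, h1, h1', fun H _ hH ψ hψ => by rw [map_inv, ha H hH ψ hψ, inv_one]⟩ }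
  haveI : N.Normal := ⟨by
    rintro a ⟨S₁, h1, h1', ha⟩ g
    exact ⟨S₁, h1, h1', fun H _ hH ψ hψ => by
      have : ψ a = 1 := ha H hH ψ hψ
      simp [this]⟩⟩
  have hS : ∀ p ∈ S, Sat (FreeGroup ℕ ⧸ N) p := by
    intro p hp ψ hψ
    obtain ⟨ψ', rfl⟩ := lift_exists (QuotientGroup.mk' N) (QuotientGroup.mk'_surjective N) ψ
    have h1 : ∀ w ∈ p.1, ψ' w ∈ N := fun w hw => (QuotientGroup.eq_one_iff _).1 (hψ w hw)
    choose! T hT hT' hT'' using h1
    refine (QuotientGroup.eq_one_iff _).2 ⟨insert p (⋃ w ∈ p.1, T w), ?_, ?_, ?_⟩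
    · exact Set.insert_subset hp (Set.iUnion₂_subset hT)
    · exact (Set.Finite.biUnion p.1.finite_toSet hT').insert p
    · intro H _ hH χ hχ
      refine hH p (Set.mem_insert _ _) (χ.comp ψ') fun w hw => ?_
      exact hT'' w hw H (fun r hr => hH r (Set.mem_insert_of_mem _
        (Set.mem_biUnion (Finset.mem_coe.2 hw) hr))) χ hχ
  exact (QuotientGroup.eq_one_iff _).1 (h _ hS (QuotientGroup.mk' N) fun w hw =>
    (QuotientGroup.eq_one_iff _).2 ⟨∅, Set.empty_subset _, Set.finite_empty,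
      fun _ _ _ ψ hψ => hψ w hw⟩)

lemma inK_of_sat [Finite H] (h : ∀ q, Sat G q → Sat H q) : InK G H := by
  classical
  haveI := Fintype.ofFinite H
  obtain ⟨e, he⟩ := Countable.exists_injective_nat H
  intro a ha
  by_contra hc
  push Not at hc
  let v : H → FreeGroup ℕ := fun x => FreeGroup.of (e x)
  have h1 := h (Finset.univ.image fun x : H × H => (v (x.1 * x.2))⁻¹ * (v x.1 * v x.2), v a) ?_
    (FreeGroup.lift (Function.invFun e)) ?_
  · apply ha
    simpa [v, Function.leftInverse_invFun he a] using h1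
  · intro φ hφ
    refine hc (MonoidHom.mk' (fun x => φ (v x)) fun x y => ?_)
    have := hφ _ (Finset.mem_image_of_mem _ (Finset.mem_univ (x, y)))
    rwa [map_mul, map_inv, inv_mul_eq_one, map_mul] at this
  · intro w hw
    obtain ⟨x, -, rfl⟩ := Finset.mem_image.1 hw
    simp [v, Function.leftInverse_invFun he _]

/-- Left-normed commutator. -/
def iter {H : Type*} [Group H] : ℕ → H → (ℕ → H) → H
  | 0, x, _ => x
  | t + 1, x, g => iter t ⁅x, g 0⁆ fun i => g (i + 1)

lemma map_iter (f : H →* K) (t : ℕ) : ∀ x g, f (iter t x g) = iter t (f x) fun i => f (g i) := by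
  induction t with
  | zero => intro x g; rfl
  | succ t ih => intro x g; simp only [iter, ih, map_commutatorElement]

lemma mem_ucs (t : ℕ) : ∀ x : H, x ∈ Subgroup.upperCentralSeries H t ↔ ∀ g, iter t x g = 1 := by
  induction t with
  | zero => intro x; simp [iter]
  | succ t ih =>
    intro x
    rw [Subgroup.mem_upperCentralSeries_succ_iff]
    simp only [ih, iter]
    exact ⟨fun h g => h _ _, fun h y g => h fun i => Nat.casesOn i y g⟩

/-- Nilpotent of class at most `c` and of exponent dividing `e`. -/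
def Law (c e : ℕ) (H : Type) [Group H] : Prop :=
  Sat H (∅, iter c (FreeGroup.of 0) fun i => FreeGroup.of (i + 1)) ∧ Sat H (∅, FreeGroup.of 0 ^ e)

lemma law_iff {c e : ℕ} :
    Law c e H ↔ Subgroup.upperCentralSeries H c = ⊤ ∧ ∀ x : H, x ^ e = 1 := by
  refine and_congr ⟨fun h => ?_, fun h ψ _ => ?_⟩ ⟨fun h x => ?_, fun h ψ _ => by simp [h]⟩
  · refine eq_top_iff.2 fun x _ => (mem_ucs c x).2 fun g => ?_
    have := h (FreeGroup.lift fun i => Nat.casesOn i x g) (by simp)
    simpa [map_iter] using this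
  · rw [map_iter]
    exact (mem_ucs c _).1 (h ▸ Subgroup.mem_top _) _
  · simpa using h (FreeGroup.lift fun _ => x) (by simp)

lemma finite_of_nilpotent (e : ℕ) (he : 0 < e) (H : Type) [Group H] [Group.IsNilpotent H] :
    Group.FG H → (∀ x : H, x ^ e = 1) → Finite H := by
  refine Group.nilpotent_center_quotient_ind
    (P := fun H _ _ => Group.FG H → (∀ x : H, x ^ e = 1) → Finite H) H ?_ ?_
  · intro H _ _ _ _; infer_instance
  · intro H _ _ ih hfg hexp
    haveI : Finite (H ⧸ Subgroup.center H) := ih inferInstance fun x => by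
      obtain ⟨x, rfl⟩ := QuotientGroup.mk_surjective x
      rw [← QuotientGroup.mk_pow, hexp]; rfl
    haveI : (Subgroup.center H).FiniteIndex := Subgroup.finiteIndex_of_finite_quotient
    letI : CommGroup (Subgroup.center H) :=
      { mul_comm := fun a b => Subtype.ext (Subgroup.mem_center_iff.1 b.2 a) }
    haveI : Finite (Subgroup.center H) := CommGroup.finite_of_fg_isMulTorsion _ fun x =>
      isOfFinOrder_iff_pow_eq_one.2 ⟨e, he, Subtype.ext (hexp x)⟩
    exact Finite.of_subgroup_quotient (Subgroup.center H)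

lemma Law.finite {c e : ℕ} (he : 0 < e) (h : Law c e H) [hfg : Group.FG H] : Finite H := by
  haveI : Group.IsNilpotent H := ⟨c, (law_iff.1 h).1⟩
  exact finite_of_nilpotent e he H hfg (law_iff.1 h).2

/-- Inclusion of the free group on the first `n` variables. -/
def incl (n : ℕ) : FreeGroup (Fin n) →* FreeGroup ℕ := FreeGroup.lift fun i => FreeGroup.of i.1

/-- Retraction onto the free group on the first `n` variables. -/
def retr (n : ℕ) : FreeGroup ℕ →* FreeGroup (Fin n) :=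
  FreeGroup.lift fun i => if h : i < n then FreeGroup.of ⟨i, h⟩ else 1

lemma ev_retr (w : FreeGroup ℕ) : ∀ᶠ n in Filter.atTop, incl n (retr n w) = w := by
  induction w using FreeGroup.induction_on with
  | C1 => simp
  | of x => exact (Filter.eventually_gt_atTop x).mono fun n hn => by simp [incl, retr, hn]
  | inv_of x ih => exact ih.mono fun n hn => by rw [map_inv, map_inv, hn]
  | mul x y hx hy => exact (hx.and hy).mono fun n hn => by rw [map_mul, map_mul, hn.1, hn.2]

lemma exists_retr (q : QI) :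
    ∃ n, (∀ w ∈ q.1, incl n (retr n w) = w) ∧ incl n (retr n q.2) = q.2 :=
  (((Filter.eventually_all_finset q.1).2 fun w _ => ev_retr w).and (ev_retr q.2)).exists

lemma exists_minimal [Finite H] (h : ¬ InK G H) :
    ∃ B : Subgroup H, ¬ InK G B ∧ ∀ B' : Subgroup B, B' ≠ ⊤ → InK G B' := by
  have h0 : ¬ InK G (⊤ : Subgroup H) := fun h' => h fun x hx => by
    obtain ⟨φ, hφ⟩ := h' ⟨x, trivial⟩ fun h'' => hx (congrArg Subtype.val h'')
    exact ⟨φ.comp ((MonoidHom.id H).codRestrict ⊤ fun _ => trivial), hφ⟩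
  obtain ⟨B, hB⟩ := exists_minimal_of_wellFoundedLT (fun B : Subgroup H => ¬ InK G B) ⟨⊤, h0⟩
  refine ⟨B, hB.1, fun B' hB' => ?_⟩
  by_contra hc
  have h1 : ¬ InK G (B'.map B.subtype) := fun h' => hc fun x hx => by
    let e := B'.equivMapOfInjective B.subtype B.subtype_injective
    obtain ⟨φ, hφ⟩ := h' (e x) fun h'' => hx ((map_eq_one_iff e e.injective).1 h'')
    exact ⟨φ.comp e.toMonoidHom, hφ⟩
  have h2 := hB.2 h1 (Subgroup.map_subtype_le B')
  refine hB' (eq_top_iff.2 fun x _ => ?_)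
  obtain ⟨y, hy, hy'⟩ := h2 x.2
  exact (Subtype.ext hy' : y = x) ▸ hy

lemma surj_of_closure (n : ℕ) (T : Finset H) (hT : T.card ≤ n)
    (h : Subgroup.closure (T : Set H) = ⊤) :
    ∃ f : FreeGroup (Fin n) →* H, Function.Surjective f := by
  refine ⟨FreeGroup.lift fun i => if hi : i.1 < T.card then (T.equivFin.symm ⟨i.1, hi⟩ : H) else 1,
    ?_⟩
  rw [← MonoidHom.range_eq_top, FreeGroup.range_lift_eq_closure, eq_top_iff, ← h]
  refine Subgroup.closure_mono fun x hx => ⟨⟨T.equivFin ⟨x, hx⟩, by omega⟩, ?_⟩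
  simp

lemma top_of_sup_commutator [Finite H] [Group.IsNilpotent H] (X : Subgroup H)
    (h : X ⊔ commutator H = ⊤) : X = ⊤ := by
  by_contra hX
  obtain ⟨M, hM, hXM⟩ := (eq_top_or_exists_le_coatom X).resolve_left hX
  haveI : M.Normal := Subgroup.NormalizerCondition.normal_of_coatom M
    Group.normalizerCondition_of_isNilpotent hM
  obtain ⟨g, hg⟩ : ∃ g, g ∉ M := by
    by_contra hc
    push Not at hc
    exact hM.1 (eq_top_iff.2 fun x _ => hc x)
  have h1 : M ⊔ Subgroup.zpowers g = ⊤ := hM.2 _ (lt_of_le_of_ne le_sup_left fun h' =>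
    hg (h' ▸ (le_sup_right : Subgroup.zpowers g ≤ _) (Subgroup.mem_zpowers g)))
  have h2 := Subgroup.Normal.commutator_le_of_self_sup_commutative_eq_top h1 inferInstance
  exact hM.1 (eq_top_iff.2 (h ▸ sup_le hXM h2))

lemma pgroup_of_minimal [Finite H] [Group.IsNilpotent H] (h : ¬ InK G H)
    (h' : ∀ B' : Subgroup H, B' ≠ ⊤ → InK G B') : ∃ p : ℕ, p.Prime ∧ IsPGroup p H := by
  by_contra hc
  push Not at hc
  obtain ⟨e⟩ := ((Group.isNilpotent_of_finite_tfae (G := H)).out 0 4).mp ‹_›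
  refine h fun x hx => ?_
  have h1 : e.symm x ≠ 1 := fun h'' => hx ((map_eq_one_iff e.symm e.symm.injective).1 h'')
  obtain ⟨p, hp⟩ := Function.ne_iff.1 h1
  obtain ⟨P, hP⟩ := Function.ne_iff.1 hp
  obtain ⟨φ, hφ⟩ := h' P (fun ht => hc p (Nat.prime_of_mem_primeFactors p.2)
    ((ht ▸ P.isPGroup').of_equiv Subgroup.topEquiv)) _ hP
  exact ⟨φ.comp ((Pi.evalMonoidHom _ P).comp ((Pi.evalMonoidHom _ p).comp e.symm.toMonoidHom)), hφ⟩

lemma exists_order [Finite H] [Finite G] (p : ℕ) [Fact p.Prime] (hp : IsPGroup p H)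
    (h' : ∀ x : H, InK G (Subgroup.zpowers x)) : ∃ g : G, ∀ x : H, x ^ orderOf g = 1 := by
  obtain ⟨x, hx⟩ := Finite.exists_max fun x : H => orderOf x
  obtain ⟨k, hk⟩ := IsPGroup.iff_orderOf.1 hp x
  have h1 : ∀ y : H, orderOf y ∣ p ^ k := by
    intro y
    obtain ⟨l, hl⟩ := IsPGroup.iff_orderOf.1 hp y
    have := hx y
    rw [hl, hk, Nat.pow_le_pow_iff_right (Fact.out : p.Prime).one_lt] at this
    exact hl ▸ pow_dvd_pow p this
  rcases k with _ | k
  · exact ⟨1, fun y => by simpa using h1 y⟩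
  · obtain ⟨φ, hφ⟩ := h' x (⟨x, Subgroup.mem_zpowers x⟩ ^ p ^ k) fun h => by
      have h2 : x ^ p ^ k = 1 := congrArg Subtype.val h
      have h3 := orderOf_dvd_of_pow_eq_one h2
      rw [hk, Nat.pow_dvd_pow_iff_le_right (Fact.out : p.Prime).one_lt] at h3
      omega
    refine ⟨φ ⟨x, Subgroup.mem_zpowers x⟩, fun y => ?_⟩
    rw [map_pow] at hφ
    rw [orderOf_eq_prime_pow hφ (by
      rw [← map_pow, ← map_one φ]; congr 1
      exact Subtype.ext (by rw [← hk]; exact pow_orderOf_eq_one x))]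
    exact orderOf_dvd_iff_pow_eq_one.1 (h1 y)

/-- A minimal nilpotent obstruction either has few generators or can be made sparse. -/
theorem few_or_sparse [Finite G] [Finite H] {c : ℕ} (hc : Subgroup.upperCentralSeries H c = ⊤)
    (h : ¬ InK G H) (h' : ∀ B' : Subgroup H, B' ≠ ⊤ → InK G B')
    (hgen : ¬ ∃ f : FreeGroup (Fin (c + 1)) →* H, Function.Surjective f) (n : ℕ) :
    ∃ (ι : Type) (_ : Finite ι) (A : Subgroup (ι → H)), ¬ InK G A ∧
      ∀ α : FreeGroup (Fin n) →* (ι → H), (∀ x, α (FreeGroup.of x) ∈ A) → Sep G α := by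
  classical
  haveI : Group.IsNilpotent H := ⟨c, hc⟩
  obtain ⟨p, hp, hpH⟩ := pgroup_of_minimal h h'
  haveI := Fact.mk hp
  obtain ⟨g, hg⟩ := exists_order (G := G) p hpH fun x => h' _ fun ht =>
    hgen (surj_of_closure _ {x} (by simp) (by rw [← ht, Subgroup.zpowers_eq_closure]; simp))
  obtain ⟨J, _, m, hm, ⟨e⟩⟩ := CommGroup.equiv_prod_multiplicative_zmod_of_finite (Abelianization H)
  let π : H →* ∀ j, Multiplicative (ZMod (m j)) := e.toMonoidHom.comp Abelianization.of
  have hsurj : Function.Surjective π := e.surjective.comp QuotientGroup.mk_surjective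
  have hker : ∀ b, π b = 1 ↔ b ∈ γ H 2 := fun b =>
    (map_eq_one_iff e e.injective).trans (by
      rw [← MonoidHom.mem_ker, Abelianization.ker_of]; rfl)
  choose b hb using fun j => hsurj (Pi.mulSingle j (Multiplicative.ofAdd 1))
  have hJ : c + 1 < Fintype.card J := by
    by_contra hle
    refine hgen (surj_of_closure _ (Finset.univ.image b) (Finset.card_image_le.trans (by
      rw [Finset.card_univ]; omega)) (top_of_sup_commutator _ (eq_top_iff.2 fun x _ => ?_)))
    have h1 : π x ∈ (Subgroup.closure ((Finset.univ.image b : Finset H) : Set H)).map π := by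
      refine Subgroup.pi_mem_of_mulSingle_mem _ fun j => ?_
      haveI : NeZero (m j) := ⟨by have := hm j; omega⟩
      refine ⟨b j ^ (Multiplicative.toAdd (π x j)).val,
        pow_mem (Subgroup.subset_closure (by simp)) _, ?_⟩
      rw [map_pow, hb, ← Pi.mulSingle_pow, ← ofAdd_nsmul]
      simp
    obtain ⟨a, ha, hab⟩ := h1
    have h2 : a⁻¹ * x ∈ commutator H := (hker _).1 (by simp [hab])
    have h3 := mul_mem (Subgroup.mem_sup_left ha) (Subgroup.mem_sup_right h2)
    rwa [mul_inv_cancel_left] at h3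
  haveI : Nonempty J := Fintype.card_pos_iff.1 (by omega)
  refine sparsify p hpH hsurj hker (c := c)
    (Subgroup.lowerCentralSeries_eq_bot_iff_upperCentralSeries_eq_top.2 hc) g hg h
    (fun T hT => h' _ fun ht => ?_) (Fin n)
  obtain ⟨j, hj⟩ : ∃ j, j ∉ T := by
    by_contra hcon
    push Not at hcon
    have := Finset.card_le_card (fun j _ => hcon j : Finset.univ ⊆ T)
    rw [Finset.card_univ] at this
    omega
  have h1 : b j ∈ BT π T := ht ▸ Subgroup.mem_top _
  have h2 := h1 j hj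
  rw [hb, Pi.mulSingle_eq_same] at h2
  haveI := Fact.mk (hm j)
  exact one_ne_zero (α := ZMod (m j)) h2

end

theorem nilpotent_main (G : Type) [Group G] [Finite G] [Group.IsNilpotent G] (S : Set QI)
    (hbasis : ∀ q, Sat G q ↔ ∀ (H : Type) [Group H], (∀ p ∈ S, Sat H p) → Sat H q)
    (hind : ∀ σ ∈ S, ¬ ∀ (H : Type) [Group H], (∀ p ∈ S, p ≠ σ → Sat H p) → Sat H σ) :
    S.Finite := by
  classical
  obtain ⟨c, hc⟩ := Group.IsNilpotent.nilpotent' (G := G)
  have he : 0 < Nat.card G := Nat.card_pos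
  have hG : Law c (Nat.card G) G := law_iff.2 ⟨hc, fun _ => pow_card_eq_one'⟩
  obtain ⟨S₁, hS₁, hS₁', h₁⟩ := compactness S _ ((hbasis _).1 hG.1)
  obtain ⟨S₂, hS₂, hS₂', h₂⟩ := compactness S _ ((hbasis _).1 hG.2)
  have hSG : ∀ p ∈ S, Sat G p := fun p hp => (hbasis p).2 fun _ _ hH => hH p hp
  by_contra hinf
  have hT : (S \ (S₁ ∪ S₂)).Infinite := Set.Infinite.diff hinf (hS₁'.union hS₂')
  let F := FreeGroup (Fin (c + 1))
  let N₀ : Subgroup F := Subgroup.normalClosure
    ({x | ∃ y g, x = iter c y g} ∪ {x | ∃ y, x = y ^ Nat.card G})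
  have hQ : Law c (Nat.card G) (F ⧸ N₀) := by
    refine law_iff.2 ⟨eq_top_iff.2 fun x _ => (mem_ucs c x).2 fun g => ?_, fun x => ?_⟩
    · obtain ⟨x, rfl⟩ := QuotientGroup.mk'_surjective N₀ x
      choose g' hg' using fun i => QuotientGroup.mk'_surjective N₀ (g i)
      rw [← funext hg', ← map_iter]
      exact (QuotientGroup.eq_one_iff _).2 (Subgroup.subset_normalClosure (Or.inl ⟨_, _, rfl⟩))
    · obtain ⟨x, rfl⟩ := QuotientGroup.mk'_surjective N₀ x
      rw [← map_pow]
      exact (QuotientGroup.eq_one_iff _).2 (Subgroup.subset_normalClosure (Or.inr ⟨_, rfl⟩))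
  haveI : Finite (F ⧸ N₀) := hQ.finite he
  let Rel : Subgroup F → QI → Prop := fun N q =>
    ∀ ψ : FreeGroup ℕ →* F, (∀ w ∈ q.1, ψ w ∈ N) → ψ q.2 ∈ N
  have hRel : ∀ (B : Type) [Group B] (f : F →* B), Function.Surjective f →
      ∀ q, Sat B q ↔ Rel f.ker q := by
    intro B _ f hf q
    refine ⟨fun h ψ hψ => h (f.comp ψ) hψ, fun h ψ hψ => ?_⟩
    obtain ⟨ψ', rfl⟩ := lift_exists f hf ψ
    exact h ψ' hψ
  have key : ∀ σ ∈ S \ (S₁ ∪ S₂), ∃ N : Subgroup F, N₀ ≤ N ∧ ¬ Rel N σ ∧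
      ∀ p ∈ S, p ≠ σ → Rel N p := by
    rintro σ ⟨hσ, hσ'⟩
    have h1 := hind σ hσ
    push Not at h1
    obtain ⟨H, _, hH, hHσ⟩ := h1
    obtain ⟨n, hn1, hn2⟩ := exists_retr σ
    have hlaw : ∀ (K : Type) [Group K], (∀ p ∈ S, p ≠ σ → Sat K p) → Law c (Nat.card G) K :=
      fun K _ hK => ⟨h₁ K fun p hp => hK p (hS₁ hp) fun h => hσ' (Or.inl (h ▸ hp)),
        h₂ K fun p hp => hK p (hS₂ hp) fun h => hσ' (Or.inr (h ▸ hp))⟩
    have hfin : ∀ (K : Type) [Group K] [Finite K], (∀ p ∈ S, p ≠ σ → Sat K p) → ¬ InK G K →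
        ¬ Sat K σ := fun K _ _ hK h h' => h (inK_of_sat fun q hq => (hbasis q).1 hq K fun p hp =>
          if hpσ : p = σ then hpσ ▸ h' else hK p hp hpσ)
    have hsep : ∀ (K : Type) [Group K], (∀ α : FreeGroup (Fin n) →* K, Sep G α) → Sat K σ := by
      intro K _ hK ψ hψ
      by_contra hne
      obtain ⟨φ, hφ, hφ'⟩ := hK (ψ.comp (incl n)) (retr n σ.2)
        (by rwa [MonoidHom.comp_apply, hn2])
      exact hφ' (hSG σ hσ (φ.comp (retr n)) fun w hw => hφ _ (by
        rw [MonoidHom.comp_apply, hn1 w hw, hψ w hw]))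
    obtain ⟨α, hα⟩ : ∃ α : FreeGroup (Fin n) →* H, ¬ Sep G α := by
      by_contra hc
      push Not at hc
      exact hHσ (hsep H hc)
    have hH₀ : ∀ p ∈ S, p ≠ σ → Sat α.range p := fun p hp hne =>
      (hH p hp hne).of_inK (inK_of_injective _ α.range.subtype_injective)
    haveI : Finite α.range := (hlaw _ hH₀).finite he
    have hnot : ¬ InK G α.range := fun h => hα fun w hw => by
      obtain ⟨φ, hφ⟩ := h (α.rangeRestrict w) fun h' => hw (congrArg Subtype.val h')
      refine ⟨φ.comp α.rangeRestrict, fun v hv => ?_, hφ⟩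
      have : α.rangeRestrict v = 1 := Subtype.ext hv
      rw [MonoidHom.comp_apply, this, map_one]
    obtain ⟨B, hB, hB'⟩ := exists_minimal hnot
    have hBS : ∀ p ∈ S, p ≠ σ → Sat B p := fun p hp hne =>
      (hH₀ p hp hne).of_inK (inK_of_injective _ B.subtype_injective)
    have hBl := law_iff.1 (hlaw _ hBS)
    by_cases hgen : ∃ f : F →* B, Function.Surjective f
    · obtain ⟨f, hf⟩ := hgen
      refine ⟨f.ker, Subgroup.normalClosure_le_normal ?_,
        fun h => hfin B hBS hB ((hRel B f hf σ).2 h),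
        fun p hp hne => (hRel B f hf p).1 (hBS p hp hne)⟩
      rintro _ (⟨y, g, rfl⟩ | ⟨y, rfl⟩)
      · exact (map_iter f c y g).trans ((mem_ucs c _).1 (hBl.1 ▸ Subgroup.mem_top _) _)
      · exact (map_pow f y _).trans (hBl.2 _)
    · exfalso
      obtain ⟨ι, _, A, hA, hA'⟩ := few_or_sparse hBl.1 hB hB' hgen n
      refine hfin A (fun p hp hne => ((hBS p hp hne).of_inK (inK_pi ι)).of_inK
        (inK_of_injective _ A.subtype_injective)) hA (hsep A fun β w hw => ?_)
      obtain ⟨φ, hφ, hφ'⟩ := hA' (A.subtype.comp β) (fun x => (β (FreeGroup.of x)).2) w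
        fun h => hw (Subtype.ext h)
      exact ⟨φ, fun v hv => hφ v (by rw [MonoidHom.comp_apply, hv, map_one]), hφ'⟩
  choose! N hN1 hN2 hN3 using key
  refine hT (Set.Finite.of_injOn (f := fun σ => (N σ).map (QuotientGroup.mk' N₀))
    (t := Set.univ) (fun _ _ => trivial) (fun σ hσ τ hτ h => ?_) Set.finite_univ)
  have h1 : N σ = N τ := by
    have := congrArg (Subgroup.comap (QuotientGroup.mk' N₀)) h
    simp only [Subgroup.comap_map_eq, QuotientGroup.ker_mk'] at this
    rwa [sup_of_le_left (hN1 σ hσ), sup_of_le_left (hN1 τ hτ)] at this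
  by_contra hne
  exact hN2 σ hσ (h1 ▸ hN3 τ hτ σ hσ.1 hne)

end Pool.Agent.Lib.MP_6fc7a0_al
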