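import Pool.Agent.Lib.MP_6fc7a0_al.Poly

/-! The model groups and the local analysis of the sampled group. -/

namespace Pool.Agent.Lib.MP_6fc7a0_al

open Finset
open scoped commutatorElement

/-- Homomorphisms to `G` separate the points of `X`. -/
def InK (G X : Type*) [Group G] [Group X] : Prop := ∀ x : X, x ≠ 1 → ∃ φ : X →* G, φ x ≠ 1

/-- Homomorphisms to `G` separate the points of the image of `α`. -/
def Sep (G : Type*) [Group G] {F X : Type*} [Group F] [Group X] (α : F →* X) : Prop :=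
  ∀ w, α w ≠ 1 → ∃ φ : F →* G, (∀ v, α v = 1 → φ v = 1) ∧ φ w ≠ 1

lemma ext_hom {F Ω G : Type*} [Group F] [Group Ω] [Group G] (θ : F →* Ω) (Y Z : Subgroup Ω)
    [hZ : Z.Normal] (ψ : Y →* G) (hψ : ∀ y : Y, y.1 ∈ Z → ψ y = 1)
    (hθ : ∀ w, ∃ y ∈ Y, y⁻¹ * θ w ∈ Z) :
    ∃ φ : F →* G, ∀ w (y : Y), (y : Ω)⁻¹ * θ w ∈ Z → φ w = ψ y := by
  choose y hy hy' using hθ
  have key : ∀ w (y' : Y), (y' : Ω)⁻¹ * θ w ∈ Z → ψ ⟨y w, hy w⟩ = ψ y' := by
    intro w y' h
    have h1 := hψ (y'⁻¹ * ⟨y w, hy w⟩) (by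
      have : ((y'⁻¹ * ⟨y w, hy w⟩ : Y) : Ω) = ((y' : Ω)⁻¹ * θ w) * ((y w)⁻¹ * θ w)⁻¹ := by
        simp only [Subgroup.coe_mul, Subgroup.coe_inv]; group
      rw [this]; exact mul_mem h (inv_mem (hy' w)))
    rw [map_mul, map_inv, inv_mul_eq_one] at h1
    exact h1.symm
  refine ⟨MonoidHom.mk' (fun w => ψ ⟨y w, hy w⟩) fun w w' => ?_, key⟩
  rw [← map_mul]
  apply key
  have : ((⟨y w, hy w⟩ * ⟨y w', hy w'⟩ : Y) : Ω)⁻¹ * θ (w * w') =
      ((y w')⁻¹ * ((y w)⁻¹ * θ w) * (y w')⁻¹⁻¹) * ((y w')⁻¹ * θ w') := by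
    simp only [Subgroup.coe_mul, map_mul]; group
  rw [this]
  exact mul_mem (hZ.conj_mem _ (hy' w) _) (hy' w')

lemma abel_sep {G H : Type*} [Group G] [Group H] [Finite H] (g : G) (hg : 0 < orderOf g)
    (hH : ∀ x : H, x ^ orderOf g = 1) (x : H) (hx : x ∉ commutator H) :
    ∃ φ : H →* G, φ x ≠ 1 := by
  obtain ⟨ι, _, n, hn, ⟨e⟩⟩ := CommGroup.equiv_prod_multiplicative_zmod_of_finite (Abelianization H)
  have h1 : e (Abelianization.of x) ≠ 1 := by
    rw [Ne, map_eq_one_iff _ e.injective, ← MonoidHom.mem_ker, Abelianization.ker_of]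
    exact hx
  obtain ⟨j, hj⟩ := Function.ne_iff.1 h1
  let χ : H →* Multiplicative (ZMod (n j)) :=
    (Pi.evalMonoidHom _ j).comp (e.toMonoidHom.comp Abelianization.of)
  haveI : NeZero (n j) := ⟨by have := hn j; omega⟩
  have hdvd : n j ∣ orderOf g := by
    classical
    obtain ⟨z, hz⟩ := e.surjective (Pi.mulSingle j (Multiplicative.ofAdd 1))
    obtain ⟨z, rfl⟩ : ∃ z', Abelianization.of z' = z := QuotientGroup.mk_surjective z
    have h2 : χ z = Multiplicative.ofAdd 1 := by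
      change e (Abelianization.of z) j = _
      rw [hz, Pi.mulSingle_eq_same]
    have h3 : (Multiplicative.ofAdd (1 : ZMod (n j))) ^ orderOf g = 1 := by
      rw [← h2, ← map_pow, hH, map_one]
    have h4 := orderOf_dvd_of_pow_eq_one h3
    rwa [orderOf_ofAdd_eq_addOrderOf, ZMod.addOrderOf_one] at h4
  have h5 : orderOf (g ^ (orderOf g / n j)) = n j := orderOf_pow_orderOf_div hg.ne' hdvd
  let μ : Multiplicative (ZMod (n j)) ≃* Subgroup.zpowers (g ^ (orderOf g / n j)) :=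
    mulEquivOfCyclicCardEq (by rw [Nat.card_zpowers, h5]; simp)
  refine ⟨(Subgroup.subtype _).comp (μ.toMonoidHom.comp χ), fun h => hj ?_⟩
  have h6 : μ (χ x) = 1 := Subtype.ext h
  exact (map_eq_one_iff _ μ.injective).1 h6

section
variable {B : Type*} [Group B]

lemma central_mod {k : ℕ} {x : B} (hx : x ∈ γ B k) (g : B) :
    Commute (x : B ⧸ γ B (k + 1)) (g : B ⧸ γ B (k + 1)) := by
  rw [← commutatorElement_eq_one_iff_commute]
  have : ((⁅x, g⁆ : B) : B ⧸ γ B (k + 1)) = 1 :=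
    (QuotientGroup.eq_one_iff _).2 (γ_comm k 1 x g hx (Subgroup.mem_top g))
  rwa [← QuotientGroup.mk'_apply, map_commutatorElement] at this

lemma comm_congr {F : Type*} [Group F] (k : ℕ) (α β : F →* B)
    (h : ∀ v, (α v : B ⧸ γ B k) = β v) {w : F} (hw : w ∈ commutator F) :
    (α w : B ⧸ γ B (k + 1)) = β w := by
  have hle : commutator F ≤ ((QuotientGroup.mk' (γ B (k + 1))).comp α).eqLocus
      ((QuotientGroup.mk' (γ B (k + 1))).comp β) := by
    rw [commutator_def, Subgroup.commutator_le]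
    intro x _ y _
    change ((QuotientGroup.mk' (γ B (k + 1))).comp α) ⁅x, y⁆ =
      ((QuotientGroup.mk' (γ B (k + 1))).comp β) ⁅x, y⁆
    rw [map_commutatorElement, map_commutatorElement]
    simp only [MonoidHom.comp_apply, QuotientGroup.mk'_apply]
    have hx := central_mod (QuotientGroup.eq.1 (h x))
    have hy := central_mod (QuotientGroup.eq.1 (h y))
    have ex : (β x : B ⧸ γ B (k + 1)) = α x * (((α x)⁻¹ * β x : B) : B ⧸ γ B (k + 1)) := by
      rw [← QuotientGroup.mk_mul]; congr 1; group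
    have ey : (β y : B ⧸ γ B (k + 1)) = α y * (((α y)⁻¹ * β y : B) : B ⧸ γ B (k + 1)) := by
      rw [← QuotientGroup.mk_mul]; congr 1; group
    rw [ex, ey]
    generalize (((α x)⁻¹ * β x : B) : B ⧸ γ B (k + 1)) = s at hx
    generalize (((α y)⁻¹ * β y : B) : B ⧸ γ B (k + 1)) = t at hy
    have hs : ∀ q, Commute s q := fun q => by
      obtain ⟨q, rfl⟩ := QuotientGroup.mk_surjective q; exact hx q
    have ht : ∀ q, Commute t q := fun q => by
      obtain ⟨q, rfl⟩ := QuotientGroup.mk_surjective q; exact hy q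
    rw [commutatorElement_mul_left_eq_conj_mul, (hs _).commutator_eq,
      commutatorElement_mul_right_eq_mul_conj, (ht _).symm.commutator_eq]
    group
  exact hle hw

variable {J : Type} [Fintype J] [DecidableEq J] {C : J → Type*} [∀ j, Group (C j)]
  (π : B →* ∀ j, C j)

/-- Elements whose components outside `T` vanish. -/
def BT (T : Finset J) : Subgroup B where
  carrier := {b | ∀ j, j ∉ T → π b j = 1}
  one_mem' := by simp
  mul_mem' := by intro a b ha hb j hj; simp [ha j hj, hb j hj]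
  inv_mem' := by intro a ha j hj; simp [ha j hj]

/-- The model group at level `k`. -/
def Model (k : ℕ) : Subgroup (B × (Finset J → B)) where
  carrier := {x | (∃ f ∈ Pol π (id : J → J), ∀ e, (f e : B ⧸ γ B k) = x.2 e) ∧
    (x.1 : B ⧸ γ B k) = x.2 univ}
  one_mem' := ⟨⟨1, one_mem _, fun _ => rfl⟩, rfl⟩
  mul_mem' := by
    rintro x y ⟨⟨f, hf, hf'⟩, hx⟩ ⟨⟨g, hg, hg'⟩, hy⟩
    exact ⟨⟨f * g, mul_mem hf hg, fun e => by simp [hf', hg']⟩, by simp [hx, hy]⟩
  inv_mem' := by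
    rintro x ⟨⟨f, hf, hf'⟩, hx⟩
    exact ⟨⟨f⁻¹, inv_mem hf, fun e => by simp [hf']⟩, by simp [hx]⟩

lemma mem_Model {k : ℕ} {r : B} (hr : r ∈ γ B k) {z : Finset J → B} (hz : ∀ e, z e ∈ γ B k) :
    (r, z) ∈ Model π k := by
  refine ⟨⟨1, one_mem _, fun e => ((QuotientGroup.eq_one_iff _).2 (hz e)).symm⟩, ?_⟩
  exact ((QuotientGroup.eq_one_iff _).2 hr).trans ((QuotientGroup.eq_one_iff _).2 (hz _)).symm

/-- Some nontrivial element of the `k`-th term dies under all homomorphisms of the model. -/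
def Kills (G : Type*) [Group G] (k : ℕ) : Prop :=
  ∃ (r : B) (hr : r ∈ γ B k), r ≠ 1 ∧ ∀ ψ : Model π k →* G,
    (∀ x : Model π k, x.1.1 = 1 → (∀ e, x.1.2 e ∈ γ B k) → ψ x = 1) →
    ψ ⟨(r, 1), mem_Model π hr fun _ => one_mem _⟩ = 1

variable {π}

lemma typed_top [Nonempty J] (hsurj : Function.Surjective π) (H : Subgroup B)
    (h : ∀ j w, (∀ j', j' ≠ j → π w j' = 1) → w ∈ H) (b : B) : b ∈ H := by
  obtain ⟨j₀⟩ := ‹Nonempty J›
  have h1 : π b ∈ H.map π := by
    refine Subgroup.pi_mem_of_mulSingle_mem _ fun j => ?_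
    obtain ⟨w, hw⟩ := hsurj (Pi.mulSingle j (π b j))
    exact ⟨w, h j w fun j' hj' => by rw [hw, Pi.mulSingle_eq_of_ne hj'], hw⟩
  obtain ⟨a, ha, hab⟩ := h1
  have h2 : a⁻¹ * b ∈ H := h j₀ _ fun j' _ => by simp [hab]
  exact (H.mul_mem_cancel_left (inv_mem ha)).1 h2

lemma kills_two [Nonempty J] {G : Type*} [Group G] (hsurj : Function.Surjective π)
    (hker : ∀ b, π b = 1 ↔ b ∈ γ B 2) (hB : ¬ InK G B)
    (hab : ∀ b, b ∉ γ B 2 → ∃ φ : B →* G, φ b ≠ 1) : Kills π G 2 := by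
  unfold InK at hB
  push Not at hB
  obtain ⟨r, hr, hr'⟩ := hB
  have hr2 : r ∈ γ B 2 := by
    by_contra h
    obtain ⟨φ, hφ⟩ := hab r h
    exact hφ (hr' φ)
  refine ⟨r, hr2, hr, fun ψ hψ => ?_⟩
  refine (ext_hom (MonoidHom.inl B (Finset J → B)) (Model π 2)
    (MonoidHom.fst B (Finset J → B)).ker ψ ?_ ?_).elim fun φ hφ => ?_
  rotate_left 2
  · rw [← hφ r ⟨(r, 1), mem_Model π hr2 fun _ => one_mem _⟩ (inv_mul_cancel r), hr']
  · rintro ⟨⟨b, z⟩, hx⟩ h1
    have h1' : b = 1 := h1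
    refine hψ _ h1' fun e => ?_
    obtain ⟨⟨f, hf, hf'⟩, hu⟩ := hx
    have hq : ∀ a a' : B, (a : B ⧸ γ B 2) = a' → π a = π a' := by
      intro a a' h
      have := (hker _).2 (QuotientGroup.eq.1 h)
      rwa [map_mul, map_inv, inv_mul_eq_one] at this
    rw [← hker, ← hq _ _ (hf' e)]
    funext j
    by_cases hj : j ∈ e
    · rw [Pol_id hf e j hj, hq _ _ (hf' univ), ← hq _ _ hu]
      simp [h1']
    · exact Pol_type hf e j fun s hs h => hj (h ▸ hs)
  · intro b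
    obtain ⟨y, hy, hy'⟩ := typed_top hsurj ((Model π 2).map (MonoidHom.fst _ _)) (fun j w hw =>
      ⟨(w, mono {j} w), ⟨⟨mono {j} w, mono_mem_Pol (singleton_nonempty j) (Subgroup.mem_top w)
        (fun s hs j' hj' => hw j' (mem_singleton.1 hs ▸ hj')), fun _ => rfl⟩,
        by simp [mono]⟩, rfl⟩) b
    refine ⟨y, hy, ?_⟩
    have : y.1 = b := hy'
    change y.1⁻¹ * b = 1
    rw [this, inv_mul_cancel]

/-- The complement used to retract onto the model of level `k + 1`. -/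
def Zc (B : Type*) [Group B] (j₀ : J) (k : ℕ) : Subgroup (B × (Finset J → B)) where
  carrier := {x | x.1 = 1 ∧ (∀ e, x.2 e ∈ γ B k) ∧ (x.2 univ : B ⧸ γ B (k + 1)) = 1 ∧
    ∃ w ∈ γ B k, ∀ e : Finset J, e.card ≤ k → (x.2 e : B ⧸ γ B (k + 1)) = (mono {j₀} w e : B)}
  one_mem' := ⟨rfl, fun _ => one_mem _, rfl, 1, one_mem _, fun e _ => by simp [mono]⟩
  mul_mem' := by
    rintro x y ⟨h1, h2, h3, w, hw, h4⟩ ⟨h1', h2', h3', w', hw', h4'⟩
    refine ⟨by simp [h1, h1'], fun e => mul_mem (h2 e) (h2' e), by simp [h3, h3'],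
      w * w', mul_mem hw hw', fun e he => ?_⟩
    simp only [Prod.snd_mul, Pi.mul_apply, QuotientGroup.mk_mul, h4 e he, h4' e he, mono]
    split_ifs <;> simp
  inv_mem' := by
    rintro x ⟨h1, h2, h3, w, hw, h4⟩
    refine ⟨by simp [h1], fun e => inv_mem (h2 e), by simp [h3], w⁻¹, inv_mem hw, fun e he => ?_⟩
    simp only [Prod.snd_inv, Pi.inv_apply, QuotientGroup.mk_inv, h4 e he, mono]
    split_ifs <;> simp

instance (j₀ : J) (k : ℕ) : (Zc B j₀ k).Normal := by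
  refine ⟨?_⟩
  rintro x ⟨h1, h2, h3, w, hw, h4⟩ g
  have key : ∀ e, ((g * x * g⁻¹).2 e : B ⧸ γ B (k + 1)) = x.2 e := by
    intro e
    simp only [Prod.snd_mul, Prod.snd_inv, Pi.mul_apply, Pi.inv_apply, QuotientGroup.mk_mul,
      QuotientGroup.mk_inv]
    rw [← (central_mod (h2 e) (g.2 e)).eq]; group
  refine ⟨by simp [h1], fun e => ?_, by rw [key, h3], w, hw, fun e he => by rw [key, h4 e he]⟩
  exact Subgroup.Normal.conj_mem inferInstance _ (h2 e) _

lemma model_inf_Zc (j₀ : J) {k : ℕ} (hk : 1 ≤ k) (hπ : ∀ w ∈ γ B k, π w = 1)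
    {x : B × (Finset J → B)} (hx : x ∈ Model π (k + 1)) (hz : x ∈ Zc B j₀ k) (e : Finset J) :
    x.2 e ∈ γ B (k + 1) := by
  obtain ⟨⟨f, hf, hf'⟩, -⟩ := hx
  obtain ⟨-, -, h3, w, hw, h4⟩ := hz
  have hm : mono {j₀} w ∈ Pol π (id : J → J) :=
    mono_mem_Pol (singleton_nonempty _) (Subgroup.mem_top w) fun _ _ j _ => by rw [hπ w hw]; rfl
  have h5 : ∀ e, (f e : B ⧸ γ B (k + 1)) = (mono {j₀} w e : B) := by
    intro e
    exact QuotientGroup.eq.2 (Pol_det (mul_mem (inv_mem hf) hm) k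
      (fun e he => QuotientGroup.eq.1 ((hf' e).trans (h4 e he))) e)
  have h6 : (w : B ⧸ γ B (k + 1)) = 1 := by
    have := h5 univ
    rw [hf', h3] at this
    simpa [mono] using this.symm
  rw [← QuotientGroup.eq_one_iff, ← hf', h5]
  unfold mono
  split_ifs
  · exact h6
  · rfl

lemma decomp (j₀ : J) {k : ℕ} (hπ : ∀ w ∈ γ B k, π w = 1) (x : B × (Finset J → B))
    (h1 : ∃ f ∈ Pol π (id : J → J), ∀ e, (f e : B ⧸ γ B k) = x.2 e) (h2 : x.1 = x.2 univ)
    (h3 : x.2 ∅ = 1) : ∃ y ∈ Model π (k + 1), y⁻¹ * x ∈ Zc B j₀ k := by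
  obtain ⟨f, hf, hf'⟩ := h1
  obtain ⟨η, hη⟩ : ∃ η, η = f⁻¹ * x.2 := ⟨_, rfl⟩
  have hη1 : ∀ e, η e ∈ γ B k := fun e => hη ▸ QuotientGroup.eq.1 (hf' e)
  obtain ⟨g, hg, hg1, hg2⟩ := Pol_interp (ty := (id : J → J)) k hπ η hη1
    (univ.filter fun S => S.Nonempty ∧ S.card ≤ k) fun S hS => (mem_filter.1 hS).2
  obtain ⟨u, hu⟩ : ∃ u, u = (g univ)⁻¹ * η univ := ⟨_, rfl⟩
  have hu1 : u ∈ γ B k := hu ▸ mul_mem (inv_mem (hg1 _)) (hη1 _)
  have hm : mono {j₀} u ∈ Pol π (id : J → J) :=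
    mono_mem_Pol (singleton_nonempty _) (Subgroup.mem_top u) fun _ _ j _ => by rw [hπ u hu1]; rfl
  have hm1 : ∀ e, mono {j₀} u e ∈ γ B k := by
    intro e; unfold mono; split_ifs
    · exact hu1
    · exact one_mem _
  have hun : (f * g * mono {j₀} u) univ = x.2 univ := by
    simp only [Pi.mul_apply, mono, subset_univ, if_true, hu, hη, Pi.inv_apply]; group
  have hz : ∀ e, ((x.1, f * g * mono {j₀} u)⁻¹ * x).2 e =
      (mono {j₀} u e)⁻¹ * ((g e)⁻¹ * η e) := by
    intro e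
    simp only [Prod.snd_mul, Prod.snd_inv, Pi.mul_apply, Pi.inv_apply, hη]; group
  refine ⟨(x.1, f * g * mono {j₀} u),
    ⟨⟨_, mul_mem (mul_mem hf hg) hm, fun _ => rfl⟩, by rw [h2, ← hun]⟩, by simp, fun e => ?_, ?_,
    u⁻¹, inv_mem hu1, fun e he => ?_⟩
  · rw [hz]; exact mul_mem (inv_mem (hm1 e)) (mul_mem (inv_mem (hg1 e)) (hη1 e))
  · rw [hz, ← hu]; simp [mono]
  · have : g e = η e := by
      rcases e.eq_empty_or_nonempty with rfl | hne
      · rw [Pol_empty hg, hη]; simp [Pol_empty hf, h3]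
      · exact hg2 e (mem_filter.2 ⟨mem_univ _, hne, he⟩)
    rw [hz, this]
    unfold mono
    split_ifs <;> simp

variable {V ι : Type} [DecidableEq V]

variable (π) in
/-- The sampled group. -/
def Samp (ty : V → J) (e : ι → Finset V) (k : ℕ) : Subgroup (ι → B) where
  carrier := {β | ∃ f ∈ Pol π ty, ∀ i, (f (e i) : B ⧸ γ B k) = β i}
  one_mem' := ⟨1, one_mem _, fun _ => rfl⟩
  mul_mem' := by
    rintro x y ⟨f, hf, hf'⟩ ⟨g, hg, hg'⟩
    exact ⟨f * g, mul_mem hf hg, fun e => by simp [hf', hg']⟩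
  inv_mem' := by
    rintro x ⟨f, hf, hf'⟩
    exact ⟨f⁻¹, inv_mem hf, fun e => by simp [hf']⟩

theorem local_sep [Nonempty J] [Finite ι] [Finite B] {G : Type*} [Group G] (g : G)
    (hg : 0 < orderOf g) (hB : ∀ x : B, x ^ orderOf g = 1) {k : ℕ} (hk : 1 ≤ k)
    (hπ : ∀ w ∈ γ B k, π w = 1) (hK : ¬ Kills π G (k + 1))
    (hprop : ∀ T : Finset J, T.card ≤ k → InK G (BT π T))
    (ty : V → J) (e : ι → Finset V) {X : Type}
    (hit : ∀ y : X → Finset V → B, (∀ x, y x ∈ Pol π ty) → ∀ ε, ∃ i,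
      ∀ x, (y x (e i) : B ⧸ γ B k) = y x ε)
    (α : FreeGroup X →* (ι → B)) (hα : ∀ x, α (FreeGroup.of x) ∈ Samp π ty e k) : Sep G α := by
  classical
  obtain ⟨j₀⟩ := ‹Nonempty J›
  suffices main : ∀ w ∈ commutator (FreeGroup X), α w ≠ 1 →
      ∃ φ : FreeGroup X →* G, (∀ v, α v = 1 → φ v = 1) ∧ φ w ≠ 1 by
    intro w hw
    by_cases h : α.rangeRestrict w ∈ commutator α.range
    · have h1 : commutator α.range = (commutator (FreeGroup X)).map α.rangeRestrict := by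
        rw [commutator_def, commutator_def, Subgroup.map_commutator,
          Subgroup.map_top_of_surjective _ α.rangeRestrict_surjective]
      rw [h1] at h
      obtain ⟨w', hw', h2⟩ := h
      have h3 : α w' = α w := congrArg Subtype.val h2
      obtain ⟨φ, hφ, hφ'⟩ := main w' hw' (h3 ▸ hw)
      refine ⟨φ, hφ, ?_⟩
      have := hφ (w'⁻¹ * w) (by rw [map_mul, map_inv, h3, inv_mul_cancel])
      rw [map_mul, map_inv, inv_mul_eq_one] at this
      exact this ▸ hφ'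
    · obtain ⟨φ, hφ⟩ := abel_sep g hg (H := α.range)
        (fun x => Subtype.ext (funext fun i => hB (x.1 i))) _ h
      refine ⟨φ.comp α.rangeRestrict, fun v hv => ?_, hφ⟩
      have : α.rangeRestrict v = 1 := Subtype.ext hv
      rw [MonoidHom.comp_apply, this, map_one]
  intro w hw hw1
  choose y hy hy' using hα
  let Y : FreeGroup X →* (Finset V → B) := FreeGroup.lift y
  have hY : ∀ v, Y v ∈ Pol π ty := by
    intro v
    have : Y.range ≤ Pol π ty := by
      rw [FreeGroup.range_lift_eq_closure, Subgroup.closure_le]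
      rintro _ ⟨x, rfl⟩; exact hy x
    exact this ⟨v, rfl⟩
  let ev : Finset V → FreeGroup X →* B := fun ε => (Pi.evalMonoidHom _ ε).comp Y
  let pj : ι → FreeGroup X →* B := fun i => (Pi.evalMonoidHom _ i).comp α
  have hmatch : ∀ i ε, (∀ x, (y x (e i) : B ⧸ γ B k) = y x ε) →
      ∀ v, (ev ε v : B ⧸ γ B k) = pj i v := by
    intro i ε h v
    have : (QuotientGroup.mk' (γ B k)).comp (ev ε) = (QuotientGroup.mk' (γ B k)).comp (pj i) := by
      refine FreeGroup.ext_hom _ _ fun x => ?_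
      change ((Y (FreeGroup.of x) ε : B) : B ⧸ γ B k) = (α (FreeGroup.of x) i : B)
      rw [← hy' x i, h x]
      simp [Y]
    exact DFunLike.congr_fun this v
  have hq : ∀ a a' : B, (a : B ⧸ γ B k) = a' → π a = π a' := by
    intro a a' h
    have := hπ _ (QuotientGroup.eq.1 h)
    rwa [map_mul, map_inv, inv_mul_eq_one] at this
  by_cases hcase : ∀ ε : Finset V, ε.card ≤ k → Y w ε ∈ γ B (k + 1)
  · have h1 : ∀ i, α w i ∈ γ B (k + 1) := by
      intro i
      have := comm_congr k _ _ (hmatch i (e i) fun _ => rfl) hw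
      rw [← QuotientGroup.eq_one_iff]
      exact this.symm.trans ((QuotientGroup.eq_one_iff _).2 (Pol_det (hY w) k hcase (e i)))
    obtain ⟨i₀, hi₀⟩ := Function.ne_iff.1 hw1
    unfold Kills at hK
    push Not at hK
    obtain ⟨ψ, hψ, hψ'⟩ := hK (α w i₀) (h1 i₀) hi₀
    have hex : ∀ e' : Finset J, ∃ i, (∀ x, (y x (e i) : B ⧸ γ B k) =
        y x ((e i₀).filter fun s => ty s ∈ e')) ∧ (e' = univ → i = i₀) := by
      intro e'
      by_cases h : e' = univ
      · exact ⟨i₀, fun x => by simp [h], fun _ => rfl⟩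
      · obtain ⟨i, hi⟩ := hit y hy ((e i₀).filter fun s => ty s ∈ e')
        exact ⟨i, hi, fun h' => absurd h' h⟩
    choose τ hτ hτ' using hex
    let θ : FreeGroup X →* B × (Finset J → B) :=
      (pj i₀).prod (Pi.monoidHom fun e' => if e' = ∅ then 1 else pj (τ e'))
    have hθ2 : ∀ v e', (θ v).2 e' = if e' = ∅ then 1 else α v (τ e') := by
      intro v e'
      change (if e' = ∅ then 1 else pj (τ e') : FreeGroup X →* B) v = _
      split_ifs <;> rfl
    refine (ext_hom θ (Model π (k + 1)) (Zc B j₀ k) ψ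
      (fun x hx => hψ x hx.1 (model_inf_Zc j₀ hk hπ x.2 hx)) fun v => ?_).elim fun φ hφ => ?_
    rotate_left
    · refine ⟨φ, fun v hv => ?_, ?_⟩
      · rw [hφ v 1, map_one]
        have : θ v = 1 := by
          refine Prod.ext (congrFun hv i₀) (funext fun e' => ?_)
          rw [hθ2, hv]; simp
        rw [this]; simp
      · rw [hφ w ⟨(α w i₀, 1), mem_Model π (h1 i₀) fun _ => one_mem _⟩]
        · exact hψ'
        have h2 : ∀ e', (((α w i₀, 1) : B × (Finset J → B))⁻¹ * θ w).2 e' ∈ γ B (k + 1) := by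
          intro e'
          simp only [Prod.snd_mul, Prod.snd_inv, inv_one, one_mul, hθ2]
          split_ifs
          · exact one_mem _
          · exact h1 _
        refine ⟨inv_mul_cancel (α w i₀), fun e' => γ_anti (Nat.le_succ k) (h2 e'),
          (QuotientGroup.eq_one_iff _).2 (h2 _), 1, one_mem _, fun e' _ => ?_⟩
        rw [(QuotientGroup.eq_one_iff _).2 (h2 e')]
        simp [mono]
    · refine decomp j₀ hπ (θ v) ⟨_, Pol_collapse (e i₀) (hY v), fun e' => ?_⟩ ?_ ?_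
      · rw [hθ2]
        split_ifs with h
        · simp [h, Pol_empty (hY v)]
        · exact hmatch _ _ (hτ e') v
      · rw [hθ2, if_neg (univ_nonempty_iff.2 ⟨j₀⟩).ne_empty, hτ' univ rfl]; rfl
      · rw [hθ2, if_pos rfl]
  · push Not at hcase
    obtain ⟨ε, hε, hε'⟩ := hcase
    obtain ⟨i, hi⟩ := hit y hy ε
    have h1 := hmatch i ε hi
    have h2 : ∀ v, pj i v ∈ BT π (ε.image ty) := by
      intro v j hj
      rw [← hq _ _ (h1 v)]
      exact Pol_type (hY v) ε j fun s hs h => hj (h ▸ mem_image_of_mem ty hs)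
    have h3 : pj i w ≠ 1 := by
      intro h
      have := comm_congr k _ _ h1 hw
      rw [h] at this
      exact hε' ((QuotientGroup.eq_one_iff _).1 this)
    obtain ⟨μ, hμ⟩ := hprop (ε.image ty) (card_image_le.trans hε) ⟨pj i w, h2 w⟩
      fun h => h3 (congrArg Subtype.val h)
    refine ⟨μ.comp ((pj i).codRestrict _ h2), fun v hv => ?_, hμ⟩
    have : (pj i).codRestrict _ h2 v = 1 := Subtype.ext (congrFun hv i)
    rw [MonoidHom.comp_apply, this, map_one]

end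

end Pool.Agent.Lib.MP_6fc7a0_al
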