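import Pool.Agent.Lib.MP_6fc7a0_al.Cube

/-! Polynomial maps from the cube of subsets into a group, adapted to the lower central series. -/

namespace Pool.Agent.Lib.MP_6fc7a0_al

open Finset
open scoped commutatorElement

/-- A filtration of a group. -/
structure Filt (Ω : Type*) [Group Ω] where
  X : ℕ → Subgroup Ω
  anti : Antitone X
  comm : ∀ a b x y, x ∈ X a → y ∈ X b → ⁅x, y⁆ ∈ X (a + b)

lemma Filt.conj {Ω : Type*} [Group Ω] (F : Filt Ω) {a b : ℕ} {x y : Ω} (hx : x ∈ F.X a)
    (hy : y ∈ F.X b) : y * x * y⁻¹ ∈ F.X a := by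
  have : y * x * y⁻¹ = ⁅y, x⁆ * x := by rw [commutatorElement_def]; group
  rw [this]
  exact mul_mem (F.anti (Nat.le_add_left a b) (F.comm b a y x hy hx)) hx

/-- The derived filtration along a pair of homomorphisms. -/
def Filt.der {Ω Ω' : Type*} [Group Ω] [Group Ω'] (F : Filt Ω) (u v : Ω' →* Ω) : Filt Ω' where
  X a :=
    { carrier := {f | u f ∈ F.X a ∧ (u f)⁻¹ * v f ∈ F.X (a + 1)}
      one_mem' := by simp
      mul_mem' := by
        rintro f g ⟨hf, hf'⟩ ⟨hg, hg'⟩
        refine ⟨by rw [map_mul]; exact mul_mem hf hg, ?_⟩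
        have : (u (f * g))⁻¹ * v (f * g) =
            ((u g)⁻¹ * ((u f)⁻¹ * v f) * (u g)⁻¹⁻¹) * ((u g)⁻¹ * v g) := by
          rw [map_mul, map_mul]; group
        rw [this]
        exact mul_mem (F.conj hf' (inv_mem hg)) hg'
      inv_mem' := by
        rintro f ⟨hf, hf'⟩
        refine ⟨by rw [map_inv]; exact inv_mem hf, ?_⟩
        have : (u f⁻¹)⁻¹ * v f⁻¹ = u f * ((u f)⁻¹ * v f)⁻¹ * (u f)⁻¹ := by
          rw [map_inv, map_inv]; group
        rw [this]
        exact F.conj (inv_mem hf') hf }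
  anti := by
    intro a b hab f hf
    exact ⟨F.anti hab hf.1, F.anti (Nat.succ_le_succ hab) hf.2⟩
  comm := by
    rintro a b f g ⟨hf, hf'⟩ ⟨hg, hg'⟩
    refine ⟨by rw [map_commutatorElement]; exact F.comm _ _ _ _ hf hg, ?_⟩
    rw [map_commutatorElement, map_commutatorElement]
    obtain ⟨x, hx⟩ : ∃ x, x = u f := ⟨_, rfl⟩
    obtain ⟨y, hy⟩ : ∃ y, y = u g := ⟨_, rfl⟩
    obtain ⟨s, hs⟩ : ∃ s, s = (u f)⁻¹ * v f := ⟨_, rfl⟩
    obtain ⟨t, ht⟩ : ∃ t, t = (u g)⁻¹ * v g := ⟨_, rfl⟩
    have e1 : v f = x * s := by rw [hx, hs]; group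
    have e2 : v g = y * t := by rw [hy, ht]; group
    rw [← hs] at hf'
    rw [← ht] at hg'
    rw [← hx] at hf
    rw [← hy] at hg
    rw [e1, e2, ← hx, ← hy]
    have hyt : y * t ∈ F.X b := mul_mem hg (F.anti (Nat.le_succ b) hg')
    have h1 : ⁅s, y * t⁆ ∈ F.X (a + b + 1) := by
      have := F.comm _ _ _ _ hf' hyt
      rwa [show a + 1 + b = a + b + 1 by ring] at this
    have h2 : ⁅x, t⁆ ∈ F.X (a + b + 1) := F.comm a (b + 1) _ _ hf hg'
    have h3 : ⁅x, y⁆ ∈ F.X (a + b) := F.comm _ _ _ _ hf hg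
    have e3 : ⁅x, y⁆⁻¹ * ⁅x * s, y * t⁆ =
        (⁅x, y⁆⁻¹ * (x * ⁅s, y * t⁆ * x⁻¹) * ⁅x, y⁆⁻¹⁻¹) * (y * ⁅x, t⁆ * y⁻¹) := by
      simp only [commutatorElement_def]; group
    rw [e3]
    exact mul_mem (F.conj (F.conj h1 hf) (inv_mem h3)) (F.conj h2 hg)

section
variable (B : Type*) [Group B]

/-- The lower central series, indexed from one. -/
def γ (l : ℕ) : Subgroup B := (⊤ : Subgroup B).lowerCentralSeries (l - 1)

instance (l : ℕ) : (γ B l).Normal := by unfold γ; infer_instance

variable {B}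

lemma γ_succ {l : ℕ} (hl : 1 ≤ l) : γ B (l + 1) = ⁅γ B l, ⊤⁆ := by
  obtain ⟨l, rfl⟩ := Nat.exists_eq_add_of_le' hl
  rfl

lemma γ_anti : Antitone (γ B) := fun _ _ h =>
  Subgroup.lowerCentralSeries_antitone _ (Nat.sub_le_sub_right h 1)

lemma γ_one : γ B 1 = ⊤ := rfl

lemma γ_zero : γ B 0 = ⊤ := rfl

lemma three_subgroups (H₁ H₂ H₃ N : Subgroup B) [N.Normal] (h1 : ⁅⁅H₂, H₃⁆, H₁⁆ ≤ N)
    (h2 : ⁅⁅H₃, H₁⁆, H₂⁆ ≤ N) : ⁅⁅H₁, H₂⁆, H₃⁆ ≤ N := by
  rw [← QuotientGroup.ker_mk' N, ← Subgroup.map_eq_bot_iff] at h1 h2 ⊢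
  simp only [Subgroup.map_commutator] at h1 h2 ⊢
  exact Subgroup.commutator_commutator_eq_bot_of_rotate h1 h2

lemma γ_comm_le (j : ℕ) : ∀ i, ⁅γ B (i + 1), γ B (j + 1)⁆ ≤ γ B (i + j + 2) := by
  induction j with
  | zero => intro i; exact le_of_eq (γ_succ (Nat.le_add_left 1 i)).symm
  | succ j ih =>
    intro i
    rw [Subgroup.commutator_comm, γ_succ (Nat.le_add_left 1 j)]
    apply three_subgroups
    · rw [Subgroup.commutator_comm ⊤, ← γ_succ (Nat.le_add_left 1 i)]
      have := ih (i + 1)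
      rwa [show i + 1 + j + 2 = i + (j + 1) + 2 by ring] at this
    · rw [show i + (j + 1) + 2 = (i + j + 2) + 1 by ring, γ_succ (l := i + j + 2) (by omega)]
      exact Subgroup.commutator_mono (ih i) le_rfl

lemma γ_comm (a b : ℕ) (x y : B) (hx : x ∈ γ B a) (hy : y ∈ γ B b) : ⁅x, y⁆ ∈ γ B (a + b) := by
  rcases a with _ | a
  · rw [zero_add]
    exact Subgroup.commutator_le_right ⊤ _
      (Subgroup.commutator_mem_commutator (Subgroup.mem_top x) hy)
  rcases b with _ | b
  · exact Subgroup.commutator_le_left _ ⊤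
      (Subgroup.commutator_mem_commutator hx (Subgroup.mem_top y))
  have := γ_comm_le b a (Subgroup.commutator_mem_commutator hx hy)
  rwa [show a + b + 2 = a + 1 + (b + 1) by ring] at this

end

section
variable {B : Type*} [Group B] {V : Type*} [DecidableEq V]

/-- Precomposition with a map of cubes. -/
def pre {α β : Type*} (B : Type*) [Group B] (σ : α → β) : (β → B) →* (α → B) where
  toFun f := fun e => f (σ e)
  map_one' := rfl
  map_mul' _ _ := rfl

@[simp] lemma pre_apply {α β : Type*} (σ : α → β) (f : β → B) (e : α) : pre B σ f e = f (σ e) := rfl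

/-- Filtration by iterated differences along a list of variables. -/
def Fil (B : Type*) [Group B] : List V → Filt (Finset V → B)
  | [] => { X := fun a => Subgroup.pi Set.univ fun _ => γ B a
            anti := fun _ _ h _ hf e he => γ_anti h (hf e he)
            comm := fun a b _ _ hx hy e he => γ_comm a b _ _ (hx e he) (hy e he) }
  | s :: ss => (Fil B ss).der (pre B fun e => e.erase s) (pre B fun e => insert s e)

lemma mono_mem_Fil (ss : List V) (hss : ss.Nodup) : ∀ (a : ℕ) (T : Finset V) (w : B),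
    w ∈ γ B (a + (T ∩ ss.toFinset).card) → mono T w ∈ (Fil B ss).X a := by
  induction ss with
  | nil =>
    intro a T w hw e _
    simp only [List.toFinset_nil, inter_empty, card_empty, add_zero] at hw
    unfold mono
    split_ifs
    · exact hw
    · exact (γ B a).one_mem
  | cons s ss ih =>
    intro a T w hw
    have hs : s ∉ ss.toFinset := by simpa using (List.nodup_cons.1 hss).1
    have ih' := ih (List.nodup_cons.1 hss).2
    rw [List.toFinset_cons] at hw
    by_cases hT : s ∈ T
    · have e0 : pre B (fun e : Finset V => e.erase s) (mono T w) = 1 := by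
        funext e
        simp only [pre_apply, mono, Pi.one_apply]
        exact if_neg fun h => notMem_erase s e (h hT)
      have e1 : pre B (fun e : Finset V => insert s e) (mono T w) = mono (T.erase s) w := by
        funext e
        simp only [pre_apply, mono, subset_insert_iff]
      refine ⟨by rw [e0]; exact one_mem _, ?_⟩
      rw [e0, e1, inv_one, one_mul]
      apply ih'
      rw [inter_insert_of_mem hT, card_insert_of_notMem (fun h => hs (mem_inter.1 h).2)] at hw
      rw [erase_inter, erase_eq_of_notMem (fun h => hs (mem_inter.1 h).2)]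
      rwa [show a + 1 + (T ∩ ss.toFinset).card = a + ((T ∩ ss.toFinset).card + 1) by ring]
    · have e0 : pre B (fun e : Finset V => e.erase s) (mono T w) = mono T w := by
        funext e
        simp only [pre_apply, mono, subset_erase, hT, not_false_eq_true, and_true]
      have e1 : pre B (fun e : Finset V => insert s e) (mono T w) = mono T w := by
        funext e
        simp only [pre_apply, mono, subset_insert_iff, erase_eq_of_notMem hT]
      refine ⟨?_, by rw [e0, e1, inv_mul_cancel]; exact one_mem _⟩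
      rw [e0]
      apply ih'
      rwa [inter_insert_of_notMem hT] at hw

lemma corner (N : Subgroup B) (ss : List V) (hss : ss.Nodup) :
    ∀ (a : ℕ) (f : Finset V → B), f ∈ (Fil B ss).X a → γ B (a + ss.length) ≤ N →
      (∀ e ⊆ ss.toFinset, e ≠ ss.toFinset → f e ∈ N) → f ss.toFinset ∈ N := by
  induction ss with
  | nil => intro a f hf hN _; exact hN (hf _ (Set.mem_univ _))
  | cons s ss ih =>
    intro a f hf hN h
    have hs : s ∉ ss.toFinset := by simpa using (List.nodup_cons.1 hss).1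
    rw [List.toFinset_cons] at h ⊢
    have h0 : ∀ e ⊆ ss.toFinset, f (e.erase s) ∈ N := by
      intro e he
      refine h _ ((erase_subset _ _).trans (he.trans (subset_insert _ _))) fun h' => ?_
      exact notMem_erase s e (h' ▸ mem_insert_self _ _)
    have h1 := ih (List.nodup_cons.1 hss).2 (a + 1) _ hf.2
      (by rwa [List.length_cons, show a + (ss.length + 1) = a + 1 + ss.length by ring] at hN) ?_
    · exact (N.mul_mem_cancel_left (inv_mem (h0 _ Subset.rfl))).1 h1
    · intro e he hne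
      refine mul_mem (inv_mem (h0 e he)) (h _ (insert_subset_insert _ he) fun h' => hne ?_)
      have h'' : insert s e = insert s ss.toFinset := h'
      rw [← erase_insert (fun h'' => hs (he h'')), h'', erase_insert hs]

variable {J : Type*} {C : J → Type*} [∀ j, Group (C j)] (π : B →* ∀ j, C j)

/-- Typed polynomial maps without constant term. -/
def Pol (ty : V → J) : Subgroup (Finset V → B) :=
  Subgroup.closure {f | ∃ (S : Finset V) (w : B), S.Nonempty ∧ w ∈ γ B S.card ∧
    (∀ s ∈ S, ∀ j, j ≠ ty s → π w j = 1) ∧ f = mono S w}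

variable {π}

lemma mono_mem_Pol {ty : V → J} {S : Finset V} {w : B} (h1 : S.Nonempty) (h2 : w ∈ γ B S.card)
    (h3 : ∀ s ∈ S, ∀ j, j ≠ ty s → π w j = 1) : mono S w ∈ Pol π ty :=
  Subgroup.subset_closure ⟨S, w, h1, h2, h3, rfl⟩

lemma Pol_type {ty : V → J} {f : Finset V → B} (hf : f ∈ Pol π ty) (e : Finset V) (j : J)
    (h : ∀ s ∈ e, j ≠ ty s) : π (f e) j = 1 := by
  induction hf using Subgroup.closure_induction with
  | mem f hf =>
    obtain ⟨S, w, ⟨s, hs⟩, -, h3, rfl⟩ := hf
    unfold mono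
    split_ifs with h'
    · exact h3 s hs j (h s (h' hs))
    · simp
  | one => simp
  | mul f g _ _ hf hg => simp [hf, hg]
  | inv f _ hf => simp [hf]

lemma Pol_empty {ty : V → J} {f : Finset V → B} (hf : f ∈ Pol π ty) : f ∅ = 1 := by
  induction hf using Subgroup.closure_induction with
  | mem f hf =>
    obtain ⟨S, w, hS, -, -, rfl⟩ := hf
    exact if_neg fun h => hS.ne_empty (subset_empty.1 h)
  | one => rfl
  | mul f g _ _ hf hg => simp [hf, hg]
  | inv f _ hf => simp [hf]

lemma Pol_id [DecidableEq J] [Fintype J] {f : Finset J → B} (hf : f ∈ Pol π id) (e : Finset J)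
    (j : J) (h : j ∈ e) : π (f e) j = π (f univ) j := by
  induction hf using Subgroup.closure_induction with
  | mem f hf =>
    obtain ⟨S, w, -, -, h3, rfl⟩ := hf
    unfold mono
    rw [if_pos (subset_univ S)]
    split_ifs with h'
    · rfl
    · obtain ⟨s, hs, hs'⟩ := not_subset.1 h'
      rw [h3 s hs j (by rintro rfl; exact hs' h)]
      simp
  | one => rfl
  | mul f g _ _ hf hg => simp [hf, hg]
  | inv f _ hf => simp [hf]

lemma Pol_le_QMon {ty : V → J} {c : ℕ} (hc : γ B (c + 1) = ⊥) : Pol π ty ≤ QMon V B c := by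
  rw [Pol, Subgroup.closure_le]
  rintro f ⟨S, w, -, h2, -, rfl⟩
  by_cases h : S.card ≤ c
  · exact Subgroup.subset_closure ⟨S, w, h, rfl⟩
  · have : w = 1 := by
      have := γ_anti (show c + 1 ≤ S.card by omega) h2
      rwa [hc, Subgroup.mem_bot] at this
    have e : mono S w = 1 := by funext e; simp [mono, this]
    rw [e]; exact one_mem _

lemma Pol_det {ty : V → J} {f : Finset V → B} (hf : f ∈ Pol π ty) (l : ℕ)
    (h : ∀ e : Finset V, e.card ≤ l → f e ∈ γ B (l + 1)) (e : Finset V) : f e ∈ γ B (l + 1) := by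
  induction e using Finset.strongInduction with
  | H e ih =>
    by_cases he : e.card ≤ l
    · exact h e he
    have hF : f ∈ (Fil B e.toList).X 0 := by
      refine (Subgroup.closure_le _).2 ?_ hf
      rintro f ⟨S, w, -, h2, -, rfl⟩
      refine mono_mem_Fil _ (nodup_toList e) 0 S w (γ_anti ?_ h2)
      rw [zero_add]
      exact card_le_card inter_subset_left
    have := corner (γ B (l + 1)) e.toList (nodup_toList e) 0 f hF
      (γ_anti (by rw [length_toList]; omega))
    rw [toList_toFinset] at this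
    exact this fun e' he' hne => ih e' (ssubset_of_subset_of_ne he' hne)

lemma Pol_interp {ty : V → J} (k : ℕ) (hπ : ∀ w ∈ γ B k, π w = 1) (η : Finset V → B)
    (hη : ∀ e, η e ∈ γ B k) (𝓢 : Finset (Finset V)) (h𝓢 : ∀ S ∈ 𝓢, S.Nonempty ∧ S.card ≤ k) :
    ∃ g ∈ Pol π ty, (∀ e, g e ∈ γ B k) ∧ ∀ S ∈ 𝓢, g S = η S := by
  induction 𝓢 using Finset.induction_on_max_value (card : Finset V → ℕ) with
  | empty => exact ⟨1, one_mem _, fun _ => one_mem _, by simp⟩
  | insert S 𝓢 hS hmax ih =>
    obtain ⟨g, hg, hg1, hg2⟩ := ih fun T hT => h𝓢 T (mem_insert_of_mem hT)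
    have hw : (g S)⁻¹ * η S ∈ γ B k := mul_mem (inv_mem (hg1 S)) (hη S)
    obtain ⟨h1, h2⟩ := h𝓢 S (mem_insert_self _ _)
    refine ⟨g * mono S ((g S)⁻¹ * η S), mul_mem hg (mono_mem_Pol h1 (γ_anti h2 hw) ?_), ?_, ?_⟩
    · intro s _ j _; rw [hπ _ hw]; rfl
    · intro e
      refine mul_mem (hg1 e) ?_
      unfold mono
      split_ifs
      · exact hw
      · exact one_mem _
    · intro T hT
      rcases mem_insert.1 hT with rfl | hT
      · simp [mono]
      · have : ¬ S ⊆ T := fun h => hS (eq_of_subset_of_card_le h (hmax T hT) ▸ hT)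
        simp [mono, this, hg2 T hT]

lemma Pol_collapse [DecidableEq J] {ty : V → J} (e₀ : Finset V) {f : Finset V → B}
    (hf : f ∈ Pol π ty) :
    pre B (fun e' : Finset J => e₀.filter fun s => ty s ∈ e') f ∈ Pol π (id : J → J) := by
  refine (Subgroup.closure_le ((Pol π (id : J → J)).comap _)).2 ?_ hf
  rintro f ⟨S, w, h1, h2, h3, rfl⟩
  change pre B _ (mono S w) ∈ Pol π (id : J → J)
  by_cases h : S ⊆ e₀
  · have e : pre B (fun e' : Finset J => e₀.filter fun s => ty s ∈ e') (mono S w) =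
        mono (S.image ty) w := by
      funext e'
      simp only [pre_apply, mono, image_subset_iff]
      refine if_congr ⟨fun h' s hs => (mem_filter.1 (h' hs)).2,
        fun h' s hs => mem_filter.2 ⟨h hs, h' s hs⟩⟩ rfl rfl
    rw [e]
    refine mono_mem_Pol (h1.image _) (γ_anti card_image_le h2) ?_
    intro j hj
    obtain ⟨s, hs, rfl⟩ := mem_image.1 hj
    exact h3 s hs
  · have e : pre B (fun e' : Finset J => e₀.filter fun s => ty s ∈ e') (mono S w) = 1 := by
      funext e'
      exact if_neg fun h' => h (h'.trans (filter_subset _ _))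
    rw [e]; exact one_mem _

lemma Pol_select [DecidableEq J] [Fintype J] {ty : V → J} (σ : J → V) (hσ : ∀ j, ty (σ j) = j)
    {f : Finset J → B} (hf : f ∈ Pol π (id : J → J)) :
    pre B (fun e : Finset V => univ.filter fun j => σ j ∈ e) f ∈ Pol π ty := by
  refine (Subgroup.closure_le ((Pol π ty).comap _)).2 ?_ hf
  rintro f ⟨S, w, h1, h2, h3, rfl⟩
  change pre B _ (mono S w) ∈ Pol π ty
  have e : pre B (fun e : Finset V => univ.filter fun j => σ j ∈ e) (mono S w) =
      mono (S.image σ) w := by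
    funext e'
    simp only [pre_apply, mono, image_subset_iff]
    refine if_congr ⟨fun h' s hs => (mem_filter.1 (h' hs)).2,
      fun h' s hs => mem_filter.2 ⟨mem_univ _, h' s hs⟩⟩ rfl rfl
  rw [e]
  refine mono_mem_Pol (h1.image _) ?_ ?_
  · rwa [card_image_of_injective _ (Function.LeftInverse.injective hσ)]
  · intro s hs
    obtain ⟨j, hj, rfl⟩ := mem_image.1 hs
    rw [hσ]
    exact h3 j hj

end

end Pool.Agent.Lib.MP_6fc7a0_al
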