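import Mathlib

/-! Uniform probability on finite types: union bounds and a conditional product bound. -/

namespace Pool.Agent.Lib.MP_6fc7a0_al

open Finset

open Classical in
/-- Proportion of points of a finite type satisfying `E`. -/
noncomputable def pr {Ω : Type*} [Fintype Ω] (E : Ω → Prop) : ℝ :=
  ((univ.filter E).card : ℝ) / Fintype.card Ω

section
variable {Ω : Type*} [Fintype Ω]

lemma pr_eq (E : Ω → Prop) [DecidablePred E] :
    pr E = ((univ.filter E).card : ℝ) / Fintype.card Ω := by
  unfold pr
  rw [Finset.filter_congr_decidable]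

lemma pr_nonneg (E : Ω → Prop) : 0 ≤ pr E := by unfold pr; positivity

lemma pr_mono {E F : Ω → Prop} (h : ∀ ω, E ω → F ω) : pr E ≤ pr F := by
  classical
  rw [pr_eq, pr_eq]
  have : univ.filter E ⊆ univ.filter F := by
    intro ω hω
    simp only [mem_filter, mem_univ, true_and] at hω ⊢
    exact h ω hω
  have h2 : ((univ.filter E).card : ℝ) ≤ (univ.filter F).card := by exact_mod_cast card_le_card this
  exact div_le_div_of_nonneg_right h2 (by positivity)

lemma pr_le_one (E : Ω → Prop) : pr E ≤ 1 := by
  classical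
  unfold pr
  apply div_le_one_of_le₀ _ (by positivity)
  exact_mod_cast card_filter_le _ _

lemma pr_false {E : Ω → Prop} (h : ∀ ω, ¬ E ω) : pr E = 0 := by
  classical
  unfold pr
  rw [filter_false_of_mem (fun ω _ => h ω)]
  simp

lemma pr_or (E F : Ω → Prop) : pr (fun ω => E ω ∨ F ω) ≤ pr E + pr F := by
  classical
  rw [pr_eq, pr_eq, pr_eq, ← add_div]
  refine div_le_div_of_nonneg_right ?_ (by positivity)
  have : (univ.filter fun ω => E ω ∨ F ω) ⊆ univ.filter E ∪ univ.filter F := by
    intro ω hω
    simp only [mem_filter, mem_univ, true_and, mem_union] at hω ⊢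
    exact hω
  have h2 := (card_le_card this).trans (card_union_le _ _)
  exact_mod_cast h2

lemma pr_exists {α : Type*} (s : Finset α) (E : α → Ω → Prop) :
    pr (fun ω => ∃ a ∈ s, E a ω) ≤ ∑ a ∈ s, pr (E a) := by
  classical
  induction s using Finset.induction_on with
  | empty => rw [pr_false (by simp)]; simp
  | insert a s ha ih =>
    rw [sum_insert ha]
    refine le_trans (pr_mono (F := fun ω => E a ω ∨ ∃ b ∈ s, E b ω) ?_)
      ((pr_or _ _).trans (by linarith))
    rintro ω ⟨b, hb, h⟩
    rcases mem_insert.1 hb with rfl | hb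
    · exact Or.inl h
    · exact Or.inr ⟨b, hb, h⟩

lemma pr_exists_le {α : Type*} (s : Finset α) (E : α → Ω → Prop) (θ : ℝ)
    (h : ∀ a ∈ s, pr (E a) ≤ θ) : pr (fun ω => ∃ a ∈ s, E a ω) ≤ s.card * θ := by
  refine (pr_exists s E).trans ?_
  have := Finset.sum_le_card_nsmul s _ θ h
  simpa [nsmul_eq_mul] using this

lemma exists_not_of_pr_lt_one [Nonempty Ω] {E : Ω → Prop} (h : pr E < 1) : ∃ ω, ¬ E ω := by
  classical
  by_contra hc
  push Not at hc
  unfold pr at h
  rw [filter_true_of_mem (fun ω _ => hc ω), card_univ, div_self (by positivity)] at h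
  exact lt_irrefl _ h

lemma pr_equiv {Ω' : Type*} [Fintype Ω'] (e : Ω ≃ Ω') (E : Ω' → Prop) :
    pr (fun ω => E (e ω)) = pr E := by
  classical
  unfold pr
  rw [Fintype.card_congr e]
  congr 2
  apply card_bij (fun ω _ => e ω)
  · intro ω hω; simpa using hω
  · intro a _ b _ h; exact e.injective h
  · intro b hb; exact ⟨e.symm b, by simpa using hb, by simp⟩

lemma pr_le_of_card {E : Ω → Prop} {θ : ℝ} (s : Finset Ω) (hs : ∀ ω, E ω → ω ∈ s)
    (h : (s.card : ℝ) ≤ θ * Fintype.card Ω) [Nonempty Ω] : pr E ≤ θ := by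
  classical
  unfold pr
  rw [div_le_iff₀ (by positivity)]
  refine le_trans ?_ h
  exact_mod_cast card_le_card (fun ω hω => hs ω (by simpa using hω))

lemma pr_not (E : Ω → Prop) [Nonempty Ω] : pr (fun ω => ¬ E ω) = 1 - pr E := by
  classical
  rw [pr_eq, pr_eq]
  have h := card_filter_add_card_filter_not (s := (univ : Finset Ω)) E
  rw [card_univ] at h
  have h0 : (0 : ℝ) < Fintype.card Ω := by positivity
  have h1 : ((univ.filter E).card : ℝ) + (univ.filter fun ω => ¬ E ω).card = Fintype.card Ω := by
    exact_mod_cast h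
  rw [eq_sub_iff_add_eq, ← add_div, div_eq_one_iff_eq h0.ne']
  rw [← h1, add_comm]

end

section
variable {α β : Type*} [Fintype α] [DecidableEq α] [Fintype β] [Nonempty β]

lemma pr_step (s : α) (E : (α → β) → Prop) (Q : (α → β) → β → Prop) (θ : ℝ)
    (hE : ∀ ω b, E (Function.update ω s b) ↔ E ω)
    (hQ : ∀ ω b b', Q (Function.update ω s b') b ↔ Q ω b)
    (h : ∀ ω, pr (Q ω) ≤ θ) :
    pr (fun ω => E ω ∧ Q ω (ω s)) ≤ θ * pr E := by
  classical
  have hβ : (0 : ℝ) < Fintype.card β := by positivity
  have hΩ : (0 : ℝ) < Fintype.card (α → β) := by positivity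
  set A : Finset ((α → β) × β) := univ.filter fun x => E x.1 ∧ Q x.1 x.2 with hA
  set A' : Finset ((α → β) × β) := univ.filter fun x => E x.1 ∧ Q x.1 (x.1 s) with hA'
  have h1 : A'.card = A.card := by
    refine card_bij' (fun x _ => (Function.update x.1 s x.2, x.1 s))
      (fun x _ => (Function.update x.1 s x.2, x.1 s)) ?_ ?_ ?_ ?_
    · intro x hx
      simp only [hA, hA', mem_filter, mem_univ, true_and] at hx ⊢
      rw [hE, hQ]; exact hx
    · intro x hx
      simp only [hA, hA', mem_filter, mem_univ, true_and] at hx ⊢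
      rw [hE, hQ]; simpa using hx
    · intro x _; simp
    · intro x _; simp
  have h2 : A'.card = (univ.filter fun ω : α → β => E ω ∧ Q ω (ω s)).card * Fintype.card β := by
    rw [← card_univ (α := β), ← card_product]
    congr 1
    ext x
    simp [hA']
  have h3 : (A.card : ℝ) ≤ (univ.filter E).card * (θ * Fintype.card β) := by
    have : A.card = ∑ ω ∈ univ.filter E, (univ.filter (Q ω)).card := by
      rw [← card_sigma]
      refine card_bij' (fun x _ => (⟨x.1, x.2⟩ : Σ _ : α → β, β)) (fun x _ => (x.1, x.2))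
        ?_ ?_ ?_ ?_
      · intro x hx; simpa [hA] using hx
      · intro x hx; simpa [hA] using hx
      · intro x _; rfl
      · intro x _; rfl
    rw [this]
    push_cast
    have h4 : ∀ ω ∈ univ.filter E, ((univ.filter (Q ω)).card : ℝ) ≤ θ * Fintype.card β := by
      intro ω _
      have := h ω
      rwa [pr_eq, div_le_iff₀ hβ] at this
    have := Finset.sum_le_card_nsmul _ _ _ h4
    simpa [nsmul_eq_mul] using this
  rw [← h1, h2] at h3
  push_cast at h3
  rw [pr_eq, pr_eq, ← mul_div_assoc, div_le_div_iff_of_pos_right hΩ]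
  have h5 : ((univ.filter fun ω : α → β => E ω ∧ Q ω (ω s)).card : ℝ) ≤
      θ * (univ.filter E).card := by
    apply le_of_mul_le_mul_right _ hβ
    linarith
  exact h5

lemma pr_forall (U : Finset α) (Q : α → (α → β) → β → Prop) (θ : ℝ) (hθ : 0 ≤ θ)
    (hQ : ∀ s ∈ U, ∀ s' ∈ U, ∀ ω b b', Q s (Function.update ω s' b') b ↔ Q s ω b)
    (h : ∀ s ∈ U, ∀ ω, pr (Q s ω) ≤ θ) :
    pr (fun ω : α → β => ∀ s ∈ U, Q s ω (ω s)) ≤ θ ^ U.card := by
  induction U using Finset.induction_on with
  | empty => simpa using pr_le_one _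
  | insert a U ha ih =>
    rw [card_insert_of_notMem ha, pow_succ']
    have ih' := ih (fun s hs s' hs' => hQ s (mem_insert_of_mem hs) s' (mem_insert_of_mem hs'))
      (fun s hs => h s (mem_insert_of_mem hs))
    have := pr_step a (fun ω : α → β => ∀ s ∈ U, Q s ω (ω s)) (Q a) θ ?_
      (hQ a (mem_insert_self _ _) a (mem_insert_self _ _)) (h a (mem_insert_self _ _))
    · refine le_trans (pr_mono ?_) (this.trans (mul_le_mul_of_nonneg_left ih' hθ))
      intro ω hω
      exact ⟨fun s hs => hω s (mem_insert_of_mem hs), hω a (mem_insert_self _ _)⟩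
    · intro ω b
      refine forall₂_congr fun s hs => ?_
      have hne : s ≠ a := fun h => ha (h ▸ hs)
      rw [hQ s (mem_insert_of_mem hs) a (mem_insert_self _ _), Function.update_of_ne hne]

end

/-- Number of subsets of size at most `r`. -/
lemma card_small_sets {α : Type*} [Fintype α] [DecidableEq α] (r : ℕ) :
    ((univ : Finset (Finset α)).filter fun S => S.card ≤ r).card ≤ (Fintype.card α + 1) ^ r := by
  induction r with
  | zero =>
    rw [pow_zero]
    apply card_le_one.2
    intro a ha b hb
    simp only [mem_filter, mem_univ, true_and, nonpos_iff_eq_zero, card_eq_zero] at ha hb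
    rw [ha, hb]
  | succ r ih =>
    set T := (univ : Finset (Finset α)).filter fun S => S.card ≤ r
    have : ((univ : Finset (Finset α)).filter fun S => S.card ≤ r + 1) ⊆
        ((univ : Finset (Option α)) ×ˢ T).image
          (fun x => match x.1 with | none => x.2 | some a => insert a x.2) := by
      intro S hS
      simp only [mem_filter, mem_univ, true_and] at hS
      rcases S.eq_empty_or_nonempty with rfl | ⟨a, ha⟩
      · exact mem_image.2 ⟨(none, ∅), by simp [T], rfl⟩
      · refine mem_image.2 ⟨(some a, S.erase a), ?_, by simp [ha]⟩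
        simp only [T, mem_product, mem_univ, mem_filter, true_and]
        rw [card_erase_of_mem ha]; omega
    refine (card_le_card this).trans (card_image_le.trans ?_)
    rw [card_product, card_univ, Fintype.card_option, pow_succ']
    exact Nat.mul_le_mul_left _ ih

end Pool.Agent.Lib.MP_6fc7a0_al
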