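import Pool.Agent.Lib.MP_6fc7a0_al.Cube

/-! The four probability estimates for a random sample of points of the cube. -/

namespace Pool.Agent.Lib.MP_6fc7a0_al

open Finset

variable {V ι : Type} [Fintype V] [DecidableEq V] [Fintype ι] [DecidableEq ι]

lemma hit_bound (𝓧 : Finset (Finset (Finset V))) (δ : ℝ) (hδ : δ ≤ 1)
    (h : ∀ X ∈ 𝓧, δ ≤ pr fun e => e ∈ X) :
    pr (fun e : ι → Finset V => ∃ X ∈ 𝓧, ∀ i ∈ (univ : Finset ι), e i ∉ X) ≤
      𝓧.card * (1 - δ) ^ Fintype.card ι := by
  refine pr_exists_le _ _ _ fun X hX => ?_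
  have := pr_forall (univ : Finset ι) (fun _ (_ : ι → Finset V) b => b ∉ X) (1 - δ) (by linarith)
    (fun _ _ _ _ _ _ _ => Iff.rfl) (fun _ _ _ => by rw [pr_not]; linarith [h X hX])
  simpa using this

lemma pattern_bound (C : Finset V) (i₁ : ι) (I : Finset ι) (hI : i₁ ∉ I) :
    pr (fun ω : V → Finset ι => ∀ s ∈ C, ¬ (i₁ ∈ ω s ∧ ∀ i ∈ I, i ∉ ω s)) ≤
      (1 - (1 / 2 : ℝ) ^ (I.card + 1)) ^ C.card := by
  have h0 : (1 / 2 : ℝ) ^ (I.card + 1) ≤ pr fun b : Finset ι => i₁ ∈ b ∧ ∀ i ∈ I, i ∉ b := by
    have h1 : ((insert i₁ I)ᶜ.powerset).card ≤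
        (univ.filter fun b : Finset ι => i₁ ∈ b ∧ ∀ i ∈ I, i ∉ b).card := by
      refine card_le_card_of_injOn (fun U => insert i₁ U) ?_ ?_
      · intro U hU
        rw [coe_powerset] at hU
        simp only [coe_filter, mem_univ, true_and, Set.mem_setOf_eq, mem_insert_self]
        intro i hi hi'
        rcases mem_insert.1 hi' with rfl | h
        · exact hI hi
        · exact mem_compl.1 (hU h) (mem_insert_of_mem hi)
      · have h6 : ∀ U ∈ (insert i₁ I)ᶜ.powerset, (insert i₁ U).erase i₁ = U := by
          intro U hU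
          exact erase_insert fun h => mem_compl.1 (mem_powerset.1 hU h) (mem_insert_self _ _)
        intro U hU U' hU' h
        rw [← h6 U hU, ← h6 U' hU']
        exact congrArg (fun X : Finset ι => X.erase i₁) h
    rw [card_powerset, card_compl, card_insert_of_notMem hI] at h1
    rw [pr_eq, le_div_iff₀ (by positivity), Fintype.card_finset]
    have h7 : ((2 : ℝ) ^ (Fintype.card ι - (I.card + 1))) ≤
        (univ.filter fun b : Finset ι => i₁ ∈ b ∧ ∀ i ∈ I, i ∉ b).card := by exact_mod_cast h1
    refine le_trans (le_of_eq ?_) h7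
    have h8 : Fintype.card ι = (Fintype.card ι - (I.card + 1)) + (I.card + 1) := by
      have := card_le_univ (insert i₁ I)
      rw [card_insert_of_notMem hI] at this
      omega
    push_cast
    conv_lhs => rw [h8, pow_add (2 : ℝ), mul_left_comm, ← mul_pow]
    simp
  refine pr_forall C (fun _ (_ : V → Finset ι) b => ¬ (i₁ ∈ b ∧ ∀ i ∈ I, i ∉ b)) _ ?_
    (fun _ _ _ _ _ _ _ => Iff.rfl) (fun _ _ _ => by rw [pr_not]; linarith)
  have := pr_le_one fun b : Finset ι => i₁ ∈ b ∧ ∀ i ∈ I, i ∉ b
  linarith

/-- Integer combination of the monomials of degree `κ` in the variables `R`. -/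
def comb (R : Finset V) (κ : ℕ) (c : Finset V → ℤ) (e : Finset V) : ℤ :=
  ∑ T ∈ R.powersetCard κ, if T ⊆ e then c T else 0

lemma few_small (R : Finset V) (y : ℕ) (hR : R.card = 4 * y) :
    ((univ.filter fun Y : Finset V => (Y ∩ R).card < y).card : ℝ) ≤
      (81 / 128 : ℝ) ^ y * Fintype.card (Finset V) := by
  have h1 : ∏ s : V, (1 + (if s ∈ R then (1 / 2 : ℝ) else 1)) =
      ∑ Y : Finset V, (1 / 2 : ℝ) ^ (Y ∩ R).card := by
    rw [prod_one_add, powerset_univ]
    refine sum_congr rfl fun Y _ => ?_
    rw [prod_ite, prod_const, prod_const_one, mul_one, filter_mem_eq_inter]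
  have h2 : ∏ s : V, (1 + (if s ∈ R then (1 / 2 : ℝ) else 1)) =
      (3 / 4 : ℝ) ^ (4 * y) * 2 ^ Fintype.card V := by
    have : ∀ s : V, (1 + (if s ∈ R then (1 / 2 : ℝ) else 1)) =
        (if s ∈ R then (3 / 4 : ℝ) else 1) * 2 := by
      intro s; split_ifs <;> norm_num
    simp only [this]
    rw [prod_mul_distrib, prod_ite, prod_const, prod_const_one, mul_one, filter_mem_eq_inter,
      univ_inter, hR, prod_const, card_univ]
  have h3 : ((univ.filter fun Y : Finset V => (Y ∩ R).card < y).card : ℝ) * (1 / 2) ^ y ≤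
      ∑ Y : Finset V, (1 / 2 : ℝ) ^ (Y ∩ R).card := by
    calc ((univ.filter fun Y : Finset V => (Y ∩ R).card < y).card : ℝ) * (1 / 2) ^ y
        = ∑ Y ∈ univ.filter fun Y : Finset V => (Y ∩ R).card < y, (1 / 2 : ℝ) ^ y := by
          rw [sum_const, nsmul_eq_mul]
      _ ≤ ∑ Y ∈ univ.filter fun Y : Finset V => (Y ∩ R).card < y, (1 / 2 : ℝ) ^ (Y ∩ R).card := by
          refine sum_le_sum fun Y hY => ?_
          exact pow_le_pow_of_le_one (by norm_num) (by norm_num) (mem_filter.1 hY).2.le
      _ ≤ _ := sum_le_sum_of_subset_of_nonneg (filter_subset _ _) fun _ _ _ => by positivity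
  rw [← h1, h2] at h3
  rw [Fintype.card_finset]
  push_cast
  have h4 : (81 / 128 : ℝ) ^ y * (1 / 2) ^ y = (3 / 4 : ℝ) ^ (4 * y) := by
    rw [← mul_pow, pow_mul]; norm_num
  rw [← h4] at h3
  have h5 : (0 : ℝ) < (1 / 2) ^ y := by positivity
  apply le_of_mul_le_mul_right _ h5
  linarith

lemma indep_bound (p : ℕ) [Fact p.Prime] (R : Finset V) (y κ : ℕ) (hR : R.card = 4 * y)
    (i : ι) (P : Finset ι) (hi : i ∉ P) (hP : P.card < y.choose κ) :
    pr (fun e : ι → Finset V => ¬ ∃ c : Finset V → ℤ,
      (∀ i' ∈ P, (p : ℤ) ∣ comb R κ c (e i')) ∧ (p : ℤ) ∣ comb R κ c (e i) - 1) ≤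
      (81 / 128 : ℝ) ^ y := by
  classical
  let v : Finset V → (Finset V → ZMod p) :=
    fun e T => if T ∈ R.powersetCard κ ∧ T ⊆ e then 1 else 0
  let Q : (ι → Finset V) → Finset V → Prop :=
    fun ω b => v b ∈ Submodule.span (ZMod p) ((P.image fun i' => v (ω i') : Finset _) : Set _)
  have h1 := pr_forall {i} (fun _ => Q) ((81 / 128 : ℝ) ^ y) (by positivity) ?_ ?_
  · rw [card_singleton, pow_one] at h1
    refine le_trans (pr_mono fun e he => ?_) h1
    intro s hs
    rw [mem_singleton.1 hs]
    by_contra hc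
    apply he
    obtain ⟨f, hf, hf'⟩ := Submodule.exists_le_ker_of_notMem hc
    let g := (f (v (e i)))⁻¹ • f
    have hg : ∀ b, ((comb R κ (fun T => ((g (Pi.single T 1)).val : ℤ)) b : ℤ) : ZMod p) =
        g (v b) := by
      intro b
      have : v b = ∑ T ∈ R.powersetCard κ, if T ⊆ b then Pi.single T 1 else 0 := by
        funext T'
        rw [Finset.sum_apply]
        by_cases h : T' ∈ R.powersetCard κ
        · rw [sum_eq_single T']
          · by_cases h' : T' ⊆ b <;> simp [v, h', mem_powersetCard.1 h]
          · intro T _ hT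
            by_cases h' : T ⊆ b <;> simp [h', Pi.single_eq_of_ne hT.symm]
          · intro h'; exact absurd h h'
        · rw [sum_eq_zero]
          · simp only [v]; rw [if_neg (fun h' => h h'.1)]
          · intro T hT
            have : T' ≠ T := by rintro rfl; exact h hT
            by_cases h' : T ⊆ b <;> simp [h', Pi.single_eq_of_ne this]
      rw [this, map_sum, comb]
      push_cast
      refine sum_congr rfl fun T _ => ?_
      by_cases h' : T ⊆ b <;> simp [h']
    refine ⟨fun T => ((g (Pi.single T 1)).val : ℤ), fun i' hi' => ?_, ?_⟩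
    · rw [← ZMod.intCast_zmod_eq_zero_iff_dvd, hg]
      have : f (v (e i')) = 0 :=
        hf' (Submodule.subset_span (by simpa using ⟨i', hi', rfl⟩))
      simp [g, this]
    · rw [← ZMod.intCast_zmod_eq_zero_iff_dvd]
      push_cast
      rw [hg]
      simp [g, inv_mul_cancel₀ hf]
  · intro s _ s' hs' ω b b'
    rw [mem_singleton.1 hs']
    have : (P.image fun i' => v (Function.update ω i b' i')) = P.image fun i' => v (ω i') :=
      image_congr fun i' hi' => by
        have : i' ≠ i := by rintro rfl; exact hi hi'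
        simp [Function.update_of_ne this]
    simp only [Q, this]
  · intro s _ ω
    set W := Submodule.span (ZMod p)
      ((P.image fun i' => v (ω i') : Finset (Finset V → ZMod p)) : Set (Finset V → ZMod p)) with hW
    have hfin : Module.finrank (ZMod p) W < y.choose κ :=
      lt_of_le_of_lt ((finrank_span_finset_le_card _).trans card_image_le) hP
    set Z : Finset (Finset V) := univ.filter (Q ω) with hZ
    have hsh : Z.shatterer ⊆ univ.filter fun Y : Finset V => (Y ∩ R).card < y := by
      intro Y hY
      rw [mem_shatterer] at hY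
      simp only [mem_filter, mem_univ, true_and]
      by_contra hc
      obtain ⟨Y', hY', hcard⟩ := exists_subset_card_eq (not_lt.1 hc)
      have hsY' : Z.Shatters Y' := hY.mono_right (hY'.trans inter_subset_left)
      have hex : ∀ T : Y'.powersetCard κ, ∃ u ∈ Z, Y' ∩ u = T :=
        fun T => hsY' (mem_powersetCard.1 T.2).1
      choose u hu hu' using hex
      let w : Y'.powersetCard κ → W := fun T => ⟨v (u T), by simpa [hZ] using hu T⟩
      have hli : LinearIndependent (ZMod p) w := by
        refine LinearIndependent.of_pairwise_dual_eq_zero_one w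
          (fun T => (LinearMap.proj (T : Finset V)).comp W.subtype) ?_ ?_
        · intro T T' hne
          change v (u T') T = 0
          simp only [v]
          rw [if_neg]
          rintro ⟨_, h⟩
          apply hne
          have h2 := mem_powersetCard.1 T.2
          have h3 := mem_powersetCard.1 T'.2
          apply Subtype.ext
          apply eq_of_subset_of_card_le _ (by rw [h2.2, h3.2])
          rw [← hu' T']
          exact subset_inter h2.1 h
        · intro T
          change v (u T) T = 1
          simp only [v]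
          have h2 := mem_powersetCard.1 T.2
          rw [if_pos]
          refine ⟨mem_powersetCard.2 ⟨h2.1.trans (hY'.trans inter_subset_right), h2.2⟩, ?_⟩
          conv_lhs => rw [← hu' T]
          exact inter_subset_right
      have := hli.fintype_card_le_finrank
      rw [Fintype.card_coe, card_powersetCard, hcard] at this
      omega
    refine pr_le_of_card Z (fun b hb => by simpa [hZ] using hb) (le_trans ?_ (few_small R y hR))
    exact_mod_cast (card_le_card_shatterer Z).trans (card_le_card hsh)

/-- The vector of values of the monomial `T` on the sample, restricted to the index set `b`. -/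
def vec (e : ι → Finset V) (T : Finset V) (b : Finset ι) : ι → ℤ :=
  fun i => if T ⊆ e i ∧ i ∈ b then 1 else 0

lemma column_bound (p : ℕ) (R : Finset V) (κ : ℕ) (e : ι → Finset V) (P J₀ : Finset ι)
    (hJ : J₀ ⊆ P)
    (hind : ∀ i ∈ P, ∃ c : Finset V → ℤ,
      (∀ i' ∈ P.erase i, (p : ℤ) ∣ comb R κ c (e i')) ∧ (p : ℤ) ∣ comb R κ c (e i) - 1)
    (Λ : AddSubgroup (ι → ℤ)) (hΛ : ∀ i ∈ J₀, Pi.single i 1 ∉ Λ)
    (r : ℕ) (hr : ∀ n : ι → ℤ, (p : ℤ) ^ r • n ∈ Λ) (b₀ : Finset ι) :
    pr (fun b : Finset ι => ∀ T ∈ R.powersetCard κ, vec e T b - vec e T b₀ ∈ Λ) ≤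
      (1 / 2 : ℝ) ^ J₀.card := by
  classical
  set Y := univ.filter fun b : Finset ι => ∀ T ∈ R.powersetCard κ, vec e T b - vec e T b₀ ∈ Λ
    with hY
  have hinj : Y.card ≤ (J₀ᶜ.powerset).card := by
    refine card_le_card_of_injOn (fun b => b \ J₀) ?_ ?_
    · intro b _
      rw [coe_powerset]
      intro x hx
      simp only [coe_sdiff, Set.mem_diff, mem_coe] at hx
      simpa using hx.2
    · intro b hb b' hb' hbb
      simp only [hY, coe_filter, mem_univ, true_and, Set.mem_setOf_eq] at hb hb'
      let d : ι → ℤ := fun i => (if i ∈ b then 1 else 0) - (if i ∈ b' then 1 else 0)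
      have hd0 : ∀ i, i ∉ J₀ → d i = 0 := by
        intro i hi
        have : i ∈ b ↔ i ∈ b' := by
          have h := congrArg (fun X : Finset ι => i ∈ X) hbb
          simpa [hi] using h
        simp [d, this]
      have hrow : ∀ c : Finset V → ℤ, (fun i => comb R κ c (e i) * d i) ∈ Λ := by
        intro c
        have : (fun i => comb R κ c (e i) * d i) =
            ∑ T ∈ R.powersetCard κ, c T • ((vec e T b - vec e T b₀) - (vec e T b' - vec e T b₀)) := by
          funext i
          rw [Finset.sum_apply, comb, sum_mul]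
          refine sum_congr rfl fun T _ => ?_
          by_cases h : T ⊆ e i <;> simp [vec, d, h]
        rw [this]
        exact sum_mem fun T hT => zsmul_mem (sub_mem (hb T hT) (hb' T hT)) _
      have hone : ∀ μ : ι → ℤ, ∃ ν : ι → ℤ, (fun i => (μ i - p * ν i) * d i) ∈ Λ := by
        intro μ
        choose! c hc hc' using hind
        have hdv : ∀ i ∈ P, (p : ℤ) ∣ μ i - ∑ i₀ ∈ P, μ i₀ * comb R κ (c i₀) (e i) := by
          intro i hi
          rw [← add_sum_erase _ _ hi]
          have e1 : μ i - (μ i * comb R κ (c i) (e i) +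
              ∑ x ∈ P.erase i, μ x * comb R κ (c x) (e i)) =
              -(μ i * (comb R κ (c i) (e i) - 1)) -
                ∑ x ∈ P.erase i, μ x * comb R κ (c x) (e i) := by ring
          rw [e1]
          refine dvd_sub (dvd_neg.2 (Dvd.dvd.mul_left (hc' i hi) _))
            (dvd_sum fun x hx => Dvd.dvd.mul_left (hc x (mem_of_mem_erase hx) i ?_) _)
          exact mem_erase.2 ⟨(ne_of_mem_erase hx).symm, hi⟩
        choose! ν hν using hdv
        refine ⟨ν, ?_⟩
        have : (fun i => (μ i - p * ν i) * d i) =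
            ∑ i₀ ∈ P, μ i₀ • fun i => comb R κ (c i₀) (e i) * d i := by
          funext i
          rw [Finset.sum_apply]
          by_cases hi : i ∈ J₀
          · rw [← hν i (hJ hi), sub_sub_cancel, sum_mul]
            refine sum_congr rfl fun _ _ => ?_
            simp [mul_assoc]
          · simp [hd0 i hi]
        rw [this]
        exact sum_mem fun i₀ _ => zsmul_mem (hrow _) _
      have hall : ∀ (t : ℕ) (μ : ι → ℤ), ∃ ν : ι → ℤ,
          (fun i => (μ i - p ^ t * ν i) * d i) ∈ Λ := by
        intro t
        induction t with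
        | zero =>
          intro μ
          refine ⟨μ, ?_⟩
          have : (fun i => (μ i - p ^ 0 * μ i) * d i) = 0 := by funext i; simp
          rw [this]; exact zero_mem _
        | succ t ih =>
          intro μ
          obtain ⟨ν, hν⟩ := ih μ
          obtain ⟨ν', hν'⟩ := hone ν
          refine ⟨ν', ?_⟩
          have : (fun i => (μ i - p ^ (t + 1) * ν' i) * d i) =
              (fun i => (μ i - p ^ t * ν i) * d i) +
                (p : ℤ) ^ t • fun i => (ν i - p * ν' i) * d i := by
            funext i; simp only [Pi.add_apply, Pi.smul_apply, smul_eq_mul]; ring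
          rw [this]
          exact add_mem hν (zsmul_mem hν' _)
      have hd : ∀ i, d i = 0 := by
        intro i
        by_contra hne
        have hi : i ∈ J₀ := by by_contra h; exact hne (hd0 i h)
        obtain ⟨ν, hν⟩ := hall r (Pi.single i (d i))
        have hdd : d i * d i = 1 := by
          simp only [d] at hne ⊢
          split_ifs at hne ⊢ <;> simp_all
        apply hΛ i hi
        have : (Pi.single i 1 : ι → ℤ) =
            (fun x => ((Pi.single i (d i) : ι → ℤ) x - p ^ r * ν x) * d x) +
              (p : ℤ) ^ r • fun x => ν x * d x := by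
          funext x
          simp only [Pi.add_apply, Pi.smul_apply, smul_eq_mul]
          by_cases hx : x = i
          · subst hx; simp only [Pi.single_eq_same]; linear_combination -hdd
          · simp only [Pi.single_eq_of_ne hx]; ring
        rw [this]
        exact add_mem hν (hr _)
      ext i
      have := hd i
      simp only [d] at this
      split_ifs at this <;> simp_all
  rw [card_powerset, card_compl] at hinj
  refine pr_le_of_card Y (fun b hb => by simpa [hY] using hb) ?_
  have h7 : (Y.card : ℝ) ≤ 2 ^ (Fintype.card ι - J₀.card) := by exact_mod_cast hinj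
  refine h7.trans (le_of_eq ?_)
  have h8 : Fintype.card ι = (Fintype.card ι - J₀.card) + J₀.card :=
    (Nat.sub_add_cancel (card_le_univ J₀)).symm
  rw [Fintype.card_finset]
  push_cast
  conv_rhs => rw [h8, pow_add (2 : ℝ), mul_left_comm, ← mul_pow]
  simp

lemma weight_sum {Γ : Type} [Fintype Γ] [DecidableEq Γ] (g₀ : Γ) (x : ℝ) (hx : 0 ≤ x) :
    ∑ a : ι → Γ, x ^ (univ.filter fun i => a i ≠ g₀).card ≤
      (1 + Fintype.card Γ * x) ^ Fintype.card ι := by
  have h1 := prod_univ_sum (fun _ : ι => (univ : Finset Γ))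
    (fun _ g => if g ≠ g₀ then x else (1 : ℝ))
  rw [Fintype.piFinset_univ] at h1
  have h2 : ∀ a : ι → Γ, x ^ (univ.filter fun i => a i ≠ g₀).card =
      ∏ i, if a i ≠ g₀ then x else (1 : ℝ) := by
    intro a
    rw [prod_ite, prod_const, prod_const_one, mul_one]
  simp only [h2]
  rw [← h1, prod_const, card_univ]
  refine pow_le_pow_left₀ (sum_nonneg fun g _ => by split_ifs <;> positivity) ?_ _
  calc ∑ g : Γ, (if g ≠ g₀ then x else (1 : ℝ))
      ≤ ∑ g : Γ, ((if g = g₀ then (1 : ℝ) else 0) + x) := by
        refine sum_le_sum fun g _ => ?_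
        by_cases h : g = g₀ <;> simp [h, hx]
    _ = _ := by rw [sum_add_distrib]; simp

end Pool.Agent.Lib.MP_6fc7a0_al
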